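import Pool.Agent.H258R3.AmA

/-!
The concrete system.  Digits are pairs of a type (0, 1 or 2) and a place `0, …, K - 1` of a path,
`K = 512 (g + 1)`.
-/

set_option autoImplicit false

namespace Pool.Agent.H258R3.Am

def piN (K : ℕ) (ty : Fin 3) (s : Gen) (p : ℕ) : ℕ :=
  if s = 0 then (if p % 2 = 0 then p + 1 else p - 1)
  else if s = 1 then
    (if p % 2 = 1 then (if p + 1 = K then p else p + 1) else (if p = 0 then 0 else p - 1))
  else if ty = 0 then
    (if s = 2 then
      (if p % 2 = 1 then (if p % 512 = 511 then p else p + 1)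
        else (if p % 512 = 0 then p else p - 1))
    else if s = 3 then (if p % 512 = 400 then p + 1 else if p % 512 = 401 then p - 1 else p)
    else p)
  else p

def T (n : ℕ) : Option Gen :=
  if n = 250 then some 0 else if n = 371 then some 1 else if n = 375 then some 2
  else if n = 379 then some 3 else if n = 383 then some 4 else if n = 387 then some 5 else none

/-- the place of the gate with letter `s` -/
def ps (s : Gen) : ℕ :=
  if s = 0 then 250 else if s = 1 then 371 else if s = 2 then 375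
  else if s = 3 then 379 else if s = 4 then 383 else 387

/-- the letter emitted in a level of type 2 -/
def es (s : Gen) : Gen := if s = 5 then 0 else s

def secN (K : ℕ) (ty : Fin 3) (s : Gen) (p : ℕ) : Option Gen :=
  if s = 0 then none
  else if s = 1 then (if p = 0 then some 0 else if p + 1 = K then some 1 else none)
  else if ty = 0 then (if s = 4 then T (p % 512) else none)
  else if ty = 1 then (if p = ps s then some s else none)
  else (if p = ps (es s) then some (es s) else none)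

def sttB (n : ℕ) : ℕ :=
  if 140 ≤ n ∧ n ≤ 250 then (n - 139) / 2
  else if 250 < n ∧ n ≤ 360 then 55 - (n - 249) / 2
  else if n = 371 ∨ n = 372 then 56
  else if n = 375 ∨ n = 376 then 57
  else if n = 379 ∨ n = 380 then 58
  else if n = 383 ∨ n = 384 then 59
  else if n = 387 ∨ n = 388 then 60
  else 0

def sttN (K p : ℕ) : ℕ :=
  if p ≤ 110 then 55 - (p + 1) / 2
  else if p + 1 = K then 56
  else sttB (p % 512)

def Rel (a b : ℕ) : Prop :=
  (a = 0 ∧ b = 0) ∨ (a + 1 = b ∧ b ≤ 55) ∨ (b + 1 = a ∧ a ≤ 55) ∨ (a = 0 ∧ 56 ≤ b ∧ b ≤ 60) ∨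
    (b = 0 ∧ 56 ≤ a ∧ a ≤ 60)

instance (a b : ℕ) : Decidable (Rel a b) := by unfold Rel; infer_instance

lemma Rel.symm {a b : ℕ} (h : Rel a b) : Rel b a := by
  unfold Rel at *; omega

lemma sttB_y : ∀ n : Fin 511, n.val % 2 = 1 → sttB (n.val + 1) = sttB n.val := by
  decide +kernel

lemma sttB_x : ∀ n : Fin 511, n.val % 2 = 0 → Rel (sttB n.val) (sttB (n.val + 1)) := by
  decide +kernel

lemma sttB_le' : ∀ n : Fin 512, sttB n.val ≤ 60 := by
  decide +kernel

lemma stt_y (g p : ℕ) (h1 : p % 2 = 1) (h2 : p + 1 < 512 * (g + 1)) :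
    sttN (512 * (g + 1)) (p + 1) = sttN (512 * (g + 1)) p := by
  unfold sttN
  by_cases h3 : p ≤ 110
  · rw [if_pos h3, if_pos (by omega)]
    omega
  · rw [if_neg h3, if_neg (by omega), if_neg (by omega), if_neg (by omega)]
    by_cases h4 : p % 512 = 511
    · rw [h4, show (p + 1) % 512 = 0 by omega]
      rfl
    · rw [show (p + 1) % 512 = p % 512 + 1 by omega]
      exact sttB_y ⟨p % 512, by omega⟩ (by simp only; omega)

lemma stt_x (g p : ℕ) (h1 : p % 2 = 0) (h2 : p < 512 * (g + 1)) :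
    Rel (sttN (512 * (g + 1)) p) (sttN (512 * (g + 1)) (p + 1)) := by
  unfold sttN
  by_cases h3 : p ≤ 108
  · rw [if_pos (by omega), if_pos (by omega)]
    unfold Rel
    omega
  by_cases h4 : p ≤ 110
  · have h5 : p = 110 := by omega
    subst h5
    rw [if_pos (by omega), if_neg (by omega), if_neg (by omega)]
    decide
  · rw [if_neg h4, if_neg (by omega), if_neg (by omega)]
    by_cases h5 : p + 1 + 1 = 512 * (g + 1)
    · rw [if_pos h5, show p % 512 = 510 by omega]
      decide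
    · rw [if_neg h5, show (p + 1) % 512 = p % 512 + 1 by omega]
      exact sttB_x ⟨p % 512, by omega⟩ (by simp only; omega)

lemma stt_le (K p : ℕ) : sttN K p ≤ 60 := by
  unfold sttN
  split_ifs
  · omega
  · omega
  · exact sttB_le' ⟨p % 512, Nat.mod_lt _ (by norm_num)⟩

def lN (t : Bool) (n : ℕ) : Option Gen :=
  if t then (if n < 54 ∧ 1 ≤ n % 9 then some (Fin.ofNat 6 (n / 9)) else none)
  else (if n = 55 then some 0 else if 56 ≤ n then some (Fin.ofNat 6 (n - 55)) else none)

def preN (n : ℕ) (σ : Gen) (j : Fin 7) : Bool := decide (n ≤ 55 ∧ 9 * σ.val + j.val + 2 ≤ n)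

def wlN (a b : ℕ) : Option (Gen × Fin 7) :=
  if (a + 1 = b ∨ b + 1 = a) ∧ min a b < 54 ∧ 1 ≤ (min a b) % 9 ∧ (min a b) % 9 ≤ 7 then
    some (Fin.ofNat 6 (min a b / 9), Fin.ofNat 7 ((min a b) % 9 - 1)) else none

lemma wlN_symm (a b : ℕ) : wlN a b = wlN b a := by
  have h : (a + 1 = b ∨ b + 1 = a) ↔ (b + 1 = a ∨ a + 1 = b) := or_comm
  simp only [wlN, min_comm a b, h]

lemma F1' : ∀ a b : Fin 61, Rel a b → wlN a b = none →
    (∀ σ j, preN b σ j = preN a σ j) ∧ ∀ t, lN t a = lN t b ∨ lN t a = none ∨ lN t b = none := by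
  decide +kernel

lemma F2' : ∀ a b : Fin 61, Rel a b → ∀ σ j, wlN a b = some (σ, j) →
    lN true a = some σ ∧ lN true b = some σ ∧ lN false b = lN false a ∧
      ∀ σ' j', preN b σ' j' = (preN a σ' j' ^^ decide (σ' = σ ∧ j' = j)) := by
  decide +kernel

lemma F3 : ∀ s' : Gen, lN true (55 + s'.val) = none ∧ lN false (55 + s'.val) = some s' ∧
    ∀ σ j, preN (55 + s'.val) σ j = decide (s' = 0) := by
  decide +kernel

lemma F1 {a b : ℕ} (ha : a ≤ 60) (hb : b ≤ 60) (h : Rel a b) (hw : wlN a b = none) :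
    (∀ σ j, preN b σ j = preN a σ j) ∧ ∀ t, lN t a = lN t b ∨ lN t a = none ∨ lN t b = none :=
  F1' ⟨a, by omega⟩ ⟨b, by omega⟩ h hw

lemma F2 {a b : ℕ} (ha : a ≤ 60) (hb : b ≤ 60) (h : Rel a b) {σ : Gen} {j : Fin 7}
    (hw : wlN a b = some (σ, j)) :
    lN true a = some σ ∧ lN true b = some σ ∧ lN false b = lN false a ∧
      ∀ σ' j', preN b σ' j' = (preN a σ' j' ^^ decide (σ' = σ ∧ j' = j)) :=
  F2' ⟨a, by omega⟩ ⟨b, by omega⟩ h σ j hw

lemma gen_cases (s : Gen) : s = 0 ∨ s = 1 ∨ s = 2 ∨ s = 3 ∨ s = 4 ∨ s = 5 := by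
  revert s; decide

lemma pi0 (K : ℕ) (ty : Fin 3) (p : ℕ) : piN K ty 0 p = if p % 2 = 0 then p + 1 else p - 1 := rfl
lemma pi1 (K : ℕ) (ty : Fin 3) (p : ℕ) : piN K ty 1 p =
    if p % 2 = 1 then (if p + 1 = K then p else p + 1) else (if p = 0 then 0 else p - 1) := rfl
lemma pi2 (K p : ℕ) : piN K 0 2 p = if p % 2 = 1 then (if p % 512 = 511 then p else p + 1)
      else (if p % 512 = 0 then p else p - 1) := rfl
lemma pi3 (K p : ℕ) : piN K 0 3 p =
    if p % 512 = 400 then p + 1 else if p % 512 = 401 then p - 1 else p := rfl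
lemma pi4 (K p : ℕ) : piN K 0 4 p = p := rfl
lemma pi5 (K p : ℕ) : piN K 0 5 p = p := rfl
lemma piG (K : ℕ) {ty : Fin 3} {s : Gen} (p : ℕ) (h0 : s ≠ 0) (h1 : s ≠ 1) (ht : ty ≠ 0) :
    piN K ty s p = p := by
  rw [piN, if_neg h0, if_neg h1, if_neg ht]

lemma piN_lt (g : ℕ) (ty : Fin 3) (s : Gen) (p : ℕ) (h : p < 512 * (g + 1)) :
    piN (512 * (g + 1)) ty s p < 512 * (g + 1) := by
  by_cases h0 : s = 0
  · subst h0; simp only [pi0]; split_ifs <;> omega
  by_cases h1 : s = 1
  · subst h1; simp only [pi1]; split_ifs <;> omega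
  by_cases ht : ty = 0
  · subst ht
    rcases gen_cases s with rfl | rfl | rfl | rfl | rfl | rfl
    · exact absurd rfl h0
    · exact absurd rfl h1
    · simp only [pi2]; split_ifs <;> omega
    · simp only [pi3]; split_ifs <;> omega
    · simp only [pi4]; exact h
    · simp only [pi5]; exact h
  · rw [piG _ _ h0 h1 ht]; exact h

lemma piN_inv (g : ℕ) (ty : Fin 3) (s : Gen) (p : ℕ) (h : p < 512 * (g + 1)) :
    piN (512 * (g + 1)) ty s (piN (512 * (g + 1)) ty s p) = p := by
  by_cases h0 : s = 0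
  · subst h0; simp only [pi0]; split_ifs <;> omega
  by_cases h1 : s = 1
  · subst h1
    rw [pi1 _ _ p]
    by_cases h1 : p % 2 = 1
    · rw [if_pos h1]
      by_cases h2 : p + 1 = 512 * (g + 1)
      · rw [if_pos h2, pi1, if_pos h1, if_pos h2]
      · rw [if_neg h2, pi1, if_neg (by omega), if_neg (by omega)]
        omega
    · rw [if_neg h1]
      by_cases h2 : p = 0
      · rw [if_pos h2, h2]; rfl
      · rw [if_neg h2, pi1, if_pos (by omega), if_neg (by omega)]
        omega
  by_cases ht : ty = 0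
  · subst ht
    rcases gen_cases s with rfl | rfl | rfl | rfl | rfl | rfl
    · exact absurd rfl h0
    · exact absurd rfl h1
    · rw [pi2 _ p]
      by_cases h1 : p % 2 = 1
      · rw [if_pos h1]
        by_cases h2 : p % 512 = 511
        · rw [if_pos h2, pi2, if_pos h1, if_pos h2]
        · rw [if_neg h2, pi2, if_neg (by omega), if_neg (by omega)]
          omega
      · rw [if_neg h1]
        by_cases h2 : p % 512 = 0
        · rw [if_pos h2, pi2, if_neg h1, if_pos h2]
        · rw [if_neg h2, pi2, if_pos (by omega), if_neg (by omega)]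
          omega
    · simp only [pi3]; split_ifs <;> omega
    · simp only [pi4]
    · simp only [pi5]
  · rw [piG _ _ h0 h1 ht, piG _ _ h0 h1 ht]

lemma stt_pi (g : ℕ) (ty : Fin 3) (s : Gen) (p : ℕ) (h : p < 512 * (g + 1)) (hs : s ≠ 0) :
    sttN (512 * (g + 1)) (piN (512 * (g + 1)) ty s p) = sttN (512 * (g + 1)) p := by
  by_cases h1 : s = 1
  · subst h1
    rw [pi1]
    split_ifs with h1 h2 h3
    · rfl
    · exact stt_y g p h1 (by omega)
    · rw [h3]
    · have := stt_y g (p - 1) (by omega) (by omega)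
      rw [show p - 1 + 1 = p by omega] at this
      exact this.symm
  by_cases ht : ty = 0
  · subst ht
    rcases gen_cases s with rfl | rfl | rfl | rfl | rfl | rfl
    · exact absurd rfl hs
    · exact absurd rfl h1
    · rw [pi2]
      split_ifs with h1 h2 h3
      · rfl
      · exact stt_y g p h1 (by omega)
      · rfl
      · have := stt_y g (p - 1) (by omega) (by omega)
        rw [show p - 1 + 1 = p by omega] at this
        exact this.symm
    · have z : ∀ p, (p % 512 = 400 ∨ p % 512 = 401) → sttN (512 * (g + 1)) p = 0 := by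
        intro p hp
        unfold sttN
        rw [if_neg (by omega), if_neg (by omega)]
        rcases hp with hp | hp <;> rw [hp] <;> rfl
      rw [pi3]
      split_ifs with h1 h2
      · rw [z p (Or.inl h1), z (p + 1) (Or.inr (by omega))]
      · rw [z p (Or.inr h2), z (p - 1) (Or.inl (by omega))]
      · rfl
    · rfl
    · rfl
  · rw [piG _ _ hs h1 ht]

lemma stt_pi0 (g : ℕ) (ty : Fin 3) (p : ℕ) (h : p < 512 * (g + 1)) :
    Rel (sttN (512 * (g + 1)) p) (sttN (512 * (g + 1)) (piN (512 * (g + 1)) ty 0 p)) := by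
  rw [pi0]
  split_ifs with h1
  · exact stt_x g p h1 h
  · have := stt_x g (p - 1) (by omega) (by omega)
    rw [show p - 1 + 1 = p by omega] at this
    exact this.symm

lemma T_sttB : ∀ n : Fin 512, ∀ s' : Gen, T n.val = some s' → sttB n.val = 55 + s'.val := by
  decide +kernel

lemma T_range : ∀ n : Fin 512, T n.val ≠ none → 111 ≤ n.val ∧ n.val ≤ 500 := by
  decide +kernel

lemma T_ps : ∀ s : Gen, T (ps s) = some s := by
  decide

lemma ps_lt : ∀ s : Gen, 250 ≤ ps s ∧ ps s ≤ 387 := by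
  decide

lemma T_stt (g p : ℕ) (s' : Gen) (h : T (p % 512) = some s') :
    sttN (512 * (g + 1)) p = 55 + s'.val := by
  have h1 := T_range ⟨p % 512, Nat.mod_lt _ (by norm_num)⟩ (by simp only; rw [h]; simp)
  simp only at h1
  unfold sttN
  rw [if_neg (by omega), if_neg (by omega)]
  exact T_sttB ⟨p % 512, Nat.mod_lt _ (by norm_num)⟩ s' h

lemma ps_stt (g : ℕ) (s : Gen) : sttN (512 * (g + 1)) (ps s) = 55 + s.val := by
  apply T_stt
  have := ps_lt s
  rw [Nat.mod_eq_of_lt (by omega), T_ps]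

lemma sec_cases {K : ℕ} {ty : Fin 3} {s s' : Gen} {p : ℕ} (h : secN K ty s p = some s') :
    (s = 1 ∧ p = 0 ∧ s' = 0) ∨ (s = 1 ∧ p + 1 = K ∧ p ≠ 0 ∧ s' = 1) ∨
      (s ≠ 0 ∧ s ≠ 1 ∧ ty = 0 ∧ s = 4 ∧ T (p % 512) = some s') ∨
      (s ≠ 0 ∧ s ≠ 1 ∧ ty ≠ 0 ∧ p = ps s') := by
  unfold secN at h
  split_ifs at h with h0 h1 h2 h3 h4 h5 h6 h7 h8
  · left; exact ⟨h1, h2, (Option.some.inj h).symm⟩
  · right; left; exact ⟨h1, h3, h2, (Option.some.inj h).symm⟩
  · right; right; left; exact ⟨h0, h1, h4, h5, h⟩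
  · right; right; right
    refine ⟨h0, h1, h4, ?_⟩
    rw [← Option.some.inj h]
    assumption
  · right; right; right
    refine ⟨h0, h1, h4, ?_⟩
    rw [← Option.some.inj h]
    assumption

/-- the concrete system -/
def sys (g : ℕ) : Sys (Fin 3 × Fin (512 * (g + 1))) where
  π s d := (d.1, ⟨piN (512 * (g + 1)) d.1 s d.2.val, piN_lt g d.1 s d.2.val d.2.isLt⟩)
  sec s d := secN (512 * (g + 1)) d.1 s d.2.val
  l t d := lN t (sttN (512 * (g + 1)) d.2.val)
  pre d := preN (sttN (512 * (g + 1)) d.2.val)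
  wl d := wlN (sttN (512 * (g + 1)) d.2.val)
    (sttN (512 * (g + 1)) (piN (512 * (g + 1)) d.1 0 d.2.val))
  inv s d := Prod.ext rfl (Fin.ext (piN_inv g d.1 s d.2.val d.2.isLt))
  sec_fix s d s' h := by
    refine Prod.ext rfl (Fin.ext ?_)
    simp only
    rcases sec_cases h with ⟨rfl, h1, _⟩ | ⟨rfl, h1, _, _⟩ | ⟨h0, h1, ht, h4, _⟩ | ⟨h0, h1, ht, _⟩
    · rw [pi1, if_neg (by omega), if_pos h1, h1]
    · rw [pi1, if_pos (by omega), if_pos h1]
    · rw [ht, h4]; rfl
    · rw [piG _ _ h0 h1 ht]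
  sec_zero d := rfl
  c1 s d hs := by
    have h := stt_pi g d.1 s d.2.val d.2.isLt hs
    constructor
    · intro t
      simp only
      rw [h]
    · simp only
      rw [h]
  c2w d := by
    simp only
    rw [piN_inv g d.1 0 d.2.val d.2.isLt, wlN_symm]
  c2n d hw := by
    obtain ⟨h1, h2⟩ := F1 (stt_le _ _) (stt_le _ _) (stt_pi0 g d.1 d.2.val d.2.isLt) hw
    exact ⟨funext fun σ => funext fun j => h1 σ j, h2⟩
  c2s d σ j hw := F2 (stt_le _ _) (stt_le _ _) (stt_pi0 g d.1 d.2.val d.2.isLt) hw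
  c3 s d s' h := by
    have hst : sttN (512 * (g + 1)) d.2.val = 55 + s'.val := by
      rcases sec_cases h with ⟨_, h1, rfl⟩ | ⟨_, h1, h0, rfl⟩ | ⟨_, _, _, _, h1⟩ | ⟨_, _, _, h1⟩
      · rw [h1]; rfl
      · unfold sttN
        show _ = 56
        rw [if_neg (by omega), if_pos h1]
      · exact T_stt g d.2.val s' h1
      · rw [h1, ps_stt]
    simp only [hst]
    exact F3 s'

end Pool.Agent.H258R3.Am
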