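import Pool.Agent.H258R3.AmB

/-!
The action on strings of places for a sequence of types, and words acting in a level of type 0.
-/

set_option autoImplicit false

namespace Pool.Agent.H258R3.Am

abbrev DD (g : ℕ) := Fin (512 * (g + 1))

abbrev sh (ω : ℕ → Fin 3) : ℕ → Fin 3 := fun n => ω (n + 1)

def pp (g : ℕ) (ty : Fin 3) (s : Gen) (p : DD g) : DD g :=
  ⟨piN (512 * (g + 1)) ty s p.val, piN_lt g ty s p.val p.isLt⟩

def aO (g : ℕ) : List (DD g) → (ℕ → Fin 3) → Gen → List (DD g)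
  | [], _, _ => []
  | p :: y, ω, s =>
    match secN (512 * (g + 1)) (ω 0) s p.val with
    | none => pp g (ω 0) s p :: y
    | some s' => p :: aO g y (sh ω) s'

lemma aO_none {g : ℕ} {ω : ℕ → Fin 3} {s : Gen} {p : DD g}
    (h : secN (512 * (g + 1)) (ω 0) s p.val = none) (y : List (DD g)) :
    aO g (p :: y) ω s = pp g (ω 0) s p :: y := by
  simp only [aO, h]

lemma aO_some {g : ℕ} {ω : ℕ → Fin 3} {s s' : Gen} {p : DD g}
    (h : secN (512 * (g + 1)) (ω 0) s p.val = some s') (y : List (DD g)) :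
    aO g (p :: y) ω s = p :: aO g y (sh ω) s' := by
  simp only [aO, h]

/-- the string of digits of a string of places -/
def tag {g : ℕ} : List (DD g) → (ℕ → Fin 3) → List (Fin 3 × DD g)
  | [], _ => []
  | p :: y, ω => (ω 0, p) :: tag y (sh ω)

lemma actL_tag {g : ℕ} (y : List (DD g)) : ∀ (ω : ℕ → Fin 3) (s : Gen),
    (sys g).actL (tag y ω) s = tag (aO g y ω s) ω := by
  induction y with
  | nil => intro ω s; rfl
  | cons p y ih =>
    intro ω s
    rcases h : secN (512 * (g + 1)) (ω 0) s p.val with _ | s'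
    · rw [aO_none h, tag, (sys g).actL_none (d := (ω 0, p)) h]
      rfl
    · rw [aO_some h, tag, (sys g).actL_some (d := (ω 0, p)) h, ih]
      rfl

lemma tag_inj {g : ℕ} {ω : ℕ → Fin 3} {y y' : List (DD g)} (h : tag y ω = tag y' ω) : y = y' := by
  induction y generalizing ω y' with
  | nil =>
    cases y' with
    | nil => rfl
    | cons p y' => exact absurd h (by simp [tag])
  | cons p y ih =>
    cases y' with
    | nil => exact absurd h (by simp [tag])
    | cons p' y' =>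
      simp only [tag, List.cons.injEq, Prod.mk.injEq, true_and] at h
      rw [h.1, ih h.2]

lemma tag_length {g : ℕ} (y : List (DD g)) : ∀ ω, (tag y ω).length = y.length := by
  induction y with
  | nil => intro ω; rfl
  | cons p y ih => intro ω; simp [tag, ih]

lemma aO_inv (g : ℕ) (y : List (DD g)) (ω : ℕ → Fin 3) (s : Gen) :
    aO g (aO g y ω s) ω s = y := by
  apply tag_inj (ω := ω)
  rw [← actL_tag, ← actL_tag, (sys g).actL_inv]

/-- the letters as permutations of strings -/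
def Lp (g : ℕ) (ω : ℕ → Fin 3) (s : Gen) : Equiv.Perm (List (DD g)) :=
  ⟨fun y => aO g y ω s, fun y => aO g y ω s, fun y => aO_inv g y ω s, fun y => aO_inv g y ω s⟩

lemma Lp_nil (g : ℕ) (ω : ℕ → Fin 3) (s : Gen) : Lp g ω s [] = [] := rfl

lemma Lp_none {g : ℕ} {ω : ℕ → Fin 3} {s : Gen} {p : DD g}
    (h : secN (512 * (g + 1)) (ω 0) s p.val = none) (y : List (DD g)) :
    Lp g ω s (p :: y) = pp g (ω 0) s p :: y := aO_none h y

lemma Lp_some {g : ℕ} {ω : ℕ → Fin 3} {s s' : Gen} {p : DD g}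
    (h : secN (512 * (g + 1)) (ω 0) s p.val = some s') (y : List (DD g)) :
    Lp g ω s (p :: y) = p :: Lp g (sh ω) s' y := aO_some h y

lemma Lp_mul_self (g : ℕ) (ω : ℕ → Fin 3) (s : Gen) : Lp g ω s * Lp g ω s = 1 := by
  ext1 y
  exact aO_inv g y ω s

lemma Lp_inv' (g : ℕ) (ω : ℕ → Fin 3) (s : Gen) : (Lp g ω s)⁻¹ = Lp g ω s :=
  inv_eq_of_mul_eq_one_left (Lp_mul_self g ω s)

lemma Lp_Lp (g : ℕ) (ω : ℕ → Fin 3) (s : Gen) (y : List (DD g)) :
    Lp g ω s (Lp g ω s y) = y := aO_inv g y ω s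

lemma Lp_length (g : ℕ) (y : List (DD g)) : ∀ (ω : ℕ → Fin 3) (s : Gen),
    (Lp g ω s y).length = y.length := by
  induction y with
  | nil => intro ω s; rfl
  | cons p y ih =>
    intro ω s
    rcases h : secN (512 * (g + 1)) (ω 0) s p.val with _ | s'
    · rw [Lp_none h]; rfl
    · rw [Lp_some h, List.length_cons, ih, List.length_cons]

lemma Lp_take (g : ℕ) (y : List (DD g)) : ∀ (ω : ℕ → Fin 3) (s : Gen) (n : ℕ),
    Lp g ω s (y.take n) = (Lp g ω s y).take n := by
  induction y with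
  | nil => intro ω s n; simp [Lp_nil]
  | cons p y ih =>
    intro ω s n
    cases n with
    | zero => simp [Lp_nil]
    | succ n =>
      rw [List.take_succ_cons]
      rcases h : secN (512 * (g + 1)) (ω 0) s p.val with _ | s'
      · rw [Lp_none h, Lp_none h, List.take_succ_cons]
      · rw [Lp_some h, Lp_some h, List.take_succ_cons, ih]

def Wp (g : ℕ) (ω : ℕ → Fin 3) (w : List Gen) : Equiv.Perm (List (DD g)) :=
  (w.map (Lp g ω)).prod

lemma Wp_nil (g : ℕ) (ω : ℕ → Fin 3) : Wp g ω [] = 1 := rfl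

lemma Wp_cons (g : ℕ) (ω : ℕ → Fin 3) (s : Gen) (w : List Gen) :
    Wp g ω (s :: w) = Lp g ω s * Wp g ω w := rfl

lemma Wp_append (g : ℕ) (ω : ℕ → Fin 3) (w w' : List Gen) :
    Wp g ω (w ++ w') = Wp g ω w * Wp g ω w' := by
  simp [Wp]

lemma Wp_length (g : ℕ) (ω : ℕ → Fin 3) (w : List Gen) (y : List (DD g)) :
    (Wp g ω w y).length = y.length := by
  induction w with
  | nil => rfl
  | cons s w ih => rw [Wp_cons, Equiv.Perm.mul_apply, Lp_length, ih]

lemma Wp_take (g : ℕ) (ω : ℕ → Fin 3) (w : List Gen) (y : List (DD g)) (n : ℕ) :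
    Wp g ω w (y.take n) = (Wp g ω w y).take n := by
  induction w with
  | nil => rfl
  | cons s w ih => rw [Wp_cons, Equiv.Perm.mul_apply, ih, Lp_take]; rfl

lemma Wp_empty (g : ℕ) (ω : ℕ → Fin 3) (w : List Gen) : Wp g ω w [] = [] :=
  List.length_eq_zero_iff.1 (Wp_length g ω w [])

lemma Wp_reverse (g : ℕ) (ω : ℕ → Fin 3) (w : List Gen) : Wp g ω w.reverse = (Wp g ω w)⁻¹ := by
  induction w with
  | nil => simp [Wp_nil]
  | cons s w ih =>
    rw [List.reverse_cons, Wp_append, ih, Wp_cons g ω s w, mul_inv_rev, Lp_inv', Wp_cons, Wp_nil,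
      mul_one]

/-! ### levels of type 0 -/

def Ok (w : List Gen) : Prop := ∀ s ∈ w, s ≠ 1 ∧ s ≠ 5

lemma Ok_nil : Ok [] := by intro s hs; simp at hs

lemma Ok_append {w w' : List Gen} (h : Ok w) (h' : Ok w') : Ok (w ++ w') := by
  intro s hs
  rcases List.mem_append.1 hs with hs | hs
  · exact h s hs
  · exact h' s hs

def optA (g : ℕ) (ω : ℕ → Fin 3) (o : Option Gen) (y : List (DD g)) : List (DD g) :=
  match o with
  | none => y
  | some s => Lp g ω s y

lemma W_four {g : ℕ} {ω : ℕ → Fin 3} (h0 : ω 0 = 0) (p : DD g) (y : List (DD g)) :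
    Wp g ω [4] (p :: y) = p :: optA g (sh ω) (T (p.val % 512)) y := by
  have h : secN (512 * (g + 1)) (ω 0) 4 p.val = T (p.val % 512) := by rw [h0]; rfl
  rw [Wp_cons, Wp_nil, mul_one]
  rcases hT : T (p.val % 512) with _ | s
  · rw [hT] at h
    rw [Lp_none h]
    congr 1
    apply Fin.ext
    show piN (512 * (g + 1)) (ω 0) 4 p.val = _
    rw [h0]
    rfl
  · rw [hT] at h
    rw [Lp_some h]
    rfl

/-- permutations of the blocks -/
def piB (s : Gen) (n : Fin 512) : Fin 512 :=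
  ⟨piN 512 0 s n.val, piN_lt 0 0 s n.val n.isLt⟩

def PB (s : Gen) : Equiv.Perm (Fin 512) where
  toFun := piB s
  invFun := piB s
  left_inv n := Fin.ext (piN_inv 0 0 s n.val n.isLt)
  right_inv n := Fin.ext (piN_inv 0 0 s n.val n.isLt)

def bact (g : ℕ) (π : Equiv.Perm (Fin 512)) (p : DD g) : DD g :=
  ⟨512 * (p.val / 512) + (π ⟨p.val % 512, Nat.mod_lt _ (by norm_num)⟩).val, by
    have h1 := (π ⟨p.val % 512, Nat.mod_lt _ (by norm_num)⟩).isLt
    have h2 := p.isLt
    omega⟩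

lemma bact_mod (g : ℕ) (π : Equiv.Perm (Fin 512)) (p : DD g) :
    (bact g π p).val % 512 = (π ⟨p.val % 512, Nat.mod_lt _ (by norm_num)⟩).val := by
  have h1 := (π ⟨p.val % 512, Nat.mod_lt _ (by norm_num)⟩).isLt
  simp only [bact]
  omega

lemma bact_mul (g : ℕ) (π π' : Equiv.Perm (Fin 512)) (p : DD g) :
    bact g π (bact g π' p) = bact g (π * π') p := by
  apply Fin.ext
  have h1 := (π' ⟨p.val % 512, Nat.mod_lt _ (by norm_num)⟩).isLt
  have e1 : (bact g π' p).val / 512 = p.val / 512 := by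
    simp only [bact]; omega
  have e2 : (⟨(bact g π' p).val % 512, Nat.mod_lt _ (by norm_num)⟩ : Fin 512) =
      π' ⟨p.val % 512, Nat.mod_lt _ (by norm_num)⟩ := Fin.ext (bact_mod g π' p)
  show 512 * ((bact g π' p).val / 512) + (π ⟨(bact g π' p).val % 512, _⟩).val = _
  rw [e1, e2]
  rfl

lemma bact_one (g : ℕ) (p : DD g) : bact g 1 p = p := by
  apply Fin.ext
  simp only [bact, Equiv.Perm.coe_one, id_eq]
  omega

def RW (π : Equiv.Perm (Fin 512)) (w : List Gen) : Prop :=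
  Ok w ∧ ∀ g (ω : ℕ → Fin 3), ω 0 = 0 → ∀ (p : DD g) (y : List (DD g)),
    Wp g ω w (p :: y) = bact g π p :: y

lemma RW_one : RW 1 [] := by
  refine ⟨Ok_nil, ?_⟩
  intro g ω _ p y
  rw [Wp_nil, bact_one]
  rfl

lemma RW_mul {π π' : Equiv.Perm (Fin 512)} {w w' : List Gen} (h : RW π w) (h' : RW π' w') :
    RW (π * π') (w ++ w') := by
  refine ⟨Ok_append h.1 h'.1, ?_⟩
  intro g ω h0 p y
  rw [Wp_append, Equiv.Perm.mul_apply, h'.2 g ω h0 p y, h.2 g ω h0, bact_mul]

lemma RW_gen (s : Gen) (hs : s = 0 ∨ s = 2 ∨ s = 3) : RW (PB s) [s] := by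
  refine ⟨?_, ?_⟩
  · intro t ht
    rw [List.mem_singleton.1 ht]
    rcases hs with rfl | rfl | rfl <;> decide
  intro g ω h0 p y
  have h : secN (512 * (g + 1)) (ω 0) s p.val = none := by
    rw [h0]
    rcases hs with rfl | rfl | rfl <;> rfl
  rw [Wp_cons, Wp_nil, mul_one, Lp_none h]
  congr 1
  apply Fin.ext
  show piN (512 * (g + 1)) (ω 0) s p.val = 512 * (p.val / 512) + piN 512 0 s (p.val % 512)
  rw [h0]
  rcases hs with rfl | rfl | rfl
  · rw [pi0, pi0]; split_ifs <;> omega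
  · rw [pi2, pi2]; split_ifs <;> omega
  · rw [pi3, pi3]; split_ifs <;> omega

lemma RW_pow {π : Equiv.Perm (Fin 512)} {w : List Gen} (h : RW π w) (n : ℕ) :
    ∃ w', RW (π ^ n) w' := by
  induction n with
  | zero => exact ⟨[], by rw [pow_zero]; exact RW_one⟩
  | succ n ih =>
    obtain ⟨w', hw'⟩ := ih
    exact ⟨w' ++ w, by rw [pow_succ]; exact RW_mul hw' h⟩

/-! the two permutations generate everything -/

def kap : Equiv.Perm (Fin 512) := PB 0 * PB 2

lemma kap_val (n : Fin 512) : (kap n).val =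
    if n.val % 2 = 1 then (if n.val = 511 then 510 else n.val + 2)
    else (if n.val = 0 then 1 else n.val - 2) := by
  have h := n.isLt
  show piN 512 0 0 (piN 512 0 2 n.val) = _
  rw [pi0, pi2]
  split_ifs <;> omega

lemma kap_odd (k : ℕ) : ∀ n : Fin 512, n.val % 2 = 1 → n.val + 2 * k ≤ 511 →
    ((kap ^ k) n).val = n.val + 2 * k := by
  induction k with
  | zero => intro n _ _; rfl
  | succ k ih =>
    intro n h1 h2
    rw [pow_succ', Equiv.Perm.mul_apply, kap_val, ih n h1 (by omega), if_pos (by omega),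
      if_neg (by omega)]
    omega

lemma kap_even (k : ℕ) : ∀ n : Fin 512, n.val % 2 = 0 → 2 * k ≤ n.val →
    ((kap ^ k) n).val = n.val - 2 * k := by
  induction k with
  | zero => intro n _ _; rfl
  | succ k ih =>
    intro n h1 h2
    rw [pow_succ', Equiv.Perm.mul_apply, kap_val, ih n h1 (by omega), if_neg (by omega),
      if_neg (by omega)]
    omega

lemma kap_zero_one : kap 0 = 1 := by
  apply Fin.ext
  rw [kap_val]
  rfl

lemma kap_same (n : Fin 512) : Equiv.Perm.SameCycle kap 0 n := by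
  have h := n.isLt
  by_cases h1 : n.val % 2 = 1
  · refine ⟨((n.val / 2 + 1 : ℕ) : ℤ), ?_⟩
    rw [zpow_natCast, pow_succ, Equiv.Perm.mul_apply, kap_zero_one]
    apply Fin.ext
    rw [kap_odd _ _ (by rfl) (by show 1 + 2 * (n.val / 2) ≤ 511; omega)]
    show 1 + 2 * (n.val / 2) = n.val
    omega
  · apply Equiv.Perm.SameCycle.symm
    refine ⟨((n.val / 2 : ℕ) : ℤ), ?_⟩
    rw [zpow_natCast]
    apply Fin.ext
    rw [kap_even _ _ (by omega) (by omega)]
    show n.val - 2 * (n.val / 2) = 0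
    omega

lemma kap_ne (n : Fin 512) : kap n ≠ n := by
  intro h
  have h1 := congrArg Fin.val h
  rw [kap_val] at h1
  have h2 := n.isLt
  split_ifs at h1 <;> omega

lemma kap_cycle : kap.IsCycle := ⟨0, kap_ne 0, fun n _ => kap_same n⟩

lemma kap_support : kap.support = Finset.univ := by
  ext n
  simp [Equiv.Perm.mem_support, kap_ne n]

lemma kap_401 : (kap ^ 401) (400 : Fin 512) = 401 := by
  have h1 : ((kap ^ 200) (400 : Fin 512)) = 0 := Fin.ext (kap_even 200 400 rfl (by decide))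
  have h2 : ((kap ^ 200) (1 : Fin 512)) = 401 := Fin.ext (kap_odd 200 1 rfl (by decide))
  have h3 : (401 : ℕ) = 200 + (1 + 200) := rfl
  rw [h3, pow_add, Equiv.Perm.mul_apply, pow_add, Equiv.Perm.mul_apply, h1, pow_one,
    kap_zero_one, h2]

lemma PB3 : PB 3 = Equiv.swap (400 : Fin 512) 401 := by
  ext n
  show piN 512 0 3 n.val = _
  rw [pi3, Equiv.swap_apply_def]
  have h := n.isLt
  by_cases h1 : n = 400
  · rw [if_pos h1, h1]; rfl
  · by_cases h2 : n = 401
    · rw [if_neg h1, if_pos h2, h2]; rfl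
    · have h3 : n.val ≠ 400 := fun h => h1 (Fin.ext h)
      have h4 : n.val ≠ 401 := fun h => h2 (Fin.ext h)
      rw [if_neg h1, if_neg h2, if_neg (by omega), if_neg (by omega)]

lemma closure_top : Subgroup.closure ({kap, PB 3} : Set (Equiv.Perm (Fin 512))) = ⊤ := by
  have h := Equiv.Perm.closure_cycle_coprime_swap (n := 401) (σ := kap)
    (by rw [Fintype.card_fin]; decide) kap_cycle kap_support 400
  rw [kap_401, ← PB3] at h
  exact h

lemma exists_RW (π : Equiv.Perm (Fin 512)) : ∃ w, RW π w := by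
  have hπ : π ∈ Subgroup.closure ({kap, PB 3} : Set (Equiv.Perm (Fin 512))) := by
    rw [closure_top]; trivial
  induction hπ using Subgroup.closure_induction with
  | mem x hx =>
    rcases hx with hx | hx
    · rw [hx]
      exact ⟨_, RW_mul (RW_gen 0 (by decide)) (RW_gen 2 (by decide))⟩
    · have : x = PB 3 := hx
      rw [this]
      exact ⟨_, RW_gen 3 (by decide)⟩
  | one => exact ⟨_, RW_one⟩
  | mul x y _ _ hx hy =>
    obtain ⟨w, hw⟩ := hx
    obtain ⟨w', hw'⟩ := hy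
    exact ⟨_, RW_mul hw hw'⟩
  | inv x _ hx =>
    obtain ⟨w, hw⟩ := hx
    obtain ⟨w', hw'⟩ := RW_pow hw (orderOf x - 1)
    refine ⟨w', ?_⟩
    have h1 : x ^ (orderOf x - 1) * x = 1 := by
      rw [← pow_succ, Nat.sub_add_cancel (orderOf_pos x), pow_orderOf_eq_one]
    rwa [eq_inv_of_mul_eq_one_left h1] at hw'

/-! ### changing the tail over a set of blocks -/

def GW (s : Gen) (A : ℕ → Bool) (w : List Gen) : Prop :=
  Ok w ∧ ∀ g (ω : ℕ → Fin 3), ω 0 = 0 → ∀ (p : DD g) (y : List (DD g)),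
    Wp g ω w (p :: y) = p :: (if A (p.val % 512) then Lp g (sh ω) s y else y)

def gs (s : Gen) : Fin 512 :=
  if s = 0 then 250 else if s = 1 then 371 else if s = 2 then 375 else if s = 3 then 379
  else if s = 4 then 383 else 387

lemma gs_ne (s : Gen) : gs s ≠ 500 := by
  revert s; decide

lemma T_gs (s : Gen) : T (gs s).val = some s := by
  revert s; decide

lemma T_500 : T 500 = none := by decide

lemma optA_inv (g : ℕ) (ω : ℕ → Fin 3) (o : Option Gen) (y : List (DD g)) :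
    optA g ω o (optA g ω o y) = y := by
  rcases o with _ | s
  · rfl
  · exact Lp_Lp g ω s y

lemma GW_base (s : Gen) : ∃ w, GW s (fun n => n == (gs s).val || n == 500) w := by
  obtain ⟨w, hwo, hw⟩ := exists_RW (Equiv.swap (gs s) 500)
  have h4 : Ok [4] := by
    intro t ht
    rw [List.mem_singleton.1 ht]
    decide
  refine ⟨[4] ++ (w ++ ([4] ++ w)), Ok_append h4 (Ok_append hwo (Ok_append h4 hwo)), ?_⟩
  intro g ω h0 p y
  have hlt : p.val % 512 < 512 := Nat.mod_lt _ (by norm_num)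
  rw [Wp_append, Equiv.Perm.mul_apply, Wp_append, Equiv.Perm.mul_apply, Wp_append,
    Equiv.Perm.mul_apply, hw g ω h0, W_four h0, hw g ω h0, bact_mul, Equiv.swap_mul_self,
    bact_one, W_four h0, bact_mod]
  congr 1
  by_cases h1 : (⟨p.val % 512, hlt⟩ : Fin 512) = gs s
  · have h1' : p.val % 512 = (gs s).val := congrArg Fin.val h1
    rw [h1, Equiv.swap_apply_left, h1', T_gs]
    have : ((500 : Fin 512) : ℕ) = 500 := rfl
    rw [this, T_500]
    simp [optA]
  · by_cases h2 : (⟨p.val % 512, hlt⟩ : Fin 512) = 500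
    · have h2' : p.val % 512 = 500 := congrArg Fin.val h2
      rw [h2, Equiv.swap_apply_right, h2', T_gs, T_500]
      simp [optA]
    · rw [Equiv.swap_apply_of_ne_of_ne h1 h2, optA_inv]
      have h3 : p.val % 512 ≠ (gs s).val := fun h => h1 (Fin.ext h)
      have h4 : p.val % 512 ≠ 500 := fun h => h2 (Fin.ext h)
      simp [h3, h4]

lemma exists_perm {a b c d : Fin 512} (h1 : a ≠ c) (h2 : b ≠ d) :
    ∃ π : Equiv.Perm (Fin 512), π a = b ∧ π c = d := by
  refine ⟨Equiv.swap (Equiv.swap a b c) d * Equiv.swap a b, ?_, ?_⟩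
  · rw [Equiv.Perm.mul_apply, Equiv.swap_apply_left, Equiv.swap_apply_of_ne_of_ne _ h2]
    intro h
    apply h1
    have h3 : Equiv.swap a b a = Equiv.swap a b c := by rw [Equiv.swap_apply_left, ← h]
    exact (Equiv.swap a b).injective h3
  · rw [Equiv.Perm.mul_apply, Equiv.swap_apply_left]

lemma GW_pair (s : Gen) (b1 b2 : ℕ) (h1 : b1 < 512) (h2 : b2 < 512) (h : b1 ≠ b2) :
    ∃ w, GW s (fun n => n == b1 || n == b2) w := by
  obtain ⟨u, huo, hu⟩ := GW_base s
  obtain ⟨π, hπ1, hπ2⟩ := exists_perm (a := gs s) (b := ⟨b1, h1⟩) (c := 500) (d := ⟨b2, h2⟩)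
    (gs_ne s) (fun e => h (congrArg Fin.val e))
  obtain ⟨w, hwo, hw⟩ := exists_RW π
  obtain ⟨w', hwo', hw'⟩ := exists_RW π⁻¹
  refine ⟨w ++ (u ++ w'), Ok_append hwo (Ok_append huo hwo'), ?_⟩
  intro g ω h0 p y
  have hlt : p.val % 512 < 512 := Nat.mod_lt _ (by norm_num)
  rw [Wp_append, Equiv.Perm.mul_apply, Wp_append, Equiv.Perm.mul_apply, hw' g ω h0, hu g ω h0,
    hw g ω h0, bact_mul, mul_inv_cancel, bact_one, bact_mod]
  congr 1
  have e1 : (π⁻¹ ⟨p.val % 512, hlt⟩).val = (gs s).val ↔ p.val % 512 = b1 := by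
    constructor
    · intro e
      have e' := Fin.ext e
      rw [Equiv.Perm.inv_eq_iff_eq, hπ1] at e'
      exact congrArg Fin.val e'
    · intro e
      have e' : (⟨p.val % 512, hlt⟩ : Fin 512) = π (gs s) := by rw [hπ1]; exact Fin.ext e
      exact congrArg Fin.val (Equiv.Perm.inv_eq_iff_eq.2 e')
  have e2 : (π⁻¹ ⟨p.val % 512, hlt⟩).val = 500 ↔ p.val % 512 = b2 := by
    constructor
    · intro e
      have e' : π⁻¹ ⟨p.val % 512, hlt⟩ = 500 := Fin.ext e
      rw [Equiv.Perm.inv_eq_iff_eq, hπ2] at e'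
      exact congrArg Fin.val e'
    · intro e
      have e' : (⟨p.val % 512, hlt⟩ : Fin 512) = π 500 := by rw [hπ2]; exact Fin.ext e
      exact congrArg Fin.val (Equiv.Perm.inv_eq_iff_eq.2 e')
  have e3 : ((π⁻¹ ⟨p.val % 512, hlt⟩).val == (gs s).val || (π⁻¹ ⟨p.val % 512, hlt⟩).val == 500) =
      (p.val % 512 == b1 || p.val % 512 == b2) := by
    rw [Bool.eq_iff_iff]
    simp only [Bool.or_eq_true, beq_iff_eq, e1, e2]
  simp only [e3]

lemma GW_union {s : Gen} {A B : ℕ → Bool} {w w' : List Gen} (h : GW s A w) (h' : GW s B w')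
    (hd : ∀ n, ¬ (A n = true ∧ B n = true)) : GW s (fun n => A n || B n) (w ++ w') := by
  refine ⟨Ok_append h.1 h'.1, ?_⟩
  intro g ω h0 p y
  rw [Wp_append, Equiv.Perm.mul_apply, h'.2 g ω h0, h.2 g ω h0]
  congr 1
  have := hd (p.val % 512)
  cases hA : A (p.val % 512) <;> cases hB : B (p.val % 512) <;> simp_all

lemma GW_congr {s : Gen} {A B : ℕ → Bool} {w : List Gen} (h : GW s A w)
    (hAB : ∀ n < 512, A n = B n) : GW s B w := by
  refine ⟨h.1, ?_⟩
  intro g ω h0 p y
  rw [h.2 g ω h0, hAB _ (Nat.mod_lt _ (by norm_num))]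

lemma GW_none (s : Gen) (A : ℕ → Bool) (hA : ∀ n, A n = false) : GW s A [] := by
  refine ⟨Ok_nil, ?_⟩
  intro g ω h0 p y
  rw [hA, Wp_nil]
  rfl

lemma GW_all_aux (s : Gen) (n : ℕ) (hn : n ≤ 256) : ∃ w, GW s (fun k => decide (k < 2 * n)) w := by
  induction n with
  | zero => exact ⟨[], GW_none s _ (fun k => by simp)⟩
  | succ n ih =>
    obtain ⟨w, hw⟩ := ih (by omega)
    obtain ⟨w', hw'⟩ := GW_pair s (2 * n) (2 * n + 1) (by omega) (by omega) (by omega)
    refine ⟨w ++ w', GW_congr (GW_union hw hw' ?_) ?_⟩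
    · intro k hk
      simp at hk
      omega
    · intro k _
      rw [Bool.eq_iff_iff]
      simp
      omega

lemma GW_all (s : Gen) : ∃ w, GW s (fun _ => true) w := by
  obtain ⟨w, hw⟩ := GW_all_aux s 256 le_rfl
  exact ⟨w, GW_congr hw (fun n hn => by simp; omega)⟩

lemma GW_even_aux (n : ℕ) (hn : n ≤ 128) :
    ∃ w, GW 0 (fun k => decide (k < 4 * n ∧ k % 2 = 0)) w := by
  induction n with
  | zero => exact ⟨[], GW_none 0 _ (fun k => by simp)⟩
  | succ n ih =>
    obtain ⟨w, hw⟩ := ih (by omega)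
    obtain ⟨w', hw'⟩ := GW_pair 0 (4 * n) (4 * n + 2) (by omega) (by omega) (by omega)
    refine ⟨w ++ w', GW_congr (GW_union hw hw' ?_) ?_⟩
    · intro k hk
      simp at hk
      omega
    · intro k _
      rw [Bool.eq_iff_iff]
      simp
      omega

lemma GW_even : ∃ w, GW 0 (fun k => decide (k % 2 = 0)) w := by
  obtain ⟨w, hw⟩ := GW_even_aux 128 le_rfl
  exact ⟨w, GW_congr hw (fun n hn => by
    rw [Bool.eq_iff_iff]
    simp
    omega)⟩

noncomputable def Wd (s : Gen) : List Gen := (GW_all s).choose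
noncomputable def Qw : List Gen := GW_even.choose

lemma Wd_spec (s : Gen) : GW s (fun _ => true) (Wd s) := (GW_all s).choose_spec
lemma Qw_spec : GW 0 (fun k => decide (k % 2 = 0)) Qw := GW_even.choose_spec

lemma Wd_act {g : ℕ} {ω : ℕ → Fin 3} (h0 : ω 0 = 0) (s : Gen) (p : DD g) (y : List (DD g)) :
    Wp g ω (Wd s) (p :: y) = p :: Lp g (sh ω) s y := by
  rw [(Wd_spec s).2 g ω h0 p y, if_pos rfl]

lemma flat_act {g : ℕ} {ω : ℕ → Fin 3} (h0 : ω 0 = 0) (w : List Gen) (p : DD g)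
    (y : List (DD g)) : Wp g ω (w.flatMap Wd) (p :: y) = p :: Wp g (sh ω) w y := by
  induction w with
  | nil => rfl
  | cons s w ih =>
    rw [List.flatMap_cons, Wp_append, Equiv.Perm.mul_apply, ih, Wd_act h0, Wp_cons]
    rfl

lemma flat_ok (w : List Gen) : Ok (w.flatMap Wd) := by
  induction w with
  | nil => exact Ok_nil
  | cons s w ih =>
    rw [List.flatMap_cons]
    exact Ok_append (Wd_spec s).1 ih

lemma Qw_odd {g : ℕ} {ω : ℕ → Fin 3} (h0 : ω 0 = 0) (p : DD g) (y : List (DD g))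
    (h : p.val % 2 = 1) : Wp g ω Qw (p :: y) = p :: y := by
  rw [Qw_spec.2 g ω h0 p y, if_neg (by simp; omega)]

lemma Qw_even {g : ℕ} {ω : ℕ → Fin 3} (h0 : ω 0 = 0) (p : DD g) (y : List (DD g))
    (h : p.val % 2 = 0) : Wp g ω Qw (p :: y) = p :: Lp g (sh ω) 0 y := by
  rw [Qw_spec.2 g ω h0 p y, if_pos (by simp; omega)]

end Pool.Agent.H258R3.Am
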