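import Pool.Agent.H258R3.AmC

/-!
Alternating words in the letters 0 and 1 walk along the path of all strings.
-/

set_option autoImplicit false

namespace Pool.Agent.H258R3.Am

def mm (g n : ℕ) : DD g := ⟨n % (512 * (g + 1)), Nat.mod_lt _ (by positivity)⟩

lemma mm_val {g n : ℕ} (h : n < 512 * (g + 1)) : (mm g n).val = n := Nat.mod_eq_of_lt h

lemma mm_self (g : ℕ) (p : DD g) : mm g p.val = p := Fin.ext (Nat.mod_eq_of_lt p.isLt)

lemma pp_mm {g : ℕ} {ty : Fin 3} {s : Gen} {p q : ℕ} (h : p < 512 * (g + 1))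
    (hq : piN (512 * (g + 1)) ty s p = q) : pp g ty s (mm g p) = mm g q := by
  apply Fin.ext
  show piN (512 * (g + 1)) ty s (mm g p).val = (mm g q).val
  have h3 := piN_lt g ty s p h
  rw [mm_val h, hq, mm_val (by rw [← hq]; exact h3)]

lemma L0_even {g : ℕ} (ω : ℕ → Fin 3) {p : ℕ} (h : p < 512 * (g + 1)) (h2 : p % 2 = 0)
    (y : List (DD g)) : Lp g ω 0 (mm g p :: y) = mm g (p + 1) :: y := by
  rw [Lp_none rfl, pp_mm h (by rw [pi0, if_pos h2])]

lemma L0_odd {g : ℕ} (ω : ℕ → Fin 3) {p : ℕ} (h : p < 512 * (g + 1)) (h2 : p % 2 = 1)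
    (y : List (DD g)) : Lp g ω 0 (mm g p :: y) = mm g (p - 1) :: y := by
  rw [Lp_none rfl, pp_mm h (by rw [pi0, if_neg (by omega)])]

lemma sec1 (K : ℕ) (ty : Fin 3) (n : ℕ) : secN K ty 1 n =
    if n = 0 then some 0 else if n + 1 = K then some 1 else none := rfl

lemma L1_odd {g : ℕ} (ω : ℕ → Fin 3) {p : ℕ} (h : p + 1 < 512 * (g + 1)) (h2 : p % 2 = 1)
    (y : List (DD g)) : Lp g ω 1 (mm g p :: y) = mm g (p + 1) :: y := by
  rw [Lp_none (by rw [mm_val (by omega), sec1, if_neg (by omega), if_neg (by omega)]),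
    pp_mm (by omega) (by rw [pi1, if_pos h2, if_neg (by omega)])]

lemma L1_last {g : ℕ} (ω : ℕ → Fin 3) {p : ℕ} (h : p + 1 = 512 * (g + 1))
    (y : List (DD g)) : Lp g ω 1 (mm g p :: y) = mm g p :: Lp g (sh ω) 1 y := by
  have h' : secN (512 * (g + 1)) (ω 0) 1 (mm g p).val = some 1 := by
    rw [mm_val (by omega), sec1, if_neg (by omega), if_pos h]
  rw [Lp_some h']

lemma L1_even {g : ℕ} (ω : ℕ → Fin 3) {p : ℕ} (h : p < 512 * (g + 1)) (h2 : p % 2 = 0)
    (h0 : p ≠ 0) (y : List (DD g)) : Lp g ω 1 (mm g p :: y) = mm g (p - 1) :: y := by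
  rw [Lp_none (by rw [mm_val (by omega), sec1, if_neg (by omega), if_neg (by omega)]),
    pp_mm (by omega) (by rw [pi1, if_neg (by omega), if_neg (by omega)])]

lemma L1_zero {g : ℕ} (ω : ℕ → Fin 3) (y : List (DD g)) :
    Lp g ω 1 (mm g 0 :: y) = mm g 0 :: Lp g (sh ω) 0 y := by
  have h : secN (512 * (g + 1)) (ω 0) 1 (mm g 0).val = some 0 := by
    rw [mm_val (by omega), sec1, if_pos rfl]
  rw [Lp_some h]

def lt (n : ℕ) : Gen := if n % 2 = 0 then 0 else 1

lemma lt_even {n : ℕ} (h : n % 2 = 0) : lt n = 0 := by rw [lt, if_pos h]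
lemma lt_odd {n : ℕ} (h : n % 2 = 1) : lt n = 1 := by rw [lt, if_neg (by omega)]

lemma lt_congr {n m : ℕ} (h : n % 2 = m % 2) : lt n = lt m := by
  unfold lt; rw [h]

/-- the place at time `z` of the walk -/
def Dg (K z : ℕ) : ℕ := if (z / K) % 2 = 0 then z % K else K - 1 - z % K

lemma Dg_of {K q r : ℕ} (hr : r < K) : Dg K (K * q + r) = if q % 2 = 0 then r else K - 1 - r := by
  unfold Dg
  rw [Nat.mul_add_div (by omega), Nat.div_eq_of_lt hr, Nat.mul_add_mod, Nat.mod_eq_of_lt hr,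
    add_zero]

lemma div_of {K q r : ℕ} (hr : r < K) : (K * q + r) / K = q := by
  rw [Nat.mul_add_div (by omega), Nat.div_eq_of_lt hr, add_zero]

lemma step_path (g : ℕ) (ω : ℕ → Fin 3) (z : ℕ) (y : List (DD g)) :
    Lp g ω (lt z) (mm g (Dg (512 * (g + 1)) z) :: y) =
      mm g (Dg (512 * (g + 1)) (z + 1)) ::
        (if (z + 1) % (512 * (g + 1)) = 0 then Lp g (sh ω) (lt (z / (512 * (g + 1)) + 1)) y
          else y) := by
  obtain ⟨K, hK⟩ : ∃ K, K = 512 * (g + 1) := ⟨_, rfl⟩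
  obtain ⟨q, r, hr, hz⟩ : ∃ q r, r < K ∧ z = K * q + r :=
    ⟨z / K, z % K, Nat.mod_lt _ (by omega), (Nat.div_add_mod z K).symm⟩
  have hdiv : z / K = q := by rw [hz]; exact div_of hr
  have hKe : K = 2 * (256 * (g + 1)) := by rw [hK]; ring
  have hpar : z % 2 = r % 2 := by
    have h1 : z = 2 * (256 * (g + 1) * q) + r := by rw [hz, hKe]; ring
    omega
  rw [← hK, hdiv, hz, Dg_of hr]
  by_cases hlast : r + 1 = K
  · have e1 : K * q + r + 1 = K * (q + 1) + 0 := by rw [add_assoc, hlast]; ring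
    have e2 : (K * q + r + 1) % K = 0 := by rw [e1, add_zero, Nat.mul_mod_right]
    rw [if_pos e2, e1, Dg_of (by omega)]
    have hlt : lt (K * q + r) = 1 := lt_odd (by rw [← hz]; omega)
    rw [hlt]
    by_cases hq : q % 2 = 0
    · rw [if_pos hq, if_neg (by omega), lt_odd (n := q + 1) (by omega),
        L1_last ω (by omega), show r = K - 1 - 0 by omega]
    · rw [if_neg hq, if_pos (by omega), lt_even (n := q + 1) (by omega),
        show K - 1 - r = 0 by omega, L1_zero]
  · have e1 : K * q + r + 1 = K * q + (r + 1) := by ring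
    have e2 : (K * q + r + 1) % K ≠ 0 := by
      rw [e1, Nat.mul_add_mod, Nat.mod_eq_of_lt (by omega)]
      omega
    rw [if_neg e2, e1, Dg_of (by omega)]
    by_cases hq : q % 2 = 0
    · rw [if_pos hq, if_pos hq]
      by_cases hp : r % 2 = 0
      · rw [lt_even (by rw [← hz]; omega), L0_even ω (by omega) hp]
      · rw [lt_odd (by rw [← hz]; omega), L1_odd ω (by omega) (by omega)]
    · rw [if_neg hq, if_neg hq]
      by_cases hp : r % 2 = 0
      · rw [lt_even (by rw [← hz]; omega), L0_odd ω (by omega) (by omega),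
          show K - 1 - r - 1 = K - 1 - (r + 1) by omega]
      · rw [lt_odd (by rw [← hz]; omega), L1_even ω (by omega) (by omega) (by omega),
          show K - 1 - r - 1 = K - 1 - (r + 1) by omega]

/-- alternating words; the first letter applied is `lt c` -/
def alt (c : ℕ) : ℕ → List Gen
  | 0 => []
  | i + 1 => lt (c + i) :: alt c i

lemma alt_congr {c c' : ℕ} (h : c % 2 = c' % 2) (i : ℕ) : alt c i = alt c' i := by
  induction i with
  | zero => rfl
  | succ i ih => rw [alt, alt, ih, lt_congr (n := c + i) (m := c' + i) (by omega)]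

def z0 (K c p : ℕ) : ℕ := if p % 2 = c % 2 then p else 2 * K - 1 - p

lemma Dg_z0 {K c p : ℕ} (hp : p < K) : Dg K (z0 K c p) = p := by
  unfold z0
  split_ifs with h
  · have := Dg_of (q := 0) hp
    simpa using this
  · have e : 2 * K - 1 - p = K * 1 + (K - 1 - p) := by omega
    rw [e, Dg_of (by omega), if_neg (by norm_num)]
    omega

lemma z0_par (g : ℕ) {c p : ℕ} (hp : p < 512 * (g + 1)) : z0 (512 * (g + 1)) c p % 2 = c % 2 := by
  unfold z0
  split_ifs with h
  · exact h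
  · omega

/-- the walk of an alternating word on the first place -/
theorem alt_path (g : ℕ) (ω : ℕ → Fin 3) (c p : ℕ) (hp : p < 512 * (g + 1)) (y : List (DD g))
    (i : ℕ) : Wp g ω (alt c i) (mm g p :: y) =
      mm g (Dg (512 * (g + 1)) (z0 (512 * (g + 1)) c p + i)) ::
        Wp g (sh ω) (alt (1 + z0 (512 * (g + 1)) c p / (512 * (g + 1)))
          ((z0 (512 * (g + 1)) c p + i) / (512 * (g + 1)) -
            z0 (512 * (g + 1)) c p / (512 * (g + 1)))) y := by
  obtain ⟨K, hK⟩ : ∃ K, K = 512 * (g + 1) := ⟨_, rfl⟩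
  obtain ⟨z, hz⟩ : ∃ z, z = z0 K c p := ⟨_, rfl⟩
  have hpar := z0_par g (c := c) hp
  rw [← hK] at hp hpar ⊢
  rw [← hz] at hpar ⊢
  induction i with
  | zero =>
    rw [add_zero, Nat.sub_self, hz, Dg_z0 hp]
    rfl
  | succ i ih =>
    rw [alt, Wp_cons, Equiv.Perm.mul_apply, ih, lt_congr (n := c + i) (m := z + i) (by omega)]
    have hstep := step_path g ω (z + i)
    rw [← hK] at hstep
    rw [hstep, ← add_assoc, Nat.succ_div]
    by_cases hd : (z + i + 1) % K = 0
    · rw [if_pos hd, if_pos (Nat.dvd_of_mod_eq_zero hd)]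
      have h1 : z / K ≤ (z + i) / K := Nat.div_le_div_right (by omega)
      have e : (z + i) / K + 1 - z / K = ((z + i) / K - z / K) + 1 := by omega
      rw [e, alt, Wp_cons, Equiv.Perm.mul_apply]
      have e2 : (z + i) / K + 1 = 1 + z / K + ((z + i) / K - z / K) := by omega
      rw [e2]
    · rw [if_neg hd, if_neg (fun h => hd (Nat.mod_eq_zero_of_dvd h)), add_zero]

abbrev shn (m : ℕ) (ω : ℕ → Fin 3) : ℕ → Fin 3 := fun n => ω (n + m)

/-- contraction -/
theorem alt_contr (g : ℕ) (m : ℕ) : ∀ c i, i ≤ (512 * (g + 1)) ^ m →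
    ∀ v : List (DD g), v.length = m → ∃ v' : List (DD g), ∃ c' l : ℕ, v'.length = m ∧ l ≤ 1 ∧
      ∀ (ω : ℕ → Fin 3) (y : List (DD g)),
        Wp g ω (alt c i) (v ++ y) = v' ++ Wp g (shn m ω) (alt c' l) y := by
  induction m with
  | zero =>
    intro c i hi v hv
    have hv' := List.length_eq_zero_iff.1 hv
    subst hv'
    exact ⟨[], c, i, rfl, by simpa using hi, fun ω y => rfl⟩
  | succ m ih =>
    intro c i hi v hv
    rcases v with _ | ⟨p, v⟩
    · exact absurd hv (by simp)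
    obtain ⟨a, hp, rfl⟩ : ∃ a, a < 512 * (g + 1) ∧ p = mm g a :=
      ⟨p.val, p.isLt, (mm_self g p).symm⟩
    obtain ⟨K, hK⟩ : ∃ K, K = 512 * (g + 1) := ⟨_, rfl⟩
    have hK0 : 0 < K := by omega
    obtain ⟨v', c', l, h1, h2, h3⟩ := ih (1 + z0 K c a / K)
      ((z0 K c a + i) / K - z0 K c a / K) (by
        rw [← hK] at hi ⊢
        have h4 : (z0 K c a + i) / K ≤ (z0 K c a + K * K ^ m) / K := by
          apply Nat.div_le_div_right
          rw [← pow_succ']
          omega
        rw [Nat.add_mul_div_left _ _ hK0] at h4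
        omega) v (by simpa using hv)
    refine ⟨mm g (Dg K (z0 K c a + i)) :: v', c', l, by simp [h1], h2, ?_⟩
    intro ω y
    have h5 := alt_path g ω c a hp (v ++ y) i
    rw [← hK] at h5
    rw [List.cons_append, h5, h3]
    rfl

/-- any two strings are connected by an alternating word that does not touch the tail -/
theorem alt_conn (g : ℕ) (n : ℕ) : ∀ v v' : List (DD g), v.length = n → v'.length = n →
    ∃ c i : ℕ, ∀ (ω : ℕ → Fin 3) (y : List (DD g)), Wp g ω (alt c i) (v ++ y) = v' ++ y := by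
  induction n with
  | zero =>
    intro v v' hv hv'
    rw [List.length_eq_zero_iff.1 hv, List.length_eq_zero_iff.1 hv']
    exact ⟨0, 0, fun ω y => rfl⟩
  | succ n ih =>
    intro v v' hv hv'
    rcases v with _ | ⟨p, v⟩
    · exact absurd hv (by simp)
    rcases v' with _ | ⟨p', v'⟩
    · exact absurd hv' (by simp)
    obtain ⟨c1, i1, h1⟩ := ih v v' (by simpa using hv) (by simpa using hv')
    obtain ⟨a, hp, rfl⟩ : ∃ a, a < 512 * (g + 1) ∧ p = mm g a :=
      ⟨p.val, p.isLt, (mm_self g p).symm⟩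
    obtain ⟨a', hp', rfl⟩ : ∃ a, a < 512 * (g + 1) ∧ p' = mm g a :=
      ⟨p'.val, p'.isLt, (mm_self g p').symm⟩
    obtain ⟨K, hK⟩ : ∃ K, K = 512 * (g + 1) := ⟨_, rfl⟩
    have hK0 : 0 < K := by omega
    rw [← hK] at hp hp'
    -- reduce to finding `c` and `i`
    suffices h : ∃ c i : ℕ, Dg K (z0 K c a + i) = a' ∧
        (z0 K c a + i) / K - z0 K c a / K = i1 ∧
        (i1 = 0 ∨ (1 + z0 K c a / K) % 2 = c1 % 2) by
      obtain ⟨c, i, h2, h3, h4⟩ := h
      refine ⟨c, i, fun ω y => ?_⟩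
      have h5 := alt_path g ω c a (by omega) (v ++ y) i
      rw [← hK, h2, h3] at h5
      rw [List.cons_append, h5, List.cons_append]
      congr 1
      rcases h4 with h4 | h4
      · rw [h4] at h1 ⊢
        exact h1 (sh ω) y
      · rw [alt_congr h4]
        exact h1 (sh ω) y
    have key : ∀ c, 1 ≤ i1 → ∃ i, Dg K (z0 K c a + i) = a' ∧
        (z0 K c a + i) / K - z0 K c a / K = i1 := by
      intro c hi1
      obtain ⟨z, hz⟩ : ∃ z, z = z0 K c a := ⟨_, rfl⟩
      rw [← hz]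
      obtain ⟨q, hq⟩ : ∃ q, q = z / K + i1 := ⟨_, rfl⟩
      obtain ⟨r, hr⟩ : ∃ r, r = if q % 2 = 0 then a' else K - 1 - a' := ⟨_, rfl⟩
      have hrK : r < K := by rw [hr]; split_ifs <;> omega
      have h2 : z < K * (z / K + 1) := by
        have := Nat.lt_div_mul_add (a := z) hK0
        rw [mul_comm, add_mul, one_mul]
        exact this
      have h3 : K * (z / K + 1) ≤ K * q := Nat.mul_le_mul_left _ (by omega)
      refine ⟨K * q + r - z, ?_, ?_⟩
      · rw [Nat.add_sub_cancel' (by omega), Dg_of hrK, hr]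
        split_ifs <;> omega
      · rw [Nat.add_sub_cancel' (by omega), Nat.mul_add_div hK0, Nat.div_eq_of_lt hrK]
        omega
    rcases Nat.eq_zero_or_pos i1 with hi | hi
    · by_cases hle : a ≤ a'
      · refine ⟨a, a' - a, ?_, ?_, Or.inl hi⟩
        · rw [z0, if_pos rfl, Nat.add_sub_cancel' hle]
          have := Dg_of (q := 0) hp'
          simpa using this
        · rw [z0, if_pos rfl, Nat.add_sub_cancel' hle, Nat.div_eq_of_lt hp, Nat.div_eq_of_lt hp',
            hi]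
      · refine ⟨a + 1, a - a', ?_, ?_, Or.inl hi⟩
        · rw [z0, if_neg (by omega)]
          have e : 2 * K - 1 - a + (a - a') = K * 1 + (K - 1 - a') := by omega
          rw [e, Dg_of (by omega), if_neg (by norm_num)]
          omega
        · rw [z0, if_neg (by omega)]
          have e : 2 * K - 1 - a + (a - a') = K * 1 + (K - 1 - a') := by omega
          have e' : 2 * K - 1 - a = K * 1 + (K - 1 - a) := by omega
          rw [e, e', Nat.mul_add_div hK0, Nat.mul_add_div hK0, Nat.div_eq_of_lt (by omega),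
            Nat.div_eq_of_lt (by omega), hi]
    · by_cases hc : c1 % 2 = 1
      · obtain ⟨i, h2, h3⟩ := key a hi
        refine ⟨a, i, h2, h3, Or.inr ?_⟩
        rw [z0, if_pos rfl, Nat.div_eq_of_lt hp, hc]
      · obtain ⟨i, h2, h3⟩ := key (a + 1) hi
        refine ⟨a + 1, i, h2, h3, Or.inr ?_⟩
        rw [z0, if_neg (by omega)]
        have e' : 2 * K - 1 - a = K * 1 + (K - 1 - a) := by omega
        rw [e', Nat.mul_add_div hK0, Nat.div_eq_of_lt (by omega)]
        omega

/-- the powers of the odometer over one level -/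
lemma alt_full_one (g : ℕ) (ω : ℕ → Fin 3) (c : ℕ) (p : DD g) (N : ℕ) (y : List (DD g)) :
    Wp g ω (alt c (2 * (512 * (g + 1) * N))) (p :: y) =
      p :: Wp g (sh ω) (alt (1 + z0 (512 * (g + 1)) c p.val / (512 * (g + 1))) (2 * N)) y := by
  obtain ⟨a, hp, rfl⟩ : ∃ a, a < 512 * (g + 1) ∧ p = mm g a :=
    ⟨p.val, p.isLt, (mm_self g p).symm⟩
  rw [mm_val hp, alt_path g ω c a hp y (2 * (512 * (g + 1) * N))]
  obtain ⟨K, hK⟩ : ∃ K, K = 512 * (g + 1) := ⟨_, rfl⟩
  have hK0 : 0 < K := by omega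
  rw [← hK] at hp ⊢
  obtain ⟨z, hz⟩ : ∃ z, z = z0 K c a := ⟨_, rfl⟩
  have h1 : Dg K z = a := by rw [hz]; exact Dg_z0 hp
  rw [← hz]
  have e1 : z + 2 * (K * N) = z + K * (2 * N) := by ring
  have e2 : Dg K (z + K * (2 * N)) = Dg K z := by
    unfold Dg
    rw [Nat.add_mul_div_left _ _ hK0, Nat.add_mul_mod_self_left, Nat.add_mul_mod_self_left]
  rw [e1, e2, h1, Nat.add_mul_div_left _ _ hK0]
  have e3 : z / K + 2 * N - z / K = 2 * N := by omega
  rw [e3]

lemma alt_full (g : ℕ) (n : ℕ) : ∀ (c : ℕ) (v : List (DD g)), v.length = n → ∃ c' : ℕ,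
    ∀ (ω : ℕ → Fin 3) (N : ℕ) (y : List (DD g)),
      Wp g ω (alt c (2 * ((512 * (g + 1)) ^ n * N))) (v ++ y) =
        v ++ Wp g (shn n ω) (alt c' (2 * N)) y := by
  induction n with
  | zero =>
    intro c v hv
    rw [List.length_eq_zero_iff.1 hv]
    refine ⟨c, fun ω N y => ?_⟩
    rw [pow_zero, one_mul]
    rfl
  | succ n ih =>
    intro c v hv
    rcases v with _ | ⟨p, v⟩
    · exact absurd hv (by simp)
    obtain ⟨c', h1⟩ := ih (1 + z0 (512 * (g + 1)) c p.val / (512 * (g + 1))) v (by simpa using hv)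
    refine ⟨c', fun ω N y => ?_⟩
    rw [pow_succ', mul_assoc, List.cons_append, alt_full_one, h1]
    rfl

lemma alt_two (c N : ℕ) : alt c (2 * (N + 1)) = lt (c + 1) :: lt c :: alt c (2 * N) := by
  have e : 2 * (N + 1) = 2 * N + 1 + 1 := by ring
  rw [e, alt, alt, lt_congr (n := c + (2 * N + 1)) (m := c + 1) (by omega),
    lt_congr (n := c + 2 * N) (m := c) (by omega)]

lemma alt_flip (g : ℕ) (ω : ℕ → Fin 3) (N : ℕ) :
    Wp g ω (alt 0 (2 * N)) = Lp g ω 0 * Wp g ω (alt 1 (2 * N)) * Lp g ω 0 := by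
  induction N with
  | zero =>
    show (1 : Equiv.Perm (List (DD g))) = Lp g ω 0 * 1 * Lp g ω 0
    rw [mul_one, Lp_mul_self]
  | succ N ih =>
    have e1 : alt 0 (2 * (N + 1)) = 1 :: 0 :: alt 0 (2 * N) := alt_two 0 N
    have e2 : alt 1 (2 * (N + 1)) = 0 :: 1 :: alt 1 (2 * N) := alt_two 1 N
    rw [e1, e2, Wp_cons, Wp_cons, Wp_cons, Wp_cons, ih]
    have h := Lp_mul_self g ω 0
    generalize Lp g ω 0 = a at h
    generalize Lp g ω 1 = b
    generalize Wp g ω (alt 1 (2 * N)) = t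
    calc b * (a * (a * t * a)) = b * ((a * a) * t * a) := by group
      _ = b * (t * a) := by rw [h]; group
      _ = (a * a) * (b * (t * a)) := by rw [h, one_mul]
      _ = a * (a * (b * t)) * a := by group

end Pool.Agent.H258R3.Am
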