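import Pool.Agent.H258R3.AmD

/-!
Passing powers of the odometer through levels of type 0 and through blocks `1 … 1 2`.
-/

set_option autoImplicit false

namespace Pool.Agent.H258R3.Am

def app : List (Fin 3) → (ℕ → Fin 3) → (ℕ → Fin 3)
  | [], ω => ω
  | t :: u, ω => fun n => match n with
    | 0 => t
    | n + 1 => app u ω n

lemma app_nil (ω : ℕ → Fin 3) : app [] ω = ω := rfl

lemma app_cons_zero (t : Fin 3) (u : List (Fin 3)) (ω : ℕ → Fin 3) : app (t :: u) ω 0 = t := rfl

lemma sh_app (t : Fin 3) (u : List (Fin 3)) (ω : ℕ → Fin 3) : sh (app (t :: u) ω) = app u ω := rfl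

lemma app_append (u u' : List (Fin 3)) (ω : ℕ → Fin 3) : app (u ++ u') ω = app u (app u' ω) := by
  induction u with
  | nil => rfl
  | cons t u ih =>
    rw [List.cons_append]
    funext n
    cases n with
    | zero => rfl
    | succ n => exact congrFun ih n

lemma shn_app (u : List (Fin 3)) (ω : ℕ → Fin 3) : shn u.length (app u ω) = ω := by
  induction u with
  | nil => rfl
  | cons t u ih => exact ih

/-- `w` acts as the `M`-th power of the odometer -/
def Acts (g : ℕ) (ω : ℕ → Fin 3) (w : List Gen) (M : ℕ) : Prop :=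
  Wp g ω w = Wp g ω (alt 1 (2 * M))

lemma ext_long {g : ℕ} {ω : ℕ → Fin 3} {w w' : List Gen} (n : ℕ)
    (h : ∀ x y : List (DD g), x.length = n → Wp g ω w (x ++ y) = Wp g ω w' (x ++ y)) :
    Wp g ω w = Wp g ω w' := by
  ext1 z
  have h1 : Wp g ω w (z ++ List.replicate n (mm g 0)) =
      Wp g ω w' (z ++ List.replicate n (mm g 0)) := by
    rw [← List.take_append_drop n (z ++ List.replicate n (mm g 0))]
    apply h
    rw [List.length_take, List.length_append, List.length_replicate]
    omega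
  have h2 : z = (z ++ List.replicate n (mm g 0)).take z.length := by
    rw [List.take_left]
  rw [h2, Wp_take, Wp_take, h1]

/-! ### type 0 -/

noncomputable def fw (w : List Gen) : List Gen := Qw ++ (w.flatMap Wd ++ Qw)

lemma fw_ok (w : List Gen) : Ok (fw w) :=
  Ok_append Qw_spec.1 (Ok_append (flat_ok w) Qw_spec.1)

lemma fw_acts {g : ℕ} {ω : ℕ → Fin 3} (h0 : ω 0 = 0) {w : List Gen} {M : ℕ}
    (h : Acts g (sh ω) w M) : Acts g ω (fw w) (512 * (g + 1) * M) := by
  unfold Acts at *
  ext1 z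
  rcases z with _ | ⟨p, y⟩
  · rw [Wp_empty, Wp_empty]
  · rw [alt_full_one, fw, Wp_append, Equiv.Perm.mul_apply, Wp_append, Equiv.Perm.mul_apply]
    have hp := p.isLt
    by_cases hodd : p.val % 2 = 1
    · rw [Qw_odd h0 p y hodd, flat_act h0, Qw_odd h0 p _ hodd, h]
      have e : (1 + z0 (512 * (g + 1)) 1 p.val / (512 * (g + 1))) = 1 := by
        rw [z0, if_pos hodd, Nat.div_eq_of_lt hp]
      rw [e]
    · have heven : p.val % 2 = 0 := by omega
      rw [Qw_even h0 p y heven, flat_act h0, Qw_even h0 p _ heven, h]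
      have e : (1 + z0 (512 * (g + 1)) 1 p.val / (512 * (g + 1))) = 2 := by
        rw [z0, if_neg (by omega)]
        have e' : 2 * (512 * (g + 1)) - 1 - p.val =
            512 * (g + 1) * 1 + (512 * (g + 1) - 1 - p.val) := by omega
        rw [e', div_of (by omega)]
      rw [e, alt_congr (c := 2) (c' := 0) rfl, alt_flip]
      rfl

lemma fw_iter_acts {g : ℕ} (k : ℕ) : ∀ {ω : ℕ → Fin 3} {w : List Gen} {M : ℕ},
    Acts g ω w M → Acts g (app (List.replicate k 0) ω) (fw^[k] w)
      ((512 * (g + 1)) ^ k * M) := by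
  induction k with
  | zero =>
    intro ω w M h
    rw [pow_zero, one_mul]
    exact h
  | succ k ih =>
    intro ω w M h
    rw [Function.iterate_succ_apply', pow_succ', mul_assoc, List.replicate_succ]
    exact fw_acts (app_cons_zero _ _ _) (by rw [sh_app]; exact ih h)

lemma exists_C1 : ∃ C : ℕ, 1 ≤ C ∧ ∀ w, (fw w).length + 1 ≤ C * (w.length + 1) := by
  obtain ⟨B, hB⟩ : ∃ B, ∀ s, (Wd s).length ≤ B := by
    refine ⟨Finset.univ.sup (fun s => (Wd s).length), fun s => ?_⟩
    exact Finset.le_sup (f := fun s => (Wd s).length) (Finset.mem_univ s)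
  refine ⟨B + 2 * Qw.length + 1, by omega, fun w => ?_⟩
  have hlen : (w.flatMap Wd).length ≤ B * w.length := by
    induction w with
    | nil => simp
    | cons s w ihw =>
      rw [List.flatMap_cons, List.length_append, List.length_cons]
      have := hB s
      nlinarith
  rw [fw, List.length_append, List.length_append]
  nlinarith

lemma fw_iter_len {C : ℕ} (hC : ∀ w, (fw w).length + 1 ≤ C * (w.length + 1)) (k : ℕ)
    (w : List Gen) : (fw^[k] w).length + 1 ≤ C ^ k * (w.length + 1) := by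
  induction k with
  | zero => simp
  | succ k ih =>
    rw [Function.iterate_succ_apply', pow_succ', mul_assoc]
    exact (hC _).trans (Nat.mul_le_mul_left _ ih)

/-! ### blocks -/

def blk (m : ℕ) : List (Fin 3) := List.replicate m 1 ++ [2]

lemma blk_zero : blk 0 = [2] := rfl
lemma blk_succ (m : ℕ) : blk (m + 1) = 1 :: blk m := by
  rw [blk, blk, List.replicate_succ, List.cons_append]

lemma blk_length (m : ℕ) : (blk m).length = m + 1 := by simp [blk]

def Ps (g m : ℕ) (s : Gen) : List (DD g) :=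
  List.replicate m (mm g (ps s)) ++ [mm g (ps (es s))]

lemma Ps_length (g m : ℕ) (s : Gen) : (Ps g m s).length = m + 1 := by simp [Ps]

lemma sec_one {K : ℕ} {s : Gen} (h0 : s ≠ 0) (h1 : s ≠ 1) (p : ℕ) :
    secN K 1 s p = if p = ps s then some s else none := by
  rw [secN, if_neg h0, if_neg h1, if_neg (by decide), if_pos rfl]

lemma sec_two {K : ℕ} {s : Gen} (h0 : s ≠ 0) (h1 : s ≠ 1) (p : ℕ) :
    secN K 2 s p = if p = ps (es s) then some (es s) else none := by
  rw [secN, if_neg h0, if_neg h1, if_neg (by decide), if_neg (by decide)]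

lemma mm_ps_val (g : ℕ) (s : Gen) : (mm g (ps s)).val = ps s := by
  have := ps_lt s
  exact mm_val (by omega)

lemma eq_mm_ps {g : ℕ} {s : Gen} {p : DD g} : p = mm g (ps s) ↔ p.val = ps s := by
  constructor
  · intro h; rw [h, mm_ps_val]
  · intro h; rw [← mm_self g p, h]

lemma Lp_type_one {g : ℕ} {ω : ℕ → Fin 3} (hω : ω 0 = 1) {s : Gen} (h0 : s ≠ 0) (h1 : s ≠ 1)
    (p : DD g) (y : List (DD g)) : Lp g ω s (p :: y) =
      p :: (if p = mm g (ps s) then Lp g (sh ω) s y else y) := by
  by_cases hp : p.val = ps s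
  · rw [if_pos (eq_mm_ps.2 hp), Lp_some (by rw [hω, sec_one h0 h1, if_pos hp])]
  · rw [if_neg (fun h => hp (eq_mm_ps.1 h)), Lp_none (by rw [hω, sec_one h0 h1, if_neg hp])]
    congr 1
    apply Fin.ext
    show piN (512 * (g + 1)) (ω 0) s p.val = _
    rw [piG _ _ h0 h1 (by rw [hω]; decide)]

lemma Lp_type_two {g : ℕ} {ω : ℕ → Fin 3} (hω : ω 0 = 2) {s : Gen} (h0 : s ≠ 0) (h1 : s ≠ 1)
    (p : DD g) (y : List (DD g)) : Lp g ω s (p :: y) =
      p :: (if p = mm g (ps (es s)) then Lp g (sh ω) (es s) y else y) := by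
  by_cases hp : p.val = ps (es s)
  · rw [if_pos (eq_mm_ps.2 hp), Lp_some (by rw [hω, sec_two h0 h1, if_pos hp])]
  · rw [if_neg (fun h => hp (eq_mm_ps.1 h)), Lp_none (by rw [hω, sec_two h0 h1, if_neg hp])]
    congr 1
    apply Fin.ext
    show piN (512 * (g + 1)) (ω 0) s p.val = _
    rw [piG _ _ h0 h1 (by rw [hω]; decide)]

theorem lampL (g : ℕ) {s : Gen} (h0 : s ≠ 0) (h1 : s ≠ 1) (m : ℕ) : ∀ (v : List (DD g)),
    v.length = m + 1 → ∀ (ω : ℕ → Fin 3) (y : List (DD g)),
      Lp g (app (blk m) ω) s (v ++ y) =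
        v ++ (if v = Ps g m s then Lp g ω (es s) y else y) := by
  induction m with
  | zero =>
    intro v hv ω y
    obtain ⟨p, rfl⟩ := List.length_eq_one_iff.1 hv
    rw [blk_zero, List.singleton_append, Lp_type_two rfl h0 h1, sh_app, app_nil,
      List.singleton_append]
    congr 1
    have : ([p] = Ps g 0 s) ↔ p = mm g (ps (es s)) := by simp [Ps]
    simp only [this]
  | succ m ih =>
    intro v hv ω y
    rcases v with _ | ⟨p, v⟩
    · exact absurd hv (by simp)
    rw [blk_succ, List.cons_append, Lp_type_one rfl h0 h1, sh_app,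
      ih v (by simpa using hv), List.cons_append]
    congr 1
    have e : Ps g (m + 1) s = mm g (ps s) :: Ps g m s := by
      rw [Ps, Ps, List.replicate_succ, List.cons_append]
    rw [e]
    by_cases hp : p = mm g (ps s)
    · rw [if_pos hp]
      by_cases hv' : v = Ps g m s
      · rw [if_pos hv', if_pos (by rw [hp, hv'])]
      · rw [if_neg hv', if_neg (fun h => hv' (List.cons.inj h).2)]
    · rw [if_neg hp, if_neg (fun h => hp (List.cons.inj h).1)]

theorem lampS (g : ℕ) {s : Gen} (h0 : s ≠ 0) (h1 : s ≠ 1) (m : ℕ) : ∀ (v : List (DD g)),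
    v.length ≤ m → ∀ (ω : ℕ → Fin 3), Lp g (app (blk m) ω) s v = v := by
  induction m with
  | zero =>
    intro v hv ω
    rw [List.length_eq_zero_iff.1 (Nat.le_zero.1 hv)]
    rfl
  | succ m ih =>
    intro v hv ω
    rcases v with _ | ⟨p, v⟩
    · rfl
    rw [blk_succ, Lp_type_one rfl h0 h1, sh_app, ih v (by simpa using hv), ite_self]

theorem lampU (g : ℕ) {s : Gen} (h0 : s ≠ 0) (h1 : s ≠ 1) (m : ℕ) (v : List (DD g))
    (hv : v.length = m + 1) : ∃ u : List Gen, ∀ (ω : ℕ → Fin 3) (x y : List (DD g)),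
      x.length = m + 1 → Wp g (app (blk m) ω) u (x ++ y) =
        x ++ (if x = v then Lp g ω (es s) y else y) := by
  obtain ⟨c, i, hci⟩ := alt_conn g (m + 1) v (Ps g m s) hv (Ps_length g m s)
  refine ⟨(alt c i).reverse ++ (s :: alt c i), ?_⟩
  intro ω x y hx
  have hW := hci (app (blk m) ω)
  rw [Wp_append, Wp_reverse, Wp_cons, Equiv.Perm.mul_apply, Equiv.Perm.mul_apply,
    Equiv.Perm.inv_eq_iff_eq]
  by_cases hxv : x = v
  · rw [if_pos hxv, hxv, hW, hW, lampL g h0 h1 m _ (Ps_length g m s), if_pos rfl]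
  · rw [if_neg hxv]
    have hlen := Wp_length g (app (blk m) ω) (alt c i) (x ++ y)
    obtain ⟨z, hz⟩ : ∃ z, z = Wp g (app (blk m) ω) (alt c i) (x ++ y) := ⟨_, rfl⟩
    rw [← hz] at hlen ⊢
    have h2 : (z.take (m + 1)).length = m + 1 := by
      rw [List.length_take, hlen, List.length_append]
      omega
    have h3 : z.take (m + 1) ≠ Ps g m s := by
      intro h4
      have h5 : z = Ps g m s ++ z.drop (m + 1) := by
        rw [← h4, List.take_append_drop]
      rw [← hW, hz] at h5
      have h6 := (Wp g (app (blk m) ω) (alt c i)).injective h5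
      exact hxv (List.append_inj_left h6 (by rw [hx, hv]))
    conv_lhs => rw [← List.take_append_drop (m + 1) z]
    rw [lampL g h0 h1 m _ h2, if_neg h3, List.take_append_drop]

theorem lampA (g : ℕ) {s : Gen} (h0 : s ≠ 0) (h1 : s ≠ 1) (m : ℕ) (A : Finset (List (DD g))) :
    (∀ v ∈ A, v.length = m + 1) → ∃ u : List Gen, ∀ (ω : ℕ → Fin 3) (x y : List (DD g)),
      x.length = m + 1 → Wp g (app (blk m) ω) u (x ++ y) =
        x ++ (if x ∈ A then Lp g ω (es s) y else y) := by
  classical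
  induction A using Finset.induction_on with
  | empty =>
    intro _
    refine ⟨[], fun ω x y _ => ?_⟩
    simp [Wp_nil]
  | insert v A hvA ih =>
    intro hA
    obtain ⟨u, hu⟩ := ih (fun w hw => hA w (Finset.mem_insert_of_mem hw))
    obtain ⟨u', hu'⟩ := lampU g h0 h1 m v (hA v (Finset.mem_insert_self _ _))
    refine ⟨u' ++ u, fun ω x y hx => ?_⟩
    rw [Wp_append, Equiv.Perm.mul_apply, hu ω x y hx, hu' ω x _ hx]
    congr 1
    by_cases hxv : x = v
    · rw [if_pos hxv, if_neg (by rw [hxv]; exact hvA), if_pos (by rw [hxv]; simp)]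
    · rw [if_neg hxv]
      by_cases hxA : x ∈ A
      · rw [if_pos hxA, if_pos (Finset.mem_insert_of_mem hxA)]
      · rw [if_neg hxA, if_neg (by
          rw [Finset.mem_insert]
          rintro (h | h)
          · exact hxv h
          · exact hxA h)]

noncomputable def allS (g n : ℕ) : Finset (List (DD g)) :=
  (List.finite_length_eq (DD g) n).toFinset

lemma mem_allS {g n : ℕ} {x : List (DD g)} : x ∈ allS g n ↔ x.length = n := by
  simp [allS]

lemma es_surj : ∀ e : Gen, e ≠ 1 → e ≠ 5 → ∃ s : Gen, s ≠ 0 ∧ s ≠ 1 ∧ es s = e := by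
  decide

theorem diagB (g m : ℕ) (e : Gen) (h1 : e ≠ 1) (h5 : e ≠ 5) :
    ∃ u : List Gen, ∀ (ω : ℕ → Fin 3) (x y : List (DD g)),
      x.length = m + 1 → Wp g (app (blk m) ω) u (x ++ y) = x ++ Lp g ω e y := by
  obtain ⟨s, hs0, hs1, rfl⟩ := es_surj e h1 h5
  obtain ⟨u, hu⟩ := lampA g hs0 hs1 m (allS g (m + 1)) (fun v hv => mem_allS.1 hv)
  refine ⟨u, fun ω x y hx => ?_⟩
  rw [hu ω x y hx, if_pos (mem_allS.2 hx)]

theorem passB (g m : ℕ) : ∃ C : ℕ, ∀ w : List Gen, Ok w → ∃ w' : List Gen,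
    w'.length + 1 ≤ C * (w.length + 1) ∧ ∀ (ω : ℕ → Fin 3) (M : ℕ), Acts g ω w M →
      Acts g (app (blk m) ω) w' ((512 * (g + 1)) ^ (m + 1) * M) := by
  classical
  -- the diagonal words
  have hV : ∃ V : Gen → List Gen, ∀ e, e ≠ 1 → e ≠ 5 → ∀ (ω : ℕ → Fin 3) (x y : List (DD g)),
      x.length = m + 1 → Wp g (app (blk m) ω) (V e) (x ++ y) = x ++ Lp g ω e y := by
    refine ⟨fun e => if h : e ≠ 1 ∧ e ≠ 5 then (diagB g m e h.1 h.2).choose else [], ?_⟩
    intro e h1 h5
    simp only
    rw [dif_pos ⟨h1, h5⟩]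
    exact (diagB g m e h1 h5).choose_spec
  obtain ⟨V, hV⟩ := hV
  have hflat : ∀ w : List Gen, Ok w → ∀ (ω : ℕ → Fin 3) (x y : List (DD g)),
      x.length = m + 1 → Wp g (app (blk m) ω) (w.flatMap V) (x ++ y) = x ++ Wp g ω w y := by
    intro w
    induction w with
    | nil => intro _ ω x y _; rfl
    | cons s w ih =>
      intro hok ω x y hx
      have hs := hok s (by simp)
      rw [List.flatMap_cons, Wp_append, Equiv.Perm.mul_apply,
        ih (fun t ht => hok t (List.mem_cons_of_mem _ ht)) ω x y hx, hV s hs.1 hs.2 ω x _ hx,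
        Wp_cons]
      rfl
  obtain ⟨B, hB⟩ : ∃ B, ∀ s, (V s).length ≤ B := by
    refine ⟨Finset.univ.sup (fun s => (V s).length), fun s => ?_⟩
    exact Finset.le_sup (f := fun s => (V s).length) (Finset.mem_univ s)
  -- the orientation of the strings
  have hfull := alt_full g (m + 1) 1
  choose! cc hcc using hfull
  obtain ⟨q, hq⟩ := lampA g (s := 5) (by decide) (by decide) m
    ((allS g (m + 1)).filter (fun x => cc x % 2 = 0))
    (fun v hv => mem_allS.1 (Finset.mem_filter.1 hv).1)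
  have e50 : es 5 = 0 := rfl
  rw [e50] at hq
  refine ⟨B + 2 * q.length + 1, fun w hw => ⟨q ++ (w.flatMap V ++ q), ?_, ?_⟩⟩
  · have hlen : (w.flatMap V).length ≤ B * w.length := by
      clear hw
      induction w with
      | nil => simp
      | cons s w ihw =>
        rw [List.flatMap_cons, List.length_append, List.length_cons]
        have := hB s
        nlinarith
    rw [List.length_append, List.length_append]
    nlinarith
  · intro ω M hM
    unfold Acts at *
    apply ext_long (m + 1)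
    intro x y hx
    have hsh : shn (m + 1) (app (blk m) ω) = ω := by
      have := shn_app (blk m) ω
      rwa [blk_length] at this
    rw [hcc x hx, hsh, Wp_append, Equiv.Perm.mul_apply, Wp_append, Equiv.Perm.mul_apply,
      hq ω x y hx, hflat w hw ω x _ hx, hq ω x _ hx, hM]
    congr 1
    by_cases hc : cc x % 2 = 0
    · have hmem : x ∈ (allS g (m + 1)).filter (fun x => cc x % 2 = 0) :=
        Finset.mem_filter.2 ⟨mem_allS.2 hx, hc⟩
      rw [if_pos hmem, if_pos hmem, alt_congr (c := cc x) (c' := 0) hc, alt_flip]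
      rfl
    · have hmem : x ∉ (allS g (m + 1)).filter (fun x => cc x % 2 = 0) :=
        fun h => hc (Finset.mem_filter.1 h).2
      rw [if_neg hmem, if_neg hmem, alt_congr (c := cc x) (c' := 1) (by omega)]

/-- powers of the odometer pass through the levels of `u` at bounded cost -/
def Pass (g : ℕ) (u : List (Fin 3)) : Prop :=
  ∃ C : ℕ, ∀ w : List Gen, Ok w → ∃ w' : List Gen, Ok w' ∧
    w'.length + 1 ≤ C * (w.length + 1) ∧ ∀ (ω : ℕ → Fin 3) (M : ℕ), Acts g ω w M →
      Acts g (app u ω) w' ((512 * (g + 1)) ^ u.length * M)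

lemma Pass_nil (g : ℕ) : Pass g [] := by
  refine ⟨1, fun w hw => ⟨w, hw, by simp, fun ω M h => ?_⟩⟩
  rw [List.length_nil, pow_zero, one_mul]
  exact h

lemma Pass_append {g : ℕ} {u u' : List (Fin 3)} (h : Pass g u) (h' : Pass g u') :
    Pass g (u ++ u') := by
  obtain ⟨C, hC⟩ := h
  obtain ⟨C', hC'⟩ := h'
  refine ⟨C * C', fun w hw => ?_⟩
  obtain ⟨w1, h1, h2, h3⟩ := hC' w hw
  obtain ⟨w2, h4, h5, h6⟩ := hC w1 h1
  refine ⟨w2, h4, ?_, fun ω M hM => ?_⟩
  · calc w2.length + 1 ≤ C * (w1.length + 1) := h5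
      _ ≤ C * (C' * (w.length + 1)) := Nat.mul_le_mul_left _ h2
      _ = C * C' * (w.length + 1) := by ring
  · rw [app_append, List.length_append, pow_add, mul_assoc]
    exact h6 _ _ (h3 _ _ hM)

lemma Pass_block (g k m : ℕ) : Pass g (List.replicate (k + 1) 0 ++ blk m) := by
  obtain ⟨C, hC0, hC⟩ := exists_C1
  obtain ⟨C', hC'⟩ := passB g m
  refine ⟨C ^ (k + 1) * C', fun w hw => ?_⟩
  obtain ⟨w1, h2, h3⟩ := hC' w hw
  refine ⟨fw^[k + 1] w1, ?_, ?_, fun ω M hM => ?_⟩
  · rw [Function.iterate_succ_apply']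
    exact fw_ok _
  · calc (fw^[k + 1] w1).length + 1 ≤ C ^ (k + 1) * (w1.length + 1) := fw_iter_len hC _ _
      _ ≤ C ^ (k + 1) * (C' * (w.length + 1)) := Nat.mul_le_mul_left _ h2
      _ = C ^ (k + 1) * C' * (w.length + 1) := by ring
  · rw [app_append, List.length_append, List.length_replicate, pow_add, mul_assoc, blk_length]
    exact fw_iter_acts (k + 1) (h3 _ _ hM)

end Pool.Agent.H258R3.Am
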