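import Mathlib

/-!
An invariant mean from approximately equivariant finite families.
-/

set_option autoImplicit false

namespace Pool.Agent.H258R3.Am

theorem exists_equivariant {I G W : Type} [Group G] [Group W] (L : I → W) (a : I → G)
    (hL : ∀ s, L s * L s = 1)
    (hrel : ∀ w w' : List I, (w.map L).prod = (w'.map L).prod → (w.map a).prod = (w'.map a).prod) :
    ∃ R : W → G, ∀ s w, R (L s * w) = a s * R w := by
  classical
  have hrev : ∀ u : List I, (u.reverse.map L).prod * (u.map L).prod = 1 := by
    intro u
    induction u with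
    | nil => simp
    | cons s u ih =>
      rw [List.reverse_cons, List.map_append, List.prod_append, List.map_cons, List.prod_cons,
        List.map_cons, List.prod_cons, List.map_nil, List.prod_nil, mul_one]
      calc (u.reverse.map L).prod * L s * (L s * (u.map L).prod)
          = (u.reverse.map L).prod * (L s * L s) * (u.map L).prod := by group
        _ = 1 := by rw [hL, mul_one, ih]
  let st : Setoid W :=
    { r := fun w w' => ∃ u : List I, w' = (u.map L).prod * w
      iseqv := by
        refine ⟨fun w => ⟨[], by simp⟩, ?_, ?_⟩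
        · rintro w w' ⟨u, hu⟩
          refine ⟨u.reverse, ?_⟩
          rw [hu, ← mul_assoc, hrev, one_mul]
        · rintro w w' w'' ⟨u, hu⟩ ⟨u', hu'⟩
          refine ⟨u' ++ u, ?_⟩
          rw [hu', hu, List.map_append, List.prod_append, mul_assoc] }
  let rep : W → W := fun w => (Quotient.mk st w).out
  have hrep : ∀ w, ∃ u : List I, w = (u.map L).prod * rep w := by
    intro w
    have h : st.r (rep w) w := Quotient.exact (Quotient.out_eq (Quotient.mk st w))
    exact h
  have hrepL : ∀ s w, rep (L s * w) = rep w := by
    intro s w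
    have h : Quotient.mk st (L s * w) = Quotient.mk st w := by
      apply Quotient.sound
      show ∃ u : List I, w = (u.map L).prod * (L s * w)
      refine ⟨[s], ?_⟩
      rw [List.map_cons, List.map_nil, List.prod_cons, List.prod_nil, mul_one, ← mul_assoc, hL,
        one_mul]
    show (Quotient.mk st (L s * w)).out = (Quotient.mk st w).out
    rw [h]
  choose u hu using hrep
  refine ⟨fun w => ((u w).map a).prod, fun s w => ?_⟩
  have h1 : ((u (L s * w)).map L).prod = ((s :: u w).map L).prod := by
    have h2 := hu (L s * w)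
    rw [hrepL] at h2
    rw [List.map_cons, List.prod_cons]
    have h3 := hu w
    have h4 : (((u (L s * w)).map L).prod) * rep w = L s * (((u w).map L).prod) * rep w := by
      rw [← h2, mul_assoc, ← h3]
    exact mul_right_cancel h4
  show ((u (L s * w)).map a).prod = a s * ((u w).map a).prod
  rw [hrel _ _ h1, List.map_cons, List.prod_cons]

theorem exists_mean {I G W : Type} [Group G] [Group W] (L : I → W) (a : I → G)
    (hL : ∀ s, L s * L s = 1) (ha : ∀ s, a s * a s = 1)
    (hgen : ∀ x : G, ∃ w : List I, (w.map a).prod = x)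
    (hrel : ∀ w w' : List I, (w.map L).prod = (w'.map L).prod → (w.map a).prod = (w'.map a).prod)
    (happ : ∀ ε : ℝ, 0 < ε → ∃ (Ω : Type) (_ : Finite Ω) (_ : Nonempty Ω) (T : Ω → W)
      (φ : I → Ω → Ω), (∀ s, Function.Injective (φ s)) ∧
        ∀ s, (({o | L s * T o ≠ T (φ s o)} : Set Ω).ncard : ℝ) ≤ ε * Nat.card Ω) :
    ∃ m : Set G → ℝ, (∀ A, 0 ≤ m A) ∧ m Set.univ = 1 ∧
        (∀ A B, Disjoint A B → m (A ∪ B) = m A + m B) ∧
        (∀ (g : G) (A : Set G), m ((fun h : G => g * h) '' A) = m A) := by
  classical
  obtain ⟨R, hR⟩ := exists_equivariant L a hL hrel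
  -- the finite approximations
  have key : ∀ n : ℕ, ∃ f : Set G → ℝ, (∀ A, f A ∈ Set.Icc (0 : ℝ) 1) ∧ f Set.univ = 1 ∧
      (∀ A B, Disjoint A B → f (A ∪ B) = f A + f B) ∧
      (∀ s (A : Set G), |f ((fun h : G => a s * h) '' A) - f A| ≤ 1 / ((n : ℝ) + 1)) := by
    intro n
    obtain ⟨Ω, hfin, hne, T, φ, hφ, herr⟩ := happ (1 / ((n : ℝ) + 1)) (by positivity)
    have hpos : (0 : ℝ) < Nat.card Ω := by exact_mod_cast Nat.card_pos
    have hfinS : ∀ S : Set Ω, S.Finite := fun S => Set.toFinite S
    refine ⟨fun A => (({o | R (T o) ∈ A} : Set Ω).ncard : ℝ) / Nat.card Ω, ?_, ?_, ?_, ?_⟩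
    · intro A
      refine ⟨by positivity, ?_⟩
      rw [div_le_one hpos]
      have : ({o | R (T o) ∈ A} : Set Ω).ncard ≤ (Set.univ : Set Ω).ncard :=
        Set.ncard_le_ncard (Set.subset_univ _) (hfinS _)
      rw [Set.ncard_univ] at this
      exact_mod_cast this
    · have : ({o | R (T o) ∈ (Set.univ : Set G)} : Set Ω) = Set.univ := by ext o; simp
      simp only [this, Set.ncard_univ]
      exact div_self hpos.ne'
    · intro A B hAB
      have h1 : ({o | R (T o) ∈ A ∪ B} : Set Ω) = {o | R (T o) ∈ A} ∪ {o | R (T o) ∈ B} := by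
        ext o; simp
      have h2 : Disjoint ({o | R (T o) ∈ A} : Set Ω) {o | R (T o) ∈ B} := by
        rw [Set.disjoint_left]
        intro o ho ho'
        exact (Set.disjoint_left.1 hAB) ho ho'
      simp only
      rw [h1, Set.ncard_union_eq h2 (hfinS _) (hfinS _)]
      push_cast
      rw [add_div]
    · intro s A
      simp only
      rw [← sub_div, abs_div, abs_of_pos hpos, div_le_iff₀ hpos]
      refine le_trans ?_ (herr s)
      have e1 : ({o | R (T o) ∈ (fun h : G => a s * h) '' A} : Set Ω) =
          {o | R (L s * T o) ∈ A} := by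
        ext o
        constructor
        · rintro ⟨h, hh, hh'⟩
          show R (L s * T o) ∈ A
          rw [hR, ← hh', ← mul_assoc, ha, one_mul]
          exact hh
        · intro ho
          refine ⟨R (L s * T o), ho, ?_⟩
          show a s * R (L s * T o) = R (T o)
          rw [hR, ← mul_assoc, ha, one_mul]
      have e2 : ({o | R (T (φ s o)) ∈ A} : Set Ω).ncard = ({o | R (T o) ∈ A} : Set Ω).ncard := by
        have hbij : Function.Bijective (φ s) := Finite.injective_iff_bijective.1 (hφ s)
        have : ({o | R (T o) ∈ A} : Set Ω) = φ s '' {o | R (T (φ s o)) ∈ A} := by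
          ext o
          constructor
          · intro ho
            obtain ⟨o', rfl⟩ := hbij.2 o
            exact ⟨o', ho, rfl⟩
          · rintro ⟨o', ho', rfl⟩
            exact ho'
        rw [this, Set.ncard_image_of_injective _ (hφ s)]
      rw [e1, ← e2]
      -- comparison of two sets that agree off the bad set
      have h1 : ({o | R (L s * T o) ∈ A} : Set Ω).ncard ≤
          ({o | R (T (φ s o)) ∈ A} : Set Ω).ncard +
            ({o | L s * T o ≠ T (φ s o)} : Set Ω).ncard := by
        refine le_trans (Set.ncard_le_ncard ?_ (hfinS _)) (Set.ncard_union_le _ _)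
        intro o ho
        by_cases hb : L s * T o = T (φ s o)
        · left
          show R (T (φ s o)) ∈ A
          rw [← hb]
          exact ho
        · right
          exact hb
      have h2 : ({o | R (T (φ s o)) ∈ A} : Set Ω).ncard ≤
          ({o | R (L s * T o) ∈ A} : Set Ω).ncard +
            ({o | L s * T o ≠ T (φ s o)} : Set Ω).ncard := by
        refine le_trans (Set.ncard_le_ncard ?_ (hfinS _)) (Set.ncard_union_le _ _)
        intro o ho
        by_cases hb : L s * T o = T (φ s o)
        · left
          show R (L s * T o) ∈ A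
          rw [hb]
          exact ho
        · right
          exact hb
      rw [abs_le]
      have h1' : (({o | R (L s * T o) ∈ A} : Set Ω).ncard : ℝ) ≤
          ({o | R (T (φ s o)) ∈ A} : Set Ω).ncard +
            ({o | L s * T o ≠ T (φ s o)} : Set Ω).ncard := by exact_mod_cast h1
      have h2' : (({o | R (T (φ s o)) ∈ A} : Set Ω).ncard : ℝ) ≤
          ({o | R (L s * T o) ∈ A} : Set Ω).ncard +
            ({o | L s * T o ≠ T (φ s o)} : Set Ω).ncard := by exact_mod_cast h2
      constructor <;> linarith
  choose f hf1 hf2 hf3 hf4 using key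
  -- the limit
  have hlim : ∀ A : Set G, ∃ l ∈ Set.Icc (0 : ℝ) 1,
      Filter.Tendsto (fun n => f n A) (Filter.hyperfilter ℕ : Filter ℕ) (nhds l) := by
    intro A
    obtain ⟨l, hl, h⟩ := isCompact_Icc.ultrafilter_le_nhds
      ((Filter.hyperfilter ℕ).map (fun n => f n A)) (by
        rw [Ultrafilter.coe_map, Filter.le_principal_iff, Filter.mem_map]
        exact Filter.univ_mem' (fun n => hf1 n A))
    exact ⟨l, hl, h⟩
  choose m hm1 hm2 using hlim
  have hinv : ∀ s (A : Set G), m ((fun h : G => a s * h) '' A) = m A := by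
    intro s A
    have h1 : Filter.Tendsto (fun n => f n ((fun h : G => a s * h) '' A) - f n A)
        (Filter.hyperfilter ℕ : Filter ℕ) (nhds (m ((fun h : G => a s * h) '' A) - m A)) :=
      (hm2 _).sub (hm2 _)
    have h2 : Filter.Tendsto (fun n => f n ((fun h : G => a s * h) '' A) - f n A)
        (Filter.hyperfilter ℕ : Filter ℕ) (nhds 0) := by
      refine squeeze_zero_norm (fun n => ?_)
        ((tendsto_one_div_add_atTop_nhds_zero_nat (𝕜 := ℝ)).mono_left Nat.hyperfilter_le_atTop)
      rw [Real.norm_eq_abs]
      exact hf4 n s A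
    have h3 := tendsto_nhds_unique h1 h2
    linarith
  refine ⟨m, fun A => (hm1 A).1, ?_, ?_, ?_⟩
  · refine tendsto_nhds_unique (hm2 Set.univ) ?_
    simp only [hf2]
    exact tendsto_const_nhds
  · intro A B hAB
    refine tendsto_nhds_unique (hm2 (A ∪ B)) ?_
    have h : (fun n => f n (A ∪ B)) = fun n => f n A + f n B := by
      funext n
      exact hf3 n A B hAB
    rw [h]
    exact (hm2 A).add (hm2 B)
  · intro x A
    obtain ⟨w, rfl⟩ := hgen x
    induction w with
    | nil =>
      congr 1
      simp
    | cons s w ih =>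
      have h : ((fun h : G => (List.map a (s :: w)).prod * h) '' A) =
          (fun h : G => a s * h) '' ((fun h : G => (List.map a w).prod * h) '' A) := by
        rw [Set.image_image]
        congr 1
        funext h
        rw [List.map_cons, List.prod_cons, mul_assoc]
      rw [h, hinv, ih]

end Pool.Agent.H258R3.Am
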