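import Pool.Agent.H258R3.AmE
import Pool.Agent.H258R3.AmG

/-!
Approximately equivariant finite families: the lamp blocks, and the step over one level.
-/

set_option autoImplicit false

namespace Pool.Agent.H258R3.Am

/-- a family of permutations of strings, approximately closed under the letters -/
def Approx (g : ℕ) (ω : ℕ → Fin 3) (ε : ℝ) : Prop :=
  ∃ (Ω : Type) (_ : Finite Ω) (_ : Nonempty Ω) (T : Ω → Equiv.Perm (List (DD g)))
    (φ : Gen → Ω → Ω), (∀ s, Function.Injective (φ s)) ∧
      ∀ s, (({o | Lp g ω s * T o ≠ T (φ s o)} : Set Ω).ncard : ℝ) ≤ ε * Nat.card Ω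

lemma Approx_mono {g : ℕ} {ω : ℕ → Fin 3} {ε ε' : ℝ} (h : Approx g ω ε) (hε : ε ≤ ε') :
    Approx g ω ε' := by
  obtain ⟨Ω, h1, h2, T, φ, h3, h4⟩ := h
  exact ⟨Ω, h1, h2, T, φ, h3, fun s => (h4 s).trans
    (mul_le_mul_of_nonneg_right hε (Nat.cast_nonneg _))⟩

/-! ### commuting lamps -/

/-- `P` acts as the letter `e` on the tails of the strings with prefix in `H` -/
def Lamp (g m : ℕ) (ω : ℕ → Fin 3) (P : Equiv.Perm (List (DD g))) (H : List (DD g) → Prop)
    (e : Gen) : Prop :=
  (∀ v, v.length ≤ m → P v = v) ∧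
    ∀ v y, v.length = m + 1 → (H v → P (v ++ y) = v ++ Lp g ω e y) ∧ (¬ H v → P (v ++ y) = v ++ y)

lemma Lamp_comm {g m : ℕ} {ω : ℕ → Fin 3} {P P' : Equiv.Perm (List (DD g))}
    {H H' : List (DD g) → Prop} {e e' : Gen} (h : Lamp g m ω P H e) (h' : Lamp g m ω P' H' e')
    (hc : ∀ v, v.length = m + 1 → H v → H' v → e = e') : P * P' = P' * P := by
  ext1 z
  rw [Equiv.Perm.mul_apply, Equiv.Perm.mul_apply]
  by_cases hz : z.length ≤ m
  · rw [h'.1 z hz, h.1 z hz, h'.1 z hz]
  · obtain ⟨v, y, hv, rfl⟩ : ∃ v y, v.length = m + 1 ∧ z = v ++ y :=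
      ⟨z.take (m + 1), z.drop (m + 1), by rw [List.length_take]; omega,
        (List.take_append_drop _ _).symm⟩
    by_cases h1 : H v
    · by_cases h2 : H' v
      · rw [(h'.2 v y hv).1 h2, (h.2 v _ hv).1 h1, (h.2 v y hv).1 h1, (h'.2 v _ hv).1 h2,
          hc v hv h1 h2]
      · rw [(h'.2 v y hv).2 h2, (h.2 v _ hv).1 h1, (h'.2 v _ hv).2 h2]
    · by_cases h2 : H' v
      · rw [(h'.2 v y hv).1 h2, (h.2 v _ hv).2 h1, (h.2 v y hv).2 h1, (h'.2 v _ hv).1 h2]
      · rw [(h'.2 v y hv).2 h2, (h.2 v _ hv).2 h1, (h'.2 v _ hv).2 h2]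

/-- one letter 0 or 1 near an inner place -/
lemma near (g : ℕ) {a : ℕ} (h1 : 1 ≤ a) (h2 : a + 1 < 512 * (g + 1)) (c l : ℕ) (hl : l ≤ 1) :
    ∃ b : ℕ, b ≤ a + 1 ∧ a ≤ b + 1 ∧ b < 512 * (g + 1) ∧
      ∀ (ω : ℕ → Fin 3) (y : List (DD g)), Wp g ω (alt c l) (mm g a :: y) = mm g b :: y ∧
        Wp g ω (alt c l) (mm g b :: y) = mm g a :: y := by
  rcases (by omega : l = 0 ∨ l = 1) with rfl | rfl
  · exact ⟨a, by omega, by omega, by omega, fun ω y => ⟨rfl, rfl⟩⟩
  · have hW : ∀ (ω : ℕ → Fin 3) (z : List (DD g)), Wp g ω (alt c 1) z = Lp g ω (lt c) z :=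
      fun ω z => rfl
    have key : ∃ b : ℕ, b ≤ a + 1 ∧ a ≤ b + 1 ∧ b < 512 * (g + 1) ∧
        ∀ (ω : ℕ → Fin 3) (y : List (DD g)), Lp g ω (lt c) (mm g a :: y) = mm g b :: y := by
      by_cases hc : c % 2 = 0
      · rw [lt_even hc]
        by_cases ha : a % 2 = 0
        · exact ⟨a + 1, by omega, by omega, by omega, fun ω y => L0_even ω (by omega) ha y⟩
        · exact ⟨a - 1, by omega, by omega, by omega,
            fun ω y => L0_odd ω (by omega) (by omega) y⟩
      · rw [lt_odd (by omega)]
        by_cases ha : a % 2 = 0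
        · exact ⟨a - 1, by omega, by omega, by omega,
            fun ω y => L1_even ω (by omega) ha (by omega) y⟩
        · exact ⟨a + 1, by omega, by omega, by omega,
            fun ω y => L1_odd ω (by omega) (by omega) y⟩
    obtain ⟨b, hb1, hb2, hb3, hb4⟩ := key
    refine ⟨b, hb1, hb2, hb3, fun ω y => ⟨by rw [hW, hb4], ?_⟩⟩
    rw [hW, ← hb4 ω y, Lp_Lp]

/-- a conjugated lamp -/
lemma conj_lamp (g : ℕ) {s : Gen} (h0 : s ≠ 0) (h1 : s ≠ 1) {m : ℕ} (ω : ℕ → Fin 3) {c i : ℕ}
    (hi : i ≤ (512 * (g + 1)) ^ m) :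
    ∃ H : List (DD g) → Prop, Lamp g m ω ((Wp g (app (blk m) ω) (alt c i))⁻¹ *
        Lp g (app (blk m) ω) s * Wp g (app (blk m) ω) (alt c i)) H (es s) ∧
      ∀ v : List (DD g), v.length = m + 1 → H v → ∃ (v0 : List (DD g)) (b : ℕ), v0.length = m ∧
        b ≤ ps (es s) + 1 ∧ ps (es s) ≤ b + 1 ∧ b < 512 * (g + 1) ∧ v = v0 ++ [mm g b] := by
  have hps := ps_lt (es s)
  have main : ∀ v : List (DD g), v.length = m + 1 →
      Wp g (app (blk m) ω) (alt c i) v = Ps g m s →
      (∀ y, Wp g (app (blk m) ω) (alt c i) (v ++ y) = Ps g m s ++ y) ∧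
      ∃ (v0 : List (DD g)) (b : ℕ), v0.length = m ∧
        b ≤ ps (es s) + 1 ∧ ps (es s) ≤ b + 1 ∧ b < 512 * (g + 1) ∧ v = v0 ++ [mm g b] := by
    intro v hv hH
    obtain ⟨v0, q, hv0, rfl⟩ : ∃ (v0 : List (DD g)) (q : DD g), v0.length = m ∧
        v = v0 ++ [q] := by
      have hne : v ≠ [] := by
        intro h; rw [h] at hv; simp at hv
      refine ⟨v.dropLast, v.getLast hne, by rw [List.length_dropLast, hv]; rfl,
        (List.dropLast_append_getLast hne).symm⟩
    obtain ⟨v', c', l, hv', hl, hcon⟩ := alt_contr g m c i hi v0 hv0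
    have hcon' := hcon (app (blk m) ω)
    obtain ⟨b, hb1, hb2, hb3, hb4⟩ := near g (a := ps (es s)) (by omega) (by omega) c' l hl
    have hb5 := hb4 (shn m (app (blk m) ω))
    -- the last place
    have h2 := hcon' [q]
    rw [hH] at h2
    have h3 : Wp g (shn m (app (blk m) ω)) (alt c' l) [q] = [mm g (ps (es s))] ∧
        v' = List.replicate m (mm g (ps s)) := by
      have h4 := List.append_inj h2 (by rw [hv']; simp)
      exact ⟨h4.2.symm, h4.1.symm⟩
    have h5 : [q] = [mm g b] := by
      apply (Wp g (shn m (app (blk m) ω)) (alt c' l)).injective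
      rw [h3.1, (hb5 []).2]
    have h6 : q = mm g b := (List.cons.inj h5).1
    subst h6
    refine ⟨fun y => ?_, v0, b, hv0, hb1, hb2, hb3, rfl⟩
    rw [List.append_assoc, List.singleton_append, hcon', (hb5 y).2, h3.2, Ps, List.append_assoc,
      List.singleton_append]
  refine ⟨fun v => Wp g (app (blk m) ω) (alt c i) v = Ps g m s, ⟨?_, ?_⟩, ?_⟩
  · intro v hv
    rw [Equiv.Perm.mul_apply, Equiv.Perm.mul_apply, Equiv.Perm.inv_eq_iff_eq,
      lampS g h0 h1 m _ (by rw [Wp_length]; exact hv)]
  · intro v y hv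
    constructor
    · intro hH
      have h2 := (main v hv hH).1
      rw [Equiv.Perm.mul_apply, Equiv.Perm.mul_apply, Equiv.Perm.inv_eq_iff_eq, h2, h2,
        lampL g h0 h1 m _ (Ps_length g m s), if_pos rfl]
    · intro hH
      rw [Equiv.Perm.mul_apply, Equiv.Perm.mul_apply, Equiv.Perm.inv_eq_iff_eq]
      obtain ⟨z, hz⟩ : ∃ z, z = Wp g (app (blk m) ω) (alt c i) (v ++ y) := ⟨_, rfl⟩
      have hlen : z.length = (v ++ y).length := by rw [hz, Wp_length]
      have h2 : (z.take (m + 1)).length = m + 1 := by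
        rw [List.length_take, hlen, List.length_append]
        omega
      have h3 : z.take (m + 1) ≠ Ps g m s := by
        intro h4
        apply hH
        rw [← h4, hz, ← Wp_take, List.take_left' hv]
      rw [← hz]
      conv_lhs => rw [← List.take_append_drop (m + 1) z]
      rw [lampL g h0 h1 m _ h2, if_neg h3, List.take_append_drop]
  · intro v hv hH
    exact (main v hv hH).2

lemma ps_sep : ∀ e e' : Gen, ps e ≤ ps e' + 2 → ps e' ≤ ps e + 2 → e = e' := by
  decide

/-- flipping one factor in a product of commuting involutions -/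
lemma prod_flip {ι M : Type} [DecidableEq ι] [Monoid M] (δ : ι → M)
    (hc : ∀ x y, δ x * δ y = δ y * δ x) (hi : ∀ x, δ x * δ x = 1) (x : ι) (f : ι → Bool) :
    ∀ l : List ι, l.Nodup → x ∈ l →
      δ x * (l.map (fun z => if f z then δ z else 1)).prod =
        (l.map (fun z => if (Function.update f x (!f x)) z then δ z else 1)).prod := by
  intro l
  induction l with
  | nil => intro _ h; exact absurd h (by simp)
  | cons a l ih =>
    intro hnd hx
    rw [List.nodup_cons] at hnd
    rw [List.map_cons, List.prod_cons, List.map_cons, List.prod_cons]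
    by_cases hxa : x = a
    · subst hxa
      have h1 : l.map (fun z => if (Function.update f x (!f x)) z then δ z else 1) =
          l.map (fun z => if f z then δ z else 1) := by
        apply List.map_congr_left
        intro z hz
        have : z ≠ x := fun h => hnd.1 (h ▸ hz)
        rw [Function.update_of_ne this]
      rw [h1, Function.update_self, ← mul_assoc]
      congr 1
      cases f x
      · simp
      · simp [hi]
    · have hx' : x ∈ l := by
        rcases List.mem_cons.1 hx with h | h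
        · exact absurd h hxa
        · exact h
      rw [← ih hnd.2 hx', ← mul_assoc, ← mul_assoc,
        Function.update_of_ne (fun h => hxa h.symm)]
      congr 1
      cases f a
      · simp
      · simp [hc x a]

/-- the lamp blocks -/
theorem approx_lamp (g m N : ℕ) (hN : 0 < N) (hNm : 2 * N ≤ (512 * (g + 1)) ^ m)
    (ω : ℕ → Fin 3) : Approx g (app (blk m) ω) (1 / N) := by
  classical
  obtain ⟨ω', hω'⟩ : ∃ ω', ω' = app (blk m) ω := ⟨_, rfl⟩
  rw [← hω']
  let ι := Fin (2 * N) × Gen
  let δ : ι → Equiv.Perm (List (DD g)) := fun x =>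
    if x.2 ≠ 0 ∧ x.2 ≠ 1 then
      (Wp g ω' (alt 0 x.1.val))⁻¹ * Lp g ω' x.2 * Wp g ω' (alt 0 x.1.val) else 1
  have hδi : ∀ x, δ x * δ x = 1 := by
    intro x
    simp only [δ]
    split_ifs with h
    · have h2 := Lp_mul_self g ω' x.2
      generalize Wp g ω' (alt 0 x.1.val) = W
      generalize Lp g ω' x.2 = L at h2
      calc W⁻¹ * L * W * (W⁻¹ * L * W) = W⁻¹ * (L * L) * W := by group
        _ = 1 := by rw [h2]; group
    · rw [mul_one]
  have hδc : ∀ x y, δ x * δ y = δ y * δ x := by
    intro x y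
    simp only [δ]
    split_ifs with h1 h2
    · obtain ⟨H, hH1, hH2⟩ := conj_lamp g h1.1 h1.2 ω (c := 0) (i := x.1.val)
        (le_trans (le_of_lt x.1.isLt) hNm)
      obtain ⟨H', hH1', hH2'⟩ := conj_lamp g h2.1 h2.2 ω (c := 0) (i := y.1.val)
        (le_trans (le_of_lt y.1.isLt) hNm)
      rw [← hω'] at hH1 hH1'
      apply Lamp_comm hH1 hH1'
      intro v hv hHv hHv'
      obtain ⟨v0, b, e1, e2, e3, e4, e5⟩ := hH2 v hv hHv
      obtain ⟨v0', b', e1', e2', e3', e4', e5'⟩ := hH2' v hv hHv'
      rw [e5] at e5'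
      have h3 := List.append_inj_right e5' (by rw [e1, e1'])
      have h4 := congrArg Fin.val (List.cons.inj h3).1
      rw [mm_val e4, mm_val e4'] at h4
      exact ps_sep _ _ (by omega) (by omega)
    · rw [mul_one, one_mul]
    · rw [mul_one, one_mul]
    · rfl
  let L : List ι := Finset.univ.toList
  have hLnd : L.Nodup := Finset.nodup_toList _
  have hLmem : ∀ x, x ∈ L := fun x => Finset.mem_toList.2 (Finset.mem_univ x)
  let P : (ι → Bool) → Equiv.Perm (List (DD g)) := fun f =>
    (L.map (fun z => if f z then δ z else 1)).prod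
  have hP : ∀ x f, δ x * P f = P (Function.update f x (!f x)) := fun x f =>
    prod_flip δ hδc hδi x f L hLnd (hLmem x)
  -- the moves of the cursor
  let μ : Gen → Fin (2 * N) → Fin (2 * N) := fun s i =>
    if s = 0 then (if h : i.val % 2 = 0 then ⟨i.val + 1, by have := i.isLt; omega⟩
      else ⟨i.val - 1, by have := i.isLt; omega⟩)
    else if s = 1 then
      (if h : i.val % 2 = 1 then (if h2 : i.val + 1 < 2 * N then ⟨i.val + 1, h2⟩ else i)
        else ⟨i.val - 1, by have := i.isLt; omega⟩)
    else i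
  have hμ : ∀ s i, μ s (μ s i) = i := by
    intro s i
    have hi := i.isLt
    apply Fin.ext
    by_cases hs0 : s = 0
    · simp only [μ, if_pos hs0]
      by_cases h : i.val % 2 = 0
      · rw [dif_pos h, dif_neg (by simp only; omega)]
        simp only
        omega
      · rw [dif_neg h, dif_pos (by simp only; omega)]
        simp only
        omega
    · by_cases hs1 : s = 1
      · simp only [μ, if_neg hs0, if_pos hs1]
        by_cases h : i.val % 2 = 1
        · by_cases h2 : i.val + 1 < 2 * N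
          · rw [dif_pos h, dif_pos h2, dif_neg (by simp only; omega)]
            simp only
            omega
          · rw [dif_pos h, dif_neg h2, dif_pos h, dif_neg h2]
        · rw [dif_neg h]
          by_cases h0 : i.val = 0
          · rw [dif_neg (by simp only; omega)]
            simp only
            omega
          · rw [dif_pos (by simp only; omega), dif_pos (by simp only; omega)]
            simp only
            omega
      · simp only [μ, if_neg hs0, if_neg hs1]
  let φ : Gen → Fin (2 * N) × (ι → Bool) → Fin (2 * N) × (ι → Bool) := fun s o =>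
    (μ s o.1, if s = 0 ∨ s = 1 then o.2 else Function.update o.2 (o.1, s) (!o.2 (o.1, s)))
  have hφ : ∀ s o, φ s (φ s o) = o := by
    intro s o
    obtain ⟨i, f⟩ := o
    simp only [φ]
    refine Prod.ext (hμ s i) ?_
    simp only
    by_cases hs : s = 0 ∨ s = 1
    · rw [if_pos hs, if_pos hs]
    · rw [if_neg hs, if_neg hs]
      have h1 : μ s i = i := by
        simp only [μ]
        rw [if_neg (fun h => hs (Or.inl h)), if_neg (fun h => hs (Or.inr h))]
      rw [h1, Function.update_self, Function.update_idem, Bool.not_not, Function.update_eq_self]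
  let TT : Fin (2 * N) × (ι → Bool) → Equiv.Perm (List (DD g)) := fun o =>
    Wp g ω' (alt 0 o.1.val) * P o.2
  have hne : Nonempty (Fin (2 * N) × (ι → Bool)) :=
    ⟨(⟨0, by omega⟩, fun _ => false)⟩
  refine ⟨Fin (2 * N) × (ι → Bool), inferInstance, hne, TT, φ, ?_, ?_⟩
  · intro s o o' h
    rw [← hφ s o, h, hφ]
  · intro s
    -- exceptional positions
    have hgood : ∀ o : Fin (2 * N) × (ι → Bool), o.1.val ≠ 0 → o.1.val + 1 ≠ 2 * N →
        Lp g ω' s * TT o = TT (φ s o) := by
      rintro ⟨i, f⟩ hi0 hi1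
      simp only at hi0 hi1
      have hilt := i.isLt
      simp only [TT, φ]
      by_cases hs0 : s = 0
      · subst hs0
        rw [if_pos (Or.inl rfl)]
        by_cases h : i.val % 2 = 0
        · have e : (μ 0 i).val = i.val + 1 := by simp only [μ, if_true]; rw [dif_pos h]
          rw [e, alt, zero_add, lt_even h, Wp_cons, mul_assoc]
        · have e : (μ 0 i).val = i.val - 1 := by simp only [μ, if_true]; rw [dif_neg h]
          obtain ⟨k, hk⟩ : ∃ k, i.val = k + 1 := ⟨i.val - 1, by omega⟩
          rw [e, hk, Nat.add_sub_cancel, alt, zero_add, lt_even (by omega), Wp_cons, ← mul_assoc,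
            ← mul_assoc, Lp_mul_self, one_mul]
      · by_cases hs1 : s = 1
        · subst hs1
          rw [if_pos (Or.inr rfl)]
          by_cases h : i.val % 2 = 1
          · have e : (μ 1 i).val = i.val + 1 := by
              simp only [μ, if_neg hs0, if_true]
              rw [dif_pos h, dif_pos (by omega)]
            rw [e, alt, zero_add, lt_odd h, Wp_cons, mul_assoc]
          · have e : (μ 1 i).val = i.val - 1 := by
              simp only [μ, if_neg hs0, if_true]
              rw [dif_neg h]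
            obtain ⟨k, hk⟩ : ∃ k, i.val = k + 1 := ⟨i.val - 1, by omega⟩
            rw [e, hk, Nat.add_sub_cancel, alt, zero_add, lt_odd (by omega), Wp_cons, ← mul_assoc,
              ← mul_assoc, Lp_mul_self, one_mul]
        · have e : μ s i = i := by simp only [μ, if_neg hs0, if_neg hs1]
          rw [e, if_neg (by
            rintro (h | h)
            · exact hs0 h
            · exact hs1 h), ← hP]
          have e2 : δ (i, s) = (Wp g ω' (alt 0 i.val))⁻¹ * Lp g ω' s * Wp g ω' (alt 0 i.val) := by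
            simp only [δ]
            rw [if_pos ⟨hs0, hs1⟩]
          rw [e2]
          group
    have hsub : ({o | Lp g ω' s * TT o ≠ TT (φ s o)} : Set (Fin (2 * N) × (ι → Bool))) ⊆
        ({⟨0, by omega⟩, ⟨2 * N - 1, by omega⟩} : Set (Fin (2 * N))) ×ˢ Set.univ := by
      intro o ho
      refine ⟨?_, trivial⟩
      by_contra hcon
      apply ho
      apply hgood
      · intro h
        exact hcon (Or.inl (Fin.ext h))
      · intro h
        exact hcon (Or.inr (Fin.ext (by show o.1.val = 2 * N - 1; omega)))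
    have h1 : ({o | Lp g ω' s * TT o ≠ TT (φ s o)} : Set (Fin (2 * N) × (ι → Bool))).ncard ≤
        2 * Nat.card (ι → Bool) := by
      refine (Set.ncard_le_ncard hsub (Set.toFinite _)).trans ?_
      rw [Set.ncard_prod, Set.ncard_univ]
      exact Nat.mul_le_mul_right _ (Set.ncard_insert_le _ _ |>.trans (by
        rw [Set.ncard_singleton]))
    rw [Nat.card_prod, Nat.card_fin]
    have h2 : (({o | Lp g ω' s * TT o ≠ TT (φ s o)} : Set (Fin (2 * N) × (ι → Bool))).ncard : ℝ) ≤
        2 * Nat.card (ι → Bool) := by exact_mod_cast h1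
    refine h2.trans (le_of_eq ?_)
    have h3 : (N : ℝ) ≠ 0 := by exact_mod_cast hN.ne'
    push_cast
    field_simp

end Pool.Agent.H258R3.Am
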