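import Pool.Agent.H258R3.AmF

/-!
The step over one level, and the choice of the sequence of types.
-/

set_option autoImplicit false

namespace Pool.Agent.H258R3.Am

lemma fiber_count {P ι O : Type} [Finite P] [Finite ι] [Finite O] [Nonempty O] (i : ι)
    (B : P → Set O) (b : ℝ) (hB : ∀ π, ((B π).ncard : ℝ) ≤ b * Nat.card O) :
    (({x | x.2 i ∈ B x.1} : Set (P × (ι → O))).ncard : ℝ) ≤ b * Nat.card (P × (ι → O)) := by
  classical
  have := Fintype.ofFinite P
  let E : Set (P × (ι → O)) := {x | x.2 i ∈ B x.1}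
  let Ψ : E × O → (Σ π : P, (B π) × (ι → O)) := fun x =>
    ⟨x.1.1.1, ⟨⟨x.1.1.2 i, x.1.2⟩, Function.update x.1.1.2 i x.2⟩⟩
  have hinj : Function.Injective Ψ := by
    rintro ⟨⟨⟨π, f⟩, h⟩, o⟩ ⟨⟨⟨π', f'⟩, h'⟩, o'⟩ heq
    simp only [Ψ, Sigma.mk.injEq] at heq
    obtain ⟨h1, h2⟩ := heq
    subst h1
    rw [heq_eq_eq, Prod.mk.injEq, Subtype.mk.injEq] at h2
    obtain ⟨h3, h4⟩ := h2
    have h5 : o = o' := by
      have := congrFun h4 i
      rwa [Function.update_self, Function.update_self] at this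
    subst h5
    have h6 : f = f' := by
      funext j
      by_cases hj : j = i
      · rw [hj]; exact h3
      · have := congrFun h4 j
        rwa [Function.update_of_ne hj, Function.update_of_ne hj] at this
    subst h6
    rfl
  have h1 := Nat.card_le_card_of_injective Ψ hinj
  rw [Nat.card_prod, Nat.card_sigma] at h1
  have h2 : (Nat.card E : ℝ) * Nat.card O ≤
      ∑ π : P, (((B π).ncard : ℝ) * Nat.card (ι → O)) := by
    have h3 : ((Nat.card E * Nat.card O : ℕ) : ℝ) ≤
        ((∑ π : P, Nat.card ((B π) × (ι → O)) : ℕ) : ℝ) := by exact_mod_cast h1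
    push_cast at h3
    refine h3.trans (le_of_eq ?_)
    apply Finset.sum_congr rfl
    intro π _
    rw [Nat.card_prod, Nat.card_coe_set_eq]
    push_cast
    ring
  have h3 : ∑ π : P, (((B π).ncard : ℝ) * Nat.card (ι → O)) ≤
      ∑ π : P, (b * Nat.card O * Nat.card (ι → O)) := by
    apply Finset.sum_le_sum
    intro π _
    exact mul_le_mul_of_nonneg_right (hB π) (Nat.cast_nonneg _)
  rw [Finset.sum_const, Finset.card_univ, nsmul_eq_mul, ← Nat.card_eq_fintype_card] at h3
  have hO : (0 : ℝ) < Nat.card O := by exact_mod_cast Nat.card_pos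
  have h4 : (Nat.card E : ℝ) * Nat.card O ≤
      (b * (Nat.card P * Nat.card (ι → O))) * Nat.card O := by
    refine (h2.trans h3).trans (le_of_eq ?_)
    ring
  have h5 := le_of_mul_le_mul_right h4 hO
  rw [Nat.card_prod]
  push_cast
  rw [← Nat.card_coe_set_eq]
  exact h5

lemma pp_inv (g : ℕ) (ty : Fin 3) (s : Gen) (p : DD g) : pp g ty s (pp g ty s p) = p :=
  Fin.ext (piN_inv g ty s p.val p.isLt)

theorem approx_step {g : ℕ} {ω : ℕ → Fin 3} {ε : ℝ} (hε : 0 ≤ ε) (h : Approx g (sh ω) ε) :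
    Approx g ω ((512 * (g + 1) : ℕ) * ε) := by
  classical
  obtain ⟨Ω, hfin, hne, T, φ, hφ, herr⟩ := h
  let A : Gen → Equiv.Perm (DD g) := fun s =>
    ⟨pp g (ω 0) s, pp g (ω 0) s, pp_inv g (ω 0) s, pp_inv g (ω 0) s⟩
  let sc : Gen → DD g → Option Gen := fun s p => secN (512 * (g + 1)) (ω 0) s p.val
  let F1 : Equiv.Perm (DD g) × (DD g → Ω) → List (DD g) → List (DD g) := fun o z =>
    match z with
    | [] => []
    | p :: y => o.1 p :: T (o.2 p) y
  let F2 : Equiv.Perm (DD g) × (DD g → Ω) → List (DD g) → List (DD g) := fun o z =>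
    match z with
    | [] => []
    | q :: y => o.1.symm q :: (T (o.2 (o.1.symm q))).symm y
  let TT : Equiv.Perm (DD g) × (DD g → Ω) → Equiv.Perm (List (DD g)) := fun o =>
    ⟨F1 o, F2 o, by
      intro z
      cases z with
      | nil => rfl
      | cons p y => simp [F1, F2], by
      intro z
      cases z with
      | nil => rfl
      | cons p y => simp [F1, F2]⟩
  let φ' : Gen → Equiv.Perm (DD g) × (DD g → Ω) → Equiv.Perm (DD g) × (DD g → Ω) := fun s o =>
    (A s * o.1, fun p => match sc s (o.1 p) with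
      | none => o.2 p
      | some s' => φ s' (o.2 p))
  have hne' : Nonempty (Equiv.Perm (DD g) × (DD g → Ω)) := ⟨(1, fun _ => hne.some)⟩
  refine ⟨Equiv.Perm (DD g) × (DD g → Ω), inferInstance, hne', TT, φ', ?_, ?_⟩
  · rintro s ⟨π, f⟩ ⟨π', f'⟩ heq
    simp only [φ', Prod.mk.injEq] at heq
    obtain ⟨h1, h2⟩ := heq
    have h3 : π = π' := mul_left_cancel h1
    subst h3
    refine Prod.ext rfl ?_
    funext p
    have h4 := congrFun h2 p
    rcases hs : sc s (π p) with _ | s'
    · simp only [hs] at h4; exact h4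
    · simp only [hs] at h4; exact hφ s' h4
  · intro s
    have hsub : ({o | Lp g ω s * TT o ≠ TT (φ' s o)} :
        Set (Equiv.Perm (DD g) × (DD g → Ω))) ⊆
        ⋃ p : DD g, {o | o.2 p ∈ {x : Ω | ∃ s', sc s (o.1 p) = some s' ∧
          Lp g (sh ω) s' * T x ≠ T (φ s' x)}} := by
      intro o ho
      by_contra hcon
      apply ho
      have hgood : ∀ p s', sc s (o.1 p) = some s' →
          Lp g (sh ω) s' * T (o.2 p) = T (φ s' (o.2 p)) := by
        intro p s' hs'
        by_contra hne2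
        apply hcon
        rw [Set.mem_iUnion]
        exact ⟨p, s', hs', hne2⟩
      ext1 z
      cases z with
      | nil => rfl
      | cons p y =>
        show Lp g ω s (o.1 p :: T (o.2 p) y) = F1 (φ' s o) (p :: y)
        rcases hs : sc s (o.1 p) with _ | s'
        · rw [Lp_none hs]
          simp only [F1, φ', hs]
          rfl
        · rw [Lp_some hs]
          simp only [F1, φ', hs]
          have hfix : A s (o.1 p) = o.1 p := by
            have := (sys g).sec_fix s (ω 0, o.1 p) s' hs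
            exact congrArg Prod.snd this
          rw [Equiv.Perm.mul_apply, hfix, ← hgood p s' hs]
          rfl
    have hcount : ∀ p : DD g, (({o | o.2 p ∈ {x : Ω | ∃ s', sc s (o.1 p) = some s' ∧
          Lp g (sh ω) s' * T x ≠ T (φ s' x)}} :
          Set (Equiv.Perm (DD g) × (DD g → Ω))).ncard : ℝ) ≤
          ε * Nat.card (Equiv.Perm (DD g) × (DD g → Ω)) := by
      intro p
      apply fiber_count p (fun π : Equiv.Perm (DD g) => {x : Ω | ∃ s', sc s (π p) = some s' ∧
          Lp g (sh ω) s' * T x ≠ T (φ s' x)}) ε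
      intro π
      rcases hs : sc s (π p) with _ | s'
      · have : ({x : Ω | ∃ s', (none : Option Gen) = some s' ∧
            Lp g (sh ω) s' * T x ≠ T (φ s' x)}) = ∅ := by
          ext x; simp
        rw [this, Set.ncard_empty, Nat.cast_zero]
        positivity
      · have : ({x : Ω | ∃ s'', (some s' : Option Gen) = some s'' ∧
            Lp g (sh ω) s'' * T x ≠ T (φ s'' x)}) =
            {x : Ω | Lp g (sh ω) s' * T x ≠ T (φ s' x)} := by
          ext x; simp
        rw [this]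
        exact herr s'
    have h1 : ({o | Lp g ω s * TT o ≠ TT (φ' s o)} :
        Set (Equiv.Perm (DD g) × (DD g → Ω))).ncard ≤
        ∑ p : DD g, ({o | o.2 p ∈ {x : Ω | ∃ s', sc s (o.1 p) = some s' ∧
          Lp g (sh ω) s' * T x ≠ T (φ s' x)}} :
          Set (Equiv.Perm (DD g) × (DD g → Ω))).ncard := by
      refine (Set.ncard_le_ncard hsub (Set.toFinite _)).trans ?_
      have := Finset.set_ncard_biUnion_le (Finset.univ : Finset (DD g))
        (fun p => ({o | o.2 p ∈ {x : Ω | ∃ s', sc s (o.1 p) = some s' ∧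
          Lp g (sh ω) s' * T x ≠ T (φ s' x)}} :
          Set (Equiv.Perm (DD g) × (DD g → Ω))))
      simpa using this
    have h2 : (({o | Lp g ω s * TT o ≠ TT (φ' s o)} :
        Set (Equiv.Perm (DD g) × (DD g → Ω))).ncard : ℝ) ≤
        ∑ p : DD g, (({o | o.2 p ∈ {x : Ω | ∃ s', sc s (o.1 p) = some s' ∧
          Lp g (sh ω) s' * T x ≠ T (φ s' x)}} :
          Set (Equiv.Perm (DD g) × (DD g → Ω))).ncard : ℝ) := by exact_mod_cast h1
    refine h2.trans ((Finset.sum_le_sum (fun p _ => hcount p)).trans (le_of_eq ?_))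
    rw [Finset.sum_const, Finset.card_univ, Fintype.card_fin, nsmul_eq_mul]
    ring

theorem approx_app {g : ℕ} {ω : ℕ → Fin 3} {ε : ℝ} (hε : 0 ≤ ε) (h : Approx g ω ε)
    (u : List (Fin 3)) : Approx g (app u ω) (((512 * (g + 1) : ℕ) : ℝ) ^ u.length * ε) := by
  induction u with
  | nil => simpa [app_nil] using h
  | cons t u ih =>
    rw [List.length_cons, pow_succ', mul_assoc]
    apply approx_step (by positivity)
    rw [sh_app]
    exact ih

/-! ### the sequence of types -/

/-- what is achieved at one stage -/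
def Good (g : ℕ) (u : List (Fin 3)) (ε : ℝ) : Prop :=
  (∀ ω, Approx g (app u ω) ε) ∧
    ∃ (M : ℕ) (w : List Gen), 0 < M ∧ (w.length : ℝ) ≤ ε * M ∧ ∀ ω, Acts g (app u ω) w M

theorem exists_ext {C g : ℕ} (hC1 : 1 ≤ C)
    (hC : ∀ w, (fw w).length + 1 ≤ C * (w.length + 1)) (hg : 2 * C ≤ 512 * (g + 1))
    (u : List (Fin 3)) (hu : Pass g u) (ε : ℝ) (hε : 0 < ε) :
    ∃ e : List (Fin 3), e ≠ [] ∧ Pass g (u ++ e) ∧ Good g (u ++ e) ε := by
  obtain ⟨C0, hC0⟩ := id hu
  obtain ⟨K, hK⟩ : ∃ K, K = 512 * (g + 1) := ⟨_, rfl⟩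
  rw [← hK] at hg
  have hK1 : 1 ≤ K := by omega
  -- the number of levels of type 0
  obtain ⟨k, hk⟩ : ∃ k : ℕ, (3 * C0 : ℝ) / ε < 2 ^ (k + 1) := by
    obtain ⟨k, hk⟩ := pow_unbounded_of_one_lt ((3 * C0 : ℝ) / ε) (by norm_num : (1 : ℝ) < 2)
    refine ⟨k, hk.trans ?_⟩
    rw [pow_succ]
    have : (0 : ℝ) < 2 ^ k := by positivity
    linarith
  -- the length of the block
  obtain ⟨N, hN⟩ := exists_nat_gt ((K : ℝ) ^ (u ++ List.replicate (k + 1) (0 : Fin 3)).length / ε)
  have hN0 : 0 < N := by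
    rcases Nat.eq_zero_or_pos N with h | h
    · exfalso
      rw [h, Nat.cast_zero] at hN
      have : (0 : ℝ) ≤ (K : ℝ) ^ (u ++ List.replicate (k + 1) (0 : Fin 3)).length / ε := by
        positivity
      linarith
    · exact h
  have hm : 2 * N ≤ K ^ (2 * N) := by
    have h1 : 2 * N < 2 ^ (2 * N) := Nat.lt_two_pow_self
    have h2 : 2 ^ (2 * N) ≤ K ^ (2 * N) := Nat.pow_le_pow_left (by omega) _
    omega
  refine ⟨List.replicate (k + 1) 0 ++ blk (2 * N), ?_, Pass_append hu (Pass_block g k (2 * N)),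
    ?_, ?_⟩
  · intro h
    have := congrArg List.length h
    simp at this
  · intro ω
    rw [← List.append_assoc, app_append]
    have h1 := approx_lamp g (2 * N) N hN0 (by rw [← hK]; exact hm) ω
    have h2 := approx_app (by positivity) h1 (u ++ List.replicate (k + 1) 0)
    rw [← hK] at h2
    refine Approx_mono h2 ?_
    rw [div_lt_iff₀ hε] at hN
    have hN' : (0 : ℝ) < N := by exact_mod_cast hN0
    rw [mul_one_div, div_le_iff₀ hN']
    linarith
  · have hok : Ok (fw^[k + 1] [0, 1]) := by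
      rw [Function.iterate_succ_apply']
      exact fw_ok _
    obtain ⟨w', _, h2, h3⟩ := hC0 _ hok
    have hlen := fw_iter_len hC (k + 1) [0, 1]
    refine ⟨K ^ u.length * (K ^ (k + 1) * 1), w', by positivity, ?_, fun ω => ?_⟩
    · have h4 : w'.length + 1 ≤ C0 * (C ^ (k + 1) * 3) :=
        h2.trans (Nat.mul_le_mul_left _ (by simpa using hlen))
      have h5 : (w'.length : ℝ) ≤ C0 * ((C : ℝ) ^ (k + 1) * 3) := by
        have h6 : w'.length ≤ C0 * (C ^ (k + 1) * 3) := by omega
        exact_mod_cast h6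
      have h6 : ((2 * C : ℕ) : ℝ) ^ (k + 1) ≤ (K : ℝ) ^ (k + 1) :=
        pow_le_pow_left₀ (Nat.cast_nonneg _) (by exact_mod_cast hg) _
      have h7 : (3 * C0 : ℝ) ≤ ε * 2 ^ (k + 1) := by
        rw [div_lt_iff₀ hε] at hk
        linarith
      have h8 : (0 : ℝ) ≤ (C : ℝ) ^ (k + 1) := by positivity
      have h9 : (1 : ℝ) ≤ (K : ℝ) ^ u.length := one_le_pow₀ (by exact_mod_cast hK1)
      push_cast at h6 ⊢
      rw [mul_pow] at h6
      have h10 : (C0 : ℝ) * ((C : ℝ) ^ (k + 1) * 3) ≤ ε * 2 ^ (k + 1) * (C : ℝ) ^ (k + 1) := by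
        have := mul_le_mul_of_nonneg_right h7 h8
        linarith
      have h11 : ε * 2 ^ (k + 1) * (C : ℝ) ^ (k + 1) ≤ ε * (K : ℝ) ^ (k + 1) := by
        have := mul_le_mul_of_nonneg_left h6 hε.le
        linarith
      have h12 : ε * (K : ℝ) ^ (k + 1) ≤ ε * ((K : ℝ) ^ u.length * ((K : ℝ) ^ (k + 1) * 1)) := by
        apply mul_le_mul_of_nonneg_left _ hε.le
        have h13 : (0 : ℝ) ≤ (K : ℝ) ^ (k + 1) := by positivity
        nlinarith
      linarith
    · rw [app_append, app_append, hK]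
      apply h3
      apply fw_iter_acts
      rfl

lemma app_shn (u : List (Fin 3)) : ∀ ω : ℕ → Fin 3, (∀ i (h : i < u.length), u[i] = ω i) →
    app u (shn u.length ω) = ω := by
  induction u with
  | nil => intro ω _; rfl
  | cons t u ih =>
    intro ω h
    have h1 := ih (sh ω) (fun i hi => h (i + 1) (by simpa using hi))
    funext n
    cases n with
    | zero => exact h 0 (by simp)
    | succ n => exact congrFun h1 n

theorem exists_types {C g : ℕ} (hC1 : 1 ≤ C)
    (hC : ∀ w, (fw w).length + 1 ≤ C * (w.length + 1)) (hg : 2 * C ≤ 512 * (g + 1)) :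
    ∃ ω : ℕ → Fin 3, (∀ ε : ℝ, 0 < ε → Approx g ω ε) ∧
      ∀ ε : ℝ, 0 < ε → ∃ (M : ℕ) (w : List Gen), 0 < M ∧ (w.length : ℝ) ≤ ε * M ∧
        Acts g ω w M := by
  have hex : ∀ (u : {u : List (Fin 3) // Pass g u}) (n : ℕ), ∃ u' : {u : List (Fin 3) // Pass g u},
      ∃ e : List (Fin 3), e ≠ [] ∧ u'.1 = u.1 ++ e ∧ Good g u'.1 (1 / ((n : ℝ) + 1)) := by
    rintro ⟨u, hu⟩ n
    obtain ⟨e, h1, h2, h3⟩ := exists_ext hC1 hC hg u hu (1 / ((n : ℝ) + 1)) (by positivity)
    exact ⟨⟨u ++ e, h2⟩, e, h1, rfl, h3⟩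
  choose nx hnx using hex
  let sq : ℕ → {u : List (Fin 3) // Pass g u} := fun n =>
    Nat.rec ⟨[], Pass_nil g⟩ (fun n u => nx u n) n
  have hsq : ∀ n, ∃ e : List (Fin 3), e ≠ [] ∧ (sq (n + 1)).1 = (sq n).1 ++ e ∧
      Good g (sq (n + 1)).1 (1 / ((n : ℝ) + 1)) := fun n => hnx (sq n) n
  have hlen : ∀ n, n ≤ (sq n).1.length := by
    intro n
    induction n with
    | zero => exact Nat.zero_le _
    | succ n ih =>
      obtain ⟨e, h1, h2, _⟩ := hsq n
      rw [h2, List.length_append]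
      have : 0 < e.length := List.length_pos_iff.2 h1
      omega
  have hpre : ∀ a b, a ≤ b → (sq a).1 <+: (sq b).1 := by
    intro a b hab
    induction b, hab using Nat.le_induction with
    | base => exact List.prefix_refl _
    | succ b _ ih =>
      obtain ⟨e, _, h2, _⟩ := hsq b
      rw [h2]
      exact ih.trans (List.prefix_append _ _)
  let ω : ℕ → Fin 3 := fun n => ((sq (n + 1)).1)[n]'(hlen (n + 1))
  have hω : ∀ n, ∃ ω', ω = app (sq n).1 ω' := by
    intro n
    refine ⟨shn (sq n).1.length ω, (app_shn _ _ ?_).symm⟩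
    intro i hi
    rcases Nat.le_total n (i + 1) with h | h
    · exact (hpre _ _ h).getElem hi
    · exact ((hpre _ _ h).getElem (hlen (i + 1))).symm
  refine ⟨ω, ?_, ?_⟩
  · intro ε hε
    obtain ⟨n, hn⟩ := exists_nat_one_div_lt hε
    obtain ⟨e, _, _, h3⟩ := hsq n
    obtain ⟨ω', hω'⟩ := hω (n + 1)
    rw [hω']
    exact Approx_mono (h3.1 ω') hn.le
  · intro ε hε
    obtain ⟨n, hn⟩ := exists_nat_one_div_lt hε
    obtain ⟨e, _, _, h3⟩ := hsq n
    obtain ⟨ω', hω'⟩ := hω (n + 1)
    obtain ⟨M, w, h4, h5, h6⟩ := h3.2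
    refine ⟨M, w, h4, h5.trans ?_, ?_⟩
    · exact mul_le_mul_of_nonneg_right hn.le (Nat.cast_nonneg _)
    · rw [hω']
      exact h6 ω'

/-! ### infinite order -/

lemma Dg_move {K m : ℕ} (hK : 4 ≤ K) (hK2 : K % 2 = 0) (h1 : 1 ≤ m) (h2 : m < K) :
    Dg K (1 + 2 * m) < K ∧ Dg K (1 + 2 * m) ≠ 1 := by
  by_cases h3 : 1 + 2 * m < K
  · have h4 : Dg K (1 + 2 * m) = 1 + 2 * m := by
      have := Dg_of (q := 0) h3
      simpa using this
    omega
  · have h6 : 1 + 2 * m = K * 1 + (1 + 2 * m - K) := by omega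
    have h7 : Dg K (1 + 2 * m) = K - 1 - (1 + 2 * m - K) := by
      rw [h6, Dg_of (by omega), if_neg (by norm_num)]
      omega
    omega

lemma alt_move (g : ℕ) (ω : ℕ → Fin 3) (m : ℕ) (h1 : 1 ≤ m) (h2 : m < 512 * (g + 1)) :
    Wp g ω (alt 1 (2 * m)) [mm g 1] ≠ [mm g 1] := by
  rw [alt_path g ω 1 1 (by omega)]
  intro he
  have e1 := (List.cons.inj he).1
  have hz : z0 (512 * (g + 1)) 1 1 = 1 := rfl
  rw [hz] at e1
  obtain ⟨h3, h4⟩ := Dg_move (K := 512 * (g + 1)) (by omega) (by omega) h1 h2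
  apply h4
  have e2 := congrArg Fin.val e1
  rwa [mm_val h3, mm_val (by omega)] at e2

theorem alt_inf (g : ℕ) (n : ℕ) : n ≠ 0 → ∀ ω : ℕ → Fin 3, ∃ y : List (DD g),
    Wp g ω (alt 1 (2 * n)) y ≠ y := by
  induction n using Nat.strong_induction_on with
  | _ n ih =>
    intro hn ω
    obtain ⟨K, hK⟩ : ∃ K, K = 512 * (g + 1) := ⟨_, rfl⟩
    have hK1 : 1 < K := by omega
    by_cases h : n % K = 0
    · have h1 : n = K * (n / K) := by
        have := Nat.div_add_mod n K
        omega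
      have h2 : n / K ≠ 0 := by
        intro h3
        rw [h3] at h1
        omega
      have h3 : n / K < n := Nat.div_lt_self (by omega) hK1
      obtain ⟨y, hy⟩ := ih (n / K) h3 h2 (sh ω)
      refine ⟨mm g 1 :: y, ?_⟩
      rw [h1, hK, alt_full_one]
      have e : (1 + z0 (512 * (g + 1)) 1 (mm g 1).val / (512 * (g + 1))) = 1 := by
        rw [mm_val (by omega), z0, if_pos rfl, Nat.div_eq_of_lt (by omega)]
      rw [e, ← hK]
      intro he
      exact hy (List.cons.inj he).2
    · refine ⟨[mm g 1], ?_⟩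
      intro he
      apply alt_move g ω (n % K) (by omega) (by rw [← hK]; exact Nat.mod_lt _ (by omega))
      have h1 : 2 * n = 2 * (n % K) + 2 * (K * (n / K)) := by
        have := Nat.div_add_mod n K
        omega
      have hsplit : ∀ a b c, Wp g ω (alt c (2 * a + 2 * b)) =
          Wp g ω (alt c (2 * a)) * Wp g ω (alt c (2 * b)) := by
        intro a b c
        induction a with
        | zero =>
          rw [mul_zero, zero_add]
          show _ = (1 : Equiv.Perm (List (DD g))) * _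
          rw [one_mul]
        | succ a iha =>
          have e1 : 2 * (a + 1) + 2 * b = 2 * (a + b + 1) := by ring
          have e2 : 2 * (a + b) = 2 * a + 2 * b := by ring
          rw [e1, alt_two, alt_two, Wp_cons, Wp_cons, Wp_cons, Wp_cons, e2, iha]
          group
      rw [h1, hsplit, Equiv.Perm.mul_apply, hK, alt_full_one, Wp_empty, ← hK] at he
      exact he

end Pool.Agent.H258R3.Am
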