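import Pool.Agent.H258R3.AmH

/-!
The two-sided subshift of a sequence of types.
-/

set_option autoImplicit false

namespace Pool.Agent.H258R3.Am

abbrev QQ (g : ℕ) := Q (Fin 3 × DD g)

variable (g : ℕ)

lemma Ed_fst (d : Fin 3 × DD g) (a b : QQ g) :
    ((sys g).Ed d a b).map Prod.fst = a.2.2.map Prod.fst := by
  obtain ⟨p, t, x⟩ := a
  cases p
  · rw [(sys g).Ed_even d rfl]
  · rcases x with _ | ⟨di, ρ⟩
    · rw [(sys g).Ed_none d rfl]
    · rw [(sys g).Ed_some]; rfl

lemma S_digits : ∀ y y' : List (Fin 3 × DD g), y.length = y'.length →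
    (∀ i, (((sys g).S y i).2.2.map Prod.fst) = (((sys g).S y' i).2.2.map Prod.fst)) → y = y' := by
  intro y
  induction y with
  | nil =>
    intro y' hl _
    exact (List.length_eq_zero_iff.1 hl.symm).symm
  | cons d y ih =>
    intro y' hl h
    rcases y' with _ | ⟨d', y'⟩
    · exact absurd hl (by simp)
    · have h1 := h 1
      simp only [Sys.S] at h1
      rw [(sys g).PP_odd d _ (i := 1) rfl, (sys g).PP_odd d' _ (i := 1) rfl] at h1
      have hd : d = d' := Option.some.inj h1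
      rw [hd, ih y' (by simpa using hl)]
      intro i
      have h2 := h (2 * i)
      simp only [Sys.S] at h2
      rw [(sys g).PP_even d _ (i := 2 * i) (by omega), (sys g).PP_even d' _ (i := 2 * i) (by omega)]
        at h2
      simp only at h2
      rw [Ed_fst, Ed_fst, show 2 * i / 2 = i by omega] at h2
      exact h2

noncomputable def FW (w : List Gen) (x : ℕ → QQ g) : ℕ → QQ g :=
  w.foldr (fun s x => (sys g).act s x) x

lemma FW_cons (s : Gen) (w : List Gen) (x : ℕ → QQ g) :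
    FW g (s :: w) x = (sys g).act s (FW g w x) := rfl

lemma FW_S (ω : ℕ → Fin 3) (w : List Gen) (y : List (DD g)) :
    FW g w ((sys g).S (tag y ω)) = (sys g).S (tag (Wp g ω w y) ω) := by
  induction w with
  | nil => rfl
  | cons s w ih =>
    rw [FW_cons, ih, (sys g).act_S, actL_tag]
    rfl

lemma FW_shift (w : List Gen) (x : ℕ → QQ g) (j : ℕ) :
    FW g w (fun i => x (i + j)) = fun i => FW g w x (i + j) := by
  induction w with
  | nil => rfl
  | cons s w ih =>
    rw [FW_cons, ih, FW_cons]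
    funext i
    simp only [Sys.act]
    congr 2
    ring

lemma FW_local (w : List Gen) : ∀ (x x' : ℕ → QQ g) (L : ℕ),
    (∀ i < L + w.length, x i = x' i) → ∀ i < L, FW g w x i = FW g w x' i := by
  induction w with
  | nil => intro x x' L h i hi; exact h i (by simpa using hi)
  | cons s w ih =>
    intro x x' L h i hi
    have h1 := ih x x' (L + 1) (fun k hk => h k (by
      rw [List.length_cons]; omega))
    rw [FW_cons, FW_cons]
    simp only [Sys.act]
    rw [h1 i (by omega), h1 (i + 1) (by omega)]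

def X (ω : ℕ → Fin 3) : Set (ℕ → QQ g) :=
  {x | ∀ L, ∃ (y : List (DD g)) (j : ℕ), ∀ i < L, x i = (sys g).S (tag y ω) (i + j)}

lemma X_closed (ω : ℕ → Fin 3) (x : ℕ → QQ g) (h : ∀ m : ℕ, ∃ y ∈ X g ω, ∀ i < m, y i = x i) :
    x ∈ X g ω := by
  intro L
  obtain ⟨y, hy, hyx⟩ := h L
  obtain ⟨z, j, h2⟩ := hy L
  exact ⟨z, j, fun i hi => by rw [← hyx i hi, h2 i hi]⟩

lemma X_FW {ω : ℕ → Fin 3} (w : List Gen) {x : ℕ → QQ g} (hx : x ∈ X g ω) :
    FW g w x ∈ X g ω := by
  intro L
  obtain ⟨z, j, h2⟩ := hx (L + w.length)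
  refine ⟨Wp g ω w z, j, fun i hi => ?_⟩
  rw [FW_local g w x (fun i => (sys g).S (tag z ω) (i + j)) L h2 i hi, FW_shift, FW_S]

lemma X_ext {ω : ℕ → Fin 3} {w w' : List Gen} (h : Wp g ω w = Wp g ω w')
    {x : ℕ → QQ g} (hx : x ∈ X g ω) : FW g w x = FW g w' x := by
  funext i
  obtain ⟨z, j, h2⟩ := hx (i + 1 + w.length + w'.length)
  rw [FW_local g w x (fun i => (sys g).S (tag z ω) (i + j)) (i + 1) (fun k hk => h2 k (by omega)) i
      (by omega),
    FW_local g w' x (fun i => (sys g).S (tag z ω) (i + j)) (i + 1) (fun k hk => h2 k (by omega)) i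
      (by omega), FW_shift, FW_shift, FW_S, FW_S, h]

/-! ### periodicity of the family -/

lemma S_period (y : List (Fin 3 × DD g)) :
    ∀ i, (sys g).S y (i + 2 ^ (y.length + 1)) = (sys g).S y i := by
  induction y with
  | nil =>
    intro i
    simp only [Sys.S, Sys.base, List.length_nil]
    congr 1
    rw [decide_eq_decide, show (2 : ℕ) ^ (0 + 1) = 2 from rfl]
    omega
  | cons d y ih =>
    intro i
    simp only [Sys.S, List.length_cons]
    have e0 : 2 ^ (y.length + 1 + 1) = 2 * 2 ^ (y.length + 1) := by ring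
    rw [e0]
    generalize hP : 2 ^ (y.length + 1) = P at ih
    have e1 : (i + 2 * P) / 2 = i / 2 + P := by omega
    have e2 : i / 2 + P + 1 = (i / 2 + 1) + P := by ring
    by_cases h : i % 2 = 0
    · rw [(sys g).PP_even d _ h, (sys g).PP_even d _ (by omega), e1, e2, ih, ih]
    · rw [(sys g).PP_odd d _ (i := i) (by omega), (sys g).PP_odd d _ (by omega), e1, e2, ih, ih]

lemma S_mod (y : List (Fin 3 × DD g)) (n : ℕ) :
    (sys g).S y (n % 2 ^ (y.length + 1)) = (sys g).S y n := by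
  have key : ∀ q i, (sys g).S y (i + 2 ^ (y.length + 1) * q) = (sys g).S y i := by
    intro q
    induction q with
    | zero => intro i; rfl
    | succ q ih =>
      intro i
      have e : i + 2 ^ (y.length + 1) * (q + 1) =
          (i + 2 ^ (y.length + 1) * q) + 2 ^ (y.length + 1) := by ring
      rw [e, S_period, ih]
  conv_rhs => rw [← Nat.mod_add_div n (2 ^ (y.length + 1))]
  rw [key]

/-! ### two-sided sequences -/

def res (a : ℤ) (x : ℤ → QQ g) : ℕ → QQ g := fun n => x (a + n)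

noncomputable def act2 (s : Gen) (x : ℤ → QQ g) : ℤ → QQ g :=
  fun i => (sys g).loc s (x i) (x (i + 1))

noncomputable def FW2 (w : List Gen) (x : ℤ → QQ g) : ℤ → QQ g :=
  w.foldr (fun s x => act2 g s x) x

lemma FW2_cons (s : Gen) (w : List Gen) (x : ℤ → QQ g) :
    FW2 g (s :: w) x = act2 g s (FW2 g w x) := rfl

lemma FW2_res (w : List Gen) (x : ℤ → QQ g) (a : ℤ) :
    res g a (FW2 g w x) = FW g w (res g a x) := by
  induction w with
  | nil => rfl
  | cons s w ih =>
    rw [FW_cons, ← ih, FW2_cons]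
    funext n
    simp only [res, act2, Sys.act]
    congr 2
    push_cast
    ring

def X2 (ω : ℕ → Fin 3) : Set (ℤ → QQ g) := {x | ∀ a, res g a x ∈ X g ω}

lemma X2_FW {ω : ℕ → Fin 3} {x : ℤ → QQ g} (hx : x ∈ X2 g ω) (w : List Gen) :
    FW2 g w x ∈ X2 g ω := by
  intro a
  rw [FW2_res]
  exact X_FW g w (hx a)

lemma X2_ext {ω : ℕ → Fin 3} {w w' : List Gen} (h : Wp g ω w = Wp g ω w')
    {x : ℤ → QQ g} (hx : x ∈ X2 g ω) : FW2 g w x = FW2 g w' x := by
  funext i
  have h1 := congrFun (FW2_res g w x i) 0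
  have h2 := congrFun (FW2_res g w' x i) 0
  rw [X_ext g h (hx i), ← h2] at h1
  simpa [res] using h1

lemma FW2_local (w : List Gen) : ∀ (x x' : ℤ → QQ g) (i : ℤ),
    (∀ n : ℕ, n ≤ w.length → x (i + n) = x' (i + n)) → FW2 g w x i = FW2 g w x' i := by
  intro x x' i h
  have h1 := FW_local g w (res g i x) (res g i x') 1 (fun n hn => h n (by omega)) 0 (by norm_num)
  rw [← FW2_res, ← FW2_res] at h1
  simpa [res] using h1

noncomputable def S2 (ω : ℕ → Fin 3) (y : List (DD g)) : ℤ → QQ g := fun i =>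
  (sys g).S (tag y ω) (i % (2 ^ (y.length + 1) : ℕ)).toNat

lemma res_S2 (ω : ℕ → Fin 3) (y : List (DD g)) (a : ℤ) :
    res g a (S2 g ω y) =
      fun n => (sys g).S (tag y ω) (n + (a % (2 ^ (y.length + 1) : ℕ)).toNat) := by
  funext n
  simp only [res, S2]
  rw [← S_mod g (tag y ω) (n + _), tag_length]
  congr 1
  have hP : (0 : ℤ) < ((2 ^ (y.length + 1) : ℕ) : ℤ) := by positivity
  generalize (2 ^ (y.length + 1) : ℕ) = P at hP ⊢
  have h0 : 0 ≤ a % (P : ℤ) := Int.emod_nonneg _ hP.ne'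
  have h1 : ((a % (P : ℤ)).toNat : ℤ) = a % (P : ℤ) := Int.toNat_of_nonneg h0
  have h2 : ((((n + (a % (P : ℤ)).toNat) % P : ℕ)) : ℤ) = (a + n) % (P : ℤ) := by
    rw [Int.natCast_mod]
    push_cast
    rw [h1, add_comm (n : ℤ), Int.emod_add_emod]
  have h3 : 0 ≤ (a + n) % (P : ℤ) := Int.emod_nonneg _ hP.ne'
  omega

lemma S2_mem (ω : ℕ → Fin 3) (y : List (DD g)) : S2 g ω y ∈ X2 g ω := by
  intro a
  rw [res_S2]
  intro L
  exact ⟨y, _, fun i _ => rfl⟩

lemma FW2_S2 (ω : ℕ → Fin 3) (w : List Gen) (y : List (DD g)) :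
    FW2 g w (S2 g ω y) = S2 g ω (Wp g ω w y) := by
  funext i
  have h1 := congrFun (FW2_res g w (S2 g ω y) i) 0
  rw [res_S2, FW_shift, FW_S] at h1
  simp only [res, Nat.cast_zero, add_zero, zero_add] at h1
  rw [h1, S2, Wp_length]

lemma S2_nat (ω : ℕ → Fin 3) (y : List (DD g)) (n : ℕ) :
    S2 g ω y (n : ℤ) = (sys g).S (tag y ω) n := by
  rw [S2, ← S_mod g (tag y ω) n, tag_length]
  congr 1

lemma S2_inj {ω : ℕ → Fin 3} {y y' : List (DD g)} (hl : y.length = y'.length)
    (h : S2 g ω y = S2 g ω y') : y = y' := by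
  apply tag_inj (ω := ω)
  apply S_digits g _ _ (by rw [tag_length, tag_length, hl])
  intro i
  rw [← S2_nat, ← S2_nat, h]

lemma X2_shift {ω : ℕ → Fin 3} {x : ℤ → QQ g} :
    x ∈ X2 g ω ↔ (fun i => x (i + 1)) ∈ X2 g ω := by
  constructor
  · intro h a
    have h1 := h (a + 1)
    have e : res g a (fun i => x (i + 1)) = res g (a + 1) x := by
      funext n
      simp only [res]
      congr 1
      ring
    rw [e]
    exact h1
  · intro h a
    have h1 := h (a - 1)
    have e : res g (a - 1) (fun i => x (i + 1)) = res g a x := by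
      funext n
      simp only [res]
      congr 1
      ring
    rwa [e] at h1

lemma X2_inv {ω : ℕ → Fin 3} (s : Gen) {x : ℤ → QQ g} (hx : x ∈ X2 g ω) :
    act2 g s (act2 g s x) = x := by
  have h : Wp g ω [s, s] = Wp g ω [] := by
    rw [Wp_cons, Wp_cons, Wp_nil, mul_one, Lp_mul_self]
  exact X2_ext g h hx

end Pool.Agent.H258R3.Am
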