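import Mathlib

/-!
The shift of finite type of pairs `(p, q)` of `ZMod 3`-valued functions of curvature `1` along two
commuting elements `a, b` of a commutative group.
-/

namespace Pool.Agent.H258R3

open Set

/-- Integration on `ℤ`. -/
theorem int_primitive {K : Type} [AddCommGroup K] (f : ℤ → K) :
    ∃ F : ℤ → K, F 0 = 0 ∧ ∀ n, F (n + 1) - F n = f n := by
  let F : ℤ → K := fun n => match n with
    | Int.ofNat k => ∑ i ∈ Finset.range k, f i
    | Int.negSucc k => -∑ i ∈ Finset.range (k + 1), f (-(i : ℤ) - 1)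
  refine ⟨F, by simp [F], ?_⟩
  intro n
  rcases n with k | k
  · have h1 : F (Int.ofNat k + 1) = ∑ i ∈ Finset.range (k + 1), f i := rfl
    have h2 : F (Int.ofNat k) = ∑ i ∈ Finset.range k, f i := rfl
    rw [h1, h2, Finset.sum_range_succ]
    simp
  · have h2 : F (Int.negSucc k) = -∑ i ∈ Finset.range (k + 1), f (-(i : ℤ) - 1) := rfl
    have h1 : F (Int.negSucc k + 1) = -∑ i ∈ Finset.range k, f (-(i : ℤ) - 1) := by
      rcases k with _ | k
      · simp [F]
      · have : Int.negSucc (k + 1) + 1 = Int.negSucc k := by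
          omega
        rw [this]
    rw [h1, h2, Finset.sum_range_succ]
    have : (Int.negSucc k) = -(k : ℤ) - 1 := by omega
    rw [this]
    abel

/-- Integration on `ℤ²`. -/
theorem int2_primitive {K : Type} [AddCommGroup K] (p q : ℤ → ℤ → K)
    (hpq : ∀ m n, p m (n + 1) - p m n = q (m + 1) n - q m n) :
    ∃ F : ℤ → ℤ → K, (∀ m n, F (m + 1) n - F m n = p m n) ∧
      ∀ m n, F m (n + 1) - F m n = q m n := by
  obtain ⟨P, -, hP⟩ := int_primitive (fun m => p m 0)
  choose Q hQ0 hQ using fun m : ℤ => int_primitive (fun n => q m n)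
  refine ⟨fun m n => P m + Q m n, ?_, ?_⟩
  · intro m
    -- D n = p m 0 + Q (m+1) n - Q m n - p m n is constant
    have hstep : ∀ n, (p m 0 + Q (m + 1) (n + 1) - Q m (n + 1) - p m (n + 1)) =
        (p m 0 + Q (m + 1) n - Q m n - p m n) := by
      intro n
      have h1 := hQ (m + 1) n
      have h2 := hQ m n
      have h3 := hpq m n
      rw [← h1, ← h2] at h3
      have h4 : p m (n + 1) = p m n + (Q (m + 1) (n + 1) - Q (m + 1) n -
          (Q m (n + 1) - Q m n)) := by
        rw [← h3]; abel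
      rw [h4]
      abel
    have h0 : (p m 0 + Q (m + 1) 0 - Q m 0 - p m 0) = 0 := by
      rw [hQ0, hQ0]; abel
    have hall : ∀ n, (p m 0 + Q (m + 1) n - Q m n - p m n) = 0 := by
      intro n
      induction n using Int.induction_on with
      | zero => exact h0
      | succ i ih => rw [hstep, ih]
      | pred i ih =>
        have := hstep (-(i : ℤ) - 1)
        rw [sub_add_cancel] at this
        rw [← this, ih]
    intro n
    have h5 := hall n
    have h6 := hP m
    have h7 : P (m + 1) = P m + p m 0 := by rw [← h6]; abel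
    show P (m + 1) + Q (m + 1) n - (P m + Q m n) = p m n
    rw [h7]
    have h8 : p m n = p m 0 + Q (m + 1) n - Q m n := by
      rw [sub_eq_zero] at h5
      exact h5.symm
    rw [h8]
    abel
  · intro m n
    have := hQ m n
    show P m + Q m (n + 1) - (P m + Q m n) = q m n
    rw [← this]
    abel

variable {G : Type} [CommGroup G]

/-- Integration along two independent elements of a commutative group. -/
theorem group_primitive {K : Type} [AddCommGroup K] (a b : G)
    (hfree : ∀ m n : ℤ, a ^ m * b ^ n = 1 → m = 0 ∧ n = 0)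
    (p q : G → K) (hpq : ∀ g, p (b * g) - p g = q (a * g) - q g) :
    ∃ F : G → K, (∀ g, F (a * g) - F g = p g) ∧ ∀ g, F (b * g) - F g = q g := by
  classical
  let L : Subgroup G := Subgroup.closure {a, b}
  have hrep : ∀ g : G, ∃ mn : ℤ × ℤ,
      g = a ^ mn.1 * b ^ mn.2 * ((QuotientGroup.mk g : G ⧸ L).out) := by
    intro g
    have h1 : (QuotientGroup.mk ((QuotientGroup.mk g : G ⧸ L).out) : G ⧸ L) = QuotientGroup.mk g :=
      Quotient.out_eq _
    rw [QuotientGroup.eq] at h1
    rw [Subgroup.mem_closure_pair] at h1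
    obtain ⟨m, n, hmn⟩ := h1
    refine ⟨(m, n), ?_⟩
    simp only
    rw [hmn, mul_comm (_ * _), mul_inv_cancel_left]
  choose c hc using hrep
  have huniq : ∀ (m n m' n' : ℤ) (r : G), a ^ m * b ^ n * r = a ^ m' * b ^ n' * r →
      m = m' ∧ n = n' := by
    intro m n m' n' r h
    have h1 := mul_right_cancel h
    have h2 : a ^ (m - m') * b ^ (n - n') = 1 := by
      rw [zpow_sub, zpow_sub]
      have : a ^ m * (a ^ m')⁻¹ * (b ^ n * (b ^ n')⁻¹) =
          (a ^ m * b ^ n) * (a ^ m' * b ^ n')⁻¹ := by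
        rw [mul_inv]
        exact mul_mul_mul_comm _ _ _ _
      rw [this, h1, mul_inv_cancel]
    have := hfree _ _ h2
    omega
  have hmka : ∀ g, (QuotientGroup.mk (a * g) : G ⧸ L) = QuotientGroup.mk g := by
    intro g
    rw [QuotientGroup.eq]
    have : (a * g)⁻¹ * g = a⁻¹ := by
      rw [mul_inv, mul_assoc, inv_mul_cancel, mul_one]
    rw [this]
    exact L.inv_mem (Subgroup.subset_closure (by simp))
  have hmkb : ∀ g, (QuotientGroup.mk (b * g) : G ⧸ L) = QuotientGroup.mk g := by
    intro g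
    rw [QuotientGroup.eq]
    have : (b * g)⁻¹ * g = b⁻¹ := by
      rw [mul_inv, mul_assoc, inv_mul_cancel, mul_one]
    rw [this]
    exact L.inv_mem (Subgroup.subset_closure (by simp))
  have hca : ∀ g, c (a * g) = ((c g).1 + 1, (c g).2) := by
    intro g
    have h1 := hc (a * g)
    rw [hmka] at h1
    have h2 : a * g = a ^ ((c g).1 + 1) * b ^ (c g).2 * ((QuotientGroup.mk g : G ⧸ L).out) := by
      rw [zpow_add_one]
      conv_lhs => rw [hc g]
      simp only [mul_assoc, mul_left_comm]
    have h3 := huniq _ _ _ _ _ (h1.symm.trans h2)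
    exact Prod.ext h3.1 h3.2
  have hcb : ∀ g, c (b * g) = ((c g).1, (c g).2 + 1) := by
    intro g
    have h1 := hc (b * g)
    rw [hmkb] at h1
    have h2 : b * g = a ^ ((c g).1) * b ^ ((c g).2 + 1) * ((QuotientGroup.mk g : G ⧸ L).out) := by
      rw [zpow_add_one]
      conv_lhs => rw [hc g]
      simp only [mul_assoc, mul_left_comm]
    have h3 := huniq _ _ _ _ _ (h1.symm.trans h2)
    exact Prod.ext h3.1 h3.2
  have hF := fun r : G => int2_primitive (fun m n => p (a ^ m * b ^ n * r))
    (fun m n => q (a ^ m * b ^ n * r)) (fun m n => by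
      have h1 : a ^ m * b ^ (n + 1) * r = b * (a ^ m * b ^ n * r) := by
        rw [zpow_add_one]
        simp only [mul_assoc, mul_left_comm]
      have h2 : a ^ (m + 1) * b ^ n * r = a * (a ^ m * b ^ n * r) := by
        rw [zpow_add_one]
        simp only [mul_assoc, mul_left_comm]
      rw [h1, h2]
      exact hpq _)
  choose F hFa hFb using hF
  refine ⟨fun g => F ((QuotientGroup.mk g : G ⧸ L).out) (c g).1 (c g).2, ?_, ?_⟩
  · intro g
    simp only [hmka, hca]
    rw [hFa]
    rw [← hc g]
  · intro g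
    simp only [hmkb, hcb]
    rw [hFb]
    rw [← hc g]

/-- The set of configurations of curvature `1`. -/
def curvSet (a b : G) : Set (G → ZMod 3 × ZMod 3) :=
  {x | ∀ g, (x (b * g)).1 - (x g).1 - (x (a * g)).2 + (x g).2 = 1}

theorem curvSet_nonempty (a b : G)
    (hfree : ∀ m n : ℤ, a ^ m * b ^ n = 1 → m = 0 ∧ n = 0) : (curvSet a b).Nonempty := by
  obtain ⟨F, -, hF⟩ := group_primitive (K := ZMod 3) a b hfree (fun _ => 0) (fun _ => 1)
    (fun g => by simp)
  refine ⟨fun g => (F g, 0), fun g => ?_⟩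
  simp only [sub_zero, add_zero]
  exact hF g

theorem curvSet_glue (a b : G)
    (hfree : ∀ m n : ℤ, a ^ m * b ^ n = 1 → m = 0 ∧ n = 0) :
    ∃ Δ : Finset G, ∀ Ω₁ Ω₂ : Finset G, (∀ d ∈ Δ, ∀ w ∈ Ω₁, d * w ∉ Ω₂) →
      ∀ x₁ ∈ curvSet a b, ∀ x₂ ∈ curvSet a b, ∃ z ∈ curvSet a b,
        (∀ w ∈ Ω₁, z w = x₁ w) ∧ (∀ w ∈ Ω₂, z w = x₂ w) := by
  classical
  let D : Finset G := {1, a, b}
  refine ⟨(D ×ˢ D).image (fun p => p.2⁻¹ * p.1), ?_⟩
  intro Ω₁ Ω₂ hΩ x₁ hx₁ x₂ hx₂
  obtain ⟨h, hha, hhb⟩ := group_primitive (K := ZMod 3) a b hfree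
    (fun g => (x₂ g).1 - (x₁ g).1) (fun g => (x₂ g).2 - (x₁ g).2) (by
      intro g
      have h1 := hx₁ g
      have h2 := hx₂ g
      linear_combination h2 - h1)
  let k : G → ZMod 3 := fun g => if ∃ d ∈ D, d⁻¹ * g ∈ Ω₂ then h g else 0
  refine ⟨fun g => ((x₁ g).1 + (k (a * g) - k g), (x₁ g).2 + (k (b * g) - k g)), ?_, ?_, ?_⟩
  · intro g
    have h1 := hx₁ g
    simp only
    have h2 : a * (b * g) = b * (a * g) := mul_left_comm _ _ _
    rw [h2]
    linear_combination h1
  · intro w hw
    have hk : ∀ d ∈ D, k (d * w) = 0 := by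
      intro d hd
      simp only [k]
      rw [if_neg]
      rintro ⟨d', hd', hmem⟩
      apply hΩ (d'⁻¹ * d) (Finset.mem_image.mpr ⟨(d, d'), Finset.mem_product.mpr ⟨hd, hd'⟩, rfl⟩)
        w hw
      rw [mul_assoc]
      exact hmem
    have h1 := hk 1 (by simp [D])
    have h2 := hk a (by simp [D])
    have h3 := hk b (by simp [D])
    rw [one_mul] at h1
    simp only [h1, h2, h3, sub_zero, add_zero]
  · intro w hw
    have hk : ∀ d ∈ D, k (d * w) = h (d * w) := by
      intro d hd
      simp only [k]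
      rw [if_pos ⟨d, hd, by rw [inv_mul_cancel_left]; exact hw⟩]
    have h1 := hk 1 (by simp [D])
    have h2 := hk a (by simp [D])
    have h3 := hk b (by simp [D])
    rw [one_mul] at h1
    simp only [h1, h2, h3, hha, hhb]
    ext <;> simp

/-- If `3` is invertible in the group, no configuration of curvature `1` has a finite orbit. -/
theorem curvSet_not_periodic (a b : G) (hdiv : ∀ g : G, ∃ g' : G, g' ^ 3 = g)
    (y : G → ZMod 3 × ZMod 3) (hy : y ∈ curvSet a b)
    (hfin : (Set.range (fun g : G => fun h : G => y (h * g))).Finite) : False := by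
  classical
  let K : Subgroup G :=
    { carrier := {g | ∀ h, y (h * g) = y h}
      mul_mem' := fun {g g'} hg hg' h => by
        rw [← mul_assoc, hg', hg]
      one_mem' := fun h => by rw [mul_one]
      inv_mem' := fun {g} hg h => by
        have := hg (h * g⁻¹)
        rw [inv_mul_cancel_right] at this
        exact this.symm }
  have hK : ∀ g, g ∈ K ↔ ∀ h, y (h * g) = y h := fun g => Iff.rfl
  haveI : Finite (G ⧸ K) := by
    haveI : Finite (Set.range (fun g : G => fun h : G => y (h * g))) := hfin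
    let f : G ⧸ K → Set.range (fun g : G => fun h : G => y (h * g)) :=
      fun q => ⟨fun h => y (h * q.out), ⟨q.out, rfl⟩⟩
    apply Finite.of_injective f
    intro q q' hqq'
    have h1 : ∀ h, y (h * q.out) = y (h * q'.out) := fun h =>
      congrFun (congrArg Subtype.val hqq') h
    have h2 : (QuotientGroup.mk q.out : G ⧸ K) = QuotientGroup.mk q'.out := by
      rw [QuotientGroup.eq, hK]
      intro h
      have := h1 (h * q.out⁻¹)
      rw [inv_mul_cancel_right] at this
      rw [this]
      congr 1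
      rw [mul_assoc]
    have e1 : (QuotientGroup.mk q.out : G ⧸ K) = q := Quotient.out_eq q
    have e2 : (QuotientGroup.mk q'.out : G ⧸ K) = q' := Quotient.out_eq q'
    rw [e1, e2] at h2
    exact h2
  have hidx : K.index ≠ 0 := by
    have : K.FiniteIndex := Subgroup.finiteIndex_of_finite_quotient
    exact this.index_ne_zero
  obtain ⟨e, m, hm3, hem⟩ := Nat.exists_eq_pow_mul_and_not_dvd hidx 3 (by norm_num)
  have hdivpow : ∀ (e : ℕ) (g : G), ∃ g' : G, g' ^ (3 ^ e) = g := by
    intro e
    induction e with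
    | zero => intro g; exact ⟨g, by simp⟩
    | succ e ih =>
      intro g
      obtain ⟨g₁, h₁⟩ := ih g
      obtain ⟨g₂, h₂⟩ := hdiv g₁
      refine ⟨g₂, ?_⟩
      rw [pow_succ, mul_comm, pow_mul, h₂, h₁]
  have hmK : ∀ g : G, g ^ m ∈ K := by
    intro g
    obtain ⟨g', hg'⟩ := hdivpow e g
    have := K.pow_index_mem g'
    rw [hem, pow_mul, hg'] at this
    exact this
  -- sum over the box
  let P : ℕ → ℕ → ZMod 3 := fun i j => (y (a ^ i * b ^ j)).1
  let Q : ℕ → ℕ → ZMod 3 := fun i j => (y (a ^ i * b ^ j)).2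
  have hloc : ∀ i j, (P i (j + 1) - P i j) - (Q (i + 1) j - Q i j) = 1 := by
    intro i j
    have h1 := hy (a ^ i * b ^ j)
    have e1 : b * (a ^ i * b ^ j) = a ^ i * b ^ (j + 1) := by
      rw [pow_succ, mul_left_comm, mul_comm b]
    have e2 : a * (a ^ i * b ^ j) = a ^ (i + 1) * b ^ j := by
      rw [pow_succ, ← mul_assoc, mul_comm a]
    rw [e1, e2] at h1
    simp only [P, Q]
    linear_combination h1
  have hPper : ∀ i, P i m = P i 0 := by
    intro i
    simp only [P, pow_zero, mul_one]
    rw [(hK _).mp (hmK b)]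
  have hQper : ∀ j, Q m j = Q 0 j := by
    intro j
    simp only [Q, pow_zero, one_mul]
    rw [mul_comm, (hK _).mp (hmK a)]
  have hsum : ∑ i ∈ Finset.range m, ∑ j ∈ Finset.range m,
      ((P i (j + 1) - P i j) - (Q (i + 1) j - Q i j)) = 0 := by
    simp only [Finset.sum_sub_distrib]
    have h1 : ∑ i ∈ Finset.range m, (∑ j ∈ Finset.range m, P i (j + 1) -
        ∑ j ∈ Finset.range m, P i j) = 0 := by
      apply Finset.sum_eq_zero
      intro i _
      rw [← Finset.sum_sub_distrib, Finset.sum_range_sub, hPper, sub_self]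
    have h2 : ∑ j ∈ Finset.range m, (∑ i ∈ Finset.range m, Q (i + 1) j -
        ∑ i ∈ Finset.range m, Q i j) = 0 := by
      apply Finset.sum_eq_zero
      intro j _
      rw [← Finset.sum_sub_distrib, Finset.sum_range_sub (fun i => Q i j), hQper, sub_self]
    rw [Finset.sum_sub_distrib] at h1 h2
    rw [Finset.sum_comm (f := fun i j => Q (i + 1) j), Finset.sum_comm (f := fun i j => Q i j)]
    rw [h1, h2, sub_zero]
  rw [Finset.sum_congr rfl (fun i _ => Finset.sum_congr rfl (fun j _ => hloc i j))] at hsum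
  simp only [Finset.sum_const, Finset.card_range, nsmul_eq_mul, mul_one] at hsum
  haveI : Fact (Nat.Prime 3) := ⟨Nat.prime_three⟩
  have hm0 : (m : ZMod 3) = 0 := by
    rcases mul_eq_zero.mp hsum with h | h <;> exact h
  rw [ZMod.natCast_eq_zero_iff] at hm0
  exact hm3 hm0

end Pool.Agent.H258R3
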