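import Mathlib

/-!
Local realisation of a self-similar group action by one-sided block maps.

A `Sys D` describes five involutive generators acting on finite words over the digit set `D`, with
sections, together with a schedule (`l`, `pre`, `wl`) for passing messages.  Sequences of cells
`ℕ → Q D` carry local maps `act s`, and the inflation `PP d` satisfies
`act s (PP d c) = PP (π s d) c` or `act s (PP d c) = PP d (act s' c)`.
-/

set_option autoImplicit false

namespace Pool.Agent.H258R3.Dist

abbrev Gen := Fin 5
abbrev M := Fin 7 → Bool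
abbrev Op := Option (Gen ⊕ (Gen × Fin 7 × Bool))

def zero : M := fun _ => false

lemma exists_enc : ∃ e : Op → M, Function.Injective e ∧ e none = zero := by
  have h : Fintype.card Op ≤ Fintype.card M := by
    simp [Op, M, Fintype.card_option, Fintype.card_sum, Fintype.card_prod]
  obtain ⟨e⟩ := Function.Embedding.nonempty_of_card_le h
  refine ⟨fun o => Equiv.swap (e none) zero (e o), ?_, ?_⟩
  · exact (Equiv.injective _).comp e.injective
  · simp

noncomputable def enc : Op → M := exists_enc.choose

lemma enc_inj : Function.Injective enc := exists_enc.choose_spec.1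

lemma enc_none : enc none = zero := exists_enc.choose_spec.2

open Classical in
noncomputable def dec (m : M) : Op := if h : ∃ o, enc o = m then h.choose else none

lemma dec_enc (o : Op) : dec (enc o) = o := by
  have h : ∃ o', enc o' = enc o := ⟨o, rfl⟩
  rw [dec, dif_pos h]
  exact enc_inj h.choose_spec

lemma dec_zero : dec zero = none := by
  rw [← enc_none, dec_enc]

structure Sys (D : Type) where
  π : Gen → D → D
  sec : Gen → D → Option Gen
  l : Bool → D → Option Gen
  pre : D → Gen → Fin 7 → Bool
  wl : D → Option (Gen × Fin 7)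
  inv : ∀ s d, π s (π s d) = d
  sec_fix : ∀ s d s', sec s d = some s' → π s d = d
  sec_zero : ∀ d, sec 0 d = none
  c1 : ∀ s d, s ≠ 0 → (∀ t, l t (π s d) = l t d) ∧ pre (π s d) = pre d
  c2w : ∀ d, wl (π 0 d) = wl d
  c2n : ∀ d, wl d = none → pre (π 0 d) = pre d ∧
    ∀ t, l t d = l t (π 0 d) ∨ l t d = none ∨ l t (π 0 d) = none
  c2s : ∀ d σ j, wl d = some (σ, j) → l true d = some σ ∧ l true (π 0 d) = some σ ∧
    l false (π 0 d) = l false d ∧
    ∀ σ' j', pre (π 0 d) σ' j' = (pre d σ' j' ^^ decide (σ' = σ ∧ j' = j))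
  c3 : ∀ s d s', sec s d = some s' → l true d = none ∧ l false d = some s' ∧
    ∀ σ j, pre d σ j = decide (s' = 0)

abbrev Q (D : Type) := Bool × Bool × Option (D × M)

def xr (a b : M) : M := fun j => a j ^^ b j

lemma xr_zero (a : M) : xr a zero = a := by
  funext j; simp [xr, zero]

lemma xr_self (a : M) : xr a a = zero := by
  funext j; simp [xr, zero]

lemma zero_xr (a : M) : xr zero a = a := by
  funext j; simp [xr, zero]

namespace Sys

variable {D : Type} (Y : Sys D)

noncomputable def msg (s : Gen) (t : Bool) (x : Option (D × M)) : M :=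
  match x with
  | none => zero
  | some (d, ρ) =>
    match Y.sec s d with
    | some s' => if t then enc (some (Sum.inl s')) else ρ
    | none =>
      if s = 0 then
        match Y.wl d with
        | some (σ, j) => if t then enc (some (Sum.inr (σ, j, ρ j))) else zero
        | none => zero
      else zero

lemma msg_none (s : Gen) (t : Bool) : Y.msg s t none = zero := rfl

lemma msg_sec {s s' : Gen} {d : D} (h : Y.sec s d = some s') (t : Bool) (ρ : M) :
    Y.msg s t (some (d, ρ)) = if t then enc (some (Sum.inl s')) else ρ := by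
  simp only [msg, h]

lemma msg_ne {s : Gen} {d : D} (h : Y.sec s d = none) (hs : s ≠ 0) (t : Bool) (ρ : M) :
    Y.msg s t (some (d, ρ)) = zero := by
  simp only [msg, h, if_neg hs]

lemma msg_zero_none {d : D} (hw : Y.wl d = none) (t : Bool) (ρ : M) :
    Y.msg 0 t (some (d, ρ)) = zero := by
  simp only [msg, Y.sec_zero d, hw, if_true]

lemma msg_zero_some {d : D} {σ : Gen} {j : Fin 7} (hw : Y.wl d = some (σ, j)) (t : Bool) (ρ : M) :
    Y.msg 0 t (some (d, ρ)) = if t then enc (some (Sum.inr (σ, j, ρ j))) else zero := by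
  simp only [msg, Y.sec_zero d, hw, if_true]

def want (t : Bool) (d : D) : Option Gen := if Y.l t d = none then Y.l t (Y.π 0 d) else none

def app (o : Op) (t : Bool) (x : Option (D × M)) : Option (D × M) :=
  match x with
  | none => none
  | some (d, ρ) =>
    match o with
    | none => some (d, ρ)
    | some (Sum.inl s') => some (Y.π s' d, ρ)
    | some (Sum.inr (σ, j, b)) =>
      if Y.want t d = some σ then some (d, fun k => if k = j then ρ k ^^ b else ρ k)
      else some (d, ρ)

lemma app_none (t : Bool) (x : Option (D × M)) : Y.app none t x = x := by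
  rcases x with _ | ⟨d, ρ⟩ <;> rfl

noncomputable def reg (d : D) (t t2 : Bool) (x2 : Option (D × M)) : M :=
  match Y.l t d with
  | some σ => Y.msg σ t2 x2
  | none => zero

lemma reg_some {d : D} {t : Bool} {σ : Gen} (h : Y.l t d = some σ) (t2 : Bool)
    (x2 : Option (D × M)) : Y.reg d t t2 x2 = Y.msg σ t2 x2 := by
  simp only [reg, h]

lemma reg_none {d : D} {t : Bool} (h : Y.l t d = none) (t2 : Bool)
    (x2 : Option (D × M)) : Y.reg d t t2 x2 = zero := by
  simp only [reg, h]

open Classical in
/-- what is added to the register of an odd cell -/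
noncomputable def ld (s : Gen) (t : Bool) (d : D) (t2 : Bool) (x2 : Option (D × M)) : M :=
  if s = 0 ∧ Y.l t d ≠ Y.l t (Y.π 0 d) then xr (Y.reg d t t2 x2) (Y.reg (Y.π 0 d) t t2 x2)
  else zero

lemma ld_ne {s : Gen} (hs : s ≠ 0) (t : Bool) (d : D) (t2 : Bool) (x2 : Option (D × M)) :
    Y.ld s t d t2 x2 = zero := by
  rw [ld, if_neg (fun h => hs h.1)]

lemma ld_eq {t : Bool} {d : D} (h : Y.l t d = Y.l t (Y.π 0 d)) (s : Gen) (t2 : Bool)
    (x2 : Option (D × M)) : Y.ld s t d t2 x2 = zero := by
  rw [ld, if_neg (fun h' => h'.2 h)]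

lemma ld_pos {t : Bool} {d : D} (h : Y.l t d ≠ Y.l t (Y.π 0 d)) (t2 : Bool)
    (x2 : Option (D × M)) :
    Y.ld 0 t d t2 x2 = xr (Y.reg d t t2 x2) (Y.reg (Y.π 0 d) t t2 x2) := by
  rw [ld, if_pos ⟨rfl, h⟩]

noncomputable def odd (s : Gen) (t : Bool) (x : Option (D × M)) (t2 : Bool)
    (x2 : Option (D × M)) : Option (D × M) :=
  match x with
  | none => none
  | some (d, ρ) => some (Y.π s d, xr ρ (Y.ld s t d t2 x2))

noncomputable def loc (s : Gen) (a b : Q D) : Q D :=
  if a.1 then (a.1, a.2.1, Y.odd s a.2.1 a.2.2 b.2.1 b.2.2)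
  else (a.1, a.2.1, Y.app (dec (Y.msg s b.2.1 b.2.2)) a.2.1 a.2.2)

lemma loc_odd (s : Gen) {a : Q D} (h : a.1 = true) (b : Q D) :
    Y.loc s a b = (true, a.2.1, Y.odd s a.2.1 a.2.2 b.2.1 b.2.2) := by
  rw [loc, if_pos h, h]

lemma loc_even (s : Gen) {a : Q D} (h : a.1 = false) (b : Q D) :
    Y.loc s a b = (false, a.2.1, Y.app (dec (Y.msg s b.2.1 b.2.2)) a.2.1 a.2.2) := by
  rw [loc, if_neg (by rw [h]; decide), h]

lemma loc_fst (s : Gen) (a b : Q D) : (Y.loc s a b).1 = a.1 := by
  unfold loc; split_ifs <;> rfl

lemma loc_typ (s : Gen) (a b : Q D) : (Y.loc s a b).2.1 = a.2.1 := by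
  unfold loc; split_ifs <;> rfl

noncomputable def act (s : Gen) (x : ℕ → Q D) : ℕ → Q D := fun i => Y.loc s (x i) (x (i + 1))

/-- the intermediate state of the cells of the upper level -/
noncomputable def Ed (d : D) (a b : Q D) : Option (D × M) :=
  if a.1 then
    match a.2.2 with
    | none => none
    | some (di, ρ) => some (di, fun j => ρ j ^^
        (match Y.want a.2.1 di with
          | some σ => Y.pre d σ j && Y.msg σ b.2.1 b.2.2 j
          | none => false))
  else a.2.2

lemma Ed_even (d : D) {a : Q D} (h : a.1 = false) (b : Q D) : Y.Ed d a b = a.2.2 := by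
  rw [Ed, if_neg (by rw [h]; decide)]

lemma Ed_none (d : D) {a : Q D} (h : a.2.2 = none) (b : Q D) : Y.Ed d a b = none := by
  rw [Ed, h]; split_ifs <;> rfl

lemma Ed_some (d : D) {t : Bool} {di : D} {ρ : M} (b : Q D) :
    Y.Ed d (true, t, some (di, ρ)) b = some (di, fun j => ρ j ^^
        (match Y.want t di with
          | some σ => Y.pre d σ j && Y.msg σ b.2.1 b.2.2 j
          | none => false)) := by
  rw [Ed, if_pos rfl]

noncomputable def PP (d : D) (c : ℕ → Q D) : ℕ → Q D := fun i =>
  if i % 2 = 0 then (false, (c (i / 2)).2.1, Y.Ed d (c (i / 2)) (c (i / 2 + 1)))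
  else (true, (c (i / 2)).1,
    some (d, Y.reg d (c (i / 2)).1 (c (i / 2 + 1)).2.1 (c (i / 2 + 1)).2.2))

lemma PP_even (d : D) (c : ℕ → Q D) {i : ℕ} (h : i % 2 = 0) :
    Y.PP d c i = (false, (c (i / 2)).2.1, Y.Ed d (c (i / 2)) (c (i / 2 + 1))) := by
  rw [PP, if_pos h]

lemma PP_odd (d : D) (c : ℕ → Q D) {i : ℕ} (h : i % 2 = 1) :
    Y.PP d c i = (true, (c (i / 2)).1,
      some (d, Y.reg d (c (i / 2)).1 (c (i / 2 + 1)).2.1 (c (i / 2 + 1)).2.2)) := by
  rw [PP, if_neg (by omega)]

/-! ### Properties of messages -/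

lemma msg_sym (σ : Gen) (t : Bool) (d : D) (ρ : M) :
    Y.msg σ t (some (Y.π σ d, ρ)) = Y.msg σ t (some (d, ρ)) := by
  rcases h : Y.sec σ d with _ | s'
  · rcases h' : Y.sec σ (Y.π σ d) with _ | s'
    · by_cases hs : σ = 0
      · subst hs
        rcases hw : Y.wl d with _ | ⟨τ, j⟩
        · rw [Y.msg_zero_none hw, Y.msg_zero_none (by rw [Y.c2w]; exact hw)]
        · rw [Y.msg_zero_some hw, Y.msg_zero_some (by rw [Y.c2w]; exact hw)]
      · rw [Y.msg_ne h hs, Y.msg_ne h' hs]
    · exfalso
      have h1 := Y.sec_fix _ _ _ h'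
      rw [Y.inv] at h1
      rw [← h1, h] at h'
      exact absurd h' (by simp)
  · rw [Y.sec_fix _ _ _ h]

lemma want_ne {t : Bool} {d : D} (h : Y.want t d ≠ none) :
    Y.l t d = none ∧ Y.l t (Y.π 0 d) ≠ none := by
  unfold want at h
  split_ifs at h with h1
  · exact ⟨h1, h⟩
  · exact absurd rfl h

lemma msg_indep {t : Bool} {d : D} (h : Y.want t d ≠ none) (σ : Gen) (ρ ρ' : M) :
    Y.msg σ t (some (d, ρ)) = Y.msg σ t (some (d, ρ')) := by
  obtain ⟨h1, h2⟩ := Y.want_ne h
  rcases hs : Y.sec σ d with _ | s'
  · by_cases h0 : σ = 0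
    · subst h0
      rcases hw : Y.wl d with _ | ⟨τ, j⟩
      · rw [Y.msg_zero_none hw, Y.msg_zero_none hw]
      · rw [Y.msg_zero_some hw, Y.msg_zero_some hw]
        cases t
        · rfl
        · rw [(Y.c2s d τ j hw).1] at h1
          exact absurd h1 (by simp)
    · rw [Y.msg_ne hs h0, Y.msg_ne hs h0]
  · rw [Y.msg_sec hs, Y.msg_sec hs]
    cases t
    · rw [(Y.c3 _ _ _ hs).2.1] at h1
      exact absurd h1 (by simp)
    · rfl

lemma msg_Ed (σ : Gen) (d : D) (a b : Q D) :
    Y.msg σ a.2.1 (Y.Ed d a b) = Y.msg σ a.2.1 a.2.2 := by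
  obtain ⟨p, t, x⟩ := a
  cases p
  · rw [Y.Ed_even d rfl]
  · rcases x with _ | ⟨di, ρ⟩
    · rw [Y.Ed_none d rfl]
    · rw [Y.Ed_some]
      by_cases hw : Y.want t di = none
      · simp only [hw, Bool.xor_false]
      · exact Y.msg_indep hw _ _ _

lemma msg_loc (s : Gen) {a : Q D} (ha : a.1 = true) (b : Q D) :
    Y.msg s a.2.1 (Y.loc s a b).2.2 = Y.msg s a.2.1 a.2.2 := by
  rw [Y.loc_odd s ha]
  obtain ⟨p, t, x⟩ := a
  rcases x with _ | ⟨di, ρ⟩
  · rfl
  · simp only [odd]
    rw [Y.msg_sym]
    by_cases hs : s = 0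
    · subst hs
      by_cases hl : Y.l t di = Y.l t (Y.π 0 di)
      · rw [Y.ld_eq hl, xr_zero]
      · have hw : Y.wl di = none := by
          rcases hw : Y.wl di with _ | ⟨τ, j⟩
          · rfl
          · exfalso
            apply hl
            obtain ⟨h1, h2, h3, _⟩ := Y.c2s di τ j hw
            cases t
            · exact h3.symm
            · rw [h1, h2]
        rw [Y.msg_zero_none hw, Y.msg_zero_none hw]
    · rw [Y.ld_ne hs, xr_zero]

lemma l_eq_of_wl {t : Bool} {d : D} {z : Gen × Fin 7} (hw : Y.wl d = some z) :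
    Y.l t d = Y.l t (Y.π 0 d) := by
  obtain ⟨σ, j⟩ := z
  obtain ⟨h1, h2, h3, _⟩ := Y.c2s d σ j hw
  cases t
  · exact h3.symm
  · rw [h1, h2]

lemma reg_congr {t2 : Bool} {x2 x2' : Option (D × M)}
    (h : ∀ σ, Y.msg σ t2 x2' = Y.msg σ t2 x2) (d : D) (t : Bool) :
    Y.reg d t t2 x2' = Y.reg d t t2 x2 := by
  unfold reg
  rcases Y.l t d with _ | σ
  · rfl
  · exact h σ

lemma reg_eq_of_l {d d' : D} {t : Bool} (h : Y.l t d = Y.l t d') (t2 : Bool)
    (x2 : Option (D × M)) : Y.reg d t t2 x2 = Y.reg d' t t2 x2 := by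
  unfold reg; rw [h]

lemma reg_ld (s : Gen) (d : D) (t t2 : Bool) (x2 x2' : Option (D × M))
    (h : ∀ σ, Y.msg σ t2 x2' = Y.msg σ t2 x2) :
    xr (Y.reg d t t2 x2) (Y.ld s t d t2 x2') = Y.reg (Y.π s d) t t2 x2 := by
  by_cases hs : s = 0
  · subst hs
    by_cases hl : Y.l t d = Y.l t (Y.π 0 d)
    · rw [Y.ld_eq hl, xr_zero]
      exact Y.reg_eq_of_l hl _ _
    · rw [Y.ld_pos hl, Y.reg_congr h, Y.reg_congr h]
      funext j
      simp only [xr]
      cases Y.reg d t t2 x2 j <;> simp
  · rw [Y.ld_ne hs, xr_zero]
    exact Y.reg_eq_of_l ((Y.c1 s d hs).1 t).symm _ _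

lemma Ed_congr_pre {d d' : D} (h : Y.pre d = Y.pre d') (a b : Q D) : Y.Ed d a b = Y.Ed d' a b := by
  unfold Ed; rw [h]

def Alt (c : ℕ → Q D) : Prop := ∀ i, (c (i + 1)).1 = !(c i).1

def Coh (c : ℕ → Q D) : Prop :=
  (∀ i, (c i).1 = true → (c i).2.2 = none) ∨
    ∃ d, ∀ i, (c i).1 = true → ∃ ρ, (c i).2.2 = some (d, ρ)

/-- rooted step -/
theorem act_PP_none (s : Gen) (d : D) (c : ℕ → Q D) (hs : Y.sec s d = none) :
    Y.act s (Y.PP d c) = Y.PP (Y.π s d) c := by
  funext i
  by_cases hi : i % 2 = 0
  · -- even cell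
    have e1 : (i + 1) / 2 = i / 2 := by omega
    rw [act, Y.PP_even d c hi, Y.PP_odd d c (i := i + 1) (by omega), Y.PP_even _ c hi, e1,
      Y.loc_even s rfl]
    refine Prod.ext rfl (Prod.ext rfl ?_)
    simp only
    by_cases h0 : s = 0
    · subst h0
      rcases hw : Y.wl d with _ | ⟨σ, j⟩
      · rw [Y.msg_zero_none hw, dec_zero, Y.app_none]
        exact (Y.Ed_congr_pre (Y.c2n d hw).1 _ _).symm
      · rw [Y.msg_zero_some hw]
        obtain ⟨p, t, x⟩ := c (i / 2)
        cases p
        · simp only [Bool.false_eq_true, if_false, dec_zero]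
          rw [Y.app_none, Y.Ed_even _ rfl, Y.Ed_even _ rfl]
        · simp only [if_true, dec_enc]
          obtain ⟨h1, h2, h3, h4⟩ := Y.c2s d σ j hw
          rw [Y.reg_some h1]
          rcases x with _ | ⟨di, ρ⟩
          · rw [Y.Ed_none _ rfl, Y.Ed_none _ rfl]; rfl
          · rw [Y.Ed_some, Y.Ed_some]
            simp only [app]
            by_cases hwt : Y.want t di = some σ
            · rw [if_pos hwt]
              simp only [hwt]
              congr 2
              funext k
              rw [h4]
              by_cases hk : k = j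
              · subst hk
                simp
                cases Y.pre d σ k <;> simp
              · simp [hk]
            · rw [if_neg hwt]
              congr 2
              funext k
              rcases hwt' : Y.want t di with _ | σ'
              · rfl
              · have hne : σ' ≠ σ := fun h => hwt (by rw [hwt', h])
                simp only
                rw [h4]
                simp [hne]
    · rw [Y.msg_ne hs h0, dec_zero, Y.app_none]
      exact (Y.Ed_congr_pre (Y.c1 s d h0).2 _ _).symm
  · -- odd cell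
    have hi' : i % 2 = 1 := by omega
    have e1 : (i + 1) / 2 = i / 2 + 1 := by omega
    rw [act, Y.PP_odd d c hi', Y.PP_even d c (i := i + 1) (by omega), Y.PP_odd _ c hi', e1,
      Y.loc_odd s rfl]
    refine Prod.ext rfl (Prod.ext rfl ?_)
    simp only [odd]
    rw [Y.reg_ld s d _ _ _ _ (fun σ => Y.msg_Ed σ d _ _)]

/-- step through a gate -/
theorem act_PP_some (s s' : Gen) (d : D) (c : ℕ → Q D) (halt : Alt c) (hcoh : Coh c)
    (hs : Y.sec s d = some s') :
    Y.act s (Y.PP d c) = Y.PP d (Y.act s' c) := by
  have hs0 : s ≠ 0 := by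
    intro h
    rw [h, Y.sec_zero] at hs
    exact absurd hs (by simp)
  obtain ⟨c31, c32, c33⟩ := Y.c3 s d s' hs
  have hfix := Y.sec_fix s d s' hs
  funext i
  by_cases hi : i % 2 = 0
  · have e1 : (i + 1) / 2 = i / 2 := by omega
    rw [act, Y.PP_even d c hi, Y.PP_odd d c (i := i + 1) (by omega), Y.PP_even _ _ hi, e1,
      Y.loc_even s rfl]
    refine Prod.ext rfl (Prod.ext ?_ ?_)
    · simp only [act]
      exact (Y.loc_typ _ _ _).symm
    simp only
    rw [Y.msg_sec hs]
    generalize hk : i / 2 = k
    rcases hp : (c k).1 with _ | _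
    · -- even upper cell
      simp only [Bool.false_eq_true, if_false]
      rw [Y.reg_some c32, Y.Ed_even d hp, act, Y.Ed_even d (by rw [Y.loc_fst]; exact hp),
        Y.loc_even s' hp]
    · simp only [if_true, dec_enc]
      have hp1 : (c (k + 1)).1 = false := by rw [halt, hp]; rfl
      have hp2 : (c (k + 2)).1 = true := by rw [halt, hp1]; rfl
      rcases hx : (c k).2.2 with _ | ⟨di, ρ⟩
      · rw [Y.Ed_none d hx]
        have : (Y.act s' c k).2.2 = none := by
          rw [act, Y.loc_odd s' hp]
          simp only [odd, hx]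
        rw [Y.Ed_none d this]
        rfl
      · have hck : c k = (true, (c k).2.1, some (di, ρ)) := by
          rw [← hp, ← hx]
        have hak : Y.act s' c k = (true, (c k).2.1,
            some (Y.π s' di, xr ρ (Y.ld s' (c k).2.1 di (c (k + 1)).2.1 (c (k + 1)).2.2))) := by
          rw [act, Y.loc_odd s' hp]
          simp only [odd, hx]
        rw [hak, Y.Ed_some, hck, Y.Ed_some]
        simp only [app]
        congr 2
        by_cases h0 : s' = 0
        · subst h0
          have hpre : ∀ σ j, Y.pre d σ j = true := fun σ j => by rw [c33]; rfl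
          by_cases hl : Y.l (c k).2.1 di = Y.l (c k).2.1 (Y.π 0 di)
          · -- no load
            have w1 : Y.want (c k).2.1 di = none := by
              unfold want
              split_ifs with h
              · rw [← hl, h]
              · rfl
            have w2 : Y.want (c k).2.1 (Y.π 0 di) = none := by
              unfold want
              rw [Y.inv]
              split_ifs with h
              · rw [hl, h]
              · rfl
            rw [Y.ld_eq hl, xr_zero, w1, w2]
          · have hw : Y.wl di = none := by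
              rcases hw : Y.wl di with _ | z
              · rfl
              · exact absurd (Y.l_eq_of_wl hw) hl
            -- the right neighbour does not change
            have hsame : Y.act 0 c (k + 1) = c (k + 1) := by
              rw [act, Y.loc_even 0 hp1]
              rcases hcoh with hcoh | ⟨d1, hcoh⟩
              · rw [hcoh k hp] at hx
                exact absurd hx (by simp)
              · obtain ⟨ρ1, h1⟩ := hcoh k hp
                obtain ⟨ρ2, h2⟩ := hcoh (k + 2) hp2
                rw [h1] at hx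
                have hd : d1 = di := congrArg (fun z => z.1) (Option.some.inj hx)
                rw [show k + 1 + 1 = k + 2 by ring, h2, hd, Y.msg_zero_none hw, dec_zero,
                  Y.app_none, ← hp1]
            rw [Y.ld_pos hl, hsame]
            rcases (Y.c2n di hw).2 (c k).2.1 with h | h | h
            · exact absurd h hl
            · -- unloaded side
              obtain ⟨σ, hσ⟩ : ∃ σ, Y.l (c k).2.1 (Y.π 0 di) = some σ := by
                rcases hz : Y.l (c k).2.1 (Y.π 0 di) with _ | σ
                · exact absurd (h.trans hz.symm) hl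
                · exact ⟨σ, rfl⟩
              have w1 : Y.want (c k).2.1 di = some σ := by
                unfold want; rw [if_pos h, hσ]
              have w2 : Y.want (c k).2.1 (Y.π 0 di) = none := by
                unfold want; rw [if_neg (by rw [hσ]; simp)]
              rw [w1, w2, Y.reg_none h, Y.reg_some hσ, zero_xr]
              funext j
              simp [xr, hpre]
            · -- loaded side
              obtain ⟨σ, hσ⟩ : ∃ σ, Y.l (c k).2.1 di = some σ := by
                rcases hz : Y.l (c k).2.1 di with _ | σ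
                · exact absurd (hz.trans h.symm) hl
                · exact ⟨σ, rfl⟩
              have w1 : Y.want (c k).2.1 di = none := by
                unfold want; rw [if_neg (by rw [hσ]; simp)]
              have w2 : Y.want (c k).2.1 (Y.π 0 di) = some σ := by
                unfold want; rw [if_pos h, Y.inv, hσ]
              rw [w1, w2, Y.reg_none h, Y.reg_some hσ, xr_zero]
              funext j
              simp [xr, hpre]
        · have hpre : ∀ σ j, Y.pre d σ j = false := fun σ j => by
            rw [c33]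
            exact decide_eq_false h0
          rw [Y.ld_ne h0, xr_zero]
          funext j
          simp only [hpre, Bool.false_and]
          rcases Y.want (c k).2.1 di with _ | _ <;> rcases Y.want (c k).2.1 (Y.π s' di) with _ | _ <;>
            rfl
  · have hi' : i % 2 = 1 := by omega
    have e1 : (i + 1) / 2 = i / 2 + 1 := by omega
    rw [act, Y.PP_odd d c hi', Y.PP_even d c (i := i + 1) (by omega), Y.PP_odd _ _ hi', e1,
      Y.loc_odd s rfl]
    generalize hk : i / 2 = k
    refine Prod.ext rfl (Prod.ext ?_ ?_)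
    · simp only [act]
      exact (Y.loc_fst _ _ _).symm
    simp only [odd]
    rw [hfix, Y.ld_ne hs0, xr_zero]
    congr 2
    have f1 : (Y.act s' c k).1 = (c k).1 := Y.loc_fst _ _ _
    have f2 : (Y.act s' c (k + 1)).2.1 = (c (k + 1)).2.1 := Y.loc_typ _ _ _
    rw [f1, f2]
    rcases hp : (c k).1 with _ | _
    · have hp1 : (c (k + 1)).1 = true := by rw [halt, hp]; rfl
      rw [Y.reg_some c32, Y.reg_some c32]
      exact (Y.msg_loc s' hp1 _).symm
    · rw [Y.reg_none c31, Y.reg_none c31]

/-! ### The self-similar family -/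

def base : ℕ → Q D := fun i => (decide (i % 2 = 1), true, none)

noncomputable def S : List D → (ℕ → Q D)
  | [] => base
  | d :: y => Y.PP d (S y)

def actL : List D → Gen → List D
  | [], _ => []
  | d :: y, s =>
    match Y.sec s d with
    | none => Y.π s d :: y
    | some s' => d :: actL y s'

lemma actL_none {s : Gen} {d : D} (h : Y.sec s d = none) (y : List D) :
    Y.actL (d :: y) s = Y.π s d :: y := by
  simp only [actL, h]

lemma actL_some {s s' : Gen} {d : D} (h : Y.sec s d = some s') (y : List D) :
    Y.actL (d :: y) s = d :: Y.actL y s' := by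
  simp only [actL, h]

lemma S_alt (y : List D) : Alt (Y.S y) := by
  intro i
  cases y with
  | nil =>
    simp only [S, base]
    by_cases h : i % 2 = 1
    · have : ¬ (i + 1) % 2 = 1 := by omega
      simp [h, this]
    · have : (i + 1) % 2 = 1 := by omega
      simp [h, this]
  | cons d y =>
    simp only [S]
    by_cases h : i % 2 = 0
    · rw [Y.PP_even d _ h, Y.PP_odd d _ (by omega)]; rfl
    · rw [Y.PP_odd d _ (i := i) (by omega), Y.PP_even d _ (by omega)]; rfl

lemma S_coh (y : List D) : Coh (Y.S y) := by
  cases y with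
  | nil =>
    left
    intro i _
    rfl
  | cons d y =>
    right
    refine ⟨d, fun i hi => ?_⟩
    simp only [S] at hi ⊢
    by_cases h : i % 2 = 0
    · rw [Y.PP_even d _ h] at hi
      exact absurd hi (by simp)
    · rw [Y.PP_odd d _ (by omega)]
      exact ⟨_, rfl⟩

lemma act_base (s : Gen) : Y.act s base = base := by
  funext i
  by_cases h : i % 2 = 1
  · rw [act, Y.loc_odd s (by simp [base, h])]
    simp [base, h, odd]
  · rw [act, Y.loc_even s (by simp [base, h])]
    simp [base, h, app]

theorem act_S (y : List D) : ∀ s, Y.act s (Y.S y) = Y.S (Y.actL y s) := by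
  induction y with
  | nil => intro s; exact Y.act_base s
  | cons d y ih =>
    intro s
    rcases h : Y.sec s d with _ | s'
    · rw [Y.actL_none h]
      exact Y.act_PP_none s d _ h
    · rw [Y.actL_some h]
      simp only [S]
      rw [Y.act_PP_some s s' d _ (Y.S_alt y) (Y.S_coh y) h, ih]

lemma actL_inv (y : List D) : ∀ s, Y.actL (Y.actL y s) s = y := by
  induction y with
  | nil => intro s; rfl
  | cons d y ih =>
    intro s
    rcases h : Y.sec s d with _ | s'
    · rw [Y.actL_none h]
      rcases h' : Y.sec s (Y.π s d) with _ | s''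
      · rw [Y.actL_none h', Y.inv]
      · exfalso
        have h1 := Y.sec_fix _ _ _ h'
        rw [Y.inv] at h1
        rw [← h1, h] at h'
        exact absurd h' (by simp)
    · rw [Y.actL_some h, Y.actL_some h, ih]

end Sys

end Pool.Agent.H258R3.Dist
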