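import Pool.Agent.H258R3.DistA

/-!
The concrete system.  Digits are the places `0, …, K - 1` of a path, `K = 512 (g + 1)`.
-/

set_option autoImplicit false

namespace Pool.Agent.H258R3.Dist

def piN (K : ℕ) (s : Gen) (p : ℕ) : ℕ :=
  if s = 0 then (if p % 2 = 0 then p + 1 else p - 1)
  else if s = 1 then
    (if p % 2 = 1 then (if p + 1 = K then p else p + 1) else (if p = 0 then 0 else p - 1))
  else if s = 2 then
    (if p % 2 = 1 then (if p % 512 = 511 then p else p + 1)
      else (if p % 512 = 0 then p else p - 1))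
  else if s = 3 then (if p % 512 = 400 then p + 1 else if p % 512 = 401 then p - 1 else p)
  else p

def T (n : ℕ) : Option Gen :=
  if n = 192 then some 0 else if n = 301 then some 1 else if n = 305 then some 2
  else if n = 309 then some 3 else if n = 313 then some 4 else none

def secN (K : ℕ) (s : Gen) (p : ℕ) : Option Gen :=
  if s = 1 then (if p = 0 then some 0 else if p + 1 = K then some 1 else none)
  else if s = 4 then T (p % 512) else none

def sttB (n : ℕ) : ℕ :=
  if 100 ≤ n ∧ n ≤ 192 then (n - 99) / 2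
  else if 192 < n ∧ n ≤ 284 then 46 - (n - 191) / 2
  else if n = 301 ∨ n = 302 then 47
  else if n = 305 ∨ n = 306 then 48
  else if n = 309 ∨ n = 310 then 49
  else if n = 313 ∨ n = 314 then 50
  else 0

def sttN (K p : ℕ) : ℕ :=
  if p ≤ 92 then 46 - (p + 1) / 2
  else if p + 1 = K then 47
  else sttB (p % 512)

def Rel (a b : ℕ) : Prop :=
  (a = 0 ∧ b = 0) ∨ (a + 1 = b ∧ b ≤ 46) ∨ (b + 1 = a ∧ a ≤ 46) ∨ (a = 0 ∧ 47 ≤ b ∧ b ≤ 50) ∨
    (b = 0 ∧ 47 ≤ a ∧ a ≤ 50)

instance (a b : ℕ) : Decidable (Rel a b) := by unfold Rel; infer_instance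

lemma Rel.symm {a b : ℕ} (h : Rel a b) : Rel b a := by
  unfold Rel at *; omega

lemma sttB_y : ∀ n : Fin 511, n.val % 2 = 1 → sttB (n.val + 1) = sttB n.val := by
  decide +kernel

lemma sttB_x : ∀ n : Fin 511, n.val % 2 = 0 → Rel (sttB n.val) (sttB (n.val + 1)) := by
  decide +kernel

lemma sttB_le' : ∀ n : Fin 512, sttB n.val ≤ 50 := by
  decide +kernel

lemma stt_y (g p : ℕ) (h1 : p % 2 = 1) (h2 : p + 1 < 512 * (g + 1)) :
    sttN (512 * (g + 1)) (p + 1) = sttN (512 * (g + 1)) p := by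
  unfold sttN
  by_cases h3 : p ≤ 92
  · rw [if_pos h3, if_pos (by omega)]
    omega
  · rw [if_neg h3, if_neg (by omega), if_neg (by omega), if_neg (by omega)]
    by_cases h4 : p % 512 = 511
    · rw [h4, show (p + 1) % 512 = 0 by omega]
      rfl
    · rw [show (p + 1) % 512 = p % 512 + 1 by omega]
      exact sttB_y ⟨p % 512, by omega⟩ (by simp only; omega)

lemma stt_x (g p : ℕ) (h1 : p % 2 = 0) (h2 : p < 512 * (g + 1)) :
    Rel (sttN (512 * (g + 1)) p) (sttN (512 * (g + 1)) (p + 1)) := by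
  unfold sttN
  by_cases h3 : p ≤ 90
  · rw [if_pos (by omega), if_pos (by omega)]
    unfold Rel
    omega
  by_cases h4 : p ≤ 92
  · have h5 : p = 92 := by omega
    subst h5
    rw [if_pos (by omega), if_neg (by omega), if_neg (by omega)]
    decide
  · rw [if_neg h4, if_neg (by omega), if_neg (by omega)]
    by_cases h5 : p + 1 + 1 = 512 * (g + 1)
    · rw [if_pos h5, show p % 512 = 510 by omega]
      decide
    · rw [if_neg h5, show (p + 1) % 512 = p % 512 + 1 by omega]
      exact sttB_x ⟨p % 512, by omega⟩ (by simp only; omega)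

lemma stt_le (K p : ℕ) : sttN K p ≤ 50 := by
  unfold sttN
  split_ifs
  · omega
  · omega
  · exact sttB_le' ⟨p % 512, Nat.mod_lt _ (by norm_num)⟩

def lN (t : Bool) (n : ℕ) : Option Gen :=
  if t then (if n < 45 ∧ 1 ≤ n % 9 then some (Fin.ofNat 5 (n / 9)) else none)
  else (if n = 46 then some 0 else if 47 ≤ n then some (Fin.ofNat 5 (n - 46)) else none)

def preN (n : ℕ) (σ : Gen) (j : Fin 7) : Bool := decide (n ≤ 46 ∧ 9 * σ.val + j.val + 2 ≤ n)

def wlN (a b : ℕ) : Option (Gen × Fin 7) :=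
  if (a + 1 = b ∨ b + 1 = a) ∧ min a b < 45 ∧ 1 ≤ (min a b) % 9 ∧ (min a b) % 9 ≤ 7 then
    some (Fin.ofNat 5 (min a b / 9), Fin.ofNat 7 ((min a b) % 9 - 1)) else none

lemma wlN_symm (a b : ℕ) : wlN a b = wlN b a := by
  have h : (a + 1 = b ∨ b + 1 = a) ↔ (b + 1 = a ∨ a + 1 = b) := or_comm
  simp only [wlN, min_comm a b, h]

lemma F1' : ∀ a b : Fin 51, Rel a b → wlN a b = none →
    (∀ σ j, preN b σ j = preN a σ j) ∧ ∀ t, lN t a = lN t b ∨ lN t a = none ∨ lN t b = none := by
  decide +kernel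

lemma F2' : ∀ a b : Fin 51, Rel a b → ∀ σ j, wlN a b = some (σ, j) →
    lN true a = some σ ∧ lN true b = some σ ∧ lN false b = lN false a ∧
      ∀ σ' j', preN b σ' j' = (preN a σ' j' ^^ decide (σ' = σ ∧ j' = j)) := by
  decide +kernel

lemma F3 : ∀ s' : Gen, lN true (46 + s'.val) = none ∧ lN false (46 + s'.val) = some s' ∧
    ∀ σ j, preN (46 + s'.val) σ j = decide (s' = 0) := by
  decide +kernel

lemma F1 {a b : ℕ} (ha : a ≤ 50) (hb : b ≤ 50) (h : Rel a b) (hw : wlN a b = none) :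
    (∀ σ j, preN b σ j = preN a σ j) ∧ ∀ t, lN t a = lN t b ∨ lN t a = none ∨ lN t b = none :=
  F1' ⟨a, by omega⟩ ⟨b, by omega⟩ h hw

lemma F2 {a b : ℕ} (ha : a ≤ 50) (hb : b ≤ 50) (h : Rel a b) {σ : Gen} {j : Fin 7}
    (hw : wlN a b = some (σ, j)) :
    lN true a = some σ ∧ lN true b = some σ ∧ lN false b = lN false a ∧
      ∀ σ' j', preN b σ' j' = (preN a σ' j' ^^ decide (σ' = σ ∧ j' = j)) :=
  F2' ⟨a, by omega⟩ ⟨b, by omega⟩ h σ j hw

lemma gen_cases (s : Gen) : s = 0 ∨ s = 1 ∨ s = 2 ∨ s = 3 ∨ s = 4 := by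
  revert s; decide

lemma pi0 (K p : ℕ) : piN K 0 p = if p % 2 = 0 then p + 1 else p - 1 := rfl
lemma pi1 (K p : ℕ) : piN K 1 p = if p % 2 = 1 then (if p + 1 = K then p else p + 1)
    else (if p = 0 then 0 else p - 1) := rfl
lemma pi2 (K p : ℕ) : piN K 2 p = if p % 2 = 1 then (if p % 512 = 511 then p else p + 1)
      else (if p % 512 = 0 then p else p - 1) := rfl
lemma pi3 (K p : ℕ) : piN K 3 p =
    if p % 512 = 400 then p + 1 else if p % 512 = 401 then p - 1 else p := rfl
lemma pi4 (K p : ℕ) : piN K 4 p = p := rfl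

lemma piN_lt (g : ℕ) (s : Gen) (p : ℕ) (h : p < 512 * (g + 1)) :
    piN (512 * (g + 1)) s p < 512 * (g + 1) := by
  rcases gen_cases s with rfl | rfl | rfl | rfl | rfl
  · simp only [pi0]; split_ifs <;> omega
  · simp only [pi1]; split_ifs <;> omega
  · simp only [pi2]; split_ifs <;> omega
  · simp only [pi3]; split_ifs <;> omega
  · simp only [pi4]; exact h

lemma piN_inv (g : ℕ) (s : Gen) (p : ℕ) (h : p < 512 * (g + 1)) :
    piN (512 * (g + 1)) s (piN (512 * (g + 1)) s p) = p := by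
  rcases gen_cases s with rfl | rfl | rfl | rfl | rfl
  · simp only [pi0]; split_ifs <;> omega
  · rw [pi1 _ p]
    by_cases h1 : p % 2 = 1
    · rw [if_pos h1]
      by_cases h2 : p + 1 = 512 * (g + 1)
      · rw [if_pos h2, pi1, if_pos h1, if_pos h2]
      · rw [if_neg h2, pi1, if_neg (by omega), if_neg (by omega)]
        omega
    · rw [if_neg h1]
      by_cases h2 : p = 0
      · rw [if_pos h2, h2]; rfl
      · rw [if_neg h2, pi1, if_pos (by omega), if_neg (by omega)]
        omega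
  · rw [pi2 _ p]
    by_cases h1 : p % 2 = 1
    · rw [if_pos h1]
      by_cases h2 : p % 512 = 511
      · rw [if_pos h2, pi2, if_pos h1, if_pos h2]
      · rw [if_neg h2, pi2, if_neg (by omega), if_neg (by omega)]
        omega
    · rw [if_neg h1]
      by_cases h2 : p % 512 = 0
      · rw [if_pos h2, pi2, if_neg h1, if_pos h2]
      · rw [if_neg h2, pi2, if_pos (by omega), if_neg (by omega)]
        omega
  · simp only [pi3]; split_ifs <;> omega
  · simp only [pi4]

lemma stt_pi (g : ℕ) (s : Gen) (p : ℕ) (h : p < 512 * (g + 1)) (hs : s ≠ 0) :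
    sttN (512 * (g + 1)) (piN (512 * (g + 1)) s p) = sttN (512 * (g + 1)) p := by
  rcases gen_cases s with rfl | rfl | rfl | rfl | rfl
  · exact absurd rfl hs
  · rw [pi1]
    split_ifs with h1 h2 h3
    · rfl
    · exact stt_y g p h1 (by omega)
    · rw [h3]
    · have := stt_y g (p - 1) (by omega) (by omega)
      rw [show p - 1 + 1 = p by omega] at this
      exact this.symm
  · rw [pi2]
    split_ifs with h1 h2 h3
    · rfl
    · exact stt_y g p h1 (by omega)
    · rfl
    · have := stt_y g (p - 1) (by omega) (by omega)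
      rw [show p - 1 + 1 = p by omega] at this
      exact this.symm
  · have z : ∀ p, (p % 512 = 400 ∨ p % 512 = 401) → sttN (512 * (g + 1)) p = 0 := by
      intro p hp
      unfold sttN
      rw [if_neg (by omega), if_neg (by omega)]
      rcases hp with hp | hp <;> rw [hp] <;> rfl
    rw [pi3]
    split_ifs with h1 h2
    · rw [z p (Or.inl h1), z (p + 1) (Or.inr (by omega))]
    · rw [z p (Or.inr h2), z (p - 1) (Or.inl (by omega))]
    · rfl
  · rfl

lemma stt_pi0 (g : ℕ) (p : ℕ) (h : p < 512 * (g + 1)) :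
    Rel (sttN (512 * (g + 1)) p) (sttN (512 * (g + 1)) (piN (512 * (g + 1)) 0 p)) := by
  rw [pi0]
  split_ifs with h1
  · exact stt_x g p h1 h
  · have := stt_x g (p - 1) (by omega) (by omega)
    rw [show p - 1 + 1 = p by omega] at this
    exact this.symm

lemma T_sttB : ∀ n : Fin 512, ∀ s' : Gen, T n.val = some s' → sttB n.val = 46 + s'.val := by
  decide +kernel

lemma T_range : ∀ n : Fin 512, T n.val ≠ none → 93 ≤ n.val ∧ n.val ≤ 500 := by
  decide +kernel

lemma T_stt (g p : ℕ) (s' : Gen) (h : T (p % 512) = some s') :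
    sttN (512 * (g + 1)) p = 46 + s'.val := by
  have h1 := T_range ⟨p % 512, Nat.mod_lt _ (by norm_num)⟩ (by simp only; rw [h]; simp)
  simp only at h1
  unfold sttN
  rw [if_neg (by omega), if_neg (by omega)]
  exact T_sttB ⟨p % 512, Nat.mod_lt _ (by norm_num)⟩ s' h

lemma sec_cases {K : ℕ} {s s' : Gen} {p : ℕ} (h : secN K s p = some s') :
    (s = 1 ∧ p = 0 ∧ s' = 0) ∨ (s = 1 ∧ p + 1 = K ∧ p ≠ 0 ∧ s' = 1) ∨
      (s = 4 ∧ T (p % 512) = some s') := by
  unfold secN at h
  split_ifs at h with h1 h2 h3 h4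
  · left; exact ⟨h1, h2, (Option.some.inj h).symm⟩
  · right; left; exact ⟨h1, h3, h2, (Option.some.inj h).symm⟩
  · right; right; exact ⟨h4, h⟩

/-- the concrete system -/
def sys (g : ℕ) : Sys (Fin (512 * (g + 1))) where
  π s p := ⟨piN (512 * (g + 1)) s p.val, piN_lt g s p.val p.isLt⟩
  sec s p := secN (512 * (g + 1)) s p.val
  l t p := lN t (sttN (512 * (g + 1)) p.val)
  pre p := preN (sttN (512 * (g + 1)) p.val)
  wl p := wlN (sttN (512 * (g + 1)) p.val)
    (sttN (512 * (g + 1)) (piN (512 * (g + 1)) 0 p.val))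
  inv s p := Fin.ext (piN_inv g s p.val p.isLt)
  sec_fix s p s' h := by
    apply Fin.ext
    simp only
    rcases sec_cases h with ⟨rfl, h1, _⟩ | ⟨rfl, h1, _, _⟩ | ⟨rfl, _⟩
    · rw [pi1, if_neg (by omega), if_pos h1, h1]
    · rw [pi1, if_pos (by omega), if_pos h1]
    · rfl
  sec_zero p := rfl
  c1 s p hs := by
    have h := stt_pi g s p.val p.isLt hs
    constructor
    · intro t
      simp only
      rw [h]
    · simp only
      rw [h]
  c2w p := by
    simp only
    rw [piN_inv g 0 p.val p.isLt, wlN_symm]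
  c2n p hw := by
    obtain ⟨h1, h2⟩ := F1 (stt_le _ _) (stt_le _ _) (stt_pi0 g p.val p.isLt) hw
    exact ⟨funext fun σ => funext fun j => h1 σ j, h2⟩
  c2s p σ j hw := F2 (stt_le _ _) (stt_le _ _) (stt_pi0 g p.val p.isLt) hw
  c3 s p s' h := by
    have hst : sttN (512 * (g + 1)) p.val = 46 + s'.val := by
      rcases sec_cases h with ⟨_, h1, rfl⟩ | ⟨_, h1, h0, rfl⟩ | ⟨_, h1⟩
      · rw [h1]; rfl
      · unfold sttN
        show _ = 47
        rw [if_neg (by omega), if_pos h1]
      · exact T_stt g p.val s' h1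
    simp only [hst]
    exact F3 s'

end Pool.Agent.H258R3.Dist
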