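import Pool.Agent.H258R3.DistB

/-!
Words in the generators: the first digit can be fixed while the tail is changed by a word of
bounded length, and the odometer element `tau` is distorted.
-/

set_option autoImplicit false

namespace Pool.Agent.H258R3.Dist

abbrev DD (g : ℕ) := Fin (512 * (g + 1))

noncomputable def actW (g : ℕ) (w : List Gen) (y : List (DD g)) : List (DD g) :=
  w.foldr (fun s y => (sys g).actL y s) y

lemma actW_append (g : ℕ) (w w' : List Gen) (y : List (DD g)) :
    actW g (w ++ w') y = actW g w (actW g w' y) := List.foldr_append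

lemma actW_cons (g : ℕ) (s : Gen) (w : List Gen) (y : List (DD g)) :
    actW g (s :: w) y = (sys g).actL (actW g w y) s := rfl

lemma actW_nil (g : ℕ) (y : List (DD g)) : actW g [] y = y := rfl

lemma actW_empty (g : ℕ) (w : List Gen) : actW g w [] = [] := by
  induction w with
  | nil => rfl
  | cons s w ih => rw [actW_cons, ih]; rfl

noncomputable def optA (g : ℕ) (o : Option Gen) (y : List (DD g)) : List (DD g) :=
  match o with
  | none => y
  | some s => (sys g).actL y s

lemma actL_four (g : ℕ) (p : DD g) (y : List (DD g)) :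
    (sys g).actL (p :: y) 4 = p :: optA g (T (p.val % 512)) y := by
  have h : (sys g).sec 4 p = T (p.val % 512) := rfl
  rcases hT : T (p.val % 512) with _ | s
  · rw [hT] at h
    rw [(sys g).actL_none h]
    rfl
  · rw [hT] at h
    rw [(sys g).actL_some h]
    rfl

lemma actW_four (g : ℕ) (p : DD g) (y : List (DD g)) :
    actW g [4] (p :: y) = p :: optA g (T (p.val % 512)) y := by
  rw [actW_cons, actW_nil, actL_four]

/-- permutations of the blocks -/
def piB (s : Gen) (n : Fin 512) : Fin 512 :=
  ⟨piN 512 s n.val, piN_lt 0 s n.val n.isLt⟩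

def PB (s : Gen) : Equiv.Perm (Fin 512) where
  toFun := piB s
  invFun := piB s
  left_inv n := Fin.ext (piN_inv 0 s n.val n.isLt)
  right_inv n := Fin.ext (piN_inv 0 s n.val n.isLt)

def bact (g : ℕ) (π : Equiv.Perm (Fin 512)) (p : DD g) : DD g :=
  ⟨512 * (p.val / 512) + (π ⟨p.val % 512, Nat.mod_lt _ (by norm_num)⟩).val, by
    have h1 := (π ⟨p.val % 512, Nat.mod_lt _ (by norm_num)⟩).isLt
    have h2 := p.isLt
    omega⟩

lemma bact_mod (g : ℕ) (π : Equiv.Perm (Fin 512)) (p : DD g) :
    (bact g π p).val % 512 = (π ⟨p.val % 512, Nat.mod_lt _ (by norm_num)⟩).val := by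
  have h1 := (π ⟨p.val % 512, Nat.mod_lt _ (by norm_num)⟩).isLt
  simp only [bact]
  omega

lemma bact_mul (g : ℕ) (π π' : Equiv.Perm (Fin 512)) (p : DD g) :
    bact g π (bact g π' p) = bact g (π * π') p := by
  apply Fin.ext
  have h1 := (π' ⟨p.val % 512, Nat.mod_lt _ (by norm_num)⟩).isLt
  have e1 : (bact g π' p).val / 512 = p.val / 512 := by
    simp only [bact]; omega
  have e2 : (⟨(bact g π' p).val % 512, Nat.mod_lt _ (by norm_num)⟩ : Fin 512) =
      π' ⟨p.val % 512, Nat.mod_lt _ (by norm_num)⟩ := Fin.ext (bact_mod g π' p)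
  show 512 * ((bact g π' p).val / 512) + (π ⟨(bact g π' p).val % 512, _⟩).val = _
  rw [e1, e2]
  rfl

lemma bact_one (g : ℕ) (p : DD g) : bact g 1 p = p := by
  apply Fin.ext
  simp only [bact, Equiv.Perm.coe_one, id_eq]
  omega

def RW (π : Equiv.Perm (Fin 512)) (w : List Gen) : Prop :=
  ∀ g (p : DD g) (y : List (DD g)), actW g w (p :: y) = bact g π p :: y

lemma RW_one : RW 1 [] := by
  intro g p y
  rw [actW_nil, bact_one]

lemma RW_mul {π π' : Equiv.Perm (Fin 512)} {w w' : List Gen} (h : RW π w) (h' : RW π' w') :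
    RW (π * π') (w ++ w') := by
  intro g p y
  rw [actW_append, h' g p y, h, bact_mul]

lemma RW_gen (s : Gen) (hs : s = 0 ∨ s = 2 ∨ s = 3) : RW (PB s) [s] := by
  intro g p y
  have h : (sys g).sec s p = none := by
    rcases hs with rfl | rfl | rfl <;> rfl
  rw [actW_cons, actW_nil, (sys g).actL_none h]
  congr 1
  apply Fin.ext
  show piN (512 * (g + 1)) s p.val = 512 * (p.val / 512) + piN 512 s (p.val % 512)
  rcases hs with rfl | rfl | rfl
  · rw [pi0, pi0]; split_ifs <;> omega
  · rw [pi2, pi2]; split_ifs <;> omega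
  · rw [pi3, pi3]; split_ifs <;> omega

lemma RW_pow {π : Equiv.Perm (Fin 512)} {w : List Gen} (h : RW π w) (n : ℕ) :
    ∃ w', RW (π ^ n) w' := by
  induction n with
  | zero => exact ⟨[], by rw [pow_zero]; exact RW_one⟩
  | succ n ih =>
    obtain ⟨w', hw'⟩ := ih
    exact ⟨w' ++ w, by rw [pow_succ]; exact RW_mul hw' h⟩

/-! the two permutations generate everything -/

def kap : Equiv.Perm (Fin 512) := PB 0 * PB 2

lemma kap_val (n : Fin 512) : (kap n).val =
    if n.val % 2 = 1 then (if n.val = 511 then 510 else n.val + 2)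
    else (if n.val = 0 then 1 else n.val - 2) := by
  have h := n.isLt
  show piN 512 0 (piN 512 2 n.val) = _
  rw [pi0, pi2]
  split_ifs <;> omega

lemma kap_odd (k : ℕ) : ∀ n : Fin 512, n.val % 2 = 1 → n.val + 2 * k ≤ 511 →
    ((kap ^ k) n).val = n.val + 2 * k := by
  induction k with
  | zero => intro n _ _; rfl
  | succ k ih =>
    intro n h1 h2
    rw [pow_succ', Equiv.Perm.mul_apply, kap_val, ih n h1 (by omega), if_pos (by omega),
      if_neg (by omega)]
    omega

lemma kap_even (k : ℕ) : ∀ n : Fin 512, n.val % 2 = 0 → 2 * k ≤ n.val →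
    ((kap ^ k) n).val = n.val - 2 * k := by
  induction k with
  | zero => intro n _ _; rfl
  | succ k ih =>
    intro n h1 h2
    rw [pow_succ', Equiv.Perm.mul_apply, kap_val, ih n h1 (by omega), if_neg (by omega),
      if_neg (by omega)]
    omega

lemma kap_zero_one : kap 0 = 1 := by
  apply Fin.ext
  rw [kap_val]
  rfl

lemma kap_same (n : Fin 512) : Equiv.Perm.SameCycle kap 0 n := by
  have h := n.isLt
  by_cases h1 : n.val % 2 = 1
  · refine ⟨((n.val / 2 + 1 : ℕ) : ℤ), ?_⟩
    rw [zpow_natCast, pow_succ, Equiv.Perm.mul_apply, kap_zero_one]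
    apply Fin.ext
    rw [kap_odd _ _ (by rfl) (by show 1 + 2 * (n.val / 2) ≤ 511; omega)]
    show 1 + 2 * (n.val / 2) = n.val
    omega
  · apply Equiv.Perm.SameCycle.symm
    refine ⟨((n.val / 2 : ℕ) : ℤ), ?_⟩
    rw [zpow_natCast]
    apply Fin.ext
    rw [kap_even _ _ (by omega) (by omega)]
    show n.val - 2 * (n.val / 2) = 0
    omega

lemma kap_ne (n : Fin 512) : kap n ≠ n := by
  intro h
  have h1 := congrArg Fin.val h
  rw [kap_val] at h1
  have h2 := n.isLt
  split_ifs at h1 <;> omega

lemma kap_cycle : kap.IsCycle := ⟨0, kap_ne 0, fun n _ => kap_same n⟩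

lemma kap_support : kap.support = Finset.univ := by
  ext n
  simp [Equiv.Perm.mem_support, kap_ne n]

lemma kap_401 : (kap ^ 401) (400 : Fin 512) = 401 := by
  have h1 : ((kap ^ 200) (400 : Fin 512)) = 0 := Fin.ext (kap_even 200 400 rfl (by decide))
  have h2 : ((kap ^ 200) (1 : Fin 512)) = 401 := Fin.ext (kap_odd 200 1 rfl (by decide))
  have h3 : (401 : ℕ) = 200 + (1 + 200) := rfl
  rw [h3, pow_add, Equiv.Perm.mul_apply, pow_add, Equiv.Perm.mul_apply, h1, pow_one,
    kap_zero_one, h2]

lemma PB3 : PB 3 = Equiv.swap (400 : Fin 512) 401 := by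
  ext n
  show piN 512 3 n.val = _
  rw [pi3, Equiv.swap_apply_def]
  have h := n.isLt
  by_cases h1 : n = 400
  · rw [if_pos h1, h1]; rfl
  · by_cases h2 : n = 401
    · rw [if_neg h1, if_pos h2, h2]; rfl
    · have h3 : n.val ≠ 400 := fun h => h1 (Fin.ext h)
      have h4 : n.val ≠ 401 := fun h => h2 (Fin.ext h)
      rw [if_neg h1, if_neg h2, if_neg (by omega), if_neg (by omega)]

lemma closure_top : Subgroup.closure ({kap, PB 3} : Set (Equiv.Perm (Fin 512))) = ⊤ := by
  have h := Equiv.Perm.closure_cycle_coprime_swap (n := 401) (σ := kap)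
    (by rw [Fintype.card_fin]; decide) kap_cycle kap_support 400
  rw [kap_401, ← PB3] at h
  exact h

lemma exists_RW (π : Equiv.Perm (Fin 512)) : ∃ w, RW π w := by
  have hπ : π ∈ Subgroup.closure ({kap, PB 3} : Set (Equiv.Perm (Fin 512))) := by
    rw [closure_top]; trivial
  induction hπ using Subgroup.closure_induction with
  | mem x hx =>
    rcases hx with hx | hx
    · rw [hx]
      exact ⟨_, RW_mul (RW_gen 0 (by decide)) (RW_gen 2 (by decide))⟩
    · have : x = PB 3 := hx
      rw [this]
      exact ⟨_, RW_gen 3 (by decide)⟩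
  | one => exact ⟨_, RW_one⟩
  | mul x y _ _ hx hy =>
    obtain ⟨w, hw⟩ := hx
    obtain ⟨w', hw'⟩ := hy
    exact ⟨_, RW_mul hw hw'⟩
  | inv x _ hx =>
    obtain ⟨w, hw⟩ := hx
    obtain ⟨w', hw'⟩ := RW_pow hw (orderOf x - 1)
    refine ⟨w', ?_⟩
    have h1 : x ^ (orderOf x - 1) * x = 1 := by
      rw [← pow_succ, Nat.sub_add_cancel (orderOf_pos x), pow_orderOf_eq_one]
    rwa [eq_inv_of_mul_eq_one_left h1] at hw'

/-! ### changing the tail over a set of blocks -/

def GW (s : Gen) (A : ℕ → Bool) (w : List Gen) : Prop :=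
  ∀ g (p : DD g) (y : List (DD g)),
    actW g w (p :: y) = p :: (if A (p.val % 512) then (sys g).actL y s else y)

def gs (s : Gen) : Fin 512 :=
  if s = 0 then 192 else if s = 1 then 301 else if s = 2 then 305 else if s = 3 then 309 else 313

lemma gs_ne (s : Gen) : gs s ≠ 500 := by
  revert s; decide

lemma T_gs (s : Gen) : T (gs s).val = some s := by
  revert s; decide

lemma T_500 : T 500 = none := by decide

lemma optA_inv (g : ℕ) (o : Option Gen) (y : List (DD g)) : optA g o (optA g o y) = y := by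
  rcases o with _ | s
  · rfl
  · exact (sys g).actL_inv y s

lemma GW_base (s : Gen) : ∃ w, GW s (fun n => n == (gs s).val || n == 500) w := by
  obtain ⟨w, hw⟩ := exists_RW (Equiv.swap (gs s) 500)
  refine ⟨[4] ++ (w ++ ([4] ++ w)), ?_⟩
  intro g p y
  have hlt : p.val % 512 < 512 := Nat.mod_lt _ (by norm_num)
  rw [actW_append, actW_append, actW_append, hw, actW_four, hw, bact_mul, Equiv.swap_mul_self,
    bact_one, actW_four, bact_mod]
  congr 1
  by_cases h1 : (⟨p.val % 512, hlt⟩ : Fin 512) = gs s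
  · have h1' : p.val % 512 = (gs s).val := congrArg Fin.val h1
    rw [h1, Equiv.swap_apply_left, h1', T_gs]
    have : ((500 : Fin 512) : ℕ) = 500 := rfl
    rw [this, T_500]
    simp [optA]
  · by_cases h2 : (⟨p.val % 512, hlt⟩ : Fin 512) = 500
    · have h2' : p.val % 512 = 500 := congrArg Fin.val h2
      rw [h2, Equiv.swap_apply_right, h2', T_gs, T_500]
      simp [optA]
    · rw [Equiv.swap_apply_of_ne_of_ne h1 h2, optA_inv]
      have h3 : p.val % 512 ≠ (gs s).val := fun h => h1 (Fin.ext h)
      have h4 : p.val % 512 ≠ 500 := fun h => h2 (Fin.ext h)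
      simp [h3, h4]

lemma exists_perm {a b c d : Fin 512} (h1 : a ≠ c) (h2 : b ≠ d) :
    ∃ π : Equiv.Perm (Fin 512), π a = b ∧ π c = d := by
  refine ⟨Equiv.swap (Equiv.swap a b c) d * Equiv.swap a b, ?_, ?_⟩
  · rw [Equiv.Perm.mul_apply, Equiv.swap_apply_left, Equiv.swap_apply_of_ne_of_ne _ h2]
    intro h
    apply h1
    have h3 : Equiv.swap a b a = Equiv.swap a b c := by rw [Equiv.swap_apply_left, ← h]
    exact (Equiv.swap a b).injective h3
  · rw [Equiv.Perm.mul_apply, Equiv.swap_apply_left]

lemma GW_pair (s : Gen) (b1 b2 : ℕ) (h1 : b1 < 512) (h2 : b2 < 512) (h : b1 ≠ b2) :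
    ∃ w, GW s (fun n => n == b1 || n == b2) w := by
  obtain ⟨u, hu⟩ := GW_base s
  obtain ⟨π, hπ1, hπ2⟩ := exists_perm (a := gs s) (b := ⟨b1, h1⟩) (c := 500) (d := ⟨b2, h2⟩)
    (gs_ne s) (fun e => h (congrArg Fin.val e))
  obtain ⟨w, hw⟩ := exists_RW π
  obtain ⟨w', hw'⟩ := exists_RW π⁻¹
  refine ⟨w ++ (u ++ w'), ?_⟩
  intro g p y
  have hlt : p.val % 512 < 512 := Nat.mod_lt _ (by norm_num)
  rw [actW_append, actW_append, hw', hu, hw, bact_mul, mul_inv_cancel, bact_one, bact_mod]
  congr 1
  have e1 : (π⁻¹ ⟨p.val % 512, hlt⟩).val = (gs s).val ↔ p.val % 512 = b1 := by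
    constructor
    · intro e
      have e' := Fin.ext e
      rw [Equiv.Perm.inv_eq_iff_eq, hπ1] at e'
      exact congrArg Fin.val e'
    · intro e
      have e' : (⟨p.val % 512, hlt⟩ : Fin 512) = π (gs s) := by rw [hπ1]; exact Fin.ext e
      exact congrArg Fin.val (Equiv.Perm.inv_eq_iff_eq.2 e')
  have e2 : (π⁻¹ ⟨p.val % 512, hlt⟩).val = 500 ↔ p.val % 512 = b2 := by
    constructor
    · intro e
      have e' : π⁻¹ ⟨p.val % 512, hlt⟩ = 500 := Fin.ext e
      rw [Equiv.Perm.inv_eq_iff_eq, hπ2] at e'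
      exact congrArg Fin.val e'
    · intro e
      have e' : (⟨p.val % 512, hlt⟩ : Fin 512) = π 500 := by rw [hπ2]; exact Fin.ext e
      exact congrArg Fin.val (Equiv.Perm.inv_eq_iff_eq.2 e')
  have e3 : ((π⁻¹ ⟨p.val % 512, hlt⟩).val == (gs s).val || (π⁻¹ ⟨p.val % 512, hlt⟩).val == 500) =
      (p.val % 512 == b1 || p.val % 512 == b2) := by
    rw [Bool.eq_iff_iff]
    simp only [Bool.or_eq_true, beq_iff_eq, e1, e2]
  simp only [e3]

lemma GW_union {s : Gen} {A B : ℕ → Bool} {w w' : List Gen} (h : GW s A w) (h' : GW s B w')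
    (hd : ∀ n, ¬ (A n = true ∧ B n = true)) : GW s (fun n => A n || B n) (w ++ w') := by
  intro g p y
  rw [actW_append, h', h]
  congr 1
  have := hd (p.val % 512)
  cases hA : A (p.val % 512) <;> cases hB : B (p.val % 512) <;> simp_all

lemma GW_congr {s : Gen} {A B : ℕ → Bool} {w : List Gen} (h : GW s A w)
    (hAB : ∀ n < 512, A n = B n) : GW s B w := by
  intro g p y
  rw [h, hAB _ (Nat.mod_lt _ (by norm_num))]

lemma GW_all_aux (s : Gen) (n : ℕ) (hn : n ≤ 256) : ∃ w, GW s (fun k => decide (k < 2 * n)) w := by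
  induction n with
  | zero =>
    refine ⟨[], ?_⟩
    intro g p y
    simp [actW_nil]
  | succ n ih =>
    obtain ⟨w, hw⟩ := ih (by omega)
    obtain ⟨w', hw'⟩ := GW_pair s (2 * n) (2 * n + 1) (by omega) (by omega) (by omega)
    refine ⟨w ++ w', GW_congr (GW_union hw hw' ?_) ?_⟩
    · intro k hk
      simp at hk
      omega
    · intro k _
      rw [Bool.eq_iff_iff]
      simp
      omega

lemma GW_all (s : Gen) : ∃ w, GW s (fun _ => true) w := by
  obtain ⟨w, hw⟩ := GW_all_aux s 256 le_rfl
  exact ⟨w, GW_congr hw (fun n hn => by simp; omega)⟩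

lemma GW_even_aux (n : ℕ) (hn : n ≤ 128) :
    ∃ w, GW 0 (fun k => decide (k < 4 * n ∧ k % 2 = 0)) w := by
  induction n with
  | zero =>
    refine ⟨[], ?_⟩
    intro g p y
    simp [actW_nil]
  | succ n ih =>
    obtain ⟨w, hw⟩ := ih (by omega)
    obtain ⟨w', hw'⟩ := GW_pair 0 (4 * n) (4 * n + 2) (by omega) (by omega) (by omega)
    refine ⟨w ++ w', GW_congr (GW_union hw hw' ?_) ?_⟩
    · intro k hk
      simp at hk
      omega
    · intro k _
      rw [Bool.eq_iff_iff]
      simp
      omega

lemma GW_even : ∃ w, GW 0 (fun k => decide (k % 2 = 0)) w := by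
  obtain ⟨w, hw⟩ := GW_even_aux 128 le_rfl
  exact ⟨w, GW_congr hw (fun n hn => by
    rw [Bool.eq_iff_iff]
    simp
    omega)⟩

noncomputable def Wd (s : Gen) : List Gen := (GW_all s).choose
noncomputable def Qw : List Gen := GW_even.choose

lemma Wd_spec (s : Gen) : GW s (fun _ => true) (Wd s) := (GW_all s).choose_spec
lemma Qw_spec : GW 0 (fun k => decide (k % 2 = 0)) Qw := GW_even.choose_spec

lemma Wd_act (g : ℕ) (s : Gen) (p : DD g) (y : List (DD g)) :
    actW g (Wd s) (p :: y) = p :: (sys g).actL y s := by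
  rw [Wd_spec s g p y, if_pos rfl]

lemma flat_act (g : ℕ) (w : List Gen) (p : DD g) (y : List (DD g)) :
    actW g (w.flatMap Wd) (p :: y) = p :: actW g w y := by
  induction w with
  | nil => rfl
  | cons s w ih =>
    rw [List.flatMap_cons, actW_append, ih, Wd_act, actW_cons]

lemma Qw_odd (g : ℕ) (p : DD g) (y : List (DD g)) (h : p.val % 2 = 1) :
    actW g Qw (p :: y) = p :: y := by
  rw [Qw_spec g p y, if_neg (by simp; omega)]

lemma Qw_even (g : ℕ) (p : DD g) (y : List (DD g)) (h : p.val % 2 = 0) :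
    actW g Qw (p :: y) = p :: (sys g).actL y 0 := by
  rw [Qw_spec g p y, if_pos (by simp; omega)]

/-! ### the odometer -/

noncomputable def tau (g : ℕ) (y : List (DD g)) : List (DD g) :=
  (sys g).actL ((sys g).actL y 1) 0

noncomputable def tau' (g : ℕ) (y : List (DD g)) : List (DD g) :=
  (sys g).actL ((sys g).actL y 0) 1

def mm (g n : ℕ) : DD g := ⟨n % (512 * (g + 1)), Nat.mod_lt _ (by positivity)⟩

lemma mm_val {g n : ℕ} (h : n < 512 * (g + 1)) : (mm g n).val = n := Nat.mod_eq_of_lt h

lemma mm_self (g : ℕ) (p : DD g) : mm g p.val = p := Fin.ext (Nat.mod_eq_of_lt p.isLt)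

lemma pi_mm {g : ℕ} (s : Gen) {n m : ℕ} (h : n < 512 * (g + 1))
    (h2 : piN (512 * (g + 1)) s n = m) : (sys g).π s (mm g n) = mm g m := by
  apply Fin.ext
  show piN (512 * (g + 1)) s (mm g n).val = (mm g m).val
  have h3 := piN_lt g s n h
  rw [mm_val h, h2, mm_val (by rw [← h2]; exact h3)]

lemma sec_mm {g : ℕ} (s : Gen) {n : ℕ} (h : n < 512 * (g + 1)) :
    (sys g).sec s (mm g n) = secN (512 * (g + 1)) s n := by
  show secN (512 * (g + 1)) s (mm g n).val = _
  rw [mm_val h]

lemma sec0 (K n : ℕ) : secN K 0 n = none := rfl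

lemma sec1 (K n : ℕ) : secN K 1 n = if n = 0 then some 0 else if n + 1 = K then some 1 else none :=
  rfl

lemma tau_odd {g n : ℕ} (h1 : n % 2 = 1) (h2 : n + 2 < 512 * (g + 1)) (y : List (DD g)) :
    tau g (mm g n :: y) = mm g (n + 2) :: y := by
  unfold tau
  rw [(sys g).actL_none (s := 1) (d := mm g n)
    (by rw [sec_mm 1 (by omega), sec1, if_neg (by omega), if_neg (by omega)]),
    pi_mm 1 (m := n + 1) (by omega) (by rw [pi1, if_pos h1, if_neg (by omega)]),
    (sys g).actL_none (s := 0) (by rw [sec_mm 0 (by omega), sec0]),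
    pi_mm 0 (m := n + 2) (by omega) (by rw [pi0, if_pos (by omega)])]

lemma tau_last {g n : ℕ} (h2 : n + 1 = 512 * (g + 1)) (y : List (DD g)) :
    tau g (mm g n :: y) = mm g (n - 1) :: (sys g).actL y 1 := by
  unfold tau
  rw [(sys g).actL_some (s := 1) (s' := 1) (d := mm g n)
    (by rw [sec_mm 1 (by omega), sec1, if_neg (by omega), if_pos h2]),
    (sys g).actL_none (s := 0) (by rw [sec_mm 0 (by omega), sec0]),
    pi_mm 0 (m := n - 1) (by omega) (by rw [pi0, if_neg (by omega)])]

lemma tau_even {g n : ℕ} (h1 : n % 2 = 0) (h0 : n ≠ 0) (h2 : n < 512 * (g + 1))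
    (y : List (DD g)) :
    tau g (mm g n :: y) = mm g (n - 2) :: y := by
  unfold tau
  rw [(sys g).actL_none (s := 1) (d := mm g n)
    (by rw [sec_mm 1 (by omega), sec1, if_neg (by omega), if_neg (by omega)]),
    pi_mm 1 (m := n - 1) (by omega) (by rw [pi1, if_neg (by omega), if_neg (by omega)]),
    (sys g).actL_none (s := 0) (by rw [sec_mm 0 (by omega), sec0]),
    pi_mm 0 (m := n - 2) (by omega) (by rw [pi0, if_neg (by omega)]; omega)]

lemma tau_zero {g : ℕ} (y : List (DD g)) :
    tau g (mm g 0 :: y) = mm g 1 :: (sys g).actL y 0 := by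
  unfold tau
  rw [(sys g).actL_some (s := 1) (s' := 0) (d := mm g 0)
    (by rw [sec_mm 1 (by omega), sec1, if_pos rfl]),
    (sys g).actL_none (s := 0) (by rw [sec_mm 0 (by omega), sec0]),
    pi_mm 0 (m := 1) (by omega) (by rw [pi0, if_pos rfl])]

lemma tau_odd_iter {g : ℕ} (k : ℕ) : ∀ (n : ℕ) (y : List (DD g)), n % 2 = 1 →
    n + 2 * k < 512 * (g + 1) → (tau g)^[k] (mm g n :: y) = mm g (n + 2 * k) :: y := by
  induction k with
  | zero => intro n y _ _; rfl
  | succ k ih =>
    intro n y h1 h2
    rw [Function.iterate_succ_apply, tau_odd h1 (by omega), ih (n + 2) y (by omega) (by omega)]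
    congr 2
    ring

lemma tau_even_iter {g : ℕ} (k : ℕ) : ∀ (n : ℕ) (y : List (DD g)), n % 2 = 0 →
    2 * k ≤ n → n < 512 * (g + 1) → (tau g)^[k] (mm g n :: y) = mm g (n - 2 * k) :: y := by
  induction k with
  | zero => intro n y _ _ _; rfl
  | succ k ih =>
    intro n y h1 h2 h3
    rw [Function.iterate_succ_apply, tau_even h1 (by omega) h3,
      ih (n - 2) y (by omega) (by omega) (by omega)]
    congr 2
    omega

lemma tau_K_odd' {g n : ℕ} (hn : n < 512 * (g + 1)) (h : n % 2 = 1) (y : List (DD g)) :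
    (tau g)^[512 * (g + 1)] (mm g n :: y) = mm g n :: tau g y := by
  obtain ⟨a, ha⟩ : ∃ a, n = 2 * a + 1 := ⟨n / 2, by omega⟩
  have hK : 512 * (g + 1) = a + (1 + ((256 * (g + 1) - 1) + (1 + (256 * (g + 1) - 1 - a)))) := by
    omega
  have e0 : (tau g)^[512 * (g + 1)] (mm g n :: y) =
      (tau g)^[a + (1 + ((256 * (g + 1) - 1) + (1 + (256 * (g + 1) - 1 - a))))] (mm g n :: y) :=
    congrArg (fun k => (tau g)^[k] (mm g n :: y)) hK
  rw [e0, Function.iterate_add_apply, Function.iterate_add_apply, Function.iterate_add_apply,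
    Function.iterate_add_apply, tau_odd_iter _ _ _ h (by omega), Function.iterate_one,
    tau_last (by omega), tau_even_iter _ _ _ (by omega) (by omega) (by omega)]
  have e : n + 2 * (256 * (g + 1) - 1 - a) - 1 - 2 * (256 * (g + 1) - 1) = 0 := by omega
  rw [e, tau_zero, tau_odd_iter _ _ _ rfl (by omega)]
  have e2 : 1 + 2 * a = n := by omega
  rw [e2]
  rfl

lemma tau_K_odd {g : ℕ} (p : DD g) (h : p.val % 2 = 1) (y : List (DD g)) :
    (tau g)^[512 * (g + 1)] (p :: y) = p :: tau g y := by
  have := tau_K_odd' p.isLt h y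
  rwa [mm_self] at this

lemma tau_K_even' {g n : ℕ} (hn : n < 512 * (g + 1)) (h : n % 2 = 0) (y : List (DD g)) :
    (tau g)^[512 * (g + 1)] (mm g n :: y) = mm g n :: tau' g y := by
  obtain ⟨a, ha⟩ : ∃ a, n = 2 * a := ⟨n / 2, by omega⟩
  have hK : 512 * (g + 1) = (256 * (g + 1) - 1 - a) + (1 + ((256 * (g + 1) - 1) + (1 + a))) := by
    omega
  have e0 : (tau g)^[512 * (g + 1)] (mm g n :: y) =
      (tau g)^[(256 * (g + 1) - 1 - a) + (1 + ((256 * (g + 1) - 1) + (1 + a)))] (mm g n :: y) :=
    congrArg (fun k => (tau g)^[k] (mm g n :: y)) hK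
  rw [e0, Function.iterate_add_apply, Function.iterate_add_apply, Function.iterate_add_apply,
    Function.iterate_add_apply, tau_even_iter _ _ _ h (by omega) hn, Function.iterate_one]
  have e : n - 2 * a = 0 := by omega
  rw [e, tau_zero, tau_odd_iter _ _ _ rfl (by omega), tau_last (by omega),
    tau_even_iter _ _ _ (by omega) (by omega) (by omega)]
  have e2 : 1 + 2 * (256 * (g + 1) - 1) - 1 - 2 * (256 * (g + 1) - 1 - a) = n := by omega
  rw [e2]
  rfl

lemma tau_K_even {g : ℕ} (p : DD g) (h : p.val % 2 = 0) (y : List (DD g)) :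
    (tau g)^[512 * (g + 1)] (p :: y) = p :: tau' g y := by
  have := tau_K_even' p.isLt h y
  rwa [mm_self] at this

lemma tau_nil (g : ℕ) : tau g [] = [] := rfl

lemma conj_tau (g : ℕ) (y : List (DD g)) :
    (sys g).actL (tau g ((sys g).actL y 0)) 0 = tau' g y := by
  unfold tau tau'
  rw [(sys g).actL_inv]

lemma conj_tau_iter (g n : ℕ) (y : List (DD g)) :
    (sys g).actL ((tau g)^[n] ((sys g).actL y 0)) 0 = (tau' g)^[n] y := by
  induction n generalizing y with
  | zero => exact (sys g).actL_inv y 0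
  | succ n ih =>
    rw [Function.iterate_succ_apply, Function.iterate_succ_apply, ← conj_tau, ← ih,
      (sys g).actL_inv]

noncomputable def wj : ℕ → List Gen
  | 0 => [0, 1]
  | j + 1 => Qw ++ ((wj j).flatMap Wd ++ Qw)

lemma tau_iter_nil (g n : ℕ) : (tau g)^[n] [] = [] := by
  induction n with
  | zero => rfl
  | succ n ih => rw [Function.iterate_succ_apply, tau_nil, ih]

theorem wj_act (g j : ℕ) : ∀ y : List (DD g), actW g (wj j) y = (tau g)^[(512 * (g + 1)) ^ j] y := by
  induction j with
  | zero => intro y; rfl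
  | succ j ih =>
    intro y
    cases y with
    | nil => rw [actW_empty, tau_iter_nil]
    | cons p y =>
      rw [pow_succ', Function.iterate_mul, wj, actW_append, actW_append]
      by_cases h : p.val % 2 = 1
      · rw [Qw_odd g p y h, flat_act, Qw_odd g p _ h, ih]
        have key : ∀ n (z : List (DD g)), ((tau g)^[512 * (g + 1)])^[n] (p :: z) =
            p :: (tau g)^[n] z := by
          intro n
          induction n with
          | zero => intro z; rfl
          | succ n ihn =>
            intro z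
            rw [Function.iterate_succ_apply, tau_K_odd p h, ihn, ← Function.iterate_succ_apply]
        rw [key]
      · have h' : p.val % 2 = 0 := by omega
        rw [Qw_even g p y h', flat_act, Qw_even g p _ h', ih]
        have key : ∀ n (z : List (DD g)), ((tau g)^[512 * (g + 1)])^[n] (p :: z) =
            p :: (tau' g)^[n] z := by
          intro n
          induction n with
          | zero => intro z; rfl
          | succ n ihn =>
            intro z
            rw [Function.iterate_succ_apply, tau_K_even p h', ihn, ← Function.iterate_succ_apply]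
        rw [key, conj_tau_iter]

/-- a bound for all words involved -/
lemma exists_C : ∃ C : ℕ, 2 ≤ C ∧ ∀ j, (wj j).length ≤ 2 * C ^ j := by
  obtain ⟨B, hB⟩ : ∃ B, ∀ s, (Wd s).length ≤ B := by
    refine ⟨Finset.univ.sup (fun s => (Wd s).length), fun s => ?_⟩
    exact Finset.le_sup (f := fun s => (Wd s).length) (Finset.mem_univ s)
  refine ⟨B + Qw.length + 2, by omega, fun j => ?_⟩
  induction j with
  | zero => simp [wj]
  | succ j ih =>
    have hlen : ∀ w : List Gen, (w.flatMap Wd).length ≤ B * w.length := by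
      intro w
      induction w with
      | nil => simp
      | cons s w ihw =>
        rw [List.flatMap_cons, List.length_append, List.length_cons]
        have := hB s
        nlinarith
    have h1 := hlen (wj j)
    have h2 : 1 ≤ (B + Qw.length + 2) ^ j := Nat.one_le_pow _ _ (by omega)
    rw [wj, List.length_append, List.length_append, pow_succ]
    have h3 : B * (wj j).length ≤ B * (2 * (B + Qw.length + 2) ^ j) := Nat.mul_le_mul_left _ ih
    nlinarith

/-- short words for all powers -/
theorem short_words (g C : ℕ) (hC : 2 ≤ C) (hw : ∀ j, (wj j).length ≤ 2 * C ^ j) (m : ℕ) :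
    ∀ n, n < (512 * (g + 1)) ^ m →
      ∃ w : List Gen, (∀ y : List (DD g), actW g w y = (tau g)^[n] y) ∧
        w.length ≤ 2 * (512 * (g + 1)) * C ^ m := by
  induction m with
  | zero =>
    intro n hn
    have : n = 0 := by simpa using hn
    subst this
    exact ⟨[], fun y => rfl, by simp⟩
  | succ m ih =>
    intro n hn
    set K := 512 * (g + 1) with hK
    have hKpos : 0 < K ^ m := by positivity
    obtain ⟨w, hw1, hw2⟩ := ih (n % K ^ m) (Nat.mod_lt _ hKpos)
    have hq : n / K ^ m < K := by
      rw [Nat.div_lt_iff_lt_mul hKpos, ← pow_succ']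
      exact hn
    refine ⟨(List.replicate (n / K ^ m) (wj m)).flatten ++ w, ?_, ?_⟩
    · intro y
      have key : ∀ q (z : List (DD g)), actW g (List.replicate q (wj m)).flatten z =
          (tau g)^[K ^ m * q] z := by
        intro q
        induction q with
        | zero => intro z; rfl
        | succ q ihq =>
          intro z
          rw [List.replicate_succ, List.flatten_cons, actW_append, ihq, wj_act,
            ← Function.iterate_add_apply]
          congr 1
          rw [hK]
          ring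
      rw [actW_append, hw1, key, ← Function.iterate_add_apply, Nat.div_add_mod]
    · rw [List.length_append]
      have h1 : ((List.replicate (n / K ^ m) (wj m)).flatten).length =
          (n / K ^ m) * (wj m).length := by
        simp
      rw [h1]
      have h2 := hw m
      have h3 : (n / K ^ m) * (wj m).length ≤ K * (2 * C ^ m) :=
        Nat.mul_le_mul hq.le h2
      have h4 : 2 * K * C ^ m * 2 ≤ 2 * K * C ^ m * C := Nat.mul_le_mul_left _ hC
      rw [pow_succ]
      nlinarith

/-! ### infinite order -/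

lemma tau_move (g m : ℕ) (h1 : 1 ≤ m) (h2 : m < 512 * (g + 1)) :
    (tau g)^[m] [mm g 1] ≠ [mm g 1] := by
  by_cases h : m ≤ 256 * (g + 1) - 1
  · rw [tau_odd_iter m 1 [] rfl (by omega)]
    intro he
    have e1 : mm g (1 + 2 * m) = mm g 1 := (List.cons.inj he).1
    have e2 := congrArg Fin.val e1
    rw [mm_val (by omega), mm_val (by omega)] at e2
    omega
  · obtain ⟨i, hi⟩ : ∃ i, m = i + (1 + (256 * (g + 1) - 1)) := ⟨m - 256 * (g + 1), by omega⟩
    rw [hi, Function.iterate_add_apply, Function.iterate_add_apply,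
      tau_odd_iter _ 1 [] rfl (by omega), Function.iterate_one, tau_last (by omega)]
    have : (sys g).actL [] 1 = [] := rfl
    rw [this, tau_even_iter _ _ _ (by omega) (by omega) (by omega)]
    intro he
    have e1 := (List.cons.inj he).1
    have e2 := congrArg Fin.val e1
    rw [mm_val (by omega), mm_val (by omega)] at e2
    omega

theorem tau_inf (g : ℕ) (n : ℕ) : n ≠ 0 → ∃ y : List (DD g), (tau g)^[n] y ≠ y := by
  induction n using Nat.strong_induction_on with
  | _ n ih =>
    intro hn
    set K := 512 * (g + 1) with hK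
    have hper : ∀ q, (tau g)^[K * q] [mm g 1] = [mm g 1] := by
      intro q
      induction q with
      | zero => rfl
      | succ q ihq =>
        rw [Nat.mul_succ, Function.iterate_add_apply, tau_K_odd (mm g 1)
          (by rw [mm_val (by omega)]), tau_nil, ihq]
    by_cases h : n % K = 0
    · have h1 : n = K * (n / K) := by
        have := Nat.div_add_mod n K
        omega
      have h2 : n / K ≠ 0 := by
        intro h3
        rw [h3] at h1
        omega
      have h3 : n / K < n := Nat.div_lt_self (by omega) (by omega)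
      obtain ⟨y, hy⟩ := ih (n / K) h3 h2
      refine ⟨mm g 1 :: y, ?_⟩
      have key : ∀ n (z : List (DD g)), ((tau g)^[K])^[n] (mm g 1 :: z) =
          mm g 1 :: (tau g)^[n] z := by
        intro n
        induction n with
        | zero => intro z; rfl
        | succ n ihn =>
          intro z
          rw [Function.iterate_succ_apply, tau_K_odd (mm g 1) (by rw [mm_val (by omega)]), ihn,
            ← Function.iterate_succ_apply]
      rw [h1, Function.iterate_mul, key]
      intro he
      exact hy (List.cons.inj he).2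
    · refine ⟨[mm g 1], ?_⟩
      have h1 : n = n % K + K * (n / K) := by
        have := Nat.div_add_mod n K
        omega
      rw [h1, Function.iterate_add_apply, hper]
      exact tau_move g (n % K) (by omega) (Nat.mod_lt _ (by omega))

end Pool.Agent.H258R3.Dist
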