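import Pool.Agent.H258R3.DistC

/-!
The one-sided subshift generated by the self-similar family, and the transfer of word identities.
-/

set_option autoImplicit false

namespace Pool.Agent.H258R3.Dist

variable (g : ℕ)

abbrev QQ := Q (DD g)

lemma Ed_fst (d : DD g) (a b : QQ g) :
    ((sys g).Ed d a b).map Prod.fst = a.2.2.map Prod.fst := by
  obtain ⟨p, t, x⟩ := a
  cases p
  · rw [(sys g).Ed_even d rfl]
  · rcases x with _ | ⟨di, ρ⟩
    · rw [(sys g).Ed_none d rfl]
    · rw [(sys g).Ed_some]; rfl

lemma S_digits : ∀ y y' : List (DD g), y.length = y'.length →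
    (∀ i, (((sys g).S y i).2.2.map Prod.fst) = (((sys g).S y' i).2.2.map Prod.fst)) → y = y' := by
  intro y
  induction y with
  | nil =>
    intro y' hl _
    exact (List.length_eq_zero_iff.1 hl.symm).symm
  | cons d y ih =>
    intro y' hl h
    rcases y' with _ | ⟨d', y'⟩
    · exact absurd hl (by simp)
    · have h1 := h 1
      simp only [Sys.S] at h1
      rw [(sys g).PP_odd d _ (i := 1) rfl, (sys g).PP_odd d' _ (i := 1) rfl] at h1
      have hd : d = d' := Option.some.inj h1
      rw [hd, ih y' (by simpa using hl)]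
      intro i
      have h2 := h (2 * i)
      simp only [Sys.S] at h2
      rw [(sys g).PP_even d _ (i := 2 * i) (by omega), (sys g).PP_even d' _ (i := 2 * i) (by omega)]
        at h2
      simp only at h2
      rw [Ed_fst, Ed_fst, show 2 * i / 2 = i by omega] at h2
      exact h2

lemma actL_length (y : List (DD g)) : ∀ s, ((sys g).actL y s).length = y.length := by
  induction y with
  | nil => intro s; rfl
  | cons d y ih =>
    intro s
    rcases h : (sys g).sec s d with _ | s'
    · rw [(sys g).actL_none h]; rfl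
    · rw [(sys g).actL_some h, List.length_cons, ih, List.length_cons]

lemma actW_length (w : List Gen) (y : List (DD g)) : (actW g w y).length = y.length := by
  induction w with
  | nil => rfl
  | cons s w ih => rw [actW_cons, actL_length, ih]

noncomputable def FW (w : List Gen) (x : ℕ → QQ g) : ℕ → QQ g :=
  w.foldr (fun s x => (sys g).act s x) x

lemma FW_cons (s : Gen) (w : List Gen) (x : ℕ → QQ g) :
    FW g (s :: w) x = (sys g).act s (FW g w x) := rfl

lemma FW_S (w : List Gen) (y : List (DD g)) :
    FW g w ((sys g).S y) = (sys g).S (actW g w y) := by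
  induction w with
  | nil => rfl
  | cons s w ih => rw [FW_cons, ih, actW_cons, (sys g).act_S]

lemma FW_shift (w : List Gen) (x : ℕ → QQ g) (j : ℕ) :
    FW g w (fun i => x (i + j)) = fun i => FW g w x (i + j) := by
  induction w with
  | nil => rfl
  | cons s w ih =>
    rw [FW_cons, ih, FW_cons]
    funext i
    simp only [Sys.act]
    congr 2
    ring

lemma FW_local (w : List Gen) : ∀ (x x' : ℕ → QQ g) (L : ℕ),
    (∀ i < L + w.length, x i = x' i) → ∀ i < L, FW g w x i = FW g w x' i := by
  induction w with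
  | nil => intro x x' L h i hi; exact h i (by simpa using hi)
  | cons s w ih =>
    intro x x' L h i hi
    have h1 := ih x x' (L + 1) (fun k hk => h k (by
      rw [List.length_cons]; omega))
    rw [FW_cons, FW_cons]
    simp only [Sys.act]
    rw [h1 i (by omega), h1 (i + 1) (by omega)]

def X : Set (ℕ → QQ g) := {x | ∀ L, ∃ y j, ∀ i < L, x i = (sys g).S y (i + j)}

lemma S_mem (y : List (DD g)) : (sys g).S y ∈ X g := fun _ => ⟨y, 0, fun _ _ => rfl⟩

lemma X_closed (x : ℕ → QQ g) (h : ∀ m : ℕ, ∃ y ∈ X g, ∀ i < m, y i = x i) : x ∈ X g := by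
  intro L
  obtain ⟨y, hy, hyx⟩ := h L
  obtain ⟨z, j, h2⟩ := hy L
  exact ⟨z, j, fun i hi => by rw [← hyx i hi, h2 i hi]⟩

lemma X_shift {x : ℕ → QQ g} (hx : x ∈ X g) : (fun i => x (i + 1)) ∈ X g := by
  intro L
  obtain ⟨z, j, h2⟩ := hx (L + 1)
  refine ⟨z, j + 1, fun i hi => ?_⟩
  show x (i + 1) = _
  rw [h2 (i + 1) (by omega)]
  congr 1
  ring

lemma X_FW (w : List Gen) {x : ℕ → QQ g} (hx : x ∈ X g) : FW g w x ∈ X g := by
  intro L
  obtain ⟨z, j, h2⟩ := hx (L + w.length)
  refine ⟨actW g w z, j, fun i hi => ?_⟩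
  rw [FW_local g w x (fun i => (sys g).S z (i + j)) L h2 i hi, FW_shift, FW_S]

lemma X_ext {w w' : List Gen} (h : ∀ y : List (DD g), actW g w y = actW g w' y)
    {x : ℕ → QQ g} (hx : x ∈ X g) : FW g w x = FW g w' x := by
  funext i
  obtain ⟨z, j, h2⟩ := hx (i + 1 + w.length + w'.length)
  rw [FW_local g w x (fun i => (sys g).S z (i + j)) (i + 1) (fun k hk => h2 k (by omega)) i
      (by omega),
    FW_local g w' x (fun i => (sys g).S z (i + j)) (i + 1) (fun k hk => h2 k (by omega)) i
      (by omega), FW_shift, FW_shift, FW_S, FW_S, h]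

lemma X_inv (s : Gen) {x : ℕ → QQ g} (hx : x ∈ X g) :
    (sys g).act s ((sys g).act s x) = x := by
  have h : ∀ y : List (DD g), actW g [s, s] y = actW g [] y := by
    intro y
    rw [actW_cons, actW_cons, actW_nil, (sys g).actL_inv]
  exact X_ext g h hx

end Pool.Agent.H258R3.Dist
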