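import Pool.Agent.H258R3.DistD

/-!
Periodicity of the family and the number of words: the two-sided subshift has zero entropy.
-/

set_option autoImplicit false

namespace Pool.Agent.H258R3.Dist

variable (g : ℕ)

lemma S_period (y : List (DD g)) : ∀ i, (sys g).S y (i + 2 ^ (y.length + 1)) = (sys g).S y i := by
  induction y with
  | nil =>
    intro i
    simp only [Sys.S, Sys.base, List.length_nil]
    congr 1
    rw [decide_eq_decide, show (2 : ℕ) ^ (0 + 1) = 2 from rfl]
    omega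
  | cons d y ih =>
    intro i
    simp only [Sys.S, List.length_cons]
    have e0 : 2 ^ (y.length + 1 + 1) = 2 * 2 ^ (y.length + 1) := by ring
    rw [e0]
    generalize hP : 2 ^ (y.length + 1) = P at ih
    have e1 : (i + 2 * P) / 2 = i / 2 + P := by omega
    have e2 : i / 2 + P + 1 = (i / 2 + 1) + P := by ring
    by_cases h : i % 2 = 0
    · rw [(sys g).PP_even d _ h, (sys g).PP_even d _ (by omega), e1, e2, ih, ih]
    · rw [(sys g).PP_odd d _ (i := i) (by omega), (sys g).PP_odd d _ (by omega), e1, e2, ih, ih]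

lemma S_mod (y : List (DD g)) (n : ℕ) :
    (sys g).S y (n % 2 ^ (y.length + 1)) = (sys g).S y n := by
  have key : ∀ q i, (sys g).S y (i + 2 ^ (y.length + 1) * q) = (sys g).S y i := by
    intro q
    induction q with
    | zero => intro i; rfl
    | succ q ih =>
      intro i
      have e : i + 2 ^ (y.length + 1) * (q + 1) =
          (i + 2 ^ (y.length + 1) * q) + 2 ^ (y.length + 1) := by ring
      rw [e, S_period, ih]
  conv_rhs => rw [← Nat.mod_add_div n (2 ^ (y.length + 1))]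
  rw [key]

/-- windows of the family -/
def WW (L : ℕ) : Set (Fin L → QQ g) := {w | ∃ y j, ∀ i : Fin L, w i = (sys g).S y (i + j)}

lemma WW_fin (L : ℕ) : (WW g L).Finite := Set.toFinite _

lemma WW_rec (L : ℕ) : (WW g L).ncard ≤ 2 + 2 * (512 * (g + 1)) * (WW g (L / 2 + 2)).ncard := by
  classical
  -- base words
  let b : Fin 2 → (Fin L → QQ g) := fun r i => Sys.base (i + r)
  -- inflation of words
  let gt : (Fin (L / 2 + 2) → QQ g) → (ℕ → QQ g) := fun v n =>
    if h : n < L / 2 + 2 then v ⟨n, h⟩ else (false, false, none)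
  let Φ : (DD g × Fin 2) × (Fin (L / 2 + 2) → QQ g) → (Fin L → QQ g) := fun t i =>
    (sys g).PP t.1.1 (gt t.2) (i + t.1.2)
  have hsub : WW g L ⊆ Set.range b ∪ Φ '' (Set.univ ×ˢ WW g (L / 2 + 2)) := by
    rintro w ⟨y, j, hw⟩
    cases y with
    | nil =>
      left
      refine ⟨⟨j % 2, Nat.mod_lt _ (by norm_num)⟩, ?_⟩
      funext i
      rw [hw i]
      simp only [b, Sys.S, Sys.base]
      have : ((i : ℕ) + j % 2) % 2 = ((i : ℕ) + j) % 2 := by omega
      rw [this]
    | cons d y =>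
      right
      refine ⟨((d, ⟨j % 2, Nat.mod_lt _ (by norm_num)⟩), fun n => (sys g).S y (n + j / 2)),
        ⟨trivial, ⟨y, j / 2, fun i => rfl⟩⟩, ?_⟩
      funext i
      rw [hw i]
      have hi := i.isLt
      have g1 : ∀ n, n < L / 2 + 2 →
          gt (fun n => (sys g).S y (n + j / 2)) n = (sys g).S y (n + j / 2) := by
        intro n hn
        simp only [gt]
        rw [dif_pos hn]
      simp only [Φ, Sys.S]
      have e1 : ((i : ℕ) + j) / 2 = ((i : ℕ) + j % 2) / 2 + j / 2 := by omega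
      have e2 : ((i : ℕ) + j) / 2 + 1 = (((i : ℕ) + j % 2) / 2 + 1) + j / 2 := by omega
      by_cases h : ((i : ℕ) + j) % 2 = 0
      · rw [(sys g).PP_even d _ h, (sys g).PP_even d _ (by omega), e2, e1, g1 _ (by omega),
          g1 _ (by omega)]
      · rw [(sys g).PP_odd d _ (i := (i : ℕ) + j) (by omega), (sys g).PP_odd d _ (by omega), e2, e1,
          g1 _ (by omega), g1 _ (by omega)]
  have h1 : (WW g L).ncard ≤ (Set.range b ∪ Φ '' (Set.univ ×ˢ WW g (L / 2 + 2))).ncard :=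
    Set.ncard_le_ncard hsub (Set.toFinite _)
  have h2 := Set.ncard_union_le (Set.range b) (Φ '' (Set.univ ×ˢ WW g (L / 2 + 2)))
  have h3 : (Set.range b).ncard ≤ 2 := by
    rw [← Set.image_univ]
    have := Set.ncard_image_le (f := b) (s := Set.univ) (Set.toFinite _)
    rw [Set.ncard_univ, Nat.card_fin] at this
    exact this
  have h4 : (Φ '' (Set.univ ×ˢ WW g (L / 2 + 2))).ncard ≤
      2 * (512 * (g + 1)) * (WW g (L / 2 + 2)).ncard := by
    refine (Set.ncard_image_le (Set.toFinite _)).trans ?_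
    rw [Set.ncard_prod, Set.ncard_univ, Nat.card_prod, Nat.card_fin, Nat.card_fin]
    apply le_of_eq
    ring
  omega

lemma WW_triv (L : ℕ) (hL : L ≤ 5) : (WW g L).ncard ≤ (Nat.card (QQ g)) ^ 5 := by
  have h1 : (WW g L).ncard ≤ Nat.card (Fin L → QQ g) := by
    rw [← Set.ncard_univ]
    exact Set.ncard_le_ncard (Set.subset_univ _) (Set.toFinite _)
  refine h1.trans ?_
  rw [Nat.card_fun, Nat.card_fin]
  have : 0 < Nat.card (QQ g) := by
    have : Nonempty (QQ g) := ⟨(false, false, none)⟩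
    exact Nat.card_pos
  exact Nat.pow_le_pow_right this hL

lemma WW_bound (m : ℕ) : ∀ L, L ≤ 2 ^ m + 4 →
    (WW g L).ncard ≤ (Nat.card (QQ g) ^ 5 + 2 * (512 * (g + 1)) + 2) ^ (m + 1) := by
  induction m with
  | zero =>
    intro L hL
    have := WW_triv g L (by simpa using hL)
    rw [pow_one]
    omega
  | succ m ih =>
    intro L hL
    rw [pow_succ] at hL
    have h1 := WW_rec g L
    have h2 := ih (L / 2 + 2) (by omega)
    set B := Nat.card (QQ g) ^ 5 + 2 * (512 * (g + 1)) + 2 with hB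
    have h3 : 1 ≤ B ^ (m + 1) := Nat.one_le_pow _ _ (by omega)
    calc (WW g L).ncard ≤ 2 + 2 * (512 * (g + 1)) * (WW g (L / 2 + 2)).ncard := h1
      _ ≤ 2 + 2 * (512 * (g + 1)) * B ^ (m + 1) := by
          have := Nat.mul_le_mul_left (2 * (512 * (g + 1))) h2
          omega
      _ ≤ 2 * B ^ (m + 1) + 2 * (512 * (g + 1)) * B ^ (m + 1) := by omega
      _ = (2 * (512 * (g + 1)) + 2) * B ^ (m + 1) := by ring
      _ ≤ B * B ^ (m + 1) := Nat.mul_le_mul_right _ (by omega)
      _ = B ^ (m + 1 + 1) := by ring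

lemma sq_le_two_pow (s : ℕ) : (s + 1) ^ 2 ≤ 2 ^ (s + 3) := by
  induction s with
  | zero => norm_num
  | succ s ih =>
    have h1 : 2 ^ (s + 1 + 3) = 2 * 2 ^ (s + 3) := by ring
    rw [h1]
    have h2 : (s + 1 + 1) ^ 2 ≤ 2 * (s + 1) ^ 2 + 2 := by nlinarith
    by_cases hs : s = 0
    · subst hs; norm_num
    · by_cases hs' : s = 1
      · subst hs'; norm_num
      · have h3 : (s + 1 + 1) ^ 2 ≤ 2 * (s + 1) ^ 2 := by
          have : 2 ≤ s := by omega
          nlinarith
        omega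

lemma WW_sqrt (L : ℕ) : (WW g L).ncard ≤
    (Nat.card (QQ g) ^ 5 + 2 * (512 * (g + 1)) + 2) ^ (Nat.sqrt L + 4) := by
  apply WW_bound g (Nat.sqrt L + 3) L
  have h1 := Nat.lt_succ_sqrt L
  have h2 := sq_le_two_pow (Nat.sqrt L)
  have h3 : (Nat.sqrt L + 1) ^ 2 = (Nat.sqrt L).succ * (Nat.sqrt L).succ := by
    rw [pow_two]
  omega

/-- entropy estimate for any subset of words of size at most `B ^ (sqrt L + 4)` -/
lemma entropy_zero (f : ℕ → ℕ) (B : ℕ) (hB : 1 ≤ B) (hf : ∀ L, f L ≤ B ^ (Nat.sqrt L + 4)) :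
    Filter.Tendsto (fun n : ℕ => Real.log (f n) / n) Filter.atTop (nhds 0) := by
  have hlogB : 0 ≤ Real.log B := Real.log_nonneg (by exact_mod_cast hB)
  rw [Metric.tendsto_atTop]
  intro ε hε
  obtain ⟨M, hM⟩ := exists_nat_gt (5 * Real.log B / ε)
  refine ⟨(M + 1) ^ 2, fun n hn => ?_⟩
  have hs : M + 1 ≤ Nat.sqrt n := by
    rw [Nat.le_sqrt']
    exact hn
  have hs1 : (1 : ℝ) ≤ Nat.sqrt n := by exact_mod_cast (by omega : 1 ≤ Nat.sqrt n)
  have hsn : ((Nat.sqrt n : ℕ) : ℝ) ^ 2 ≤ n := by exact_mod_cast Nat.sqrt_le' n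
  have hn0 : (0 : ℝ) < n := by
    have : (1 : ℝ) ≤ ((Nat.sqrt n : ℕ) : ℝ) ^ 2 := by nlinarith
    linarith
  have h1 : Real.log (f n) ≤ (Nat.sqrt n + 4) * Real.log B := by
    rcases Nat.eq_zero_or_pos (f n) with h0 | h0
    · rw [h0]
      simp
      positivity
    · have h2 : Real.log (f n) ≤ Real.log ((B : ℝ) ^ (Nat.sqrt n + 4)) := by
        apply Real.log_le_log (by exact_mod_cast h0)
        exact_mod_cast hf n
      rw [Real.log_pow] at h2
      push_cast at h2
      exact h2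
  have h0 : 0 ≤ Real.log (f n) := Real.log_natCast_nonneg _
  rw [Real.dist_eq, sub_zero, abs_of_nonneg (div_nonneg h0 hn0.le), div_lt_iff₀ hn0]
  have h3 : ((Nat.sqrt n : ℕ) : ℝ) + 4 ≤ 5 * Nat.sqrt n := by linarith
  have h4 : Real.log (f n) ≤ 5 * Nat.sqrt n * Real.log B :=
    h1.trans (mul_le_mul_of_nonneg_right h3 hlogB)
  have h5 : 5 * Real.log B < ε * Nat.sqrt n := by
    have : (M : ℝ) < Nat.sqrt n := by exact_mod_cast (by omega : M < Nat.sqrt n)
    rw [div_lt_iff₀ hε] at hM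
    nlinarith
  have h6 : 5 * Nat.sqrt n * Real.log B < ε * (Nat.sqrt n : ℝ) ^ 2 := by nlinarith
  have h7 : ε * (Nat.sqrt n : ℝ) ^ 2 ≤ ε * n := mul_le_mul_of_nonneg_left hsn hε.le
  linarith

end Pool.Agent.H258R3.Dist
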