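import Pool.Agent.H258R3.DistE

/-!
The two-sided version.
-/

set_option autoImplicit false

namespace Pool.Agent.H258R3.Dist

variable (g : ℕ)

def res (a : ℤ) (x : ℤ → QQ g) : ℕ → QQ g := fun n => x (a + n)

noncomputable def act2 (s : Gen) (x : ℤ → QQ g) : ℤ → QQ g := fun i => (sys g).loc s (x i) (x (i + 1))

noncomputable def FW2 (w : List Gen) (x : ℤ → QQ g) : ℤ → QQ g :=
  w.foldr (fun s x => act2 g s x) x

lemma FW2_cons (s : Gen) (w : List Gen) (x : ℤ → QQ g) :
    FW2 g (s :: w) x = act2 g s (FW2 g w x) := rfl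

lemma FW2_res (w : List Gen) (x : ℤ → QQ g) (a : ℤ) :
    res g a (FW2 g w x) = FW g w (res g a x) := by
  induction w with
  | nil => rfl
  | cons s w ih =>
    rw [FW_cons, ← ih, FW2_cons]
    funext n
    simp only [res, act2, Sys.act]
    congr 2
    push_cast
    ring

def X2 : Set (ℤ → QQ g) := {x | ∀ a, res g a x ∈ X g}

lemma X2_FW {x : ℤ → QQ g} (hx : x ∈ X2 g) (w : List Gen) : FW2 g w x ∈ X2 g := by
  intro a
  rw [FW2_res]
  exact X_FW g w (hx a)

lemma X2_ext {w w' : List Gen} (h : ∀ y : List (DD g), actW g w y = actW g w' y)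
    {x : ℤ → QQ g} (hx : x ∈ X2 g) : FW2 g w x = FW2 g w' x := by
  funext i
  have h1 := congrFun (FW2_res g w x i) 0
  have h2 := congrFun (FW2_res g w' x i) 0
  rw [X_ext g h (hx i), ← h2] at h1
  simpa [res] using h1

noncomputable def S2 (y : List (DD g)) : ℤ → QQ g := fun i =>
  (sys g).S y (i % (2 ^ (y.length + 1) : ℕ)).toNat

lemma res_S2 (y : List (DD g)) (a : ℤ) :
    res g a (S2 g y) = fun n => (sys g).S y (n + (a % (2 ^ (y.length + 1) : ℕ)).toNat) := by
  funext n
  simp only [res, S2]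
  rw [← S_mod g y (n + _)]
  congr 1
  have hP : (0 : ℤ) < ((2 ^ (y.length + 1) : ℕ) : ℤ) := by positivity
  generalize (2 ^ (y.length + 1) : ℕ) = P at hP ⊢
  have h0 : 0 ≤ a % (P : ℤ) := Int.emod_nonneg _ hP.ne'
  have h1 : ((a % (P : ℤ)).toNat : ℤ) = a % (P : ℤ) := Int.toNat_of_nonneg h0
  have h2 : ((((n + (a % (P : ℤ)).toNat) % P : ℕ)) : ℤ) = (a + n) % (P : ℤ) := by
    rw [Int.natCast_mod]
    push_cast
    rw [h1, add_comm (n : ℤ), Int.emod_add_emod]
  have h3 : 0 ≤ (a + n) % (P : ℤ) := Int.emod_nonneg _ hP.ne'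
  omega

lemma S2_mem (y : List (DD g)) : S2 g y ∈ X2 g := by
  intro a
  rw [res_S2]
  intro L
  exact ⟨y, _, fun i _ => rfl⟩

lemma FW2_S2 (w : List Gen) (y : List (DD g)) : FW2 g w (S2 g y) = S2 g (actW g w y) := by
  funext i
  have h1 := congrFun (FW2_res g w (S2 g y) i) 0
  rw [res_S2, FW_shift, FW_S] at h1
  simp only [res, Nat.cast_zero, add_zero, zero_add] at h1
  rw [h1, S2, actW_length]

lemma S2_nat (y : List (DD g)) (n : ℕ) : S2 g y (n : ℤ) = (sys g).S y n := by
  rw [S2, ← S_mod g y n]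
  congr 1

lemma S2_inj {y y' : List (DD g)} (hl : y.length = y'.length) (h : S2 g y = S2 g y') : y = y' := by
  apply S_digits g y y' hl
  intro i
  rw [← S2_nat, ← S2_nat, h]

lemma X2_shift {x : ℤ → QQ g} : x ∈ X2 g ↔ (fun i => x (i + 1)) ∈ X2 g := by
  constructor
  · intro h a
    have h1 := h (a + 1)
    have e : res g a (fun i => x (i + 1)) = res g (a + 1) x := by
      funext n
      simp only [res]
      congr 1
      ring
    rw [e]
    exact h1
  · intro h a
    have h1 := h (a - 1)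
    have e : res g (a - 1) (fun i => x (i + 1)) = res g a x := by
      funext n
      simp only [res]
      congr 1
      ring
    rwa [e] at h1

lemma X2_inv (s : Gen) {x : ℤ → QQ g} (hx : x ∈ X2 g) : act2 g s (act2 g s x) = x := by
  have h : ∀ y : List (DD g), actW g [s, s] y = actW g [] y := by
    intro y
    rw [actW_cons, actW_cons, actW_nil, (sys g).actL_inv]
  exact X2_ext g h hx

end Pool.Agent.H258R3.Dist
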