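import Mathlib

/-!
An explicit Assouad-type Lipschitz injection of (quotients of) the Heisenberg group into `Z^d`.
-/

set_option autoImplicit false

namespace Pool.Agent.H258R3.Hei

/-- distance to the nearest integer -/
noncomputable def nd (t : ℝ) : ℝ := |t - round t|

lemma nd_nonneg (t : ℝ) : 0 ≤ nd t := abs_nonneg _

lemma nd_le_half (t : ℝ) : nd t ≤ 1 / 2 := abs_sub_round t

lemma nd_le (t : ℝ) (z : ℤ) : nd t ≤ |t - z| := round_le t z

lemma nd_add_int (t : ℝ) (z : ℤ) : nd (t + z) = nd t := by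
  unfold nd
  rw [round_add_intCast]
  congr 1
  push_cast
  ring

lemma nd_le_add (s t : ℝ) : nd s ≤ |s - t| + nd t := by
  have h1 := nd_le s (round t)
  have h2 : |s - (round t : ℝ)| ≤ |s - t| + |t - (round t : ℝ)| := abs_sub_le _ _ _
  exact le_trans h1 h2

lemma nd_lip (s t : ℝ) : |nd s - nd t| ≤ |s - t| := by
  rw [abs_le]
  have h1 := nd_le_add s t
  have h2 := nd_le_add t s
  rw [abs_sub_comm t s] at h2
  constructor <;> linarith

noncomputable def hh (i : ℕ) (t : ℝ) : ℝ := max 0 (1 / 2 - 8 * nd ((t - i / 2) / 8))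

lemma hh_nonneg (i : ℕ) (t : ℝ) : 0 ≤ hh i t := le_max_left _ _

lemma hh_le_half (i : ℕ) (t : ℝ) : hh i t ≤ 1 / 2 := by
  unfold hh
  have := nd_nonneg ((t - i / 2) / 8)
  exact max_le (by norm_num) (by linarith)

lemma hh_lip (i : ℕ) (s t : ℝ) : |hh i s - hh i t| ≤ |s - t| := by
  unfold hh
  have h1 := nd_lip ((s - i / 2) / 8) ((t - i / 2) / 8)
  have h2 : (s - i / 2) / 8 - (t - i / 2) / 8 = (s - t) / 8 := by ring
  rw [h2, abs_div, abs_of_pos (by norm_num : (0 : ℝ) < 8)] at h1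
  have h3 := abs_max_sub_max_le_abs (1 / 2 - 8 * nd ((s - i / 2) / 8))
    (1 / 2 - 8 * nd ((t - i / 2) / 8)) 0
  rw [max_comm 0, max_comm 0]
  refine le_trans h3 ?_
  have h4 : (1 / 2 - 8 * nd ((s - i / 2) / 8)) - (1 / 2 - 8 * nd ((t - i / 2) / 8)) =
      -(8 * (nd ((s - i / 2) / 8) - nd ((t - i / 2) / 8))) := by ring
  rw [h4, abs_neg, abs_mul, abs_of_pos (by norm_num : (0 : ℝ) < 8)]
  linarith

lemma hh_per (i : ℕ) (t : ℝ) (z : ℤ) : hh i (t + 8 * z) = hh i t := by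
  unfold hh
  have : (t + 8 * z - i / 2) / 8 = (t - i / 2) / 8 + z := by ring
  rw [this, nd_add_int]

/-- the scale `L = 4 * 2 ^ m` -/
noncomputable def LL (m : ℕ) : ℝ := 4 * 2 ^ m

lemma LL_pos (m : ℕ) : 0 < LL m := by unfold LL; positivity

noncomputable def sg (m e : ℕ) (b : ℤ) : ℝ := b / LL m + e / 2

noncomputable def om (m e : ℕ) (b : ℤ) : ℝ := LL m * (⌊sg m e b⌋ - e / 2)

noncomputable def tt (m e : ℕ) (a b c : ℤ) : ℝ := (c - a * om m e b) / 4 ^ m

noncomputable def GG (m i e : ℕ) (a b c : ℤ) : ℝ :=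
  nd (sg m e b) * (LL m / 16 * hh i (tt m e a b c))

lemma four_pow (m : ℕ) : (4 : ℝ) ^ m = 2 ^ m * 2 ^ m := by
  rw [← mul_pow]; norm_num

/-- the difference of two values on the same fibre, upper bound -/
lemma GG_diff (m i e : ℕ) (a b c a' c' : ℤ) (T : ℝ)
    (h : |hh i (tt m e a b c) - hh i (tt m e a' b c')| ≤ T) :
    |GG m i e a b c - GG m i e a' b c'| ≤ LL m / 32 * T := by
  unfold GG
  have h1 : nd (sg m e b) * (LL m / 16 * hh i (tt m e a b c)) -
      nd (sg m e b) * (LL m / 16 * hh i (tt m e a' b c')) =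
      nd (sg m e b) * (LL m / 16 * (hh i (tt m e a b c) - hh i (tt m e a' b c'))) := by ring
  rw [h1, abs_mul, abs_mul, abs_of_nonneg (nd_nonneg _),
    abs_of_pos (by have := LL_pos m; positivity : (0 : ℝ) < LL m / 16)]
  have h2 := nd_le_half (sg m e b)
  have h3 := nd_nonneg (sg m e b)
  have h4 := LL_pos m
  have h5 : (0 : ℝ) ≤ T := le_trans (abs_nonneg _) h
  calc nd (sg m e b) * (LL m / 16 * |hh i (tt m e a b c) - hh i (tt m e a' b c')|)
      ≤ (1 / 2) * (LL m / 16 * T) := by gcongr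
    _ = LL m / 32 * T := by ring

lemma GG_x (m i e : ℕ) (a b c : ℤ) :
    |GG m i e (a + 1) b (c + b) - GG m i e a b c| ≤ 1 / 2 := by
  have hL := LL_pos m
  have hfr : tt m e (a + 1) b (c + b) - tt m e a b c = LL m * Int.fract (sg m e b) / 4 ^ m := by
    have h1 : (b : ℝ) = LL m * (sg m e b - e / 2) := by
      unfold sg; field_simp; ring
    have h2 : (b : ℝ) - om m e b = LL m * Int.fract (sg m e b) := by
      unfold om Int.fract
      linear_combination h1
    unfold tt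
    rw [← h2]
    push_cast
    ring
  have h0 := Int.fract_nonneg (sg m e b)
  have h1 := (Int.fract_lt_one (sg m e b)).le
  have h4 : (0 : ℝ) < 4 ^ m := by positivity
  have hT : |hh i (tt m e (a + 1) b (c + b)) - hh i (tt m e a b c)| ≤ LL m / 4 ^ m := by
    refine le_trans (hh_lip _ _ _) ?_
    rw [hfr, abs_of_nonneg (by positivity)]
    gcongr
    nlinarith
  refine le_trans (GG_diff m i e (a + 1) b (c + b) a c _ hT) ?_
  unfold LL
  rw [four_pow]
  have h2 : (0 : ℝ) < 2 ^ m := by positivity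
  apply le_of_eq
  field_simp
  norm_num

lemma GG_nonneg (m i e : ℕ) (a b c : ℤ) : 0 ≤ GG m i e a b c := by
  unfold GG
  have := nd_nonneg (sg m e b)
  have := hh_nonneg i (tt m e a b c)
  have := LL_pos m
  positivity

lemma GG_le (m i e : ℕ) (a b c : ℤ) (h : nd (sg m e b) ≤ 1 / LL m) :
    GG m i e a b c ≤ 1 / 32 := by
  unfold GG
  have h1 := hh_nonneg i (tt m e a b c)
  have h2 := hh_le_half i (tt m e a b c)
  have h3 := LL_pos m
  have h4 := nd_nonneg (sg m e b)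
  calc nd (sg m e b) * (LL m / 16 * hh i (tt m e a b c)) ≤ 1 / LL m * (LL m / 16 * (1 / 2)) := by
        gcongr
    _ = 1 / 32 := by field_simp; norm_num

lemma GG_y (m i e : ℕ) (a b c : ℤ) :
    |GG m i e a (b + 1) c - GG m i e a b c| ≤ 1 / 2 := by
  have hL := LL_pos m
  have hs : sg m e (b + 1) = sg m e b + 1 / LL m := by
    unfold sg; push_cast; ring
  have hpos : 0 < 1 / LL m := by positivity
  by_cases hf : ⌊sg m e (b + 1)⌋ = ⌊sg m e b⌋
  · have ht : tt m e a (b + 1) c = tt m e a b c := by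
      unfold tt om; rw [hf]
    have h1 : GG m i e a (b + 1) c - GG m i e a b c =
        (nd (sg m e (b + 1)) - nd (sg m e b)) * (LL m / 16 * hh i (tt m e a b c)) := by
      unfold GG; rw [ht]; ring
    have h2 := nd_lip (sg m e (b + 1)) (sg m e b)
    have h3 : |sg m e (b + 1) - sg m e b| = 1 / LL m := by
      rw [hs]; rw [add_sub_cancel_left, abs_of_pos hpos]
    rw [h3] at h2
    have h4 := hh_nonneg i (tt m e a b c)
    have h5 := hh_le_half i (tt m e a b c)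
    rw [h1, abs_mul, abs_of_nonneg (by positivity : 0 ≤ LL m / 16 * hh i (tt m e a b c))]
    calc |nd (sg m e (b + 1)) - nd (sg m e b)| * (LL m / 16 * hh i (tt m e a b c))
        ≤ 1 / LL m * (LL m / 16 * (1 / 2)) := by gcongr
      _ = 1 / 32 := by field_simp; norm_num
      _ ≤ 1 / 2 := by norm_num
  · have hle : ⌊sg m e b⌋ ≤ ⌊sg m e (b + 1)⌋ := Int.floor_le_floor (by rw [hs]; linarith)
    have hlt : ⌊sg m e b⌋ + 1 ≤ ⌊sg m e (b + 1)⌋ := by
      rcases lt_or_eq_of_le hle with h | h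
      · exact h
      · exact absurd h.symm hf
    have hz1 : sg m e b < (⌊sg m e (b + 1)⌋ : ℝ) := by
      have h1 := Int.lt_floor_add_one (sg m e b)
      have h2 : ((⌊sg m e b⌋ + 1 : ℤ) : ℝ) ≤ (⌊sg m e (b + 1)⌋ : ℝ) := by exact_mod_cast hlt
      push_cast at h2
      linarith
    have hz2 : (⌊sg m e (b + 1)⌋ : ℝ) ≤ sg m e (b + 1) := Int.floor_le _
    have n1 : nd (sg m e b) ≤ 1 / LL m := by
      refine le_trans (nd_le _ ⌊sg m e (b + 1)⌋) ?_
      rw [abs_le]; constructor <;> linarith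
    have n2 : nd (sg m e (b + 1)) ≤ 1 / LL m := by
      refine le_trans (nd_le _ ⌊sg m e (b + 1)⌋) ?_
      rw [abs_le]; constructor <;> linarith
    have g1 := GG_le m i e a b c n1
    have g2 := GG_le m i e a (b + 1) c n2
    have g3 := GG_nonneg m i e a b c
    have g4 := GG_nonneg m i e a (b + 1) c
    rw [abs_le]; constructor <;> linarith

lemma GG_per (m i e : ℕ) (a b c : ℤ) (z : ℤ) :
    GG m i e a b (c + 8 * 4 ^ m * z) = GG m i e a b c := by
  unfold GG
  have h : tt m e a b (c + 8 * 4 ^ m * z) = tt m e a b c + 8 * z := by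
    unfold tt
    have h4 : (4 : ℝ) ^ m ≠ 0 := by positivity
    push_cast
    field_simp
    ring
  rw [h, hh_per]

lemma GG_low (m i e : ℕ) (a b c c' : ℤ) :
    |GG m i e a b c - GG m i e a b c'| ≤ 2 ^ m / 16 := by
  have h : |hh i (tt m e a b c) - hh i (tt m e a b c')| ≤ 1 / 2 := by
    have h1 := hh_nonneg i (tt m e a b c)
    have h2 := hh_le_half i (tt m e a b c)
    have h3 := hh_nonneg i (tt m e a b c')
    have h4 := hh_le_half i (tt m e a b c')
    rw [abs_le]; constructor <;> linarith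
  refine le_trans (GG_diff m i e a b c a c' _ h) ?_
  unfold LL
  apply le_of_eq; ring

lemma tt_sub (m e : ℕ) (a b c c' : ℤ) :
    tt m e a b c - tt m e a b c' = ((c - c' : ℤ) : ℝ) / 4 ^ m := by
  unfold tt; push_cast; ring

lemma GG_up (m i e : ℕ) (a b c c' : ℤ) :
    |GG m i e a b c - GG m i e a b c'| ≤ |((c - c' : ℤ) : ℝ)| / (8 * 2 ^ m) := by
  have h : |hh i (tt m e a b c) - hh i (tt m e a b c')| ≤ |((c - c' : ℤ) : ℝ)| / 4 ^ m := by
    refine le_trans (hh_lip _ _ _) ?_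
    rw [tt_sub, abs_div, abs_of_pos (by positivity : (0 : ℝ) < 4 ^ m)]
  refine le_trans (GG_diff m i e a b c a c' _ h) ?_
  unfold LL
  rw [four_pow]
  apply le_of_eq
  field_simp
  norm_num
  ring

/-- some strip family has a large cutoff at `b` -/
lemma exists_strip (m : ℕ) (b : ℤ) : ∃ e < 2, 1 / 4 ≤ nd (sg m e b) := by
  by_contra hcon
  push Not at hcon
  have h0 := hcon 0 (by norm_num)
  have h1 := hcon 1 (by norm_num)
  unfold sg at h0 h1
  push_cast at h0 h1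
  set t : ℝ := b / LL m with ht
  rw [zero_div, add_zero] at h0
  unfold nd at h0 h1
  set p := round t
  set q := round (t + 1 / 2)
  rw [abs_lt] at h0 h1
  have h2 : ((q - p : ℤ) : ℝ) < 1 := by push_cast; linarith [h0.1, h0.2, h1.1, h1.2]
  have h3 : (0 : ℝ) < ((q - p : ℤ) : ℝ) := by push_cast; linarith [h0.1, h0.2, h1.1, h1.2]
  have h4 : (q - p : ℤ) < 1 := by exact_mod_cast h2
  have h5 : (0 : ℤ) < q - p := by exact_mod_cast h3
  omega

/-- some phase separates two reals at distance between 1 and 4 -/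
lemma exists_phase (t t' : ℝ) (h1 : 1 ≤ |t - t'|) (h4 : |t - t'| ≤ 4) :
    ∃ i < 16, 1 / 4 ≤ hh i t ∧ hh i t' = 0 := by
  set r := round (2 * t) with hr
  have hr0 : |2 * t - r| ≤ 1 / 2 := abs_sub_round (2 * t)
  obtain ⟨i, hi, q, hq⟩ : ∃ i < 16, ∃ q : ℤ, r = 16 * q + (i : ℕ) := by
    refine ⟨(r % 16).toNat, ?_, r / 16, ?_⟩
    · have := Int.emod_lt_of_pos r (by norm_num : (0 : ℤ) < 16)
      omega
    · have := Int.emod_nonneg r (by norm_num : (16 : ℤ) ≠ 0)
      omega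
  have hrR : (r : ℝ) = 16 * q + i := by rw [hq]; push_cast; ring
  refine ⟨i, hi, ?_, ?_⟩
  · have h5 : nd ((t - i / 2) / 8) ≤ 1 / 32 := by
      refine le_trans (nd_le _ q) ?_
      have : (t - i / 2) / 8 - q = (2 * t - r) / 16 := by rw [hrR]; ring
      rw [this, abs_div, abs_of_pos (by norm_num : (0 : ℝ) < 16)]
      linarith
    unfold hh
    refine le_trans ?_ (le_max_right _ _)
    linarith
  · unfold hh
    apply max_eq_left
    have h5 : 1 / 16 ≤ nd ((t' - i / 2) / 8) := by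
      unfold nd
      set z := round ((t' - i / 2) / 8)
      have e1 : (t' - i / 2) / 8 - z = (2 * t - r) / 16 - (t - t') / 8 - ((z - q : ℤ) : ℝ) := by
        rw [hrR]; push_cast; ring
      rw [e1]
      have hr1 : |(2 * t - r) / 16| ≤ 1 / 32 := by
        rw [abs_div, abs_of_pos (by norm_num : (0 : ℝ) < 16)]; linarith
      rw [abs_le] at hr1
      by_contra hcon
      push Not at hcon
      rw [abs_lt] at hcon
      set w : ℤ := z - q
      rcases le_total 0 (t - t') with hs | hs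
      · rw [abs_of_nonneg hs] at h1 h4
        have a1 : (w : ℝ) < 0 := by linarith [hcon.1, hcon.2, hr1.1, hr1.2]
        have a2 : (-1 : ℝ) < w := by linarith [hcon.1, hcon.2, hr1.1, hr1.2]
        have a3 : w < 0 := by exact_mod_cast a1
        have a4 : -1 < w := by exact_mod_cast a2
        omega
      · rw [abs_of_nonpos hs] at h1 h4
        have a1 : (0 : ℝ) < w := by linarith [hcon.1, hcon.2, hr1.1, hr1.2]
        have a2 : (w : ℝ) < 1 := by linarith [hcon.1, hcon.2, hr1.1, hr1.2]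
        have a3 : 0 < w := by exact_mod_cast a1
        have a4 : w < 1 := by exact_mod_cast a2
        omega
    linarith

lemma GG_main (m : ℕ) (a b c c' : ℤ) (h1 : (4 : ℝ) ^ m ≤ |((c - c' : ℤ) : ℝ)|)
    (h2 : |((c - c' : ℤ) : ℝ)| ≤ 4 ^ (m + 1)) :
    ∃ i < 16, ∃ e < 2, 2 ^ m / 64 ≤ |GG m i e a b c - GG m i e a b c'| := by
  obtain ⟨e, he, hn⟩ := exists_strip m b
  have h4 : (0 : ℝ) < 4 ^ m := by positivity
  have hd : |tt m e a b c - tt m e a b c'| = |((c - c' : ℤ) : ℝ)| / 4 ^ m := by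
    rw [tt_sub, abs_div, abs_of_pos h4]
  obtain ⟨i, hi, hA, hB⟩ := exists_phase (tt m e a b c) (tt m e a b c')
    (by rw [hd, le_div_iff₀ h4]; linarith) (by rw [hd, div_le_iff₀ h4]; rw [pow_succ] at h2; linarith)
  refine ⟨i, hi, e, he, ?_⟩
  unfold GG
  rw [hB, mul_zero, mul_zero, sub_zero]
  refine le_trans ?_ (le_abs_self _)
  have hL := LL_pos m
  calc (2 : ℝ) ^ m / 64 = 1 / 4 * (LL m / 16 * (1 / 4)) := by unfold LL; ring
    _ ≤ nd (sg m e b) * (LL m / 16 * hh i (tt m e a b c)) := by gcongr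


lemma geo1 (n : ℕ) : ∑ k ∈ Finset.range n, ((1 : ℝ) / 64) ^ k = 64 / 63 * (1 - (1 / 64) ^ n) := by
  induction n with
  | zero => simp
  | succ n ih => rw [Finset.sum_range_succ, ih, pow_succ]; ring

lemma geo2 (n : ℕ) : ∑ k ∈ Finset.range n, (64 : ℝ) ^ k = (64 ^ n - 1) / 63 := by
  induction n with
  | zero => simp
  | succ n ih => rw [Finset.sum_range_succ, ih, pow_succ]; ring

/-- one dominating term -/
lemma dom (F : ℕ → ℝ) (k n : ℕ) (V : ℝ) (hV0 : 0 ≤ V) (hV : V ≤ |F k|)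
    (hlow : ∀ i < k, |F i| ≤ 4 * V / 64 ^ k * 64 ^ i)
    (hup : ∀ i, |F (k + 1 + i)| ≤ V / 64 * (1 / 64) ^ i) :
    V / 2 ≤ |∑ i ∈ Finset.range (k + 1 + n), F i| := by
  rw [Finset.sum_range_add, Finset.sum_range_succ]
  have hA : |∑ i ∈ Finset.range k, F i| ≤ 4 * V / 63 := by
    refine le_trans (Finset.abs_sum_le_sum_abs _ _) ?_
    refine le_trans (Finset.sum_le_sum (fun i hi => hlow i (Finset.mem_range.1 hi))) ?_
    rw [← Finset.mul_sum, geo2]
    have h : (0 : ℝ) < 64 ^ k := by positivity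
    rw [div_mul_div_comm, div_le_div_iff₀ (by positivity) (by norm_num)]
    nlinarith
  have hB : |∑ i ∈ Finset.range n, F (k + 1 + i)| ≤ V / 63 := by
    refine le_trans (Finset.abs_sum_le_sum_abs _ _) ?_
    refine le_trans (Finset.sum_le_sum (fun i _ => hup i)) ?_
    rw [← Finset.mul_sum, geo1]
    have h : (0 : ℝ) ≤ (1 / 64) ^ n := by positivity
    nlinarith
  have h3 : |F k| ≤ |∑ i ∈ Finset.range k, F i + F k + ∑ i ∈ Finset.range n, F (k + 1 + i)| +
      |∑ i ∈ Finset.range k, F i| + |∑ i ∈ Finset.range n, F (k + 1 + i)| := by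
    have e : F k = (∑ i ∈ Finset.range k, F i + F k + ∑ i ∈ Finset.range n, F (k + 1 + i)) -
      (∑ i ∈ Finset.range k, F i) - (∑ i ∈ Finset.range n, F (k + 1 + i)) := by ring
    calc |F k| = |(∑ i ∈ Finset.range k, F i + F k + ∑ i ∈ Finset.range n, F (k + 1 + i)) -
      (∑ i ∈ Finset.range k, F i) - (∑ i ∈ Finset.range n, F (k + 1 + i))| := by rw [← e]
      _ ≤ _ := by
        refine le_trans (abs_sub _ _) ?_
        gcongr
        exact abs_sub _ _
  linarith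

/-- the weighted sum over the scales `m = 12 k + j`, `k ≤ K` -/
noncomputable def PP (K j i e : ℕ) (a b c : ℤ) : ℝ :=
  ∑ k ∈ Finset.range (K + 1), (1 / 64) ^ k * GG (12 * k + j) i e a b c

lemma PP_bound (K j i e : ℕ) (a b c a' b' c' : ℤ)
    (h : ∀ m, |GG m i e a b c - GG m i e a' b' c'| ≤ 1 / 2) :
    |PP K j i e a b c - PP K j i e a' b' c'| ≤ 1 := by
  unfold PP
  rw [← Finset.sum_sub_distrib]
  refine le_trans (Finset.abs_sum_le_sum_abs _ _) ?_
  have h1 : ∀ k ∈ Finset.range (K + 1), |(1 / 64 : ℝ) ^ k * GG (12 * k + j) i e a b c -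
      (1 / 64) ^ k * GG (12 * k + j) i e a' b' c'| ≤ (1 / 64) ^ k * (1 / 2) := by
    intro k _
    rw [← mul_sub, abs_mul, abs_of_nonneg (by positivity : (0 : ℝ) ≤ (1 / 64) ^ k)]
    exact mul_le_mul_of_nonneg_left (h _) (by positivity)
  refine le_trans (Finset.sum_le_sum h1) ?_
  rw [← Finset.sum_mul, geo1]
  have h : (0 : ℝ) ≤ (1 / 64) ^ (K + 1) := by positivity
  nlinarith

lemma PP_x (K j i e : ℕ) (a b c : ℤ) :
    |PP K j i e (a + 1) b (c + b) - PP K j i e a b c| ≤ 1 :=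
  PP_bound _ _ _ _ _ _ _ _ _ _ (fun m => GG_x m i e a b c)

lemma PP_y (K j i e : ℕ) (a b c : ℤ) :
    |PP K j i e a (b + 1) c - PP K j i e a b c| ≤ 1 :=
  PP_bound _ _ _ _ _ _ _ _ _ _ (fun m => GG_y m i e a b c)

/-- the period -/
def Per (K : ℕ) : ℕ := 8 * 4 ^ (12 * K + 11)

lemma PP_per (K j i e : ℕ) (hj : j < 12) (a b c : ℤ) (z : ℤ) :
    PP K j i e a b (c + (Per K : ℤ) * z) = PP K j i e a b c := by
  unfold PP
  apply Finset.sum_congr rfl
  intro k hk
  have hk' : k ≤ K := by have := Finset.mem_range.1 hk; omega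
  have h : (Per K : ℤ) * z = 8 * 4 ^ (12 * k + j) * (4 ^ (12 * K + 11 - (12 * k + j)) * z) := by
    unfold Per
    push_cast
    have : (4 : ℤ) ^ (12 * K + 11) = 4 ^ (12 * k + j) * 4 ^ (12 * K + 11 - (12 * k + j)) := by
      rw [← pow_add]; congr 1; omega
    rw [this]; ring
  rw [h, GG_per]

lemma exists_m (n : ℕ) (D : ℝ) (h1 : 1 ≤ D) (h2 : D ≤ 4 ^ (n + 1)) :
    ∃ m ≤ n, (4 : ℝ) ^ m ≤ D ∧ D ≤ 4 ^ (m + 1) := by
  induction n with
  | zero => exact ⟨0, le_refl _, by simpa using h1, h2⟩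
  | succ n ih =>
    rcases le_total D (4 ^ (n + 1)) with h | h
    · obtain ⟨m, hm, h3⟩ := ih h
      exact ⟨m, by omega, h3⟩
    · exact ⟨n + 1, le_refl _, h, h2⟩

lemma PP_sep (K : ℕ) (a b c c' : ℤ) (h1 : (1 : ℝ) ≤ |((c - c' : ℤ) : ℝ)|)
    (h2 : |((c - c' : ℤ) : ℝ)| ≤ 4 ^ (12 * K + 11 + 1)) :
    ∃ j < 12, ∃ i < 16, ∃ e < 2, 1 / 128 ≤ |PP K j i e a b c - PP K j i e a b c'| := by
  obtain ⟨m, hm, hA, hB⟩ := exists_m _ _ h1 h2
  obtain ⟨i, hi, e, he, hG⟩ := GG_main m a b c c' hA hB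
  obtain ⟨k, j, hj, rfl⟩ : ∃ k j, j < 12 ∧ m = 12 * k + j := ⟨m / 12, m % 12, by omega, by omega⟩
  have hkK : k ≤ K := by omega
  obtain ⟨n, rfl⟩ := Nat.exists_eq_add_of_le hkK
  refine ⟨j, hj, i, hi, e, he, ?_⟩
  unfold PP
  rw [← Finset.sum_sub_distrib, show k + n + 1 = k + 1 + n by ring]
  have hV1 : (1 : ℝ) / 64 ≤ 2 ^ j * 64 ^ k / 64 := by
    have a1 : (1 : ℝ) ≤ 2 ^ j := one_le_pow₀ (by norm_num)
    have a2 : (1 : ℝ) ≤ 64 ^ k := one_le_pow₀ (by norm_num)
    have a3 : (1 : ℝ) ≤ 2 ^ j * 64 ^ k := one_le_mul_of_one_le_of_one_le a1 a2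
    linarith
  have key : ∀ t : ℕ, ((1 : ℝ) / 64) ^ t * 2 ^ (12 * t + j) = 2 ^ j * 64 ^ t := by
    intro t
    rw [pow_add, pow_mul]
    have : ((1 : ℝ) / 64) ^ t * (2 ^ 12) ^ t = 64 ^ t := by
      rw [← mul_pow]; norm_num
    linear_combination (2 : ℝ) ^ j * this
  have hd := dom (fun t => (1 / 64 : ℝ) ^ t * GG (12 * t + j) i e a b c -
      (1 / 64) ^ t * GG (12 * t + j) i e a b c') k n (2 ^ j * 64 ^ k / 64) (by positivity) ?_ ?_ ?_
  · refine le_trans ?_ hd
    linarith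
  · rw [← mul_sub, abs_mul, abs_of_nonneg (by positivity : (0 : ℝ) ≤ (1 / 64) ^ k)]
    calc (2 : ℝ) ^ j * 64 ^ k / 64 = (1 / 64) ^ k * (2 ^ (12 * k + j) / 64) := by
          rw [← key]; ring
      _ ≤ _ := mul_le_mul_of_nonneg_left hG (by positivity)
  · intro t _
    rw [← mul_sub, abs_mul, abs_of_nonneg (by positivity : (0 : ℝ) ≤ (1 / 64) ^ t)]
    calc (1 / 64 : ℝ) ^ t * |GG (12 * t + j) i e a b c - GG (12 * t + j) i e a b c'|
        ≤ (1 / 64) ^ t * (2 ^ (12 * t + j) / 16) :=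
          mul_le_mul_of_nonneg_left (GG_low _ _ _ _ _ _ _) (by positivity)
      _ = 2 ^ j * 64 ^ t / 16 := by rw [← key]; ring
      _ = 4 * (2 ^ j * 64 ^ k / 64) / 64 ^ k * 64 ^ t := by
          field_simp; norm_num
  · intro t
    rw [← mul_sub, abs_mul, abs_of_nonneg (by positivity : (0 : ℝ) ≤ (1 / 64) ^ (k + 1 + t))]
    have hu := GG_up (12 * (k + 1 + t) + j) i e a b c c'
    have hu2 : |GG (12 * (k + 1 + t) + j) i e a b c - GG (12 * (k + 1 + t) + j) i e a b c'| ≤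
        4 ^ (12 * k + j + 1) / (8 * 2 ^ (12 * (k + 1 + t) + j)) := by
      refine le_trans hu ?_
      gcongr
    refine le_trans (mul_le_mul_of_nonneg_left hu2 (by positivity)) ?_
    have e1 : (4 : ℝ) ^ (12 * k + j + 1) = 4 * (2 ^ j * 2 ^ j * (4096 ^ k * 4096 ^ k)) := by
      rw [pow_succ, four_pow, pow_add, pow_mul]
      norm_num
      ring
    have e2 : (2 : ℝ) ^ (12 * (k + 1 + t) + j) = 2 ^ j * (4096 ^ k * 4096 * 4096 ^ t) := by
      rw [show 12 * (k + 1 + t) + j = 12 * k + 12 + 12 * t + j by ring, pow_add, pow_add, pow_add,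
        pow_mul, pow_mul]
      norm_num
      ring
    have e3 : ((1 : ℝ) / 64) ^ (k + 1 + t) = 1 / (64 ^ k * 64 * 64 ^ t) := by
      rw [one_div_pow, pow_add, pow_add, pow_one]
    have e4 : ((1 : ℝ) / 64) ^ t = 1 / 64 ^ t := by rw [one_div_pow]
    have e5 : (4096 : ℝ) ^ k = 64 ^ k * 64 ^ k := by rw [← mul_pow]; norm_num
    have e6 : (1 : ℝ) ≤ 4096 ^ t := one_le_pow₀ (by norm_num)
    rw [e1, e2, e3, e4]
    have p1 : (0 : ℝ) < 2 ^ j := by positivity
    have p2 : (0 : ℝ) < 64 ^ k := by positivity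
    have p3 : (0 : ℝ) < 64 ^ t := by positivity
    have p4 : (0 : ℝ) < 4096 ^ k := by positivity
    have p5 : (0 : ℝ) < 4096 ^ t := by positivity
    calc 1 / ((64 : ℝ) ^ k * 64 * 64 ^ t) *
        (4 * (2 ^ j * 2 ^ j * (4096 ^ k * 4096 ^ k)) / (8 * (2 ^ j * (4096 ^ k * 4096 * 4096 ^ t))))
        = 2 ^ j * 64 ^ k / (2 * 64 * 4096) * (1 / 64 ^ t) * (1 / 4096 ^ t) := by
          rw [e5]; field_simp; norm_num
      _ ≤ 2 ^ j * 64 ^ k / (2 * 64 * 4096) * (1 / 64 ^ t) * 1 := by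
          gcongr
          rw [div_le_one p5]; exact e6
      _ ≤ 2 ^ j * 64 ^ k / 64 / 64 * (1 / 64 ^ t) := by
          rw [mul_one]
          gcongr ?_ * _
          have : (0 : ℝ) < 2 ^ j * 64 ^ k := by positivity
          linarith

end Pool.Agent.H258R3.Hei
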