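import Pool.Agent.H258R3.HeiA

/-!
The bounded-displacement injection, and the permutations of `Z^d`.
-/

set_option autoImplicit false

namespace Pool.Agent.H258R3.Hei

instance (K : ℕ) : NeZero (Per K) := ⟨by unfold Per; positivity⟩

abbrev Idx : Type := Fin 2 ⊕ (Fin 12 × Fin 16 × Fin 2)

abbrev Om (K : ℕ) : Type := ℤ × ℤ × ZMod (Per K)

noncomputable def ph (K : ℕ) (w : Om K) : Idx → ℤ
  | Sum.inl 0 => w.1
  | Sum.inl 1 => w.2.1
  | Sum.inr (j, i, e) => ⌊128 * PP K j i e w.1 w.2.1 (w.2.2.val : ℤ)⌋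

lemma ph_l0 (K : ℕ) (w : Om K) : ph K w (Sum.inl 0) = w.1 := rfl

lemma ph_l1 (K : ℕ) (w : Om K) : ph K w (Sum.inl 1) = w.2.1 := rfl

lemma ph_r (K : ℕ) (w : Om K) (j : Fin 12) (i : Fin 16) (e : Fin 2) :
    ph K w (Sum.inr (j, i, e)) = ⌊128 * PP K j i e w.1 w.2.1 (w.2.2.val : ℤ)⌋ := rfl

lemma val_cast (K : ℕ) (c : ZMod (Per K)) (n : ℤ) (h : (n : ZMod (Per K)) = c) :
    ∃ z : ℤ, (c.val : ℤ) = n + (Per K : ℤ) * z := by
  have h1 : ((n : ℤ) : ZMod (Per K)) = ((c.val : ℤ) : ZMod (Per K)) := by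
    rw [h]; simp
  rw [ZMod.intCast_eq_intCast_iff_dvd_sub] at h1
  obtain ⟨z, hz⟩ := h1
  exact ⟨z, by linarith⟩

lemma PP_val (K j i e : ℕ) (hj : j < 12) (a b : ℤ) (c : ZMod (Per K)) (n : ℤ)
    (h : (n : ZMod (Per K)) = c) : PP K j i e a b (c.val : ℤ) = PP K j i e a b n := by
  obtain ⟨z, hz⟩ := val_cast K c n h
  rw [hz, PP_per K j i e hj]

lemma ph_inj (K : ℕ) : Function.Injective (ph K) := by
  rintro ⟨a, b, c⟩ ⟨a', b', c'⟩ h
  have h1 : a = a' := congrFun h (Sum.inl 0)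
  have h2 : b = b' := congrFun h (Sum.inl 1)
  subst h1 h2
  by_contra hne
  have hc : c ≠ c' := by
    rintro rfl
    exact hne rfl
  set P : ℤ := (Per K : ℤ) with hP
  have hPpos : (0 : ℝ) < P := by
    rw [hP]
    have : 0 < Per K := Nat.pos_of_ne_zero (NeZero.ne _)
    exact_mod_cast this
  set D0 : ℤ := (c.val : ℤ) - (c'.val : ℤ) with hD0
  set s : ℤ := round ((D0 : ℝ) / P) with hs
  have hr := abs_sub_round ((D0 : ℝ) / P)
  rw [← hs] at hr
  have hD1 : |((D0 - P * s : ℤ) : ℝ)| ≤ P / 2 := by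
    have e1 : ((D0 - P * s : ℤ) : ℝ) = P * ((D0 : ℝ) / P - s) := by
      push_cast; field_simp
    rw [e1, abs_mul, abs_of_pos hPpos]
    nlinarith
  have hPv : (P : ℝ) / 2 = 4 ^ (12 * K + 11 + 1) := by
    rw [hP]; unfold Per; push_cast; rw [pow_succ]; ring
  have hD2 : D0 - P * s ≠ 0 := by
    intro h0
    apply hc
    have h3 : ((c.val : ℤ) : ZMod (Per K)) = ((c'.val : ℤ) : ZMod (Per K)) := by
      rw [ZMod.intCast_eq_intCast_iff_dvd_sub]
      exact ⟨-s, by rw [← hP]; linarith⟩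
    simpa using h3
  have hD3 : (1 : ℝ) ≤ |((D0 - P * s : ℤ) : ℝ)| := by
    have := Int.one_le_abs hD2
    exact_mod_cast this
  have e2 : D0 - P * s = (c.val : ℤ) - ((c'.val : ℤ) + P * s) := by rw [hD0]; ring
  rw [e2] at hD1 hD3
  obtain ⟨j, hj, i, hi, e, he, hsep⟩ := PP_sep K a b (c.val : ℤ) ((c'.val : ℤ) + P * s) hD3
    (by rw [← hPv]; exact hD1)
  rw [PP_per K j i e hj] at hsep
  have h4 := congrFun h (Sum.inr (⟨j, hj⟩, ⟨i, hi⟩, ⟨e, he⟩))
  have h5 := Int.abs_sub_lt_one_of_floor_eq_floor h4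
  simp only at h5
  rw [← mul_sub, abs_mul, abs_of_pos (by norm_num : (0 : ℝ) < 128)] at h5
  linarith

lemma floor_diff (u v : ℝ) (h : |u - v| ≤ 128) : |⌊u⌋ - ⌊v⌋| ≤ 130 := by
  rw [abs_le] at h
  have h1 := Int.floor_le u
  have h2 := Int.lt_floor_add_one u
  have h3 := Int.floor_le v
  have h4 := Int.lt_floor_add_one v
  rw [abs_le]
  constructor
  · have : ((-130 : ℤ) : ℝ) ≤ ((⌊u⌋ - ⌊v⌋ : ℤ) : ℝ) := by push_cast; linarith
    exact_mod_cast this
  · have : ((⌊u⌋ - ⌊v⌋ : ℤ) : ℝ) ≤ ((130 : ℤ) : ℝ) := by push_cast; linarith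
    exact_mod_cast this

/-- the generator `x` -/
def gx (K : ℕ) : Equiv.Perm (Om K) where
  toFun w := (w.1 + 1, w.2.1, w.2.2 + (w.2.1 : ZMod (Per K)))
  invFun w := (w.1 - 1, w.2.1, w.2.2 - (w.2.1 : ZMod (Per K)))
  left_inv w := by simp
  right_inv w := by simp

/-- the generator `y` -/
def gy (K : ℕ) : Equiv.Perm (Om K) where
  toFun w := (w.1, w.2.1 + 1, w.2.2)
  invFun w := (w.1, w.2.1 - 1, w.2.2)
  left_inv w := by simp
  right_inv w := by simp

/-- the central element `z` -/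
def gz (K : ℕ) : Equiv.Perm (Om K) where
  toFun w := (w.1, w.2.1, w.2.2 + 1)
  invFun w := (w.1, w.2.1, w.2.2 - 1)
  left_inv w := by simp
  right_inv w := by simp

lemma gxy (K : ℕ) : gx K * gy K = gz K * (gy K * gx K) := by
  ext1 w
  simp only [Equiv.Perm.mul_apply, gx, gy, gz, Equiv.coe_fn_mk]
  refine Prod.ext rfl (Prod.ext rfl ?_)
  simp only
  push_cast
  ring

lemma gzx (K : ℕ) : gz K * gx K = gx K * gz K := by
  ext1 w
  simp only [Equiv.Perm.mul_apply, gx, gz, Equiv.coe_fn_mk]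
  refine Prod.ext rfl (Prod.ext rfl ?_)
  simp only
  ring

lemma gzy (K : ℕ) : gz K * gy K = gy K * gz K := by
  ext1 w
  rfl

lemma gz_pow (K n : ℕ) (w : Om K) : (gz K ^ n) w = (w.1, w.2.1, w.2.2 + (n : ZMod (Per K))) := by
  induction n with
  | zero => simp
  | succ n ih =>
    rw [pow_succ', Equiv.Perm.mul_apply, ih]
    show (w.1, w.2.1, _ + 1) = _
    push_cast
    rw [add_assoc]

lemma gx_1 (K : ℕ) (w : Om K) : (gx K w).1 = w.1 + 1 := rfl
lemma gx_2 (K : ℕ) (w : Om K) : (gx K w).2.1 = w.2.1 := rfl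
lemma gx_3 (K : ℕ) (w : Om K) : (gx K w).2.2 = w.2.2 + (w.2.1 : ZMod (Per K)) := rfl
lemma gy_1 (K : ℕ) (w : Om K) : (gy K w).1 = w.1 := rfl
lemma gy_2 (K : ℕ) (w : Om K) : (gy K w).2.1 = w.2.1 + 1 := rfl
lemma gy_3 (K : ℕ) (w : Om K) : (gy K w).2.2 = w.2.2 := rfl

lemma ph_x (K : ℕ) (w : Om K) (q : Idx) : |ph K (gx K w) q - ph K w q| ≤ 130 := by
  rcases q with q | ⟨j, i, e⟩
  · have hq : q = 0 ∨ q = 1 := by omega
    rcases hq with rfl | rfl
    · rw [ph_l0, ph_l0, gx_1, add_sub_cancel_left]; norm_num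
    · rw [ph_l1, ph_l1, gx_2, sub_self]; norm_num
  · rw [ph_r, ph_r, gx_1, gx_2, gx_3]
    apply floor_diff
    have hv : (((w.2.2.val : ℤ) + w.2.1 : ℤ) : ZMod (Per K)) = w.2.2 + (w.2.1 : ZMod (Per K)) := by
      push_cast
      rw [ZMod.natCast_zmod_val]
    rw [PP_val K j i e j.2 (w.1 + 1) w.2.1 _ _ hv]
    rw [← mul_sub, abs_mul, abs_of_pos (by norm_num : (0 : ℝ) < 128)]
    have := PP_x K j i e w.1 w.2.1 (w.2.2.val : ℤ)
    linarith

lemma ph_y (K : ℕ) (w : Om K) (q : Idx) : |ph K (gy K w) q - ph K w q| ≤ 130 := by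
  rcases q with q | ⟨j, i, e⟩
  · have hq : q = 0 ∨ q = 1 := by omega
    rcases hq with rfl | rfl
    · rw [ph_l0, ph_l0, gy_1, sub_self]; norm_num
    · rw [ph_l1, ph_l1, gy_2, add_sub_cancel_left]; norm_num
  · rw [ph_r, ph_r, gy_1, gy_2, gy_3]
    apply floor_diff
    rw [← mul_sub, abs_mul, abs_of_pos (by norm_num : (0 : ℝ) < 128)]
    have := PP_y K j i e w.1 w.2.1 (w.2.2.val : ℤ)
    linarith

/-- the dimension -/
abbrev dd : ℕ := Fintype.card Idx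

/-- the injection into `Z^dd` -/
noncomputable def emb (K : ℕ) : Om K ↪ (Fin dd → ℤ) where
  toFun w := fun m => ph K w ((Fintype.equivFin Idx).symm m)
  inj' := by
    intro w w' h
    apply ph_inj K
    funext q
    have := congrFun h (Fintype.equivFin Idx q)
    simpa using this

/-- the permutation of `Z^dd` induced by a permutation of the orbit -/
noncomputable def pv (K : ℕ) : Equiv.Perm (Om K) →* Equiv.Perm (Fin dd → ℤ) :=
  Equiv.Perm.viaEmbeddingHom (emb K)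

lemma pv_emb (K : ℕ) (g : Equiv.Perm (Om K)) (w : Om K) : pv K g (emb K w) = emb K (g w) :=
  Equiv.Perm.viaEmbedding_apply g (emb K) w

lemma pv_bound (K : ℕ) (g : Equiv.Perm (Om K))
    (h : ∀ w q, |ph K (g w) q - ph K w q| ≤ 130) (v : Fin dd → ℤ) (m : Fin dd) :
    |pv K g v m - v m| ≤ 130 := by
  by_cases hv : v ∈ Set.range (emb K)
  · obtain ⟨w, rfl⟩ := hv
    rw [pv_emb]
    exact h w _
  · have : pv K g v = v := Equiv.Perm.viaEmbedding_apply_of_notMem g (emb K) v hv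
    rw [this, sub_self]; norm_num

lemma inv_bound (K : ℕ) (g : Equiv.Perm (Om K))
    (h : ∀ w q, |ph K (g w) q - ph K w q| ≤ 130) : ∀ w q, |ph K (g⁻¹ w) q - ph K w q| ≤ 130 := by
  intro w q
  have := h (g⁻¹ w) q
  have e : g (g⁻¹ w) = w := Equiv.apply_symm_apply g w
  rw [e, abs_sub_comm] at this
  exact this

end Pool.Agent.H258R3.Hei
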