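import Pool.Agent.H258R3.HeiB

/-!
The subshift of all bounded-displacement actions together with a layer of particles.
-/

set_option autoImplicit false

namespace Pool.Agent.H258R3.Hei

abbrev VV : Type := Fin dd → ℤ

abbrev WW : Type := Fin dd → Fin 261

def dec (w : WW) : VV := fun m => ((w m : ℕ) : ℤ) - 130

def enc (v : VV) : WW := fun m => Fin.ofNat 261 (v m + 130).toNat

lemma dec_enc (v : VV) (h : ∀ m, |v m| ≤ 130) : dec (enc v) = v := by
  funext m
  have h1 := h m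
  rw [abs_le] at h1
  unfold dec enc
  rw [Fin.val_ofNat]
  have h2 : (v m + 130).toNat % 261 = (v m + 130).toNat := Nat.mod_eq_of_lt (by omega)
  rw [h2]
  omega

abbrev AA : Type := (Fin 4 → WW) × Bool

noncomputable def kk : ℕ := Fintype.card AA

noncomputable def eqv : AA ≃ Fin kk := Fintype.equivFin AA

noncomputable def bg (a : Fin kk) : Fin 4 → WW := (eqv.symm a).1

noncomputable def bt (a : Fin kk) : Bool := (eqv.symm a).2

noncomputable def mk (f : Fin 4 → WW) (b : Bool) : Fin kk := eqv (f, b)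

lemma bg_mk (f : Fin 4 → WW) (b : Bool) : bg (mk f b) = f := by simp [bg, mk]

lemma bt_mk (f : Fin 4 → WW) (b : Bool) : bt (mk f b) = b := by simp [bt, mk]

lemma mk_bg_bt (a : Fin kk) : mk (bg a) (bt a) = a := by simp [bg, bt, mk]

abbrev CC : Type := VV → Fin kk

/-- the displacement maps -/
noncomputable def mv (s : Fin 4) (x : CC) (q : VV) : VV := q + dec (bg (x q) s)

/-- pull back the particle layer -/
noncomputable def act (t : Fin 4) (x : CC) : CC := fun q => mk (bg (x q)) (bt (x (mv t x q)))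

lemma bg_act (t : Fin 4) (x : CC) (q : VV) : bg (act t x q) = bg (x q) := bg_mk _ _

lemma bt_act (t : Fin 4) (x : CC) (q : VV) : bt (act t x q) = bt (x (mv t x q)) := bt_mk _ _

lemma mv_act (s t : Fin 4) (x : CC) (q : VV) : mv s (act t x) q = mv s x q := by
  unfold mv; rw [bg_act]

lemma cc_ext (x y : CC) (h1 : ∀ q, bg (x q) = bg (y q)) (h2 : ∀ q, bt (x q) = bt (y q)) :
    x = y := by
  funext q
  rw [← mk_bg_bt (x q), ← mk_bg_bt (y q), h1, h2]

noncomputable def zi (x : CC) (q : VV) : VV := mv 2 x (mv 0 x (mv 3 x (mv 1 x q)))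

lemma zi_act (t : Fin 4) (x : CC) (q : VV) : zi (act t x) q = zi x q := by
  unfold zi; simp only [mv_act]

/-- the subshift -/
def XX : Set CC := {x | ∀ q, mv 1 x (mv 0 x q) = q ∧ mv 0 x (mv 1 x q) = q ∧
  mv 3 x (mv 2 x q) = q ∧ mv 2 x (mv 3 x q) = q ∧
  zi x (mv 1 x q) = mv 1 x (zi x q) ∧ zi x (mv 3 x q) = mv 3 x (zi x q)}

lemma XX_act (t : Fin 4) (x : CC) (hx : x ∈ XX) : act t x ∈ XX := by
  intro q
  have h := hx q
  simp only [mv_act, zi_act]
  exact h

/-- the shift -/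
def sh (u : VV) (x : CC) : CC := fun v => x (u + v)

lemma mv_sh (s : Fin 4) (u : VV) (x : CC) (q : VV) : u + mv s (sh u x) q = mv s x (u + q) := by
  unfold mv sh; rw [add_assoc]

lemma act_sh (t : Fin 4) (u : VV) (x : CC) : act t (sh u x) = sh u (act t x) := by
  funext q
  show mk (bg (x (u + q))) (bt (x (u + mv t (sh u x) q))) =
    mk (bg (x (u + q))) (bt (x (mv t x (u + q))))
  rw [mv_sh]

lemma zi_sh (u : VV) (x : CC) (q : VV) : u + zi (sh u x) q = zi x (u + q) := by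
  unfold zi; simp only [mv_sh]

lemma XX_sh (u : VV) (x : CC) (hx : x ∈ XX) : sh u x ∈ XX := by
  intro q
  obtain ⟨h1, h2, h3, h4, h5, h6⟩ := hx (u + q)
  refine ⟨?_, ?_, ?_, ?_, ?_, ?_⟩
  all_goals apply add_left_cancel (a := u)
  · rw [mv_sh, mv_sh, h1]
  · rw [mv_sh, mv_sh, h2]
  · rw [mv_sh, mv_sh, h3]
  · rw [mv_sh, mv_sh, h4]
  · rw [zi_sh, mv_sh, mv_sh, zi_sh, h5]
  · rw [zi_sh, mv_sh, mv_sh, zi_sh, h6]

lemma cont_at (f : CC → VV) (hf : Continuous f) : Continuous fun x : CC => x (f x) := by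
  rw [continuous_iff_continuousAt]
  intro x
  have h1 : ∀ᶠ y in nhds x, f y = f x :=
    hf.continuousAt.eventually (IsOpen.mem_nhds (isOpen_discrete {f x}) rfl)
  have h2 : ContinuousAt (fun y : CC => y (f x)) x := (continuous_apply (f x)).continuousAt
  exact h2.congr (h1.mono (fun y hy => by simp only [hy]))

lemma cont_mv (s : Fin 4) (f : CC → VV) (hf : Continuous f) :
    Continuous fun x : CC => mv s x (f x) := by
  have h : Continuous fun a : Fin kk => dec (bg a s) := continuous_of_discreteTopology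
  exact hf.add (h.comp (cont_at f hf))

lemma cont_act (t : Fin 4) : Continuous (act t) := by
  apply continuous_pi
  intro q
  have h : Continuous fun p : Fin kk × Fin kk => mk (bg p.1) (bt p.2) :=
    continuous_of_discreteTopology
  have h1 : Continuous fun x : CC => x q := continuous_apply q
  have h2 : Continuous fun x : CC => x (mv t x q) := cont_at _ (cont_mv t _ continuous_const)
  exact h.comp (h1.prodMk h2)

lemma cont_zi (f : CC → VV) (hf : Continuous f) : Continuous fun x : CC => zi x (f x) :=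
  cont_mv 2 _ (cont_mv 0 _ (cont_mv 3 _ (cont_mv 1 _ hf)))

lemma XX_closed : IsClosed XX := by
  have e : XX = ⋂ q : VV, ({x | mv 1 x (mv 0 x q) = q} ∩ ({x | mv 0 x (mv 1 x q) = q} ∩
      ({x | mv 3 x (mv 2 x q) = q} ∩ ({x | mv 2 x (mv 3 x q) = q} ∩
      ({x | zi x (mv 1 x q) = mv 1 x (zi x q)} ∩ {x | zi x (mv 3 x q) = mv 3 x (zi x q)}))))) := by
    ext x
    simp only [XX, Set.mem_ofPred_eq, Set.mem_iInter, Set.mem_inter_iff]
  rw [e]
  apply isClosed_iInter
  intro q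
  have c (s : Fin 4) : Continuous fun x : CC => mv s x q := cont_mv s _ continuous_const
  have z : Continuous fun x : CC => zi x q := cont_zi _ continuous_const
  refine (isClosed_eq (cont_mv 1 _ (c 0)) continuous_const).inter
    ((isClosed_eq (cont_mv 0 _ (c 1)) continuous_const).inter
    ((isClosed_eq (cont_mv 3 _ (c 2)) continuous_const).inter
    ((isClosed_eq (cont_mv 2 _ (c 3)) continuous_const).inter
    ((isClosed_eq (cont_zi _ (c 1)) (cont_mv 1 _ z)).inter
    (isClosed_eq (cont_zi _ (c 3)) (cont_mv 3 _ z))))))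

lemma act_inv (s t : Fin 4) (x : CC) (h : ∀ q, mv s x (mv t x q) = q) :
    act t (act s x) = x := by
  apply cc_ext
  · intro q; rw [bg_act, bg_act]
  · intro q; rw [bt_act, bt_act, mv_act, h]

/-- the automorphism `x` of the subshift -/
noncomputable def HX : XX ≃ₜ XX where
  toFun x := ⟨act 1 x.1, XX_act 1 x.1 x.2⟩
  invFun x := ⟨act 0 x.1, XX_act 0 x.1 x.2⟩
  left_inv x := Subtype.ext (act_inv 1 0 x.1 (fun q => (x.2 q).1))
  right_inv x := Subtype.ext (act_inv 0 1 x.1 (fun q => (x.2 q).2.1))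
  continuous_toFun := Continuous.subtype_mk ((cont_act 1).comp continuous_subtype_val) _
  continuous_invFun := Continuous.subtype_mk ((cont_act 0).comp continuous_subtype_val) _

/-- the automorphism `y` of the subshift -/
noncomputable def HY : XX ≃ₜ XX where
  toFun x := ⟨act 3 x.1, XX_act 3 x.1 x.2⟩
  invFun x := ⟨act 2 x.1, XX_act 2 x.1 x.2⟩
  left_inv x := Subtype.ext (act_inv 3 2 x.1 (fun q => (x.2 q).2.2.1))
  right_inv x := Subtype.ext (act_inv 2 3 x.1 (fun q => (x.2 q).2.2.2.1))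
  continuous_toFun := Continuous.subtype_mk ((cont_act 3).comp continuous_subtype_val) _
  continuous_invFun := Continuous.subtype_mk ((cont_act 2).comp continuous_subtype_val) _

noncomputable def HZ : XX ≃ₜ XX := HX * HY * HX⁻¹ * HY⁻¹

lemma HX_val (x : XX) : (HX x).1 = act 1 x.1 := rfl
lemma HY_val (x : XX) : (HY x).1 = act 3 x.1 := rfl
lemma HZ_val (x : XX) : (HZ x).1 = act 1 (act 3 (act 0 (act 2 x.1))) := rfl

lemma HZ_bg (x : XX) (q : VV) : bg ((HZ x).1 q) = bg (x.1 q) := by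
  rw [HZ_val]; simp only [bg_act]

lemma HZ_bt (x : XX) (q : VV) : bt ((HZ x).1 q) = bt (x.1 (zi x.1 q)) := by
  rw [HZ_val]
  simp only [bt_act, mv_act]
  rfl

lemma rel_xy : HX * HY = HZ * (HY * HX) := by
  unfold HZ; group

lemma rel_zx : HZ * HX = HX * HZ := by
  ext1 x
  apply Subtype.ext
  show (HZ (HX x)).1 = (HX (HZ x)).1
  apply cc_ext
  · intro q
    rw [HZ_bg, HX_val, HX_val, bg_act, bg_act, HZ_bg]
  · intro q
    rw [HZ_bt, HX_val, HX_val, bt_act, bt_act, HZ_bt, zi_act]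
    have h : mv 1 (HZ x).1 q = mv 1 x.1 q := by unfold mv; rw [HZ_bg]
    rw [h, (x.2 q).2.2.2.2.1]

lemma rel_zy : HZ * HY = HY * HZ := by
  ext1 x
  apply Subtype.ext
  show (HZ (HY x)).1 = (HY (HZ x)).1
  apply cc_ext
  · intro q
    rw [HZ_bg, HY_val, HY_val, bg_act, bg_act, HZ_bg]
  · intro q
    rw [HZ_bt, HY_val, HY_val, bt_act, bt_act, HZ_bt, zi_act]
    have h : mv 3 (HZ x).1 q = mv 3 x.1 q := by unfold mv; rw [HZ_bg]
    rw [h, (x.2 q).2.2.2.2.2]

/-- the configurations coming from the orbits -/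
noncomputable def prm (K : ℕ) : Fin 4 → Equiv.Perm (Om K)
  | 0 => gx K
  | 1 => (gx K)⁻¹
  | 2 => gy K
  | 3 => (gy K)⁻¹

lemma prm_bound (K : ℕ) (s : Fin 4) : ∀ w q, |ph K (prm K s w) q - ph K w q| ≤ 130 := by
  match s with
  | 0 => exact ph_x K
  | 1 => exact inv_bound K _ (ph_x K)
  | 2 => exact ph_y K
  | 3 => exact inv_bound K _ (ph_y K)

noncomputable def pt (K : ℕ) (e : VV → Bool) : CC :=
  fun q => mk (fun s => enc (pv K (prm K s) q - q)) (e q)

lemma mv_pt (K : ℕ) (e : VV → Bool) (s : Fin 4) (q : VV) :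
    mv s (pt K e) q = pv K (prm K s) q := by
  unfold mv pt
  rw [bg_mk, dec_enc]
  · abel
  · intro m
    exact pv_bound K _ (prm_bound K s) q m

lemma gz_inv (K : ℕ) : gy K * (gx K * ((gy K)⁻¹ * (gx K)⁻¹)) = (gz K)⁻¹ := by
  have h := gxy K
  have h2 : gz K = gx K * gy K * (gy K * gx K)⁻¹ := by rw [h]; group
  rw [h2]; group

lemma zi_pt (K : ℕ) (e : VV → Bool) (q : VV) : zi (pt K e) q = pv K ((gz K)⁻¹) q := by
  unfold zi
  simp only [mv_pt]
  rw [← gz_inv, map_mul, map_mul, map_mul]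
  rfl

lemma pt_mem (K : ℕ) (e : VV → Bool) : pt K e ∈ XX := by
  have hmul : ∀ (g h : Equiv.Perm (Om K)) (q : VV), pv K g (pv K h q) = pv K (g * h) q := by
    intro g h q; rw [map_mul]; rfl
  intro q
  simp only [mv_pt, zi_pt, hmul]
  refine ⟨?_, ?_, ?_, ?_, ?_, ?_⟩
  · show pv K ((gx K)⁻¹ * gx K) q = q
    rw [inv_mul_cancel, map_one]; rfl
  · show pv K (gx K * (gx K)⁻¹) q = q
    rw [mul_inv_cancel, map_one]; rfl
  · show pv K ((gy K)⁻¹ * gy K) q = q
    rw [inv_mul_cancel, map_one]; rfl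
  · show pv K (gy K * (gy K)⁻¹) q = q
    rw [mul_inv_cancel, map_one]; rfl
  · show pv K ((gz K)⁻¹ * (gx K)⁻¹) q = pv K ((gx K)⁻¹ * (gz K)⁻¹) q
    rw [← mul_inv_rev, ← mul_inv_rev, gzx]
  · show pv K ((gz K)⁻¹ * (gy K)⁻¹) q = pv K ((gy K)⁻¹ * (gz K)⁻¹) q
    rw [← mul_inv_rev, ← mul_inv_rev, gzy]

noncomputable def ptX (K : ℕ) (e : VV → Bool) : XX := ⟨pt K e, pt_mem K e⟩

lemma bg_pt (K : ℕ) (e : VV → Bool) (q : VV) :
    bg (pt K e q) = fun s => enc (pv K (prm K s) q - q) := bg_mk _ _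

lemma bt_pt (K : ℕ) (e : VV → Bool) (q : VV) : bt (pt K e q) = e q := bt_mk _ _

lemma ptX_val (K : ℕ) (e : VV → Bool) : (ptX K e).1 = pt K e := rfl

lemma HZ_pt (K : ℕ) (e : VV → Bool) : HZ (ptX K e) = ptX K (fun q => e (pv K ((gz K)⁻¹) q)) := by
  apply Subtype.ext
  apply cc_ext
  · intro q
    rw [HZ_bg, ptX_val, ptX_val, bg_pt, bg_pt]
  · intro q
    rw [HZ_bt, ptX_val, ptX_val, bt_pt, bt_pt, zi_pt]

lemma HZ_pow_pt (K n : ℕ) (e : VV → Bool) :
    (HZ ^ n) (ptX K e) = ptX K (fun q => e (pv K ((gz K ^ n)⁻¹) q)) := by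
  induction n with
  | zero =>
    apply Subtype.ext
    apply cc_ext
    · intro q
      rw [pow_zero, ptX_val, bg_pt]
      exact bg_pt K e q
    · intro q
      rw [pow_zero, ptX_val, bt_pt, pow_zero, inv_one, map_one]
      exact bt_pt K e q
  | succ n ih =>
    rw [pow_succ']
    show HZ ((HZ ^ n) (ptX K e)) = _
    rw [ih, HZ_pt]
    have hf : (fun q => e (pv K ((gz K ^ n)⁻¹) (pv K ((gz K)⁻¹) q))) =
        (fun q => e (pv K ((gz K ^ (n + 1))⁻¹) q)) := by
      funext q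
      have : pv K ((gz K ^ n)⁻¹) (pv K ((gz K)⁻¹) q) = pv K ((gz K ^ n)⁻¹ * (gz K)⁻¹) q := by
        rw [map_mul]; rfl
      rw [this, ← mul_inv_rev, ← pow_succ']
    exact congrArg (ptX K) hf

lemma zm (P n : ℕ) (c : ZMod P) (h : c + (n : ZMod P) = c) : P ∣ n := by
  rw [← ZMod.natCast_eq_zero_iff]
  linear_combination h

lemma fixed_dvd (K n : ℕ) (w : Om K) (h : pv K (gz K ^ n) (emb K w) = emb K w) : Per K ∣ n := by
  rw [pv_emb] at h
  have h7 := (emb K).injective h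
  rw [gz_pow] at h7
  have h8 : w.2.2 + (n : ZMod (Per K)) = w.2.2 := congrArg (fun w : Om K => w.2.2) h7
  exact zm _ _ _ h8

lemma lt_Per (n : ℕ) : n < Per n := by
  unfold Per
  have a1 : n < 4 ^ n := Nat.lt_pow_self (by norm_num)
  have a2 : 4 ^ n ≤ 4 ^ (12 * n + 11) := Nat.pow_le_pow_right (by norm_num) (by omega)
  omega

lemma fixed_of (K n : ℕ) (p0 : VV) (h : ∀ e : VV → Bool, (HZ ^ n) (ptX K e) = ptX K e) :
    pv K (gz K ^ n) p0 = p0 := by
  classical
  have h1 := h (fun q => decide (q = p0))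
  rw [HZ_pow_pt] at h1
  have h2 : ∀ q, (decide (pv K ((gz K ^ n)⁻¹) q = p0)) = decide (q = p0) := by
    intro q
    have h3 := congrArg (fun x : XX => bt (x.1 q)) h1
    simp only [ptX_val, bt_pt] at h3
    exact h3
  have h4 : pv K ((gz K ^ n)⁻¹) (pv K (gz K ^ n) p0) = p0 := by
    rw [map_inv]; exact Equiv.symm_apply_apply _ _
  have h5 := h2 (pv K (gz K ^ n) p0)
  rw [h4] at h5
  simpa using h5

lemma HZ_pow_ne (n : ℕ) (hn : 0 < n) : HZ ^ n ≠ 1 := by
  intro h
  have h1 := fixed_of n n (emb n (0, 0, 0)) (fun e => by rw [h]; rfl)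
  have h2 := Nat.le_of_dvd hn (fixed_dvd n n _ h1)
  have h3 := lt_Per n
  omega

lemma HX_sh (u : VV) (x y : XX) : y.1 = sh u x.1 ↔ (HX y).1 = sh u (HX x).1 := by
  rw [HX_val, HX_val]
  constructor
  · intro h
    rw [h, act_sh]
  · intro h
    have h1 := congrArg (act 0) h
    rw [act_sh, act_inv 1 0 y.1 (fun q => (y.2 q).1), act_inv 1 0 x.1 (fun q => (x.2 q).1)] at h1
    exact h1

lemma HY_sh (u : VV) (x y : XX) : y.1 = sh u x.1 ↔ (HY y).1 = sh u (HY x).1 := by
  rw [HY_val, HY_val]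
  constructor
  · intro h
    rw [h, act_sh]
  · intro h
    have h1 := congrArg (act 2) h
    rw [act_sh, act_inv 3 2 y.1 (fun q => (y.2 q).2.2.1),
      act_inv 3 2 x.1 (fun q => (x.2 q).2.2.1)] at h1
    exact h1

lemma dd_ge : 2 ≤ dd := by
  have : dd = 386 := by simp [dd, Idx]
  omega

end Pool.Agent.H258R3.Hei
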