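import Mathlib

/-!
Homomorphisms from the Heisenberg group.
-/

set_option autoImplicit false

namespace Pool.Agent.H258R3.Hei

lemma heis_key {Γ : Type*} [Group Γ] (x y z : Γ) (hxy : x * y = z * (y * x))
    (hzx : z * x = x * z) (hzy : z * y = y * z) (a b : ℤ) :
    x ^ a * y ^ b = z ^ (a * b) * (y ^ b * x ^ a) := by
  have czx : Commute z x := hzx
  have czy : Commute z y := hzy
  have h1 : x * y * x⁻¹ = z * y := by rw [hxy]; group
  have h2 : x * y ^ b * x⁻¹ = z ^ b * y ^ b := by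
    rw [← conj_zpow, h1, czy.mul_zpow]
  have h3 : (y ^ b)⁻¹ * x * y ^ b = z ^ b * x := by
    have h4 : x * y ^ b = z ^ b * y ^ b * x := by rw [← h2]; group
    have h5 : z ^ b * y ^ b = y ^ b * z ^ b := (czy.zpow_zpow b b).eq
    rw [mul_assoc, h4, h5]; group
  have h6 : (y ^ b)⁻¹ * x ^ a * y ^ b = z ^ (a * b) * x ^ a := by
    have h7 := conj_zpow (a := (y ^ b)⁻¹) (b := x) (i := a)
    rw [inv_inv] at h7
    rw [← h7, h3, (czx.zpow_left b).mul_zpow, ← zpow_mul, mul_comm b a]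
  have h8 : z ^ (a * b) * y ^ b = y ^ b * z ^ (a * b) := (czy.zpow_zpow _ _).eq
  have h9 : x ^ a * y ^ b = y ^ b * ((y ^ b)⁻¹ * x ^ a * y ^ b) := by group
  rw [h9, h6, ← mul_assoc, ← h8, mul_assoc]

lemma heis_mul {Γ : Type*} [Group Γ] (x y z : Γ) (hxy : x * y = z * (y * x))
    (hzx : z * x = x * z) (hzy : z * y = y * z) (a b c a' b' c' : ℤ) :
    z ^ (c + c' + a * b') * (y ^ (b + b') * x ^ (a + a')) =
      z ^ c * (y ^ b * x ^ a) * (z ^ c' * (y ^ b' * x ^ a')) := by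
  have czx : Commute z x := hzx
  have czy : Commute z y := hzy
  have hk := heis_key x y z hxy hzx hzy a b'
  have e1 : y ^ b * x ^ a * z ^ c' = z ^ c' * (y ^ b * x ^ a) := by
    have e2 : Commute (z ^ c') (y ^ b * x ^ a) :=
      (czy.zpow_zpow c' b).mul_right (czx.zpow_zpow c' a)
    exact e2.eq.symm
  have e3 : y ^ b * z ^ (a * b') = z ^ (a * b') * y ^ b := (czy.zpow_zpow _ _).eq.symm
  calc z ^ (c + c' + a * b') * (y ^ (b + b') * x ^ (a + a'))
      = z ^ c * (z ^ c' * (z ^ (a * b') * y ^ b * (y ^ b' * x ^ a) * x ^ a')) := by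
        rw [zpow_add, zpow_add, zpow_add, zpow_add]; simp only [mul_assoc]
    _ = z ^ c * (z ^ c' * (y ^ b * (z ^ (a * b') * (y ^ b' * x ^ a)) * x ^ a')) := by
        rw [← e3]; simp only [mul_assoc]
    _ = z ^ c * (z ^ c' * (y ^ b * (x ^ a * y ^ b') * x ^ a')) := by rw [← hk]
    _ = z ^ c * ((z ^ c' * (y ^ b * x ^ a)) * (y ^ b' * x ^ a')) := by simp only [mul_assoc]
    _ = z ^ c * ((y ^ b * x ^ a * z ^ c') * (y ^ b' * x ^ a')) := by rw [e1]
    _ = _ := by simp only [mul_assoc]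

lemma heis_ker {Γ : Type*} [Group Γ] (x y z : Γ) (hxy : x * y = z * (y * x))
    (hzx : z * x = x * z) (hzy : z * y = y * z) (hz : ∀ n : ℕ, 0 < n → z ^ n ≠ 1) (a b c : ℤ)
    (h : z ^ c * (y ^ b * x ^ a) = 1) : a = 0 ∧ b = 0 ∧ c = 0 := by
  have czx : Commute z x := hzx
  have czy : Commute z y := hzy
  have hz' : ∀ m : ℤ, z ^ m = 1 → m = 0 := by
    intro m hm
    by_contra hne
    have h1 : z ^ m.natAbs = 1 := by
      rcases Int.natAbs_eq m with h2 | h2
      · rw [h2, zpow_natCast] at hm; exact hm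
      · rw [h2, zpow_neg, zpow_natCast, inv_eq_one] at hm; exact hm
    exact hz _ (by omega) h1
  have hxa : x ^ a = (z ^ c * y ^ b)⁻¹ := by
    rw [eq_inv_iff_mul_eq_one]
    have h1 : z ^ c * y ^ b * x ^ a = 1 := by rw [mul_assoc]; exact h
    have h2 := mul_eq_one_iff_eq_inv.1 h1
    rw [h2]; group
  have ha : a = 0 := by
    apply hz'
    have k := heis_key x y z hxy hzx hzy a 1
    have hc : x ^ a * y ^ (1 : ℤ) = y ^ (1 : ℤ) * x ^ a := by
      rw [hxa]
      have c1 : Commute (z ^ c * y ^ b) (y ^ (1 : ℤ)) :=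
        (czy.zpow_zpow c 1).mul_left ((Commute.refl y).zpow_zpow b 1)
      exact c1.inv_left.eq
    rw [hc, mul_one] at k
    exact (mul_eq_right.1 k.symm)
  subst ha
  rw [zpow_zero, mul_one] at h
  have hb : b = 0 := by
    apply hz'
    have k := heis_key x y z hxy hzx hzy 1 b
    have hyb : y ^ b = (z ^ c)⁻¹ := (inv_eq_of_mul_eq_one_right h).symm
    have hc : x ^ (1 : ℤ) * y ^ b = y ^ b * x ^ (1 : ℤ) := by
      rw [hyb]
      exact ((czx.zpow_zpow c 1).inv_left.eq).symm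
    rw [hc, one_mul] at k
    exact (mul_eq_right.1 k.symm)
  subst hb
  rw [zpow_zero, mul_one] at h
  exact ⟨rfl, rfl, hz' c h⟩

end Pool.Agent.H258R3.Hei
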