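import Mathlib

/-!
A subshift over the integers with alphabet `{0,1,2,3}`: the orbits of the sequences with at most one
nonzero letter together with all sequences having exactly one `1`, one `2`, one `3` (in this order)
whose two gaps `i`, `j` satisfy `j ≤ i ≤ 2 j`.  It is injunctive but not surjunctive.
-/

set_option autoImplicit false

namespace Pool.Agent.H258R3.Inj

open Set

def e (v : Fin 4) (p : ℤ) : ℤ → Fin 4 := fun k => if k = p then v else 0

def w (p q s : ℤ) : ℤ → Fin 4 := fun k =>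
  if k = p then 1 else if k = q then 2 else if k = s then 3 else 0

def Cone (p q s : ℤ) : Prop := q < s ∧ s - q ≤ q - p ∧ q - p ≤ 2 * (s - q)

def X : Set (ℤ → Fin 4) :=
  {x | x = 0 ∨ (∃ v p, v ≠ 0 ∧ x = e v p) ∨ ∃ p q s, Cone p q s ∧ x = w p q s}

lemma fin4 : ∀ v : Fin 4, v ≠ 0 → v = 1 ∨ v = 2 ∨ v = 3 := by decide

/-- translation -/
def tr (a : ℤ) (x : ℤ → Fin 4) : ℤ → Fin 4 := fun k => x (k + a)

lemma tr_e (a : ℤ) (v : Fin 4) (p : ℤ) : tr a (e v p) = e v (p - a) := by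
  funext k
  simp only [tr, e]
  have : k + a = p ↔ k = p - a := by omega
  simp only [this]

lemma tr_w (a p q s : ℤ) : tr a (w p q s) = w (p - a) (q - a) (s - a) := by
  funext k
  simp only [tr, w]
  have h1 : k + a = p ↔ k = p - a := by omega
  have h2 : k + a = q ↔ k = q - a := by omega
  have h3 : k + a = s ↔ k = s - a := by omega
  simp only [h1, h2, h3]

lemma tr_zero (a : ℤ) : tr a 0 = 0 := rfl

lemma tr_tr (a b : ℤ) (x : ℤ → Fin 4) : tr a (tr b x) = tr (a + b) x := by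
  funext k
  simp only [tr, add_assoc]

lemma tr_z (x : ℤ → Fin 4) : tr 0 x = x := by
  funext k
  simp [tr]

lemma tr_mem {x : ℤ → Fin 4} (hx : x ∈ X) (a : ℤ) : tr a x ∈ X := by
  rcases hx with rfl | ⟨v, p, hv, rfl⟩ | ⟨p, q, s, h, rfl⟩
  · left; rfl
  · right; left
    exact ⟨v, p - a, hv, tr_e a v p⟩
  · right; right
    refine ⟨p - a, q - a, s - a, ?_, tr_w a p q s⟩
    obtain ⟨h1, h2, h3⟩ := h
    refine ⟨by omega, by omega, by omega⟩

lemma w1 {p q s k : ℤ} : w p q s k = 1 ↔ k = p := by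
  simp only [w]
  split_ifs with h1 h2 h3 <;> simp_all

lemma w2 {p q s : ℤ} (h : Cone p q s) {k : ℤ} : w p q s k = 2 ↔ k = q := by
  obtain ⟨a, b, c⟩ := h
  simp only [w]
  split_ifs with h1 h2 h3
  · simp only [show ((1 : Fin 4) = 2) = False by decide, false_iff]; omega
  · simp [h2]
  · simp only [show ((3 : Fin 4) = 2) = False by decide, false_iff]; omega
  · simp only [show ((0 : Fin 4) = 2) = False by decide, false_iff]; omega

lemma w3 {p q s : ℤ} (h : Cone p q s) {k : ℤ} : w p q s k = 3 ↔ k = s := by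
  obtain ⟨a, b, c⟩ := h
  simp only [w]
  split_ifs with h1 h2 h3
  · simp only [show ((1 : Fin 4) = 3) = False by decide, false_iff]; omega
  · simp only [show ((2 : Fin 4) = 3) = False by decide, false_iff]; omega
  · simp [h3]
  · simp only [show ((0 : Fin 4) = 3) = False by decide, false_iff]; omega

lemma w0 {p q s k : ℤ} (h1 : k ≠ p) (h2 : k ≠ q) (h3 : k ≠ s) : w p q s k = 0 := by
  simp [w, h1, h2, h3]

lemma wne {p q s k : ℤ} (h : w p q s k ≠ 0) : k = p ∨ k = q ∨ k = s := by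
  by_contra hc
  push Not at hc
  exact h (w0 hc.1 hc.2.1 hc.2.2)

lemma ene {v : Fin 4} {p k : ℤ} (h : e v p k ≠ 0) : k = p := by
  by_contra hc
  exact h (by simp [e, hc])

lemma w_inj {p q s p' q' s' : ℤ} (h : Cone p q s) (h' : Cone p' q' s')
    (he : w p q s = w p' q' s') : p = p' ∧ q = q' ∧ s = s' := by
  refine ⟨?_, ?_, ?_⟩
  · have := (w1 (p := p) (q := q) (s := s) (k := p)).2 rfl
    rw [he] at this
    exact w1.1 this
  · have := (w2 h (k := q)).2 rfl
    rw [he] at this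
    exact (w2 h').1 this
  · have := (w3 h (k := s)).2 rfl
    rw [he] at this
    exact (w3 h').1 this

lemma w_ne_zero {p q s : ℤ} : w p q s ≠ 0 := by
  intro h
  have := congrFun h p
  simp [w] at this

/-- a point of X with three different nonzero places, or two, is a `w`. -/
lemma two_pts {x : ℤ → Fin 4} (hx : x ∈ X) {i j : ℤ} (hij : i ≠ j) (hi : x i ≠ 0) (hj : x j ≠ 0) :
    ∃ p q s, Cone p q s ∧ x = w p q s := by
  rcases hx with rfl | ⟨v, p, hv, rfl⟩ | h
  · exact absurd rfl hi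
  · exact absurd ((ene hi).trans (ene hj).symm) hij
  · exact h

lemma closed_of (Y : Set (ℤ → Fin 4))
    (h : ∀ x, (∀ N : ℕ, ∃ y ∈ Y, ∀ i : ℤ, -(N : ℤ) ≤ i → i ≤ N → y i = x i) → x ∈ Y) : IsClosed Y := by
  rw [← closure_subset_iff_isClosed]
  intro x hx
  apply h
  intro N
  have hopen : IsOpen {y : ℤ → Fin 4 | ∀ i ∈ Finset.Icc (-(N : ℤ)) N, y i = x i} := by
    have : {y : ℤ → Fin 4 | ∀ i ∈ Finset.Icc (-(N : ℤ)) N, y i = x i} =
        ⋂ i ∈ Finset.Icc (-(N : ℤ)) N, (fun y : ℤ → Fin 4 => y i) ⁻¹' {x i} := by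
      ext y; simp
    rw [this]
    apply isOpen_biInter_finset
    intro i _
    exact (isOpen_discrete {x i}).preimage (continuous_apply i)
  obtain ⟨y, hy, hyY⟩ := mem_closure_iff.1 hx _ hopen (fun i _ => rfl)
  refine ⟨y, hyY, fun i hi hi' => hy i ?_⟩
  rw [Finset.mem_Icc]
  exact ⟨hi, hi'⟩

lemma closed_X : IsClosed X := by
  apply closed_of
  intro x hx
  by_cases h0 : x = 0
  · left; exact h0
  obtain ⟨p, hp⟩ : ∃ p, x p ≠ 0 := by
    by_contra hc
    push Not at hc
    exact h0 (funext hc)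
  by_cases h1 : ∃ q, q ≠ p ∧ x q ≠ 0
  · obtain ⟨q, hqp, hq⟩ := h1
    -- window
    obtain ⟨y, hy, hyx⟩ := hx (3 * (p.natAbs + q.natAbs) + p.natAbs + 1)
    have hyp : y p ≠ 0 := by
      rw [hyx p (by omega) (by omega)]; exact hp
    have hyq : y q ≠ 0 := by
      rw [hyx q (by omega) (by omega)]; exact hq
    obtain ⟨P, Q, S, hc, rfl⟩ := two_pts hy hqp hyq hyp
    have hP : (-((3 * (p.natAbs + q.natAbs) + p.natAbs + 1 : ℕ) : ℤ) ≤ P ∧
        P ≤ ((3 * (p.natAbs + q.natAbs) + p.natAbs + 1 : ℕ) : ℤ)) ∧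
        (-((3 * (p.natAbs + q.natAbs) + p.natAbs + 1 : ℕ) : ℤ) ≤ Q ∧
        Q ≤ ((3 * (p.natAbs + q.natAbs) + p.natAbs + 1 : ℕ) : ℤ)) ∧
        (-((3 * (p.natAbs + q.natAbs) + p.natAbs + 1 : ℕ) : ℤ) ≤ S ∧
        S ≤ ((3 * (p.natAbs + q.natAbs) + p.natAbs + 1 : ℕ) : ℤ)) := by
      obtain ⟨c1, c2, c3⟩ := hc
      rcases wne hyp with h | h | h <;> rcases wne hyq with h' | h' | h' <;> omega
    right; right
    refine ⟨P, Q, S, hc, ?_⟩
    funext k
    obtain ⟨z, hz, hzx⟩ := hx (3 * (p.natAbs + q.natAbs) + p.natAbs + 1 + k.natAbs)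
    have e1 : z P = 1 := by
      rw [hzx P (by omega) (by omega), ← hyx P hP.1.1 hP.1.2]
      exact w1.2 rfl
    have e2 : z Q = 2 := by
      rw [hzx Q (by omega) (by omega), ← hyx Q hP.2.1.1 hP.2.1.2]
      exact (w2 hc).2 rfl
    have e3 : z S = 3 := by
      rw [hzx S (by omega) (by omega), ← hyx S hP.2.2.1 hP.2.2.2]
      exact (w3 hc).2 rfl
    obtain ⟨P', Q', S', hc', rfl⟩ := two_pts hz (i := P) (j := Q)
      (by obtain ⟨c1, c2, c3⟩ := hc; omega) (by rw [e1]; decide) (by rw [e2]; decide)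
    rw [← hzx k (by omega) (by omega), w1.1 e1, (w2 hc').1 e2, (w3 hc').1 e3]
  · push Not at h1
    right; left
    refine ⟨x p, p, hp, ?_⟩
    funext k
    by_cases hk : k = p
    · rw [hk]; simp [e]
    · rw [h1 k hk]; simp [e, hk]

/-- the radius of a continuous map on X -/
lemma radius (f : (ℤ → Fin 4) → (ℤ → Fin 4)) (hf : ContinuousOn f X) :
    ∃ r : ℕ, ∀ x ∈ X, ∀ y ∈ X, (∀ k : ℤ, -(r : ℤ) ≤ k → k ≤ r → x k = y k) → f x 0 = f y 0 := by
  let K : Set ((ℤ → Fin 4) × (ℤ → Fin 4)) :=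
    (X ×ˢ X) ∩ (fun p => (f p.1 0, f p.2 0)) ⁻¹' {q : Fin 4 × Fin 4 | q.1 ≠ q.2}
  have hKc : IsClosed K := by
    apply ContinuousOn.preimage_isClosed_of_isClosed _ (closed_X.prod closed_X)
      (isClosed_discrete _)
    apply ContinuousOn.prodMk
    · exact (continuous_apply 0).comp_continuousOn
        (hf.comp continuousOn_fst (fun p hp => hp.1))
    · exact (continuous_apply 0).comp_continuousOn
        (hf.comp continuousOn_snd (fun p hp => hp.2))
  have hK : IsCompact K := hKc.isCompact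
  have hC : ∀ b : ℤ, IsClosed {p : (ℤ → Fin 4) × (ℤ → Fin 4) | p.1 b = p.2 b} := fun b =>
    isClosed_eq ((continuous_apply b).comp continuous_fst) ((continuous_apply b).comp continuous_snd)
  have hemp : K ∩ ⋂ b : ℤ, {p : (ℤ → Fin 4) × (ℤ → Fin 4) | p.1 b = p.2 b} = ∅ := by
    rw [eq_empty_iff_forall_notMem]
    rintro ⟨x, y⟩ ⟨hx, hy⟩
    apply hx.2
    have : x = y := by
      funext b
      exact mem_iInter.mp hy b
    simp only [this]
  obtain ⟨T, hT⟩ := hK.elim_finite_subfamily_closed _ hC hemp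
  refine ⟨T.sup Int.natAbs, fun x hx y hy h => ?_⟩
  by_contra hne
  have : (x, y) ∈ K ∩ ⋂ b ∈ T, {p : (ℤ → Fin 4) × (ℤ → Fin 4) | p.1 b = p.2 b} := by
    refine ⟨⟨⟨hx, hy⟩, hne⟩, ?_⟩
    simp only [mem_iInter, mem_ofPred_eq]
    intro b hb
    have : b.natAbs ≤ T.sup Int.natAbs := Finset.le_sup hb
    exact h b (by omega) (by omega)
  rw [hT] at this
  exact this

lemma w_e1 {p q s k : ℤ} (h1 : k ≠ q) (h2 : k ≠ s) : w p q s k = e 1 p k := by
  simp [w, e, h1, h2]

lemma w_e2 {p q s k : ℤ} (h1 : k ≠ p) (h2 : k ≠ s) : w p q s k = e 2 q k := by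
  simp [w, e, h1, h2]

lemma w_e3 {p q s k : ℤ} (h1 : k ≠ p) (h2 : k ≠ q) : w p q s k = e 3 s k := by
  simp [w, e, h1, h2]

lemma zero_mem : (0 : ℤ → Fin 4) ∈ X := Or.inl rfl

lemma e_mem {v : Fin 4} (hv : v ≠ 0) (p : ℤ) : e v p ∈ X := Or.inr (Or.inl ⟨v, p, hv, rfl⟩)

lemma w_mem {p q s : ℤ} (h : Cone p q s) : w p q s ∈ X := Or.inr (Or.inr ⟨p, q, s, h, rfl⟩)

lemma e_inj {v : Fin 4} (hv : v ≠ 0) {p q : ℤ} (h : e v p = e v q) : p = q := by
  have h1 := congrFun h p
  by_contra hc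
  simp [e, hc, hv] at h1

/-- positions in a `w` lying in X -/
lemma cone_of_mem {p q s : ℤ} (h1 : p < q) (h2 : q < s) (h : w p q s ∈ X) : Cone p q s := by
  have e1 : w p q s p = 1 := by simp [w]
  have e2 : w p q s q = 2 := by
    have : q ≠ p := by omega
    simp [w, this]
  have e3 : w p q s s = 3 := by
    have : s ≠ p := by omega
    have h' : s ≠ q := by omega
    simp [w, this, h']
  obtain ⟨P, Q, S, hc, hw⟩ := two_pts h (i := p) (j := q) (by omega) (by rw [e1]; decide)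
    (by rw [e2]; decide)
  rw [hw] at e1 e2 e3
  rw [w1.1 e1, (w2 hc).1 e2, (w3 hc).1 e3]
  exact hc

structure Good (f : (ℤ → Fin 4) → (ℤ → Fin 4)) (r : ℕ) : Prop where
  maps : MapsTo f X X
  comm : ∀ x ∈ X, f (fun i => x (i + 1)) = fun i => f x (i + 1)
  surj : SurjOn f X X
  rad : ∀ x ∈ X, ∀ y ∈ X, (∀ k : ℤ, -(r : ℤ) ≤ k → k ≤ r → x k = y k) → f x 0 = f y 0

variable {f : (ℤ → Fin 4) → (ℤ → Fin 4)} {r : ℕ}

lemma Good.comm_nat (g : Good f r) (n : ℕ) : ∀ x ∈ X, f (tr n x) = tr n (f x) := by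
  induction n with
  | zero => intro x _; simp [tr_z]
  | succ n ih =>
    intro x hx
    have h1 : tr ((n + 1 : ℕ) : ℤ) x = fun i => (tr n x) (i + 1) := by
      funext i
      simp only [tr]
      congr 1
      push_cast
      ring
    rw [h1, g.comm _ (tr_mem hx n), ih x hx]
    funext i
    simp only [tr]
    congr 1
    push_cast
    ring

lemma Good.comm_tr (g : Good f r) (a : ℤ) {x : ℤ → Fin 4} (hx : x ∈ X) :
    f (tr a x) = tr a (f x) := by
  rcases Int.eq_nat_or_neg a with ⟨n, rfl | rfl⟩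
  · exact g.comm_nat n x hx
  · have h1 := g.comm_nat n _ (tr_mem hx (-(n : ℤ)))
    rw [tr_tr, show (n : ℤ) + -(n : ℤ) = 0 by ring, tr_z] at h1
    rw [h1, tr_tr, show -(n : ℤ) + (n : ℤ) = 0 by ring, tr_z]

lemma Good.loc (g : Good f r) {x y : ℤ → Fin 4} (hx : x ∈ X) (hy : y ∈ X) (m : ℤ)
    (h : ∀ k : ℤ, m - r ≤ k → k ≤ m + r → x k = y k) : f x m = f y m := by
  have h1 := g.rad (tr m x) (tr_mem hx m) (tr m y) (tr_mem hy m) (by
    intro k h1 h2
    exact h (k + m) (by omega) (by omega))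
  rw [g.comm_tr m hx, g.comm_tr m hy] at h1
  simpa [tr] using h1

lemma Good.f0 (g : Good f r) : f 0 = 0 := by
  have h1 : ∀ k : ℤ, f 0 k = f 0 0 := by
    intro k
    have := g.comm_tr k zero_mem
    rw [tr_zero] at this
    have h2 := congrFun this 0
    simp only [tr, zero_add] at h2
    exact h2.symm
  have h2 : f 0 ∈ X := g.maps zero_mem
  rcases h2 with h2 | ⟨v, p, hv, h2⟩ | ⟨p, q, s, hc, h2⟩
  · exact h2
  · exfalso
    have a1 := h1 p
    have a2 := h1 (p + 1)
    rw [h2] at a1 a2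
    rw [← a1] at a2
    simp [e] at a2
    exact hv a2.symm
  · exfalso
    have a1 := h1 p
    have a2 := h1 q
    rw [h2] at a1 a2
    rw [← a1, (w2 hc).2 rfl, w1.2 rfl] at a2
    exact absurd a2 (by decide)

lemma Good.far (g : Good f r) {x : ℤ → Fin 4} (hx : x ∈ X) (m : ℤ)
    (h : ∀ k : ℤ, m - r ≤ k → k ≤ m + r → x k = 0) : f x m = 0 := by
  rw [g.loc hx zero_mem m h, g.f0]
  rfl

lemma Good.near (g : Good f r) {x : ℤ → Fin 4} (hx : x ∈ X) (m : ℤ) (h : f x m ≠ 0) :
    ∃ k : ℤ, m - r ≤ k ∧ k ≤ m + r ∧ x k ≠ 0 := by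
  by_contra hc
  push Not at hc
  exact h (g.far hx m hc)

/-- large points are hit by large points, and this determines the images of the single letters. -/
lemma Good.pull (g : Good f r) {P Q S : ℤ} (hc : Cone P Q S) (h1 : 4 * (r : ℤ) + 1 < S - Q) :
    ∃ p q s, Cone p q s ∧ f (w p q s) = w P Q S ∧ f (e 1 p) = e 1 P ∧ f (e 2 q) = e 2 Q ∧
      f (e 3 s) = e 3 S := by
  obtain ⟨x, hx, hfx⟩ := g.surj (w_mem hc)
  have c := hc
  obtain ⟨c1, c2, c3⟩ := c
  obtain ⟨k1, k1l, k1u, hk1⟩ := g.near hx P (by rw [hfx, w1.2 rfl]; decide)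
  obtain ⟨k2, k2l, k2u, hk2⟩ := g.near hx Q (by rw [hfx, (w2 hc).2 rfl]; decide)
  obtain ⟨k3, k3l, k3u, hk3⟩ := g.near hx S (by rw [hfx, (w3 hc).2 rfl]; decide)
  obtain ⟨p, q, s, hc', rfl⟩ := two_pts hx (i := k1) (j := k2) (by omega) hk1 hk2
  have hpos : k1 = p ∧ k2 = q ∧ k3 = s := by
    obtain ⟨d1, d2, d3⟩ := hc'
    rcases wne hk1 with h | h | h <;> rcases wne hk2 with h' | h' | h' <;>
      rcases wne hk3 with h'' | h'' | h'' <;> omega
  obtain ⟨rfl, rfl, rfl⟩ := hpos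
  refine ⟨k1, k2, k3, hc', hfx, ?_, ?_, ?_⟩
  · funext m
    by_cases hm : k1 - r ≤ m ∧ m ≤ k1 + r
    · rw [← g.loc hx (e_mem (by decide) k1) m
        (fun k _ _ => w_e1 (by omega) (by omega)), hfx]
      exact w_e1 (by omega) (by omega)
    · rw [g.far (e_mem (by decide) k1) m (fun k _ _ => by
        have : k ≠ k1 := by omega
        simp [e, this])]
      have : m ≠ P := by omega
      simp [e, this]
  · funext m
    by_cases hm : k2 - r ≤ m ∧ m ≤ k2 + r
    · rw [← g.loc hx (e_mem (by decide) k2) m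
        (fun k _ _ => w_e2 (by omega) (by omega)), hfx]
      exact w_e2 (by omega) (by omega)
    · rw [g.far (e_mem (by decide) k2) m (fun k _ _ => by
        have : k ≠ k2 := by omega
        simp [e, this])]
      have : m ≠ Q := by omega
      simp [e, this]
  · funext m
    by_cases hm : k3 - r ≤ m ∧ m ≤ k3 + r
    · rw [← g.loc hx (e_mem (by decide) k3) m
        (fun k _ _ => w_e3 (by omega) (by omega)), hfx]
      exact w_e3 (by omega) (by omega)
    · rw [g.far (e_mem (by decide) k3) m (fun k _ _ => by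
        have : k ≠ k3 := by omega
        simp [e, this])]
      have : m ≠ S := by omega
      simp [e, this]

lemma Good.single (g : Good f r) {v : Fin 4} (hv : v ≠ 0) {p P : ℤ} (h : f (e v p) = e v P) (q : ℤ) :
    f (e v q) = e v (q + (P - p)) := by
  have h1 : e v q = tr (p - q) (e v p) := by
    rw [tr_e]
    congr 1
    ring
  rw [h1, g.comm_tr _ (e_mem hv p), h, tr_e]
  congr 1
  ring

lemma Good.bound (g : Good f r) {v : Fin 4} (hv : v ≠ 0) {p P : ℤ} (h : f (e v p) = e v P) :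
    -(r : ℤ) ≤ P - p ∧ P - p ≤ r := by
  obtain ⟨k, h1, h2, h3⟩ := g.near (e_mem hv p) P (by rw [h]; simpa [e] using hv)
  have := ene h3
  omega

lemma Good.push (g : Good f r) {α β γ : ℤ} (h1 : f (e 1 0) = e 1 α) (h2 : f (e 2 0) = e 2 β)
    (h3 : f (e 3 0) = e 3 γ) {p q s : ℤ} (hc : Cone p q s) (hb : 2 * (r : ℤ) < s - q) :
    f (w p q s) = w (p + α) (q + β) (s + γ) := by
  obtain ⟨c1, c2, c3⟩ := hc
  have b1 := g.bound (by decide) h1
  have b2 := g.bound (by decide) h2
  have b3 := g.bound (by decide) h3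
  have e1 := g.single (by decide) h1 p
  have e2 := g.single (by decide) h2 q
  have e3 := g.single (by decide) h3 s
  rw [sub_zero] at e1 e2 e3 b1 b2 b3
  have hx : w p q s ∈ X := w_mem ⟨c1, c2, c3⟩
  funext m
  by_cases m1 : p - r ≤ m ∧ m ≤ p + r
  · rw [g.loc hx (e_mem (by decide) p) m (fun k _ _ => w_e1 (by omega) (by omega)), e1]
    exact (w_e1 (by omega) (by omega)).symm
  by_cases m2 : q - r ≤ m ∧ m ≤ q + r
  · rw [g.loc hx (e_mem (by decide) q) m (fun k _ _ => w_e2 (by omega) (by omega)), e2]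
    exact (w_e2 (by omega) (by omega)).symm
  by_cases m3 : s - r ≤ m ∧ m ≤ s + r
  · rw [g.loc hx (e_mem (by decide) s) m (fun k _ _ => w_e3 (by omega) (by omega)), e3]
    exact (w_e3 (by omega) (by omega)).symm
  rw [g.far hx m (fun k _ _ => w0 (by omega) (by omega) (by omega))]
  exact (w0 (by omega) (by omega) (by omega)).symm

/-- a surjective endomorphism is a power of the shift away from the small orbits. -/
lemma Good.alpha (g : Good f r) : ∃ α : ℤ, f (e 1 0) = e 1 α ∧ f (e 2 0) = e 2 α ∧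
    f (e 3 0) = e 3 α := by
  obtain ⟨p, q, s, hc, hf, a1, a2, a3⟩ := g.pull
    (P := 0) (Q := 4 * (r : ℤ) + 2) (S := 8 * (r : ℤ) + 4)
    ⟨by omega, by omega, by omega⟩ (by omega)
  have e1 := g.single (by decide) a1 0
  have e2 := g.single (by decide) a2 0
  have e3 := g.single (by decide) a3 0
  generalize hα : (0 : ℤ) + (0 - p) = α at e1
  generalize hβ : (0 : ℤ) + (4 * (r : ℤ) + 2 - q) = β at e2
  generalize hγ : (0 : ℤ) + (8 * (r : ℤ) + 4 - s) = γ at e3
  clear hα hβ hγ a1 a2 a3 hf hc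
  have b1 := g.bound (by decide) e1
  have b2 := g.bound (by decide) e2
  have b3 := g.bound (by decide) e3
  rw [sub_zero] at b1 b2 b3
  -- inclusion
  have inc : ∀ i j : ℤ, 2 * (r : ℤ) < j → j ≤ i → i ≤ 2 * j →
      Cone (0 + α) (i + β) (i + j + γ) := by
    intro i j hj hji hij
    have hc : Cone 0 i (i + j) := ⟨by omega, by omega, by omega⟩
    have h := g.push e1 e2 e3 hc (by omega)
    have hm := g.maps (w_mem hc)
    rw [h] at hm
    exact cone_of_mem (by omega) (by omega) hm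
  -- surjectivity
  have sur : ∀ i j : ℤ, 4 * (r : ℤ) + 1 < j → j ≤ i → i ≤ 2 * j →
      Cone (0 - α) (i - β) (i + j - γ) := by
    intro i j hj hji hij
    obtain ⟨p, q, s, hc, hf, a1, a2, a3⟩ := g.pull (P := 0) (Q := i) (S := i + j)
      ⟨by omega, by omega, by omega⟩ (by omega)
    rw [g.single (by decide) e1 p] at a1
    rw [g.single (by decide) e2 q] at a2
    rw [g.single (by decide) e3 s] at a3
    have a1 := e_inj (by decide) a1
    have a2 := e_inj (by decide) a2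
    have a3 := e_inj (by decide) a3
    have t1 : 0 - α = p := by omega
    have t2 : i - β = q := by omega
    have t3 : i + j - γ = s := by omega
    rw [t1, t2, t3]
    exact hc
  obtain ⟨_, x1, x2⟩ := inc (4 * (r : ℤ) + 2) (4 * (r : ℤ) + 2) (by omega) (by omega) (by omega)
  obtain ⟨_, x3, x4⟩ := inc (2 * (4 * (r : ℤ) + 2)) (4 * (r : ℤ) + 2) (by omega) (by omega) (by omega)
  obtain ⟨_, x5, x6⟩ := sur (4 * (r : ℤ) + 2) (4 * (r : ℤ) + 2) (by omega) (by omega) (by omega)
  obtain ⟨_, x7, x8⟩ := sur (2 * (4 * (r : ℤ) + 2)) (4 * (r : ℤ) + 2) (by omega) (by omega) (by omega)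
  have hab : β = α := by omega
  have hag : γ = α := by omega
  exact ⟨α, e1, hab ▸ e2, hag ▸ e3⟩

def Small (r : ℕ) (x : ℤ → Fin 4) : Prop :=
  ∃ p q s, Cone p q s ∧ s - q ≤ 2 * (r : ℤ) ∧ x = w p q s

lemma Small.tr {x : ℤ → Fin 4} (h : Small r x) (a : ℤ) : Small r (tr a x) := by
  obtain ⟨p, q, s, ⟨c1, c2, c3⟩, hb, rfl⟩ := h
  exact ⟨p - a, q - a, s - a, ⟨by omega, by omega, by omega⟩, by omega, tr_w a p q s⟩

lemma Good.big (g : Good f r) {α : ℤ} (h1 : f (e 1 0) = e 1 α) (h2 : f (e 2 0) = e 2 α)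
    (h3 : f (e 3 0) = e 3 α) {x : ℤ → Fin 4} (hx : x ∈ X) (hs : ¬ Small r x) :
    f x = tr (-α) x := by
  have hx' := hx
  rcases hx' with rfl | ⟨v, p, hv, rfl⟩ | ⟨p, q, s, hc, rfl⟩
  · rw [g.f0, tr_zero]
  · rw [tr_e, sub_neg_eq_add]
    rcases fin4 v hv with rfl | rfl | rfl
    · have := g.single (by decide) h1 p
      rwa [sub_zero] at this
    · have := g.single (by decide) h2 p
      rwa [sub_zero] at this
    · have := g.single (by decide) h3 p
      rwa [sub_zero] at this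
  · rw [tr_w, sub_neg_eq_add, sub_neg_eq_add, sub_neg_eq_add]
    apply g.push h1 h2 h3 hc
    by_contra hb
    exact hs ⟨p, q, s, hc, by omega, rfl⟩

/-- the finite set of small gap pairs -/
noncomputable def F (r : ℕ) : Finset (ℤ × ℤ) :=
  ((Finset.Icc 0 (4 * (r : ℤ))) ×ˢ (Finset.Icc 1 (2 * (r : ℤ)))).filter
    (fun t => t.2 ≤ t.1 ∧ t.1 ≤ 2 * t.2)

lemma mem_F {t : ℤ × ℤ} : t ∈ F r ↔ 1 ≤ t.2 ∧ t.2 ≤ 2 * (r : ℤ) ∧ t.2 ≤ t.1 ∧ t.1 ≤ 2 * t.2 := by
  simp only [F, Finset.mem_filter, Finset.mem_product, Finset.mem_Icc]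
  omega

def ww (t : ℤ × ℤ) (k : ℤ) : ℤ → Fin 4 := w k (k + t.1) (k + t.1 + t.2)

lemma ww_cone {t : ℤ × ℤ} (h : t ∈ F r) (k : ℤ) : Cone k (k + t.1) (k + t.1 + t.2) := by
  rw [mem_F] at h
  exact ⟨by omega, by omega, by omega⟩

lemma ww_mem {t : ℤ × ℤ} (h : t ∈ F r) (k : ℤ) : ww t k ∈ X := w_mem (ww_cone h k)

lemma ww_tr (t : ℤ × ℤ) (k a : ℤ) : tr a (ww t k) = ww t (k - a) := by
  rw [ww, tr_w, ww]
  congr 1 <;> ring

lemma ww_small {t : ℤ × ℤ} (h : t ∈ F r) (k : ℤ) : Small r (ww t k) := by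
  refine ⟨k, k + t.1, k + t.1 + t.2, ww_cone h k, ?_, rfl⟩
  rw [mem_F] at h
  omega

lemma small_ww {x : ℤ → Fin 4} (h : Small r x) : ∃ t ∈ F r, ∃ k, x = ww t k := by
  obtain ⟨p, q, s, ⟨c1, c2, c3⟩, hb, rfl⟩ := h
  refine ⟨(q - p, s - q), ?_, p, ?_⟩
  · rw [mem_F]
    exact ⟨by simp only; omega, by simp only; omega, by simp only; omega, by simp only; omega⟩
  · rw [ww]
    congr 1 <;> ring

lemma ww_inj {t t' : ℤ × ℤ} (h : t ∈ F r) (h' : t' ∈ F r) {k k' : ℤ} (he : ww t k = ww t' k') :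
    t = t' ∧ k = k' := by
  obtain ⟨a1, a2, a3⟩ := w_inj (ww_cone h k) (ww_cone h' k') he
  refine ⟨Prod.ext ?_ ?_, a1⟩ <;> omega

theorem Good.inj (g : Good f r) : InjOn f X := by
  obtain ⟨α, h1, h2, h3⟩ := g.alpha
  have big : ∀ x ∈ X, ¬ Small r x → f x = tr (-α) x := fun x hx hs => g.big h1 h2 h3 hx hs
  -- every small type is hit from a small type
  have hit : ∀ t : F r, ∃ t' : F r, ∃ k : ℤ, f (ww t'.1 0) = ww t.1 k := by
    rintro ⟨t, ht⟩
    obtain ⟨x, hx, hfx⟩ := g.surj (ww_mem ht 0)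
    by_cases hs : Small r x
    · obtain ⟨t', ht', k, rfl⟩ := small_ww hs
      refine ⟨⟨t', ht'⟩, -k, ?_⟩
      have : ww t' 0 = tr k (ww t' k) := by rw [ww_tr, sub_self]
      simp only
      rw [this, g.comm_tr k hx, hfx, ww_tr, zero_sub]
    · exfalso
      apply hs
      rw [big x hx hs] at hfx
      have : x = tr α (ww t 0) := by
        rw [← hfx, tr_tr, add_neg_cancel, tr_z]
      rw [this]
      exact (ww_small ht 0).tr α
  choose h kk hh using hit
  have hinj : Function.Injective h := by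
    intro t1 t2 h12
    have a1 := hh t1
    have a2 := hh t2
    rw [h12, a2] at a1
    exact Subtype.ext (ww_inj t1.2 t2.2 a1.symm).1
  have hsurj : Function.Surjective h := Finite.injective_iff_surjective.1 hinj
  -- images of small points
  have img : ∀ t ∈ F r, ∃ t' ∈ F r, ∃ c : ℤ, (∀ k, f (ww t k) = ww t' (k + c)) ∧
      ∀ u ∈ F r, ∀ c' : ℤ, f (ww u 0) = ww t' c' → u = t := by
    intro t ht
    obtain ⟨t', ht'⟩ := hsurj ⟨t, ht⟩
    refine ⟨t'.1, t'.2, kk t', ?_, ?_⟩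
    · intro k
      have a1 := hh t'
      rw [ht'] at a1
      have : ww t k = tr (-k) (ww t 0) := by rw [ww_tr]; congr 1; ring
      rw [this, g.comm_tr _ (ww_mem ht 0), a1, ww_tr]
      congr 1
      ring
    · intro u hu c' hc'
      obtain ⟨u', hu'⟩ := hsurj ⟨u, hu⟩
      have a1 := hh u'
      rw [hu'] at a1
      simp only at a1
      rw [a1] at hc'
      have a2 := (ww_inj u'.2 t'.2 hc').1
      have a3 : u' = t' := Subtype.ext a2
      rw [a3, ht'] at hu'
      exact (congrArg Subtype.val hu').symm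
  intro x hx y hy hxy
  by_cases sx : Small r x
  · by_cases sy : Small r y
    · obtain ⟨t, ht, k, rfl⟩ := small_ww sx
      obtain ⟨u, hu, l, rfl⟩ := small_ww sy
      obtain ⟨t', ht', c, hc, huniq⟩ := img t ht
      have a1 : u = t := by
        apply huniq u hu (k + c - l)
        have : ww u 0 = tr l (ww u l) := by rw [ww_tr, sub_self]
        rw [this, g.comm_tr _ hy, ← hxy, hc k, ww_tr]
      subst a1
      rw [hc k, hc l] at hxy
      have := (ww_inj ht' ht' hxy).2
      have : k = l := by omega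
      rw [this]
    · exfalso
      apply sy
      obtain ⟨t, ht, k, rfl⟩ := small_ww sx
      obtain ⟨t', ht', c, hc, huniq⟩ := img t ht
      rw [big y hy sy, hc k] at hxy
      have : y = tr α (ww t' (k + c)) := by rw [hxy, tr_tr, add_neg_cancel, tr_z]
      rw [this]
      exact (ww_small ht' _).tr α
  · by_cases sy : Small r y
    · exfalso
      apply sx
      obtain ⟨t, ht, k, rfl⟩ := small_ww sy
      obtain ⟨t', ht', c, hc, huniq⟩ := img t ht
      rw [big x hx sx, hc k] at hxy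
      have : x = tr α (ww t' (k + c)) := by rw [← hxy, tr_tr, add_neg_cancel, tr_z]
      rw [this]
      exact (ww_small ht' _).tr α
    · rw [big x hx sx, big y hy sy] at hxy
      have := congrArg (tr α) hxy
      rwa [tr_tr, tr_tr, add_neg_cancel, tr_z, tr_z] at this

/-- the injective endomorphism which moves `1` to the left and `3` to the right -/
def T (x : ℤ → Fin 4) : ℤ → Fin 4 := fun k =>
  if x (k + 1) = 1 then 1 else if x k = 2 then 2 else if x (k - 1) = 3 then 3 else 0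

lemma T_zero : T 0 = 0 := by
  funext k
  simp [T]

lemma T_e1 (p : ℤ) : T (e 1 p) = e 1 (p - 1) := by
  funext k
  simp only [T, e]
  by_cases h : k = p - 1
  · have : k + 1 = p := by omega
    simp [h]
  · have : k + 1 ≠ p := by omega
    simp only [this, h, if_false]
    split_ifs <;> simp_all

lemma T_e2 (p : ℤ) : T (e 2 p) = e 2 p := by
  funext k
  simp only [T, e]
  split_ifs <;> simp_all

lemma e_ne {v : Fin 4} {p k : ℤ} (h : k ≠ p) : e v p k = 0 := by simp [e, h]

lemma e_eq {v : Fin 4} {p k : ℤ} (h : k = p) : e v p k = v := by simp [e, h]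

lemma T_e3 (p : ℤ) : T (e 3 p) = e 3 (p + 1) := by
  funext k
  by_cases h : k = p + 1
  · have a1 : e 3 p (k + 1) ≠ 1 := by rw [e_ne (by omega)]; decide
    have a2 : e 3 p k ≠ 2 := by rw [e_ne (by omega)]; decide
    have a3 : e 3 p (k - 1) = 3 := e_eq (by omega)
    rw [e_eq h]
    simp [T, a1, a2, a3]
  · have a3 : e 3 p (k - 1) ≠ 3 := by rw [e_ne (by omega)]; decide
    have b : ∀ j, e 3 p j ≠ 1 ∧ e 3 p j ≠ 2 := by
      intro j
      by_cases hj : j = p
      · rw [e_eq hj]; decide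
      · rw [e_ne hj]; decide
    rw [e_ne h]
    simp [T, a3, (b (k + 1)).1, (b k).2]

lemma T_w {p q s : ℤ} (hc : Cone p q s) : T (w p q s) = w (p - 1) q (s + 1) := by
  funext k
  simp only [T, w1, w2 hc, w3 hc]
  have h1 : k + 1 = p ↔ k = p - 1 := by omega
  have h2 : k - 1 = s ↔ k = s + 1 := by omega
  simp only [h1, h2, w]

lemma T_maps : MapsTo T X X := by
  rintro x (rfl | ⟨v, p, hv, rfl⟩ | ⟨p, q, s, hc, rfl⟩)
  · rw [T_zero]; exact zero_mem
  · rcases fin4 v hv with rfl | rfl | rfl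
    · rw [T_e1]; exact e_mem hv _
    · rw [T_e2]; exact e_mem hv _
    · rw [T_e3]; exact e_mem hv _
  · rw [T_w hc]
    obtain ⟨c1, c2, c3⟩ := hc
    exact w_mem ⟨by omega, by omega, by omega⟩

lemma T_cont : Continuous T := by
  apply continuous_pi
  intro k
  have : (fun x : ℤ → Fin 4 => T x k) =
      (fun t : Fin 4 × Fin 4 × Fin 4 => if t.1 = 1 then 1 else if t.2.1 = 2 then 2 else
        if t.2.2 = 3 then 3 else 0) ∘ (fun x : ℤ → Fin 4 => (x (k + 1), x k, x (k - 1))) := by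
    funext x
    rfl
  rw [this]
  exact continuous_of_discreteTopology.comp
    ((continuous_apply _).prodMk ((continuous_apply _).prodMk (continuous_apply _)))

/-- order facts -/
lemma X_facts {x : ℤ → Fin 4} (hx : x ∈ X) :
    (∀ k, x k = 2 → x (k + 1) ≠ 1) ∧ (∀ k, x k = 3 → x (k + 1) ≠ 2 ∧ x (k + 2) ≠ 1) := by
  rcases hx with rfl | ⟨v, p, hv, rfl⟩ | ⟨p, q, s, hc, rfl⟩
  · constructor
    · intro k h; simp at h
    · intro k h; simp at h
  · constructor
    · intro k h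
      have h1 : k = p := ene (by rw [h]; decide)
      have : k + 1 ≠ p := by omega
      simp [e, this]
    · intro k h
      have h1 : k = p := ene (by rw [h]; decide)
      have h2 : k + 1 ≠ p := by omega
      have h3 : k + 2 ≠ p := by omega
      simp [e, h2, h3]
  · have hc' := hc
    obtain ⟨c1, c2, c3⟩ := hc'
    constructor
    · intro k h h'
      have a1 := (w2 hc).1 h
      have a2 := w1.1 h'
      omega
    · intro k h
      have a1 := (w3 hc).1 h
      constructor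
      · intro h'
        have a2 := (w2 hc).1 h'
        omega
      · intro h'
        have a2 := w1.1 h'
        omega

lemma T_inj : InjOn T X := by
  have key : ∀ x ∈ X, ∀ y ∈ X, T x = T y → ∀ k, x k ≠ 0 → y k = x k := by
    intro x hx y hy hxy k hk
    obtain ⟨a1, a2⟩ := X_facts hx
    rcases fin4 (x k) hk with h | h | h
    · have h1 : T x (k - 1) = 1 := by simp [T, h]
      rw [hxy] at h1
      simp only [T, sub_add_cancel] at h1
      rw [h]
      by_contra hc
      rw [if_neg hc] at h1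
      split_ifs at h1 <;> exact absurd h1 (by decide)
    · have h1 : T x k = 2 := by simp [T, h, a1 k h]
      rw [hxy] at h1
      simp only [T] at h1
      rw [h]
      by_contra hc
      rw [if_neg hc] at h1
      split_ifs at h1 <;> exact absurd h1 (by decide)
    · have h1 : T x (k + 1) = 3 := by
        have e1 : k + 1 + 1 = k + 2 := by ring
        simp [T, e1, h, a2 k h]
      rw [hxy] at h1
      simp only [T, add_sub_cancel_right] at h1
      rw [h]
      by_contra hc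
      rw [if_neg hc] at h1
      split_ifs at h1 <;> exact absurd h1 (by decide)
  intro x hx y hy hxy
  funext k
  by_cases h1 : x k = 0
  · by_cases h2 : y k = 0
    · rw [h1, h2]
    · exact key y hy x hx hxy.symm k h2
  · exact (key x hx y hy hxy k h1).symm

lemma T_not_surj : ¬ SurjOn T X X := by
  intro h
  obtain ⟨x, hx, hTx⟩ := h (w_mem (p := 0) (q := 1) (s := 2) ⟨by omega, by omega, by omega⟩)
  have h0 : T x 0 = 1 := by rw [hTx]; simp [w]
  have h1 : T x 1 = 2 := by rw [hTx]; simp [w]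
  have a0 : x 1 = 1 := by
    simp only [T, zero_add] at h0
    by_contra hc
    rw [if_neg hc] at h0
    split_ifs at h0 <;> exact absurd h0 (by decide)
  simp only [T, a0] at h1
  split_ifs at h1 <;> simp_all

end Pool.Agent.H258R3.Inj
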