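import Mathlib

/-!
Finitely generated commutative monoids are residually finite (through the monoid algebra over the
field with two elements, Krull's intersection theorem and Zariski's lemma).
-/

namespace Pool.Agent.H258R3

open Set

theorem exists_finite_ring_quotient {R : Type} [CommRing R] [Algebra (ZMod 2) R]
    [Algebra.FiniteType (ZMod 2) R] (x : R) (hx : x ≠ 0) :
    ∃ I : Ideal R, Finite (R ⧸ I) ∧ x ∉ I := by
  haveI : Fact (Nat.Prime 2) := ⟨Nat.prime_two⟩
  haveI : IsNoetherianRing R := Algebra.FiniteType.isNoetherianRing (ZMod 2) R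
  let J : Ideal R := Submodule.annihilator (Submodule.span R {x})
  have hJ : J ≠ ⊤ := by
    intro h
    have h1 : (1 : R) ∈ J := by rw [h]; trivial
    rw [Submodule.mem_annihilator] at h1
    have := h1 x (Submodule.mem_span_singleton_self x)
    rw [one_smul] at this
    exact hx this
  obtain ⟨m, hm, hJm⟩ := Ideal.exists_le_maximal J hJ
  haveI := hm
  letI : Field (R ⧸ m) := Ideal.Quotient.field m
  haveI : Algebra.FiniteType (ZMod 2) (R ⧸ m) :=
    Algebra.FiniteType.of_surjective (Ideal.Quotient.mkₐ (ZMod 2) m)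
      (Ideal.Quotient.mkₐ_surjective _ _)
  haveI : Module.Finite (ZMod 2) (R ⧸ m) := finite_of_finite_type_of_isJacobsonRing _ _
  haveI : Finite (R ⧸ m) := Module.finite_of_finite (ZMod 2)
  have hex : ∃ k : ℕ, x ∉ m ^ k := by
    by_contra hall
    push Not at hall
    have hmem : x ∈ (⨅ i : ℕ, m ^ i • ⊤ : Submodule R R) := by
      rw [Submodule.mem_iInf]
      intro i
      have : m ^ i • (⊤ : Submodule R R) = m ^ i := by
        rw [smul_eq_mul, Ideal.mul_top]
      rw [this]
      exact hall i
    rw [Ideal.mem_iInf_smul_pow_eq_bot_iff] at hmem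
    obtain ⟨r, hr⟩ := hmem
    have h1 : (1 - (r : R)) ∈ J := by
      rw [Submodule.mem_annihilator_span_singleton]
      rw [sub_smul, one_smul, hr, sub_self]
    have h2 := m.add_mem (hJm h1) r.2
    rw [sub_add_cancel] at h2
    exact hm.ne_top ((Ideal.eq_top_iff_one m).mpr h2)
  obtain ⟨k, hk⟩ := hex
  exact ⟨m ^ k, Ideal.finite_quotient_pow (IsNoetherian.noetherian m) k, hk⟩

/-- A finitely generated commutative monoid is residually finite. -/
theorem exists_finite_quotient {N : Type} [CommMonoid N] [Monoid.FG N] (a b : N) (hab : a ≠ b) :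
    ∃ (F : Type) (_ : CommMonoid F) (_ : Finite F) (ρ : N →* F), ρ a ≠ ρ b := by
  haveI : Fact (Nat.Prime 2) := ⟨Nat.prime_two⟩
  let R := MonoidAlgebra (ZMod 2) N
  let x : R := MonoidAlgebra.of (ZMod 2) N a - MonoidAlgebra.of (ZMod 2) N b
  have hx : x ≠ 0 := by
    intro h
    exact hab (MonoidAlgebra.of_injective (sub_eq_zero.mp h))
  obtain ⟨I, hfin, hxI⟩ := exists_finite_ring_quotient (R := R) x hx
  refine ⟨R ⧸ I, inferInstance, hfin,
    ((Ideal.Quotient.mk I : R →+* R ⧸ I) : R →* R ⧸ I).comp (MonoidAlgebra.of (ZMod 2) N), ?_⟩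
  intro h
  apply hxI
  rw [← Ideal.Quotient.eq_zero_iff_mem]
  simp only [x, map_sub]
  rw [sub_eq_zero]
  exact h

/-- A finite set of elements is separated by one finite quotient. -/
theorem exists_finite_quotient_injOn {N : Type} [CommMonoid N] [Monoid.FG N] (Ω : Finset N) :
    ∃ (F : Type) (_ : CommMonoid F) (_ : Finite F) (ρ : N →* F), Set.InjOn ρ (Ω : Set N) := by
  classical
  choose F hF hfin ρ hρ using fun p : {p : Ω × Ω // p.1.1 ≠ p.2.1} =>
    exists_finite_quotient (N := N) p.1.1.1 p.1.2.1 p.2
  refine ⟨(∀ p : {p : Ω × Ω // p.1.1 ≠ p.2.1}, F p), inferInstance, inferInstance,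
    MonoidHom.pi ρ, ?_⟩
  intro a ha b hb h
  by_contra hne
  exact hρ ⟨(⟨a, ha⟩, ⟨b, hb⟩), hne⟩ (congrFun h ⟨(⟨a, ha⟩, ⟨b, hb⟩), hne⟩)

/-- Over a finitely generated commutative monoid, injective cellular automata with finite alphabet
are surjective. -/
theorem surj_of_fg_comm (N : Type) [CommMonoid N] [Monoid.FG N] (A : Type) [Finite A]
    (ι : Type) [Finite ι] (σ : ι → N) (μ : (ι → A) → A)
    (hinj : Function.Injective (fun (x : N → A) (m : N) => μ (fun s => x (m * σ s)))) :
    Function.Surjective (fun (x : N → A) (m : N) => μ (fun s => x (m * σ s))) := by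
  classical
  let τ : (N → A) → (N → A) := fun x m => μ (fun s => x (m * σ s))
  intro z
  -- solve on finite sets
  have hfinite : ∀ Ω : Finset N, ∃ x : N → A, ∀ m ∈ Ω, τ x m = z m := by
    intro Ω
    obtain ⟨F, hF, hfin, ρ, hρ⟩ := exists_finite_quotient_injOn Ω
    let Q := MonoidHom.mrange ρ
    let π : N →* Q := ρ.mrangeRestrict
    have hπ : Function.Surjective π := ρ.mrangeRestrict_surjective
    let τQ : (Q → A) → (Q → A) := fun y q => μ (fun s => y (q * π (σ s)))
    have hcomp : ∀ y : Q → A, τ (fun n => y (π n)) = fun n => τQ y (π n) := by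
      intro y
      funext n
      simp only [τ, τQ, map_mul]
    have hQinj : Function.Injective τQ := by
      intro y y' h
      have h1 : τ (fun n => y (π n)) = τ (fun n => y' (π n)) := by
        rw [hcomp, hcomp, h]
      have h2 : (fun n => y (π n)) = fun n => y' (π n) := hinj h1
      funext q
      obtain ⟨n, rfl⟩ := hπ q
      exact congrFun h2 n
    have hQsurj : Function.Surjective τQ := Finite.injective_iff_surjective.mp hQinj
    -- push the target forward
    have hA : Nonempty A := ⟨z 1⟩
    let zQ : Q → A := fun q => if h : ∃ m ∈ Ω, π m = q then z h.choose else z 1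
    obtain ⟨y, hy⟩ := hQsurj zQ
    refine ⟨fun n => y (π n), fun m hm => ?_⟩
    rw [hcomp, hy]
    have hex : ∃ m' ∈ Ω, π m' = π m := ⟨m, hm, rfl⟩
    simp only [zQ, dif_pos hex]
    have h3 := hex.choose_spec
    have h4 : hex.choose = m := by
      apply hρ h3.1 hm
      exact congrArg Subtype.val h3.2
    rw [h4]
  -- compactness
  letI : TopologicalSpace A := ⊥
  haveI : DiscreteTopology A := ⟨rfl⟩
  haveI : CompactSpace A := Finite.compactSpace
  have hτ : ∀ m : N, Continuous fun x : N → A => τ x m := by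
    intro m
    have : Continuous fun x : N → A => (fun s => x (m * σ s) : ι → A) :=
      continuous_pi fun s => continuous_apply _
    exact (continuous_of_discreteTopology (f := μ)).comp this
  have hclosed : ∀ m : N, IsClosed {x : N → A | τ x m = z m} := fun m =>
    isClosed_eq (hτ m) continuous_const
  have hne : (univ ∩ ⋂ m : N, {x : N → A | τ x m = z m}).Nonempty := by
    by_contra hcon
    rw [Set.not_nonempty_iff_eq_empty] at hcon
    obtain ⟨Ω, hΩ⟩ := isCompact_univ.elim_finite_subfamily_closed _ hclosed hcon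
    obtain ⟨x, hx⟩ := hfinite Ω
    have : x ∈ univ ∩ ⋂ m ∈ Ω, {x : N → A | τ x m = z m} := by
      refine ⟨trivial, ?_⟩
      simp only [mem_iInter]
      exact hx
    rw [hΩ] at this
    exact this
  obtain ⟨x, -, hx⟩ := hne
  exact ⟨x, funext fun m => mem_iInter.mp hx m⟩

end Pool.Agent.H258R3
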