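import Mathlib

/-!
A self-similar one-sided automorphism with sublinear radius growth.

Positions `n ≥ 1`; the right neighbour of `n` is `n - 1`.  Every cell has a static parity and a
static type (`true` iff the odd part of `n` is `1` mod `4`), a phase in `Fin 4` and a register of
three bits.  `F = Uo ∘ Ue` updates first the even cells and then the odd cells, each cell reading a
message of its right neighbour.  The main identity is `F⁴ (PP 0 c) = PP 0 (F c)`, where `PP 0 c`
puts the configuration `c` on the even cells.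
-/

set_option autoImplicit false

namespace Pool.Agent.H258R3.Slow

abbrev M := Bool × Bool × Bool
abbrev D := Fin 4 × M

def bitmsg (i : Fin 4) (m : M) : M :=
  if i = 0 then (false, false, false) else if i = 1 then (false, true, m.1)
  else if i = 2 then (true, false, m.2.1) else (true, true, m.2.2)

def mu (t : Bool) (x : D) : M :=
  if t then bitmsg x.1 x.2 else if x.1 = 0 then x.2 else (false, false, false)

def A (t : Bool) (d : Fin 4) : Bool := if t then (d == 0 || d == 3) else (d == 1 || d == 3)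

def Lo (t : Bool) (d : Fin 4) : Bool := if t then (d != 0) else (d == 0 || d == 1)

def recv (t : Bool) (x : D) (m : M) : D :=
  match m with
  | (false, false, _) => x
  | (false, true, b) => (x.1, (x.2.1 ^^ (A t x.1 && b), x.2.2.1, x.2.2.2))
  | (true, false, b) => (x.1, (x.2.1, x.2.2.1 ^^ (A t x.1 && b), x.2.2.2))
  | (true, true, b) => (x.1 + 1, (x.2.1, x.2.2.1, x.2.2.2 ^^ (A t x.1 && b)))

def unrecv (t : Bool) (x : D) (m : M) : D :=
  match m with
  | (false, false, _) => x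
  | (false, true, b) => (x.1, (x.2.1 ^^ (A t x.1 && b), x.2.2.1, x.2.2.2))
  | (true, false, b) => (x.1, (x.2.1, x.2.2.1 ^^ (A t x.1 && b), x.2.2.2))
  | (true, true, b) => (x.1 - 1, (x.2.1, x.2.2.1, x.2.2.2 ^^ (A t (x.1 - 1) && b)))

def xor3 (a b : M) : M := (a.1 ^^ b.1, a.2.1 ^^ b.2.1, a.2.2 ^^ b.2.2)

def step (t : Bool) (x : D) (m : M) : D := (x.1 + 1, if A t x.1 then xor3 x.2 m else x.2)

def unstep (t : Bool) (x : D) (m : M) : D :=
  (x.1 - 1, if A t (x.1 - 1) then xor3 x.2 m else x.2)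

lemma unrecv_recv : ∀ (t : Bool) (x : D) (m : M), unrecv t (recv t x m) m = x := by
  decide +kernel

lemma recv_unrecv : ∀ (t : Bool) (x : D) (m : M), recv t (unrecv t x m) m = x := by
  decide +kernel

lemma unstep_step : ∀ (t : Bool) (x : D) (m : M), unstep t (step t x m) m = x := by
  decide +kernel

lemma step_unstep : ∀ (t : Bool) (x : D) (m : M), step t (unstep t x m) m = x := by
  decide +kernel

lemma three : ∀ (t : Bool) (x : D) (m : M),
    recv t (recv t (recv t x (bitmsg 1 m)) (bitmsg 2 m)) (bitmsg 3 m) = step t x m := by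
  decide +kernel

lemma mu_bit1 : ∀ (t : Bool) (x : D) (m : M), mu t (recv t x (bitmsg 1 m)) = mu t x := by
  decide +kernel

lemma recv_zero (t : Bool) (x : D) : recv t x (false, false, false) = x := rfl

lemma bitmsg_zero (m : M) : bitmsg 0 m = (false, false, false) := rfl

def Z : D := (0, (false, false, false))

lemma mu_Z : ∀ t : Bool, mu t Z = (false, false, false) := by decide

/-- static type -/
def typ (n : ℕ) : Bool :=
  if h : n = 0 then false
  else if n % 2 = 1 then decide (n % 4 = 1) else typ (n / 2)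
termination_by n
decreasing_by omega

lemma typ_odd {n : ℕ} (h : n % 2 = 1) : typ n = decide (n % 4 = 1) := by
  rw [typ, dif_neg (by omega), if_pos h]

lemma typ_even {n : ℕ} (h : n % 2 = 0) : typ n = typ (n / 2) := by
  by_cases h0 : n = 0
  · subst h0; rfl
  · rw [typ, dif_neg h0, if_neg (by omega)]

abbrev Conf := ℕ → D

def Ue (c : Conf) : Conf := fun n =>
  if n % 2 = 0 ∧ n ≠ 0 then recv (typ n) (c n) (mu (typ (n - 1)) (c (n - 1))) else c n

def Uo (c : Conf) : Conf := fun n =>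
  if n % 2 = 1 then step (typ n) (c n) (mu (typ (n - 1)) (c (n - 1))) else c n

def Ve (c : Conf) : Conf := fun n =>
  if n % 2 = 0 ∧ n ≠ 0 then unrecv (typ n) (c n) (mu (typ (n - 1)) (c (n - 1))) else c n

def Vo (c : Conf) : Conf := fun n =>
  if n % 2 = 1 then unstep (typ n) (c n) (mu (typ (n - 1)) (c (n - 1))) else c n

def F (c : Conf) : Conf := Uo (Ue c)

lemma Ue_odd (c : Conf) {n : ℕ} (h : n % 2 = 1) : Ue c n = c n := by
  rw [Ue, if_neg (by omega)]

lemma Ue_zero (c : Conf) : Ue c 0 = c 0 := by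
  rw [Ue, if_neg (by omega)]

lemma Ue_even (c : Conf) {n : ℕ} (h : n % 2 = 0) (h0 : n ≠ 0) :
    Ue c n = recv (typ n) (c n) (mu (typ (n - 1)) (c (n - 1))) := by
  rw [Ue, if_pos ⟨h, h0⟩]

lemma Uo_even (c : Conf) {n : ℕ} (h : n % 2 = 0) : Uo c n = c n := by
  rw [Uo, if_neg (by omega)]

lemma Uo_odd (c : Conf) {n : ℕ} (h : n % 2 = 1) :
    Uo c n = step (typ n) (c n) (mu (typ (n - 1)) (c (n - 1))) := by
  rw [Uo, if_pos h]

lemma Ve_Ue (c : Conf) : Ve (Ue c) = c := by
  funext n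
  by_cases h : n % 2 = 0 ∧ n ≠ 0
  · rw [Ve, if_pos h, Ue_even c h.1 h.2, Ue_odd c (n := n - 1) (by omega)]
    exact unrecv_recv _ _ _
  · rw [Ve, if_neg h, Ue, if_neg h]

lemma Vo_Uo (c : Conf) : Vo (Uo c) = c := by
  funext n
  by_cases h : n % 2 = 1
  · rw [Vo, if_pos h, Uo_odd c h, Uo_even c (n := n - 1) (by omega)]
    exact unstep_step _ _ _
  · rw [Vo, if_neg h, Uo, if_neg h]

/-- inflation -/
def PP (d : Fin 4) (e : Conf) : Conf := fun n =>
  if n % 2 = 0 then e (n / 2) else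
    (d, if Lo (typ n) d then mu (typ (n / 2)) (e (n / 2)) else (false, false, false))

lemma PP_even (d : Fin 4) (e : Conf) {n : ℕ} (h : n % 2 = 0) : PP d e n = e (n / 2) := by
  rw [PP, if_pos h]

lemma PP_odd (d : Fin 4) (e : Conf) {n : ℕ} (h : n % 2 = 1) :
    PP d e n = (d, if Lo (typ n) d then mu (typ (n / 2)) (e (n / 2)) else (false, false, false)) := by
  rw [PP, if_neg (by omega)]

/-- local check for odd cells of type `true` -/
lemma oddJ : ∀ (d : Fin 4) (m m' : M), (d ≠ 0 → m' = m) →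
    step true (d, if Lo true d then m else (false, false, false)) m' =
      (d + 1, if Lo true (d + 1) then m' else (false, false, false)) := by
  decide +kernel

lemma oddC : ∀ (d : Fin 4) (m m' : M), (d = 0 ∨ d = 1 → m' = m) →
    step false (d, if Lo false d then m else (false, false, false)) m' =
      (d + 1, if Lo false (d + 1) then m' else (false, false, false)) := by
  decide +kernel

lemma muJ : ∀ (d : Fin 4) (m : M),
    mu true (d, if Lo true d then m else (false, false, false)) = bitmsg d m := by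
  decide +kernel

lemma muC : ∀ (d : Fin 4) (m : M),
    mu false (d, if Lo false d then m else (false, false, false)) =
      if d = 0 then m else (false, false, false) := by
  decide +kernel

lemma F_PP (d : Fin 4) (e e' : Conf) (h0 : e' 0 = e 0)
    (hodd : ∀ m, m % 2 = 1 →
      e' m = recv (typ m) (e m) (bitmsg d (mu (typ (m - 1)) (e (m - 1)))))
    (heven : ∀ m, m % 2 = 0 → m ≠ 0 →
      e' m = recv (typ m) (e m)
        (if d = 0 then mu (typ (m - 1)) (e (m - 1)) else (false, false, false)))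
    (hre : ∀ m, m % 2 = 0 → d ≠ 0 → mu (typ m) (e' m) = mu (typ m) (e m))
    (hro : ∀ m, m % 2 = 1 → d = 0 ∨ d = 1 → mu (typ m) (e' m) = mu (typ m) (e m)) :
    F (PP d e) = PP (d + 1) e' := by
  -- even cells
  have he : ∀ n, n % 2 = 0 → Ue (PP d e) n = e' (n / 2) := by
    intro n hn
    by_cases hn0 : n = 0
    · subst hn0
      rw [Ue_zero, PP_even d e rfl]
      exact h0.symm
    · rw [Ue_even _ hn hn0, PP_even d e hn, PP_odd d e (n := n - 1) (by omega), typ_even hn]
      have h1 : (n - 1) / 2 = n / 2 - 1 := by omega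
      rw [h1]
      by_cases hm : (n / 2) % 2 = 1
      · have ht : typ (n - 1) = true := by
          rw [typ_odd (by omega)]
          exact decide_eq_true (by omega)
        rw [ht, muJ, hodd _ hm]
      · have ht : typ (n - 1) = false := by
          rw [typ_odd (by omega)]
          exact decide_eq_false (by omega)
        rw [ht, muC, heven _ (by omega) (by omega)]
  funext n
  by_cases hn : n % 2 = 0
  · rw [F, Uo_even _ hn, he n hn, PP_even _ _ hn]
  · have hn' : n % 2 = 1 := by omega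
    have h1 : (n - 1) / 2 = n / 2 := by omega
    have h2 : typ (n - 1) = typ (n / 2) := by rw [typ_even (by omega), h1]
    rw [F, Uo_odd _ hn', Ue_odd _ hn', he (n - 1) (by omega), PP_odd _ _ hn', PP_odd _ _ hn', h1, h2]
    by_cases hm : (n / 2) % 2 = 0
    · have ht : typ n = true := by
        rw [typ_odd (by omega)]
        exact decide_eq_true (by omega)
      rw [ht]
      exact oddJ d _ _ (hre _ hm)
    · have ht : typ n = false := by
        rw [typ_odd (by omega)]
        exact decide_eq_false (by omega)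
      rw [ht]
      exact oddC d _ _ (hro _ (by omega))

def R (d : Fin 4) (e : Conf) : Conf := fun m =>
  if m % 2 = 1 then recv (typ m) (e m) (bitmsg d (mu (typ (m - 1)) (e (m - 1)))) else e m

lemma R_even (d : Fin 4) (e : Conf) {m : ℕ} (h : m % 2 = 0) : R d e m = e m := by
  rw [R, if_neg (by omega)]

lemma R_odd (d : Fin 4) (e : Conf) {m : ℕ} (h : m % 2 = 1) :
    R d e m = recv (typ m) (e m) (bitmsg d (mu (typ (m - 1)) (e (m - 1)))) := by
  rw [R, if_pos h]

lemma R_three (c : Conf) : R 3 (R 2 (R 1 c)) = Uo c := by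
  funext m
  by_cases h : m % 2 = 0
  · rw [R_even _ _ h, R_even _ _ h, R_even _ _ h, Uo_even _ h]
  · have h1 : m % 2 = 1 := by omega
    have h2 : (m - 1) % 2 = 0 := by omega
    simp only [R_odd _ _ h1, R_even _ _ h2, Uo_odd _ h1]
    exact three _ _ _

lemma F_PP_zero (c : Conf) : F (PP 0 c) = PP 1 (Ue c) := by
  apply F_PP 0 c (Ue c) (Ue_zero c)
  · intro m hm
    rw [Ue_odd c hm, bitmsg_zero, recv_zero]
  · intro m hm h0
    rw [Ue_even c hm h0, if_pos rfl]
  · intro m _ h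
    exact absurd rfl h
  · intro m hm _
    rw [Ue_odd c hm]

lemma F_PP_R (d : Fin 4) (hd : d ≠ 0) (e : Conf)
    (h1 : d = 1 → ∀ (t : Bool) (x : D) (m : M), mu t (recv t x (bitmsg d m)) = mu t x) :
    F (PP d e) = PP (d + 1) (R d e) := by
  apply F_PP d e (R d e) (R_even _ _ rfl)
  · intro m hm
    rw [R_odd _ _ hm]
  · intro m hm h0
    rw [R_even _ _ hm, if_neg hd, recv_zero]
  · intro m hm _
    rw [R_even _ _ hm]
  · intro m hm h
    rw [R_odd _ _ hm]
    exact h1 (h.resolve_left hd) _ _ _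

/-- the renormalisation identity -/
theorem renorm (c : Conf) : F (F (F (F (PP 0 c)))) = PP 0 (F c) := by
  rw [F_PP_zero, F_PP_R 1 (by decide) _ (fun _ => mu_bit1), F_PP_R (1 + 1) (by decide) _ (fun h => absurd h (by decide)),
    F_PP_R (1 + 1 + 1) (by decide) _ (fun h => absurd h (by decide))]
  have h1 : (1 + 1 + 1 + 1 : Fin 4) = 0 := by decide
  have h2 : (1 + 1 + 1 : Fin 4) = 3 := by decide
  have h3 : (1 + 1 : Fin 4) = 2 := by decide
  rw [h1, h2, h3, R_three]
  rfl

def S (t : ℕ) : Conf := F^[t] (fun _ => Z)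

lemma S_succ (t : ℕ) : S (t + 1) = F (S t) := Function.iterate_succ_apply' F t _

lemma PP_Z : PP 0 (fun _ => Z) = fun _ => Z := by
  funext n
  by_cases h : n % 2 = 0
  · rw [PP_even _ _ h]
  · rw [PP_odd _ _ (by omega), mu_Z, ite_self]
    rfl

lemma S_four (q : ℕ) : S (4 * q) = PP 0 (S q) := by
  induction q with
  | zero => exact PP_Z.symm
  | succ q ih =>
    have h : 4 * (q + 1) = 4 * q + 1 + 1 + 1 + 1 := by ring
    rw [h, S_succ, S_succ, S_succ, S_succ, ih, renorm, ← S_succ]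

lemma F_odd_fst (c : Conf) {n : ℕ} (h : n % 2 = 1) : (F c n).1 = (c n).1 + 1 := by
  rw [F, Uo_odd _ h, Ue_odd _ h]
  rfl

lemma S_odd_fst (t : ℕ) {n : ℕ} (h : n % 2 = 1) : ((S t n).1 : ℕ) = t % 4 := by
  induction t with
  | zero => rfl
  | succ t ih =>
    rw [S_succ, F_odd_fst _ h, Fin.val_add, ih]
    have : ((1 : Fin 4) : ℕ) = 1 := rfl
    rw [this]
    omega

lemma S_four_even (u : ℕ) {n : ℕ} (h : n % 2 = 0) : S (4 * u) n = S u (n / 2) := by
  rw [S_four, PP_even _ _ h]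

lemma S_four_odd (u : ℕ) {n : ℕ} (h : n % 2 = 1) :
    S (4 * u) n = (0, if Lo (typ n) 0 then mu (typ (n / 2)) (S u (n / 2))
      else (false, false, false)) := by
  rw [S_four, PP_odd _ _ h]

/-- recurrence of the initial state -/
lemma S_rec (K : ℕ) : ∀ n, n < 2 ^ K → S (4 ^ K) n = Z := by
  induction K with
  | zero =>
    intro n hn
    have : n = 0 := by simpa using hn
    subst this
    have h : (4 : ℕ) ^ 0 = 0 + 1 := rfl
    rw [h, S_succ, F, Uo_even _ rfl, Ue_zero]
    rfl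
  | succ K ih =>
    intro n hn
    rw [pow_succ'] at hn
    rw [pow_succ']
    by_cases h : n % 2 = 0
    · rw [S_four_even _ h]
      exact ih _ (by omega)
    · rw [S_four_odd _ (by omega), ih _ (by omega), mu_Z, ite_self]
      rfl

lemma S_pow (a : ℕ) : ∀ q o, S (4 ^ a * q) (2 ^ a * o) = S q o := by
  induction a with
  | zero => intro q o; simp
  | succ a ih =>
    intro q o
    have h1 : 4 ^ (a + 1) * q = 4 * (4 ^ a * q) := by ring
    have h2 : 2 ^ (a + 1) * o = 2 * (2 ^ a * o) := by ring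
    rw [h1, h2, S_four_even _ (by omega)]
    have h3 : 2 * (2 ^ a * o) / 2 = 2 ^ a * o := by omega
    rw [h3, ih]

/-! ### Sequences -/

abbrev Q := Bool × Bool × D

def q (c : Conf) (n : ℕ) : Q := (decide (n % 2 = 1), typ n, c n)

def ue (a b : Q) : Q := if a.1 then a else (a.1, a.2.1, recv a.2.1 a.2.2 (mu b.2.1 b.2.2))
def uo (a b : Q) : Q := if a.1 then (a.1, a.2.1, step a.2.1 a.2.2 (mu b.2.1 b.2.2)) else a
def ve (a b : Q) : Q := if a.1 then a else (a.1, a.2.1, unrecv a.2.1 a.2.2 (mu b.2.1 b.2.2))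
def vo (a b : Q) : Q := if a.1 then (a.1, a.2.1, unstep a.2.1 a.2.2 (mu b.2.1 b.2.2)) else a

lemma q_Ue (c : Conf) {n : ℕ} (h : n ≠ 0) : q (Ue c) n = ue (q c n) (q c (n - 1)) := by
  by_cases hn : n % 2 = 1
  · simp [q, ue, hn, Ue_odd c hn]
  · simp [q, ue, hn, Ue_even c (by omega : n % 2 = 0) h]

lemma q_Uo (c : Conf) (n : ℕ) : q (Uo c) n = uo (q c n) (q c (n - 1)) := by
  by_cases hn : n % 2 = 1
  · simp [q, uo, hn, Uo_odd c hn]
  · simp [q, uo, hn, Uo_even c (by omega : n % 2 = 0)]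

lemma q_Ve (c : Conf) {n : ℕ} (h : n ≠ 0) : q (Ve c) n = ve (q c n) (q c (n - 1)) := by
  by_cases hn : n % 2 = 1
  · simp [q, ve, hn, Ve]
  · simp [q, ve, Ve, h, (by omega : n % 2 = 0)]

lemma q_Vo (c : Conf) (n : ℕ) : q (Vo c) n = vo (q c n) (q c (n - 1)) := by
  by_cases hn : n % 2 = 1
  · simp [q, vo, hn, Vo]
  · simp [q, vo, hn, Vo]

def lift (u : Q → Q → Q) (x : ℕ → Q) : ℕ → Q := fun i => u (x i) (x (i + 1))

def f (x : ℕ → Q) : ℕ → Q := lift uo (lift ue x)

def g (x : ℕ → Q) : ℕ → Q := lift ve (lift vo x)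

def G (c : Conf) : Conf := Ve (Vo c)

lemma G_F (c : Conf) : G (F c) = c := by
  rw [G, F, Vo_Uo, Ve_Ue]

/-- `x` starts with the cells `N, N-1, ..., N-L+1` of `c`. -/
def Win (c : Conf) (N L : ℕ) (x : ℕ → Q) : Prop := L ≤ N ∧ ∀ i < L, x i = q c (N - i)

lemma Win.mono {c : Conf} {N L L' : ℕ} {x : ℕ → Q} (h : Win c N L x) (hL : L' ≤ L) :
    Win c N L' x := ⟨by have := h.1; omega, fun i hi => h.2 i (by omega)⟩

lemma Win.lift_gen {c c' : Conf} {u : Q → Q → Q}
    (hu : ∀ n, n ≠ 0 → q c' n = u (q c n) (q c (n - 1)))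
    {N L : ℕ} {x : ℕ → Q} (h : Win c N (L + 1) x) : Win c' N L (lift u x) := by
  obtain ⟨h1, h2⟩ := h
  refine ⟨by omega, fun i hi => ?_⟩
  rw [lift, h2 i (by omega), h2 (i + 1) (by omega), hu (N - i) (by omega), Nat.sub_add_eq]

lemma Win.f {c : Conf} {N L : ℕ} {x : ℕ → Q} (h : Win c N (L + 2) x) : Win (F c) N L (f x) := by
  have h1 : Win (Ue c) N (L + 1) (lift ue x) := h.lift_gen (fun n hn => q_Ue c hn)
  exact h1.lift_gen (fun n _ => q_Uo _ n)

lemma Win.g {c : Conf} {N L : ℕ} {x : ℕ → Q} (h : Win c N (L + 2) x) : Win (G c) N L (g x) := by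
  have h1 : Win (Vo c) N (L + 1) (lift vo x) := h.lift_gen (fun n _ => q_Vo c n)
  exact h1.lift_gen (fun n hn => q_Ve _ hn)

lemma Win.iter {N : ℕ} (n : ℕ) : ∀ {t L : ℕ} {x : ℕ → Q}, Win (S t) N (L + 2 * n) x →
    Win (S (t + n)) N L (Slow.f^[n] x) := by
  induction n with
  | zero => intro t L x h; exact h
  | succ n ih =>
    intro t L x h
    rw [Function.iterate_succ_apply]
    have h1 : Win (F (S t)) N (L + 2 * n) (Slow.f x) := by
      apply Win.f
      exact h
    rw [← S_succ] at h1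
    have h2 := ih h1
    rwa [show t + 1 + n = t + (n + 1) by ring] at h2

def X : Set (ℕ → Q) := {x | ∀ L, ∃ t N, Win (S t) N L x}

lemma X_closed (x : ℕ → Q) (h : ∀ m : ℕ, ∃ y ∈ X, ∀ i < m, y i = x i) : x ∈ X := by
  intro L
  obtain ⟨y, hy, hyx⟩ := h L
  obtain ⟨t, N, h1, h2⟩ := hy L
  exact ⟨t, N, h1, fun i hi => by rw [← hyx i hi, h2 i hi]⟩

lemma X_shift {x : ℕ → Q} (hx : x ∈ X) (j : ℕ) : (fun i => x (i + j)) ∈ X := by
  intro L
  obtain ⟨t, N, h1, h2⟩ := hx (L + j)
  refine ⟨t, N - j, by omega, fun i hi => ?_⟩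
  show x (i + j) = _
  rw [h2 (i + j) (by omega)]
  congr 1
  omega

lemma f_maps {x : ℕ → Q} (hx : x ∈ X) : f x ∈ X := by
  intro L
  obtain ⟨t, N, h⟩ := hx (L + 2)
  refine ⟨t + 1, N, ?_⟩
  rw [S_succ]
  exact h.f

lemma Win.positive {N L t : ℕ} {x : ℕ → Q} (h : Win (S t) N L x) :
    ∃ t', Win (S (t' + 1)) N L x := by
  rcases Nat.eq_zero_or_pos t with h0 | h0
  · subst h0
    have h4 : 0 < 4 ^ N := by positivity
    refine ⟨4 ^ N - 1, ?_⟩
    rw [Nat.sub_add_cancel h4]
    refine ⟨h.1, fun i hi => ?_⟩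
    rw [h.2 i hi, q, q, S_rec N (N - i) (lt_of_le_of_lt (Nat.sub_le _ _) Nat.lt_two_pow_self)]
    rfl
  · refine ⟨t - 1, ?_⟩
    rwa [Nat.sub_add_cancel h0]

lemma g_maps {x : ℕ → Q} (hx : x ∈ X) : g x ∈ X := by
  intro L
  obtain ⟨t, N, h⟩ := hx (L + 2)
  obtain ⟨t', h'⟩ := h.positive
  refine ⟨t', N, ?_⟩
  have := h'.g
  rwa [S_succ, G_F] at this

def Alt (x : ℕ → Q) : Prop := ∀ i, (x (i + 1)).1 = !(x i).1

lemma X_alt {x : ℕ → Q} (hx : x ∈ X) : Alt x := by
  intro i
  obtain ⟨t, N, h1, h2⟩ := hx (i + 2)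
  rw [h2 i (by omega), h2 (i + 1) (by omega)]
  simp only [q]
  by_cases h : (N - i) % 2 = 1
  · have h' : ¬ (N - (i + 1)) % 2 = 1 := by omega
    simp [h, h']
  · have h' : (N - (i + 1)) % 2 = 1 := by omega
    simp [h, h']

lemma ue_fst (a b : Q) : (ue a b).1 = a.1 := by
  unfold ue; split_ifs <;> rfl
lemma uo_fst (a b : Q) : (uo a b).1 = a.1 := by
  unfold uo; split_ifs <;> rfl
lemma ve_fst (a b : Q) : (ve a b).1 = a.1 := by
  unfold ve; split_ifs <;> rfl
lemma vo_fst (a b : Q) : (vo a b).1 = a.1 := by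
  unfold vo; split_ifs <;> rfl

lemma Alt.lift {u : Q → Q → Q} (hu : ∀ a b, (u a b).1 = a.1) {x : ℕ → Q} (h : Alt x) :
    Alt (lift u x) := by
  intro i
  simp only [Slow.lift, hu]
  exact h i

lemma ve_ue {x : ℕ → Q} (h : Alt x) : lift ve (lift ue x) = x := by
  funext i
  simp only [Slow.lift]
  have hi := h i
  cases hx : (x i).1
  · rw [hx] at hi
    have h1 : ue (x (i + 1)) (x (i + 1 + 1)) = x (i + 1) := by
      simp only [ue, hi]; rfl
    rw [h1]
    simp only [ue, ve, hx, Bool.false_eq_true, if_false, unrecv_recv]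
    rw [← hx]
  · simp only [ue, ve, hx, if_true]

lemma ue_ve {x : ℕ → Q} (h : Alt x) : lift ue (lift ve x) = x := by
  funext i
  simp only [Slow.lift]
  have hi := h i
  cases hx : (x i).1
  · rw [hx] at hi
    have h1 : ve (x (i + 1)) (x (i + 1 + 1)) = x (i + 1) := by
      simp only [ve, hi]; rfl
    rw [h1]
    simp only [ue, ve, hx, Bool.false_eq_true, if_false, recv_unrecv]
    rw [← hx]
  · simp only [ue, ve, hx, if_true]

lemma vo_uo {x : ℕ → Q} (h : Alt x) : lift vo (lift uo x) = x := by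
  funext i
  simp only [Slow.lift]
  have hi := h i
  cases hx : (x i).1
  · simp only [uo, vo, hx, Bool.false_eq_true, if_false]
  · rw [hx] at hi
    have h1 : uo (x (i + 1)) (x (i + 1 + 1)) = x (i + 1) := by
      simp only [uo, hi]; rfl
    rw [h1]
    simp only [uo, vo, hx, if_true, unstep_step]
    rw [← hx]

lemma uo_vo {x : ℕ → Q} (h : Alt x) : lift uo (lift vo x) = x := by
  funext i
  simp only [Slow.lift]
  have hi := h i
  cases hx : (x i).1
  · simp only [uo, vo, hx, Bool.false_eq_true, if_false]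
  · rw [hx] at hi
    have h1 : vo (x (i + 1)) (x (i + 1 + 1)) = x (i + 1) := by
      simp only [vo, hi]; rfl
    rw [h1]
    simp only [uo, vo, hx, if_true, step_unstep]
    rw [← hx]

lemma g_f {x : ℕ → Q} (h : Alt x) : g (f x) = x := by
  rw [g, f, vo_uo (h.lift ue_fst), ve_ue h]

lemma f_g {x : ℕ → Q} (h : Alt x) : f (g x) = x := by
  rw [g, f, ue_ve (h.lift vo_fst), uo_vo h]

/-! ### Radius -/

def Ag (c : Conf) (N : ℕ) (c' : Conf) (N' L : ℕ) : Prop :=
  L ≤ N ∧ L ≤ N' ∧ ∀ i < L, q c (N - i) = q c' (N' - i)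

lemma Ag.mono {c c' : Conf} {N N' L L' : ℕ} (h : Ag c N c' N' L) (hL : L' ≤ L) :
    Ag c N c' N' L' :=
  ⟨by have := h.1; omega, by have := h.2.1; omega, fun i hi => h.2.2 i (by omega)⟩

lemma Ag.gen {c c' d d' : Conf} {u : Q → Q → Q}
    (hu : ∀ n, n ≠ 0 → q d n = u (q c n) (q c (n - 1)))
    (hu' : ∀ n, n ≠ 0 → q d' n = u (q c' n) (q c' (n - 1)))
    {N N' L : ℕ} (h : Ag c N c' N' (L + 1)) : Ag d N d' N' L := by
  obtain ⟨h1, h2, h3⟩ := h
  refine ⟨by omega, by omega, fun i hi => ?_⟩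
  rw [hu (N - i) (by omega), hu' (N' - i) (by omega), ← Nat.sub_add_eq, ← Nat.sub_add_eq,
    h3 i (by omega), h3 (i + 1) (by omega)]

lemma Ag.fwd {c c' : Conf} {N N' L : ℕ} (h : Ag c N c' N' (L + 2)) : Ag (F c) N (F c') N' L := by
  have h1 : Ag (Ue c) N (Ue c') N' (L + 1) := h.gen (fun n hn => q_Ue c hn) (fun n hn => q_Ue c' hn)
  exact h1.gen (fun n _ => q_Uo _ n) (fun n _ => q_Uo _ n)

lemma Ag.bwd {c c' : Conf} {N N' L : ℕ} (h : Ag (F c) N (F c') N' (L + 2)) : Ag c N c' N' L := by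
  have h1 : Ag (Vo (F c)) N (Vo (F c')) N' (L + 1) :=
    h.gen (fun n _ => q_Vo _ n) (fun n _ => q_Vo _ n)
  have h2 : Ag (Ve (Vo (F c))) N (Ve (Vo (F c'))) N' L :=
    h1.gen (fun n hn => q_Ve _ hn) (fun n hn => q_Ve _ hn)
  have e1 : Ve (Vo (F c)) = c := G_F c
  have e2 : Ve (Vo (F c')) = c' := G_F c'
  rwa [e1, e2] at h2

lemma Ag.fwd_iter {N N' : ℕ} (n : ℕ) : ∀ {t t' L : ℕ}, Ag (S t) N (S t') N' (L + 2 * n) →
    Ag (S (t + n)) N (S (t' + n)) N' L := by
  induction n with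
  | zero => intro t t' L h; exact h
  | succ n ih =>
    intro t t' L h
    have h1 : Ag (F (S t)) N (F (S t')) N' (L + 2 * n) := by
      apply Ag.fwd
      exact h
    rw [← S_succ, ← S_succ] at h1
    have h2 := ih h1
    rwa [show t + 1 + n = t + (n + 1) by ring, show t' + 1 + n = t' + (n + 1) by ring] at h2

lemma Ag.bwd_iter {N N' : ℕ} (n : ℕ) : ∀ {t t' L : ℕ},
    Ag (S (t + n)) N (S (t' + n)) N' (L + 2 * n) → Ag (S t) N (S t') N' L := by
  induction n with
  | zero => intro t t' L h; exact h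
  | succ n ih =>
    intro t t' L h
    apply ih
    have h' : Ag (F (S (t + n))) N (F (S (t' + n))) N' (L + 2 * n + 2) := by
      rw [← S_succ, ← S_succ]
      exact h
    exact h'.bwd

lemma q_par {c c' : Conf} {n n' : ℕ} (h : q c n = q c' n') : n % 2 = n' % 2 := by
  have h1 : decide (n % 2 = 1) = decide (n' % 2 = 1) := congrArg Prod.fst h
  rw [decide_eq_decide] at h1
  omega

lemma q_typ {c c' : Conf} {n n' : ℕ} (h : q c n = q c' n') : typ n = typ n' :=
  congrArg (fun z => z.2.1) h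

lemma q_val {c c' : Conf} {n n' : ℕ} (h : q c n = q c' n') : c n = c' n' :=
  congrArg (fun z => z.2.2) h

lemma q_ext {c c' : Conf} {n n' : ℕ} (h1 : n % 2 = n' % 2) (h2 : typ n = typ n')
    (h3 : c n = c' n') : q c n = q c' n' := by
  rw [q, q, h1, h2, h3]

lemma Ag.down {N N' u u' L : ℕ} (h : Ag (S (4 * u)) N (S (4 * u')) N' (2 * L + 2)) :
    Ag (S u) (N / 2) (S u') (N' / 2) L := by
  obtain ⟨h1, h2, h3⟩ := h
  have hp : N % 2 = N' % 2 := q_par (h3 0 (by omega))
  refine ⟨by omega, by omega, fun i hi => ?_⟩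
  -- the even cell
  have he := h3 (2 * i + N % 2) (by omega)
  have ho := h3 (2 * i + N % 2 + 1) (by omega)
  have e1 : (N - (2 * i + N % 2)) % 2 = 0 := by omega
  have e1' : (N' - (2 * i + N % 2)) % 2 = 0 := by omega
  have e2 : (N - (2 * i + N % 2)) / 2 = N / 2 - i := by omega
  have e2' : (N' - (2 * i + N % 2)) / 2 = N' / 2 - i := by omega
  have ht := q_typ he
  have hv := q_val he
  rw [typ_even e1, typ_even e1', e2, e2'] at ht
  rw [S_four_even _ e1, S_four_even _ e1', e2, e2'] at hv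
  have hto := q_typ ho
  rw [typ_odd (by omega), typ_odd (by omega), decide_eq_decide] at hto
  exact q_ext (by omega) ht hv

lemma Ag.up {N N' u u' L : ℕ} (hp : N % 2 = N' % 2)
    (h : Ag (S u) (N / 2) (S u') (N' / 2) (L + 1)) :
    Ag (S (4 * u)) N (S (4 * u')) N' (2 * L + 1) := by
  obtain ⟨h1, h2, h3⟩ := h
  refine ⟨by omega, by omega, fun i hi => ?_⟩
  by_cases hn : (N - i) % 2 = 0
  · have hn' : (N' - i) % 2 = 0 := by omega
    have hh := h3 (N / 2 - (N - i) / 2) (by omega)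
    have e1 : N / 2 - (N / 2 - (N - i) / 2) = (N - i) / 2 := by omega
    have e2 : N' / 2 - (N / 2 - (N - i) / 2) = (N' - i) / 2 := by omega
    rw [e1, e2] at hh
    apply q_ext (by omega)
    · rw [typ_even hn, typ_even hn']
      exact q_typ hh
    · rw [S_four_even _ hn, S_four_even _ hn']
      exact q_val hh
  · have hn1 : (N - i) % 2 = 1 := by omega
    have hn' : (N' - i) % 2 = 1 := by omega
    have hh := h3 (N / 2 - (N - i) / 2) (by omega)
    have e1 : N / 2 - (N / 2 - (N - i) / 2) = (N - i) / 2 := by omega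
    have e2 : N' / 2 - (N / 2 - (N - i) / 2) = (N' - i) / 2 := by omega
    rw [e1, e2] at hh
    have hpar := q_par hh
    have ht : typ (N - i) = typ (N' - i) := by
      rw [typ_odd hn1, typ_odd hn', decide_eq_decide]
      omega
    apply q_ext (by omega) ht
    rw [S_four_odd _ hn1, S_four_odd _ hn', ht, q_typ hh, q_val hh]

lemma Ag.phase {N N' t t' L : ℕ} (h : Ag (S t) N (S t') N' (L + 2)) : t % 4 = t' % 4 := by
  obtain ⟨h1, h2, h3⟩ := h
  have hp : N % 2 = N' % 2 := q_par (h3 0 (by omega))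
  by_cases hN : N % 2 = 1
  · have hv := congrArg (fun z : D => (z.1 : ℕ)) (q_val (h3 0 (by omega)))
    rwa [S_odd_fst _ (by omega), S_odd_fst _ (by omega)] at hv
  · have hv := congrArg (fun z : D => (z.1 : ℕ)) (q_val (h3 1 (by omega)))
    rwa [S_odd_fst _ (by omega), S_odd_fst _ (by omega)] at hv

def rr : ℕ → ℕ
  | 0 => 2
  | k + 1 => 2 * rr k + 16

lemma rr_le (k : ℕ) : rr k + 16 = 18 * 2 ^ k := by
  induction k with
  | zero => rfl
  | succ k ih => rw [rr, pow_succ]; omega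

theorem radius_bound (k : ℕ) : ∀ n, n ≤ 4 ^ k → ∀ t t' N N' L : ℕ,
    Ag (S t) N (S t') N' (L + rr k) → Ag (S (t + n)) N (S (t' + n)) N' L := by
  induction k with
  | zero =>
    intro n hn t t' N N' L h
    apply Ag.fwd_iter
    apply h.mono
    have : n ≤ 1 := by simpa using hn
    rw [rr]
    omega
  | succ k ih =>
    intro n hn t t' N N' L h
    rw [rr] at h
    have hph := Ag.phase (h.mono (L' := 0 + 2) (by omega))
    have hp : N % 2 = N' % 2 := q_par (h.2.2 0 (by omega))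
    have hn4 : n ≤ 4 * 4 ^ k := by rw [← pow_succ']; exact hn
    obtain ⟨u, d, hd, ht⟩ : ∃ u d, d < 4 ∧ t = 4 * u + d := ⟨t / 4, t % 4, by omega, by omega⟩
    obtain ⟨u', ht'⟩ : ∃ u', t' = 4 * u' + d := ⟨t' / 4, by omega⟩
    obtain ⟨v, e, he, hv⟩ : ∃ v e, e < 4 ∧ d + n = 4 * v + e :=
      ⟨(d + n) / 4, (d + n) % 4, by omega, by omega⟩
    subst ht
    subst ht'
    -- go back to phase zero
    have h1 : Ag (S (4 * u)) N (S (4 * u')) N' (L + 2 * rr k + 10) := by
      apply Ag.bwd_iter d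
      apply h.mono
      omega
    -- go to the even cells
    have h2 : Ag (S u) (N / 2) (S u') (N' / 2) (((L + 6) / 2 + 1) + rr k) := by
      apply Ag.down
      apply h1.mono
      omega
    have h3 := ih v (by omega) _ _ _ _ _ h2
    have h4 := Ag.up hp h3
    have h5 : Ag (S (4 * (u + v))) N (S (4 * (u' + v))) N' (L + 2 * e) := h4.mono (by omega)
    have h6 := h5.fwd_iter e
    have e1 : 4 * (u + v) + e = 4 * u + d + n := by omega
    have e2 : 4 * (u' + v) + e = 4 * u' + d + n := by omega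
    rwa [e1, e2] at h6

lemma radius_X (k n : ℕ) (hn : n ≤ 4 ^ k) {x y : ℕ → Q} (hx : x ∈ X) (hy : y ∈ X)
    (h : ∀ i ≤ rr k, x i = y i) : f^[n] x 0 = f^[n] y 0 := by
  obtain ⟨t, N, hw⟩ := hx (1 + rr k + 2 * n)
  obtain ⟨t', N', hw'⟩ := hy (1 + rr k + 2 * n)
  have h1 : Ag (S t) N (S t') N' (1 + rr k) := by
    refine ⟨by have := hw.1; omega, by have := hw'.1; omega, fun i hi => ?_⟩
    rw [← hw.2 i (by omega), ← hw'.2 i (by omega)]
    exact h i (by omega)
  have h2 := radius_bound k n hn t t' N N' 1 h1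
  have h3 := (Win.iter n (hw.mono (L' := 1 + 2 * n) (by omega))).2 0 (by omega)
  have h4 := (Win.iter n (hw'.mono (L' := 1 + 2 * n) (by omega))).2 0 (by omega)
  rw [h3, h4]
  exact h2.2.2 0 (by omega)

/-! ### Infinite order -/

lemma typ_neg (K : ℕ) : ∀ j, j ≠ 0 → 2 * j < 2 ^ K → typ (2 ^ K - j) = !typ j := by
  induction K with
  | zero => intro j h1 h2; simp at h2; omega
  | succ K ih =>
    intro j h1 h2
    rw [pow_succ'] at h2 ⊢
    by_cases hj : j % 2 = 1
    · have hK : 2 ≤ 2 ^ K := by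
        rcases Nat.eq_zero_or_pos K with h0 | h0
        · subst h0; simp at h2; omega
        · calc 2 = 2 ^ 1 := rfl
            _ ≤ 2 ^ K := Nat.pow_le_pow_right (by norm_num) h0
      have hK2 : 2 ^ K % 2 = 0 := by
        rcases Nat.eq_zero_or_pos K with h0 | h0
        · subst h0; simp at h2; omega
        · obtain ⟨K', rfl⟩ : ∃ K', K = K' + 1 := ⟨K - 1, by omega⟩
          rw [pow_succ]
          omega
      rw [typ_odd hj, typ_odd (by omega)]
      by_cases h4 : j % 4 = 1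
      · rw [decide_eq_true h4]
        exact decide_eq_false (by omega)
      · rw [decide_eq_false h4]
        exact decide_eq_true (by omega)
    · have e : (2 * 2 ^ K - j) / 2 = 2 ^ K - j / 2 := by omega
      rw [typ_even (n := j) (by omega), typ_even (n := 2 * 2 ^ K - j) (by omega), e]
      exact ih _ (by omega) (by omega)

/-- a point of `X` whose position is `-2 ^ a` -/
def pt (a : ℕ) : ℕ → Q := fun i => (decide ((i + 2 ^ a) % 2 = 1), !typ (i + 2 ^ a), Z)

lemma pt_win (a L K : ℕ) (h : 2 * (L + 2 ^ a) < 2 ^ K) : Win (S 0) (2 ^ K - 2 ^ a) L (pt a) := by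
  have h2 : 0 < 2 ^ a := by positivity
  have hK2 : 2 ^ K % 2 = 0 := by
    rcases Nat.eq_zero_or_pos K with h0 | h0
    · rw [h0, pow_zero] at h; omega
    · obtain ⟨K', rfl⟩ : ∃ K', K = K' + 1 := ⟨K - 1, by omega⟩
      rw [pow_succ]
      omega
  refine ⟨by omega, fun i hi => ?_⟩
  have e : 2 ^ K - 2 ^ a - i = 2 ^ K - (i + 2 ^ a) := by omega
  rw [e, q, typ_neg K _ (by omega) (by omega), pt]
  congr 1
  rw [decide_eq_decide]
  omega

lemma exists_K (m : ℕ) : ∃ K, m < 2 ^ K := ⟨m, Nat.lt_two_pow_self⟩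

lemma pt_mem (a : ℕ) : pt a ∈ X := by
  intro L
  obtain ⟨K, hK⟩ := exists_K (2 * (L + 2 ^ a))
  exact ⟨0, _, pt_win a L K hK⟩

lemma f_iter_mem {x : ℕ → Q} (hx : x ∈ X) (n : ℕ) : f^[n] x ∈ X := by
  induction n with
  | zero => exact hx
  | succ n ih => rw [Function.iterate_succ_apply']; exact f_maps ih

/-- the phase of the first cell of `f^n (pt a)` -/
lemma pt_phase (a p : ℕ) : (((f^[4 ^ a * p] (pt a)) 0).2.2.1 : ℕ) = p % 4 := by
  obtain ⟨K, hK⟩ := exists_K (2 * (1 + 2 * (4 ^ a * p) + 2 ^ a))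
  have h1 := (Win.iter (4 ^ a * p) (pt_win a (1 + 2 * (4 ^ a * p)) K hK)).2 0 (by omega)
  rw [h1, Nat.sub_zero, Nat.zero_add, q]
  have haK : a < K := by
    by_contra hc
    have : 2 ^ K ≤ 2 ^ a := Nat.pow_le_pow_right (by norm_num) (by omega)
    omega
  obtain ⟨b, rfl⟩ : ∃ b, K = a + (b + 1) := ⟨K - a - 1, by omega⟩
  have e1 : 2 ^ (a + (b + 1)) - 2 ^ a = 2 ^ a * (2 ^ (b + 1) - 1) := by
    rw [Nat.mul_sub, pow_add]
    simp
  rw [e1, S_pow]
  have h0 : 0 < 2 ^ b := by positivity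
  exact S_odd_fst p (by rw [pow_succ]; omega)

theorem unbounded (R : ℕ) : ∃ n : ℕ, ∃ x ∈ X, ∃ y ∈ X,
    (∀ i ≤ R, x i = y i) ∧ f^[n] x 0 ≠ f^[n] y 0 := by
  by_contra hcon
  push Not at hcon
  classical
  let Φ : ℕ → ((Fin (R + 1) → Q) → Q) := fun n p =>
    if h : ∃ x ∈ X, ∀ i : Fin (R + 1), x i = p i then f^[n] h.choose 0
    else (false, false, Z)
  have hΦ : ∀ n, ∀ x ∈ X, f^[n] x 0 = Φ n (fun i => x i) := by
    intro n x hx
    have h : ∃ y ∈ X, ∀ i : Fin (R + 1), y i = x i := ⟨x, hx, fun _ => rfl⟩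
    have e : Φ n (fun i => x i) = f^[n] h.choose 0 := by
      simp only [Φ]
      rw [dif_pos h]
    rw [e]
    exact hcon n x hx _ h.choose_spec.1
      (fun i hi => (h.choose_spec.2 ⟨i, by omega⟩).symm)
  obtain ⟨n, m, hnm, he⟩ := Finite.exists_ne_map_eq_of_infinite Φ
  have key : ∀ n m, n < m → Φ n = Φ m → False := by
    intro n m hnm he
    have hall : ∀ x ∈ X, f^[n] x 0 = f^[m] x 0 := by
      intro x hx
      rw [hΦ n x hx, hΦ m x hx, he]
    obtain ⟨a, δ, hδ, hm⟩ := Nat.exists_eq_pow_mul_and_not_dvd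
      (show m - n ≠ 0 by omega) 4 (by norm_num)
    -- choose the time
    have h4 : 0 < 4 ^ a := by positivity
    have hle : n ≤ 4 ^ a * n := Nat.le_mul_of_pos_left n h4
    have h1 := hall (f^[4 ^ a * n - n] (pt a)) (f_iter_mem (pt_mem a) _)
    rw [← Function.iterate_add_apply, ← Function.iterate_add_apply] at h1
    have e1 : n + (4 ^ a * n - n) = 4 ^ a * n := by omega
    have e2 : m + (4 ^ a * n - n) = 4 ^ a * (n + δ) := by
      rw [Nat.mul_add, ← hm]
      omega
    rw [e1, e2] at h1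
    have h2 := congrArg (fun z : Q => (z.2.2.1 : ℕ)) h1
    simp only [pt_phase] at h2
    omega
  rcases Nat.lt_or_ge n m with h | h
  · exact key n m h he
  · exact key m n (by omega) he.symm

end Pool.Agent.H258R3.Slow
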