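import Mathlib

/-!
Cellular automata over monoids with a finite alphabet.  An injective cellular automaton is
controlled by a finite window (compactness), and this reduces surjectivity to a finitely generated
submonoid containing the memory set and the window.
-/

namespace Pool.Agent.H258R3

open Set

/-- If `τ` is injective on `M → A`, `A` finite, and each coordinate of `τ x` depends on finitely
many coordinates of `x`, then `x o` depends only on finitely many coordinates of `τ x`. -/
theorem finite_window {M B A : Type} [Finite A] (τ : (M → A) → (B → A))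
    (hcont : ∀ b : B, ∃ S : Finset M, ∀ x y : M → A, (∀ s ∈ S, x s = y s) → τ x b = τ y b)
    (hinj : Function.Injective τ) (o : M) :
    ∃ T : Finset B, ∀ x y : M → A, (∀ t ∈ T, τ x t = τ y t) → x o = y o := by
  classical
  letI : TopologicalSpace A := ⊥
  haveI : DiscreteTopology A := ⟨rfl⟩
  haveI : CompactSpace A := Finite.compactSpace
  -- each coordinate of τ is continuous
  have hc : ∀ b : B, Continuous fun x : M → A => τ x b := by
    intro b
    obtain ⟨S, hS⟩ := hcont b
    rw [continuous_discrete_rng]
    intro a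
    rw [isOpen_iff_forall_mem_open]
    intro x hx
    refine ⟨{y | ∀ s ∈ S, y s = x s}, ?_, ?_, fun s _ => rfl⟩
    · intro y hy
      have : τ y b = τ x b := hS y x hy
      simp only [mem_preimage, mem_singleton_iff] at hx ⊢
      rw [this, hx]
    · have : {y : M → A | ∀ s ∈ S, y s = x s} = ⋂ s ∈ S, (fun y : M → A => y s) ⁻¹' {x s} := by
        ext y; simp
      rw [this]
      refine isOpen_biInter_finset fun s _ => ?_
      exact (isOpen_discrete _).preimage (continuous_apply s)
  let K : Set ((M → A) × (M → A)) := {p | p.1 o ≠ p.2 o}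
  have hKc : IsClosed K := by
    have : K = (fun p : (M → A) × (M → A) => (p.1 o, p.2 o)) ⁻¹' {q : A × A | q.1 ≠ q.2} := rfl
    rw [this]
    exact (isClosed_discrete _).preimage
      (((continuous_apply o).comp continuous_fst).prodMk ((continuous_apply o).comp continuous_snd))
  have hK : IsCompact K := hKc.isCompact
  have hC : ∀ b : B, IsClosed {p : (M → A) × (M → A) | τ p.1 b = τ p.2 b} := fun b =>
    isClosed_eq ((hc b).comp continuous_fst) ((hc b).comp continuous_snd)
  have hemp : K ∩ ⋂ b : B, {p : (M → A) × (M → A) | τ p.1 b = τ p.2 b} = ∅ := by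
    rw [eq_empty_iff_forall_notMem]
    rintro ⟨x, y⟩ ⟨hx, hy⟩
    apply hx
    have : τ x = τ y := by
      funext b
      exact mem_iInter.mp hy b
    rw [hinj this]
  obtain ⟨T, hT⟩ := hK.elim_finite_subfamily_closed _ hC hemp
  refine ⟨T, fun x y h => ?_⟩
  by_contra hne
  have : (x, y) ∈ K ∩ ⋂ b ∈ T, {p : (M → A) × (M → A) | τ p.1 b = τ p.2 b} := by
    refine ⟨hne, ?_⟩
    simp only [mem_iInter, mem_setOf_eq]
    exact h
  rw [hT] at this
  exact this

/-- The gluing step, for the convention `τ(x)(m) = μ(s ↦ x(s m))`. -/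
theorem glue_left (M : Type) [Monoid M] (A : Type) [Finite A] (S : Finset M) (μ : (S → A) → A)
    (hinj : Function.Injective (fun (x : M → A) (m : M) => μ (fun s => x (s.1 * m))))
    (H : ∀ N : Submonoid M, N.FG → ∀ hS : ∀ s : S, s.1 ∈ N,
      Function.Injective (fun (x : N → A) (m : N) => μ (fun s => x (⟨s.1, hS s⟩ * m))) →
      Function.Surjective (fun (x : N → A) (m : N) => μ (fun s => x (⟨s.1, hS s⟩ * m)))) :
    Function.Surjective (fun (x : M → A) (m : M) => μ (fun s => x (s.1 * m))) := by
  classical
  obtain ⟨T, hT⟩ := finite_window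
    (fun (x : M → A) (m : M) => μ (fun s => x (s.1 * m)))
    (fun b => ⟨S.image (fun s => s * b), fun x y h => by
      congr 1
      funext s
      exact h _ (Finset.mem_image_of_mem _ s.2)⟩) hinj 1
  let N : Submonoid M := Submonoid.closure ((S ∪ T : Finset M) : Set M)
  have hN : N.FG := ⟨S ∪ T, rfl⟩
  have hSN : ∀ s : S, s.1 ∈ N := fun s =>
    Submonoid.subset_closure (by simp [s.2])
  have hTN : ∀ t ∈ T, t ∈ N := fun t ht =>
    Submonoid.subset_closure (by simp [ht])
  -- injectivity on the submonoid
  have hinjN : Function.Injective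
      (fun (x : N → A) (m : N) => μ (fun s => x (⟨s.1, hSN s⟩ * m))) := by
    intro y y' hyy'
    funext n
    let x : M → A := fun m => if h : m ∈ N then y ⟨m, h⟩ else y 1
    let x' : M → A := fun m => if h : m ∈ N then y' ⟨m, h⟩ else y 1
    have hx : ∀ m : N, x m.1 = y m := fun m => by simp [x, m.2]
    have hx' : ∀ m : N, x' m.1 = y' m := fun m => by simp [x', m.2]
    have key := hT (fun m => x (m * n.1)) (fun m => x' (m * n.1)) (by
      intro t ht
      have h1 := congrFun hyy' (⟨t, hTN t ht⟩ * n)
      simp only at h1 ⊢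
      have e1 : (fun s : S => x (s.1 * t * n.1)) =
          fun s : S => y (⟨s.1, hSN s⟩ * (⟨t, hTN t ht⟩ * n)) := by
        funext s
        rw [← hx]
        simp [mul_assoc]
      have e2 : (fun s : S => x' (s.1 * t * n.1)) =
          fun s : S => y' (⟨s.1, hSN s⟩ * (⟨t, hTN t ht⟩ * n)) := by
        funext s
        rw [← hx']
        simp [mul_assoc]
      rw [e1, e2]
      exact h1)
    simp only [one_mul] at key
    rw [hx, hx'] at key
    exact key
  have hsurjN := H N hN hSN hinjN
  intro z
  choose y hy using fun m : M => hsurjN (fun n : N => z (n.1 * m))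
  refine ⟨fun m => y m 1, ?_⟩
  funext m
  -- y (s m) = T_s (y m)
  have hshift : ∀ s : S, y (s.1 * m) = fun n => y m (n * ⟨s.1, hSN s⟩) := by
    intro s
    apply hinjN
    rw [hy]
    funext n
    have h2 := congrFun (hy m) (n * ⟨s.1, hSN s⟩)
    simp only at h2 ⊢
    have h3 : z (n.1 * (s.1 * m)) = z ((n * ⟨s.1, hSN s⟩ : N).1 * m) := by
      simp [mul_assoc]
    rw [h3, ← h2]
    simp only [mul_assoc]
  have h4 := congrFun (hy m) 1
  simp only at h4 ⊢
  have h5 : (fun s : S => y (s.1 * m) 1) = fun s : S => y m (⟨s.1, hSN s⟩ * 1) := by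
    funext s
    rw [hshift]
    simp
  rw [h5, h4]
  simp

/-- The gluing step, for the convention `τ(x)(m) = μ(s ↦ x(m s))`. -/
theorem glue_right (M : Type) [Monoid M] (A : Type) [Finite A] (S : Finset M) (μ : (S → A) → A)
    (hinj : Function.Injective (fun (x : M → A) (m : M) => μ (fun s => x (m * s.1))))
    (H : ∀ N : Submonoid M, N.FG → ∀ hS : ∀ s : S, s.1 ∈ N,
      Function.Injective (fun (x : N → A) (m : N) => μ (fun s => x (m * ⟨s.1, hS s⟩))) →
      Function.Surjective (fun (x : N → A) (m : N) => μ (fun s => x (m * ⟨s.1, hS s⟩)))) :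
    Function.Surjective (fun (x : M → A) (m : M) => μ (fun s => x (m * s.1))) := by
  classical
  obtain ⟨T, hT⟩ := finite_window
    (fun (x : M → A) (m : M) => μ (fun s => x (m * s.1)))
    (fun b => ⟨S.image (fun s => b * s), fun x y h => by
      congr 1
      funext s
      exact h _ (Finset.mem_image_of_mem _ s.2)⟩) hinj 1
  let N : Submonoid M := Submonoid.closure ((S ∪ T : Finset M) : Set M)
  have hN : N.FG := ⟨S ∪ T, rfl⟩
  have hSN : ∀ s : S, s.1 ∈ N := fun s =>
    Submonoid.subset_closure (by simp [s.2])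
  have hTN : ∀ t ∈ T, t ∈ N := fun t ht =>
    Submonoid.subset_closure (by simp [ht])
  have hinjN : Function.Injective
      (fun (x : N → A) (m : N) => μ (fun s => x (m * ⟨s.1, hSN s⟩))) := by
    intro y y' hyy'
    funext n
    let x : M → A := fun m => if h : m ∈ N then y ⟨m, h⟩ else y 1
    let x' : M → A := fun m => if h : m ∈ N then y' ⟨m, h⟩ else y 1
    have hx : ∀ m : N, x m.1 = y m := fun m => by simp [x, m.2]
    have hx' : ∀ m : N, x' m.1 = y' m := fun m => by simp [x', m.2]
    have key := hT (fun m => x (n.1 * m)) (fun m => x' (n.1 * m)) (by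
      intro t ht
      have h1 := congrFun hyy' (n * ⟨t, hTN t ht⟩)
      simp only at h1 ⊢
      have e1 : (fun s : S => x (n.1 * (t * s.1))) =
          fun s : S => y (n * ⟨t, hTN t ht⟩ * ⟨s.1, hSN s⟩) := by
        funext s
        rw [← hx]
        simp [mul_assoc]
      have e2 : (fun s : S => x' (n.1 * (t * s.1))) =
          fun s : S => y' (n * ⟨t, hTN t ht⟩ * ⟨s.1, hSN s⟩) := by
        funext s
        rw [← hx']
        simp [mul_assoc]
      rw [e1, e2]
      exact h1)
    simp only [mul_one] at key
    rw [hx, hx'] at key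
    exact key
  have hsurjN := H N hN hSN hinjN
  intro z
  choose y hy using fun m : M => hsurjN (fun n : N => z (m * n.1))
  refine ⟨fun m => y m 1, ?_⟩
  funext m
  have hshift : ∀ s : S, y (m * s.1) = fun n => y m (⟨s.1, hSN s⟩ * n) := by
    intro s
    apply hinjN
    rw [hy]
    funext n
    have h2 := congrFun (hy m) (⟨s.1, hSN s⟩ * n)
    simp only at h2 ⊢
    have h3 : z (m * s.1 * n.1) = z (m * (⟨s.1, hSN s⟩ * n : N).1) := by
      simp [mul_assoc]
    rw [h3, ← h2]
    simp only [mul_assoc]
  have h4 := congrFun (hy m) 1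
  simp only at h4 ⊢
  have h5 : (fun s : S => y (m * s.1) 1) = fun s : S => y m (1 * ⟨s.1, hSN s⟩) := by
    funext s
    rw [hshift]
    simp
  rw [h5, h4]
  simp

end Pool.Agent.H258R3
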