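import Pool.Agent.H258R3.WbA

/-!
Directed groups on a rooted tree of varying valency: the actions, and approximate families.
-/

set_option autoImplicit false

namespace Pool.Agent.H258R3.Wb

open Pool.Agent.H258R3.Am (fiber_count)

/-- one level: a finite set with an action of `H` -/
structure Lev (H : Type) [Group H] where
  d : ℕ
  ρ : H →* Equiv.Perm (Fin (d + 2))

variable {H : Type} [Group H]

abbrev sh (D : ℕ → Lev H) : ℕ → Lev H := fun n => D (n + 1)

abbrev X (D : ℕ → Lev H) : Type := (i : ℕ) → Fin ((D i).d + 2)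

def cons (D : ℕ → Lev H) (p : Fin ((D 0).d + 2)) (y : X (sh D)) : X D := fun i =>
  match i with
  | 0 => p
  | i + 1 => y i

def tl (D : ℕ → Lev H) (x : X D) : X (sh D) := fun i => x (i + 1)

lemma cons_tl (D : ℕ → Lev H) (x : X D) : cons D (x 0) (tl D x) = x := by
  funext i
  cases i <;> rfl

lemma tl_cons (D : ℕ → Lev H) (p : Fin ((D 0).d + 2)) (y : X (sh D)) : tl D (cons D p y) = y := rfl

lemma ext_cons (D : ℕ → Lev H) {P Q : Equiv.Perm (X D)} (h : ∀ p y, P (cons D p y) = Q (cons D p y)) :
    P = Q := by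
  ext1 x
  rw [← cons_tl D x, h]

/-- rooted permutations -/
def rt (D : ℕ → Lev H) : Equiv.Perm (Fin ((D 0).d + 2)) →* Equiv.Perm (X D) where
  toFun b := ⟨fun x => cons D (b (x 0)) (tl D x), fun x => cons D (b.symm (x 0)) (tl D x), by
    intro x
    simp only [tl_cons]
    show cons D (b.symm (b (x 0))) (tl D x) = x
    rw [Equiv.symm_apply_apply, cons_tl], by
    intro x
    simp only [tl_cons]
    show cons D (b (b.symm (x 0))) (tl D x) = x
    rw [Equiv.apply_symm_apply, cons_tl]⟩
  map_one' := by
    ext1 x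
    exact cons_tl D x
  map_mul' b b' := by
    ext1 x
    rfl

lemma rt_cons (D : ℕ → Lev H) (b : Equiv.Perm (Fin ((D 0).d + 2))) (p : Fin ((D 0).d + 2))
    (y : X (sh D)) : rt D b (cons D p y) = cons D (b p) y := rfl

def al (D : ℕ → Lev H) : H →* Equiv.Perm (X D) := (rt D).comp (D 0).ρ

lemma al_cons (D : ℕ → Lev H) (h : H) (p : Fin ((D 0).d + 2)) (y : X (sh D)) :
    al D h (cons D p y) = cons D ((D 0).ρ h p) y := rfl

/-- the place where a directed element acts -/
def hit (D : ℕ → Lev H) (x : X D) (i : ℕ) : Prop := (∀ j < i, x j = 0) ∧ x i = 1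

open Classical in
noncomputable def deF (D : ℕ → Lev H) (h : H) (x : X D) : X D := fun i =>
  match i with
  | 0 => x 0
  | i + 1 => if hit D x i then (D (i + 1)).ρ h (x (i + 1)) else x (i + 1)

lemma deF_pos (D : ℕ → Lev H) (h : H) {x : X D} {i : ℕ} (hi : hit D x i) :
    deF D h x (i + 1) = (D (i + 1)).ρ h (x (i + 1)) := by
  simp only [deF]; rw [if_pos hi]

lemma deF_neg (D : ℕ → Lev H) (h : H) {x : X D} {i : ℕ} (hi : ¬ hit D x i) :
    deF D h x (i + 1) = x (i + 1) := by
  simp only [deF]; rw [if_neg hi]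

lemma fin_ne {n : ℕ} : (0 : Fin (n + 2)) ≠ 1 := by
  intro h
  have := congrArg Fin.val h
  simp at this

lemma hit_deF (D : ℕ → Lev H) (h : H) (x : X D) (i : ℕ) : hit D (deF D h x) i ↔ hit D x i := by
  constructor
  · rintro ⟨h1, h2⟩
    have key : ∀ j, j ≤ i → deF D h x j = x j := by
      intro j
      induction j with
      | zero => intro _; rfl
      | succ k ih =>
        intro hk
        apply deF_neg
        rintro ⟨_, h4⟩
        have h5 := ih (by omega)
        rw [h1 k (by omega), h4] at h5
        exact fin_ne h5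
    exact ⟨fun j hj => by rw [← key j (by omega)]; exact h1 j hj, by rw [← key i le_rfl]; exact h2⟩
  · rintro ⟨h1, h2⟩
    have key : ∀ j, j ≤ i → deF D h x j = x j := by
      intro j hj
      cases j with
      | zero => rfl
      | succ k =>
        apply deF_neg
        rintro ⟨_, h4⟩
        rw [h1 k (by omega)] at h4
        exact fin_ne h4
    exact ⟨fun j hj => by rw [key j (by omega)]; exact h1 j hj, by rw [key i le_rfl]; exact h2⟩

lemma deF_mul (D : ℕ → Lev H) (h h' : H) (x : X D) : deF D (h * h') x = deF D h (deF D h' x) := by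
  funext i
  cases i with
  | zero => rfl
  | succ i =>
    by_cases hi : hit D x i
    · rw [deF_pos D _ hi, deF_pos D _ ((hit_deF D h' x i).2 hi), deF_pos D _ hi, map_mul]
      rfl
    · rw [deF_neg D _ hi, deF_neg D _ (fun hh => hi ((hit_deF D h' x i).1 hh)), deF_neg D _ hi]

lemma deF_one (D : ℕ → Lev H) (x : X D) : deF D 1 x = x := by
  funext i
  cases i with
  | zero => rfl
  | succ i =>
    by_cases hi : hit D x i
    · rw [deF_pos D _ hi, map_one]
      rfl
    · rw [deF_neg D _ hi]

/-- directed elements -/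
noncomputable def de (D : ℕ → Lev H) : H →* Equiv.Perm (X D) where
  toFun h := ⟨deF D h, deF D h⁻¹, by
    intro x
    rw [← deF_mul, inv_mul_cancel, deF_one], by
    intro x
    rw [← deF_mul, mul_inv_cancel, deF_one]⟩
  map_one' := by
    ext1 x
    exact deF_one D x
  map_mul' h h' := by
    ext1 x
    exact deF_mul D h h' x

lemma de_apply (D : ℕ → Lev H) (h : H) (x : X D) : de D h x = deF D h x := rfl

open Classical in
/-- the section of a directed element at a place of the first level -/
noncomputable def dsec (D : ℕ → Lev H) (h : H) (p : Fin ((D 0).d + 2)) :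
    Equiv.Perm (X (sh D)) :=
  if p = 0 then de (sh D) h else if p = 1 then al (sh D) h else 1

lemma de_cons (D : ℕ → Lev H) (h : H) (p : Fin ((D 0).d + 2)) (y : X (sh D)) :
    de D h (cons D p y) = cons D p (dsec D h p y) := by
  classical
  rw [de_apply]
  have hk : ∀ k, hit D (cons D p y) (k + 1) ↔ p = 0 ∧ hit (sh D) y k := by
    intro k
    constructor
    · rintro ⟨h1, h2⟩
      exact ⟨h1 0 (by omega), fun j hj => h1 (j + 1) (by omega), h2⟩
    · rintro ⟨h1, h2, h3⟩
      refine ⟨fun j hj => ?_, h3⟩
      cases j with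
      | zero => exact h1
      | succ j => exact h2 j (by omega)
  have h0 : hit D (cons D p y) 0 ↔ p = 1 :=
    ⟨fun hh => hh.2, fun hh => ⟨fun j hj => absurd hj (by omega), hh⟩⟩
  funext i
  cases i with
  | zero => rfl
  | succ i =>
    show deF D h (cons D p y) (i + 1) = dsec D h p y i
    unfold dsec
    cases i with
    | zero =>
      by_cases hp : p = 1
      · rw [deF_pos D h (h0.2 hp), if_neg (by rw [hp]; exact fun h => fin_ne h.symm), if_pos hp]
        rfl
      · rw [deF_neg D h (fun hh => hp (h0.1 hh))]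
        by_cases hp0 : p = 0
        · rw [if_pos hp0]; rfl
        · rw [if_neg hp0, if_neg hp]; rfl
    | succ k =>
      by_cases hp0 : p = 0
      · rw [if_pos hp0, de_apply]
        by_cases hh : hit (sh D) y k
        · rw [deF_pos D h ((hk k).2 ⟨hp0, hh⟩), deF_pos (sh D) h hh]
          rfl
        · rw [deF_neg D h (fun h' => hh ((hk k).1 h').2), deF_neg (sh D) h hh]
          rfl
      · rw [deF_neg D h (fun h' => hp0 ((hk k).1 h').1), if_neg hp0]
        by_cases hp1 : p = 1
        · rw [if_pos hp1]; rfl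
        · rw [if_neg hp1]; rfl

/-- permutations fixing the first place -/
def fib (D : ℕ → Lev H) (E : Fin ((D 0).d + 2) → Equiv.Perm (X (sh D))) : Equiv.Perm (X D) :=
  ⟨fun x => cons D (x 0) (E (x 0) (tl D x)), fun x => cons D (x 0) ((E (x 0)).symm (tl D x)), by
    intro x
    show cons D (x 0) ((E (x 0)).symm (E (x 0) (tl D x))) = x
    rw [Equiv.symm_apply_apply, cons_tl], by
    intro x
    show cons D (x 0) (E (x 0) ((E (x 0)).symm (tl D x))) = x
    rw [Equiv.apply_symm_apply, cons_tl]⟩

lemma fib_cons (D : ℕ → Lev H) (E : Fin ((D 0).d + 2) → Equiv.Perm (X (sh D)))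
    (p : Fin ((D 0).d + 2)) (y : X (sh D)) : fib D E (cons D p y) = cons D p (E p y) := rfl

lemma de_rt_fib (D : ℕ → Lev H) (h : H) (π : Equiv.Perm (Fin ((D 0).d + 2)))
    (E : Fin ((D 0).d + 2) → Equiv.Perm (X (sh D))) :
    de D h * (rt D π * fib D E) = rt D π * fib D (fun p => dsec D h (π p) * E p) := by
  apply ext_cons
  intro p y
  rw [Equiv.Perm.mul_apply, Equiv.Perm.mul_apply, fib_cons, rt_cons, de_cons,
    Equiv.Perm.mul_apply, fib_cons, rt_cons]
  rfl

/-! ### letters -/

variable {I : Type} (ι : I → H)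

/-- the letters: rooted for `false`, directed for `true` -/
noncomputable def Lt (D : ℕ → Lev H) (l : Bool × I) : Equiv.Perm (X D) :=
  if l.1 then de D (ι l.2) else al D (ι l.2)

def Approx (D : ℕ → Lev H) (ε : ℝ) : Prop :=
  ∃ (Ω : Type) (_ : Finite Ω) (_ : Nonempty Ω) (T : Ω → Equiv.Perm (X D))
    (φ : Bool × I → Ω → Ω), (∀ s, Function.Injective (φ s)) ∧
      ∀ s, (({o | Lt ι D s * T o ≠ T (φ s o)} : Set Ω).ncard : ℝ) ≤ ε * Nat.card Ω

lemma Approx_mono {D : ℕ → Lev H} {ε ε' : ℝ} (h : Approx ι D ε) (hε : ε ≤ ε') :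
    Approx ι D ε' := by
  obtain ⟨Ω, h1, h2, T, φ, h3, h4⟩ := h
  exact ⟨Ω, h1, h2, T, φ, h3, fun s => (h4 s).trans
    (mul_le_mul_of_nonneg_right hε (Nat.cast_nonneg _))⟩

theorem approx_step {D : ℕ → Lev H} {ε : ℝ} (hε : 0 ≤ ε) (h : Approx ι (sh D) ε) :
    Approx ι D (((D 0).d + 2 : ℕ) * ε) := by
  classical
  obtain ⟨Ω, hfin, hne, T, φ, hφ, herr⟩ := h
  let P := Equiv.Perm (Fin ((D 0).d + 2))
  let TT : P × (Fin ((D 0).d + 2) → Ω) → Equiv.Perm (X D) := fun o =>
    rt D o.1 * fib D (fun p => T (o.2 p))
  -- the letter applied to the tail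
  let φ' : Bool × I → P × (Fin ((D 0).d + 2) → Ω) → P × (Fin ((D 0).d + 2) → Ω) := fun s o =>
    if s.1 then (o.1, fun p => if o.1 p = 0 then φ (true, s.2) (o.2 p)
      else if o.1 p = 1 then φ (false, s.2) (o.2 p) else o.2 p)
    else ((D 0).ρ (ι s.2) * o.1, o.2)
  have hne' : Nonempty (P × (Fin ((D 0).d + 2) → Ω)) := ⟨(1, fun _ => hne.some)⟩
  refine ⟨P × (Fin ((D 0).d + 2) → Ω), inferInstance, hne', TT, φ', ?_, ?_⟩
  · rintro ⟨b, i⟩ ⟨π, f⟩ ⟨π', f'⟩ heq
    cases b
    · simp only [φ', Bool.false_eq_true, if_false, Prod.mk.injEq] at heq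
      rw [mul_left_cancel heq.1, heq.2]
    · simp only [φ', if_true, Prod.mk.injEq] at heq
      obtain ⟨h1, h2⟩ := heq
      subst h1
      refine Prod.ext rfl ?_
      funext p
      have h3 := congrFun h2 p
      split_ifs at h3
      · exact hφ _ h3
      · exact hφ _ h3
      · exact h3
  · rintro ⟨b, i⟩
    cases b
    · -- rooted letters act exactly
      have : ({o | Lt ι D (false, i) * TT o ≠ TT (φ' (false, i) o)} :
          Set (P × (Fin ((D 0).d + 2) → Ω))) = ∅ := by
        ext o
        simp only [Set.mem_setOf_eq, Set.mem_empty_iff_false, iff_false, not_not]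
        simp only [Lt, Bool.false_eq_true, if_false, TT, φ', al, MonoidHom.comp_apply]
        rw [← mul_assoc, ← map_mul]
      rw [this, Set.ncard_empty, Nat.cast_zero]
      positivity
    · have hsub : ({o | Lt ι D (true, i) * TT o ≠ TT (φ' (true, i) o)} :
          Set (P × (Fin ((D 0).d + 2) → Ω))) ⊆
          ⋃ p : Fin ((D 0).d + 2), {o | o.2 p ∈ {x : Ω |
            (o.1 p = 0 ∧ Lt ι (sh D) (true, i) * T x ≠ T (φ (true, i) x)) ∨
            (o.1 p = 1 ∧ Lt ι (sh D) (false, i) * T x ≠ T (φ (false, i) x))}} := by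
        intro o ho
        by_contra hcon
        apply ho
        have hgood : ∀ p, (o.1 p = 0 → Lt ι (sh D) (true, i) * T (o.2 p) = T (φ (true, i) (o.2 p))) ∧
            (o.1 p = 1 → Lt ι (sh D) (false, i) * T (o.2 p) = T (φ (false, i) (o.2 p))) := by
          intro p
          constructor
          · intro hp
            by_contra hne2
            apply hcon
            rw [Set.mem_iUnion]
            exact ⟨p, Or.inl ⟨hp, hne2⟩⟩
          · intro hp
            by_contra hne2
            apply hcon
            rw [Set.mem_iUnion]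
            exact ⟨p, Or.inr ⟨hp, hne2⟩⟩
        simp only [Lt, if_true, TT, φ']
        rw [de_rt_fib]
        congr 2
        funext p
        obtain ⟨h0, h1⟩ := hgood p
        simp only [Lt, if_true, Bool.false_eq_true, if_false] at h0 h1
        unfold dsec
        by_cases hp0 : o.1 p = 0
        · rw [if_pos hp0, if_pos hp0, h0 hp0]
        · rw [if_neg hp0, if_neg hp0]
          by_cases hp1 : o.1 p = 1
          · rw [if_pos hp1, if_pos hp1, h1 hp1]
          · rw [if_neg hp1, if_neg hp1, one_mul]
      have hcount : ∀ p : Fin ((D 0).d + 2), (({o | o.2 p ∈ {x : Ω |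
            (o.1 p = 0 ∧ Lt ι (sh D) (true, i) * T x ≠ T (φ (true, i) x)) ∨
            (o.1 p = 1 ∧ Lt ι (sh D) (false, i) * T x ≠ T (φ (false, i) x))}} :
            Set (P × (Fin ((D 0).d + 2) → Ω))).ncard : ℝ) ≤
            ε * Nat.card (P × (Fin ((D 0).d + 2) → Ω)) := by
        intro p
        apply fiber_count p (fun π : P => {x : Ω |
            (π p = 0 ∧ Lt ι (sh D) (true, i) * T x ≠ T (φ (true, i) x)) ∨
            (π p = 1 ∧ Lt ι (sh D) (false, i) * T x ≠ T (φ (false, i) x))}) ε
        intro π
        by_cases hp0 : π p = 0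
        · have : ({x : Ω | (π p = 0 ∧ Lt ι (sh D) (true, i) * T x ≠ T (φ (true, i) x)) ∨
              (π p = 1 ∧ Lt ι (sh D) (false, i) * T x ≠ T (φ (false, i) x))}) =
              {x : Ω | Lt ι (sh D) (true, i) * T x ≠ T (φ (true, i) x)} := by
            ext x
            simp only [hp0, Set.mem_setOf_eq, true_and]
            constructor
            · rintro (h | h)
              · exact h
              · exact absurd h.1 fin_ne
            · intro h; exact Or.inl h
          rw [this]
          exact herr _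
        · by_cases hp1 : π p = 1
          · have : ({x : Ω | (π p = 0 ∧ Lt ι (sh D) (true, i) * T x ≠ T (φ (true, i) x)) ∨
                (π p = 1 ∧ Lt ι (sh D) (false, i) * T x ≠ T (φ (false, i) x))}) =
                {x : Ω | Lt ι (sh D) (false, i) * T x ≠ T (φ (false, i) x)} := by
              ext x
              simp only [hp1, Set.mem_setOf_eq, true_and]
              constructor
              · rintro (h | h)
                · exact absurd h.1 (fun h => fin_ne h.symm)
                · exact h
              · intro h; exact Or.inr h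
            rw [this]
            exact herr _
          · have : ({x : Ω | (π p = 0 ∧ Lt ι (sh D) (true, i) * T x ≠ T (φ (true, i) x)) ∨
                (π p = 1 ∧ Lt ι (sh D) (false, i) * T x ≠ T (φ (false, i) x))}) = ∅ := by
              ext x
              simp only [hp0, hp1, Set.mem_setOf_eq, false_and, or_self, Set.mem_empty_iff_false]
            rw [this, Set.ncard_empty, Nat.cast_zero]
            positivity
      have h1 := (Set.ncard_le_ncard hsub (Set.toFinite _)).trans
        (by
          have := Finset.set_ncard_biUnion_le (Finset.univ : Finset (Fin ((D 0).d + 2)))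
            (fun p => ({o | o.2 p ∈ {x : Ω |
              (o.1 p = 0 ∧ Lt ι (sh D) (true, i) * T x ≠ T (φ (true, i) x)) ∨
              (o.1 p = 1 ∧ Lt ι (sh D) (false, i) * T x ≠ T (φ (false, i) x))}} :
              Set (P × (Fin ((D 0).d + 2) → Ω))))
          simpa using this)
      have h2 : (({o | Lt ι D (true, i) * TT o ≠ TT (φ' (true, i) o)} :
          Set (P × (Fin ((D 0).d + 2) → Ω))).ncard : ℝ) ≤
          ∑ p : Fin ((D 0).d + 2), (({o | o.2 p ∈ {x : Ω |
            (o.1 p = 0 ∧ Lt ι (sh D) (true, i) * T x ≠ T (φ (true, i) x)) ∨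
            (o.1 p = 1 ∧ Lt ι (sh D) (false, i) * T x ≠ T (φ (false, i) x))}} :
            Set (P × (Fin ((D 0).d + 2) → Ω))).ncard : ℝ) := by exact_mod_cast h1
      refine h2.trans ((Finset.sum_le_sum (fun p _ => hcount p)).trans (le_of_eq ?_))
      rw [Finset.sum_const, Finset.card_univ, Fintype.card_fin, nsmul_eq_mul]
      ring

end Pool.Agent.H258R3.Wb
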