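import Pool.Agent.H258R3.WbB

/-!
Approximate families for a directed group, from one good level and approximate families of `H`.
-/

set_option autoImplicit false

namespace Pool.Agent.H258R3.Wb

open Pool.Agent.H258R3.Am (fiber_count)

variable {H : Type} [Group H] {I : Type} (ι : I → H)

def Fam (ε : ℝ) (Ω : Type) (T : Ω → H) (σ : I → Ω → Ω) : Prop :=
  (∀ s, Function.Injective (σ s)) ∧
    ∀ s, (({o | ι s * T o ≠ T (σ s o)} : Set Ω).ncard : ℝ) ≤ ε * Nat.card Ω

def Good (L : Lev H) (ε : ℝ) : Prop :=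
  ∃ (Ω : Type) (_ : Finite Ω) (_ : Nonempty Ω) (T : Ω → H) (σ : I → Ω → Ω),
    Fam ι ε Ω T σ ∧ ∀ o o' x, L.ρ (T o) x = 1 → L.ρ (T o') x ≠ 0

theorem approx_level {D : ℕ → Lev H} {ε : ℝ} (hε : 0 < ε) (hg : Good ι (D 0) ε)
    (hH : ∀ ε' : ℝ, 0 < ε' → ∃ (Ω : Type) (_ : Finite Ω) (_ : Nonempty Ω) (T : Ω → H)
      (σ : I → Ω → Ω), Fam ι ε' Ω T σ) : Approx ι D ε := by
  classical
  obtain ⟨A0, hfinA, hneA, TA, σA, ⟨hσA, hA⟩, hsep⟩ := hg
  obtain ⟨B, hfinB, hneB, TB, σB, hσB, hB⟩ := hH (ε / ((D 0).d + 2 : ℕ)) (by positivity)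
  let K := Fin ((D 0).d + 2)
  let Q := Equiv.Perm (Fin ((sh D 0).d + 2))
  let A := A0 × (K → Q)
  let Z0 : K → Prop := fun x => ∃ o, (D 0).ρ (TA o) x = 0
  let E : A × (K → B) → K → Equiv.Perm (X (sh D)) := fun o x =>
    if Z0 x then de (sh D) (TB (o.2 x)) else rt (sh D) (o.1.2 x)
  let TT : A × (K → B) → Equiv.Perm (X D) := fun o =>
    rt D ((D 0).ρ (TA o.1.1)) * fib D (E o)
  let φ' : Bool × I → A × (K → B) → A × (K → B) := fun s o =>
    if s.1 then
      ((o.1.1, fun x => if (D 0).ρ (TA o.1.1) x = 1 then (sh D 0).ρ (ι s.2) * o.1.2 x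
        else o.1.2 x), fun x => if (D 0).ρ (TA o.1.1) x = 0 then σB s.2 (o.2 x) else o.2 x)
    else ((σA s.2 o.1.1, o.1.2), o.2)
  have hQ : Nonempty Q := ⟨1⟩
  have hneAA : Nonempty A := ⟨(hneA.some, fun _ => 1)⟩
  have hne' : Nonempty (A × (K → B)) := ⟨(hneAA.some, fun _ => hneB.some)⟩
  refine ⟨A × (K → B), inferInstance, hne', TT, φ', ?_, ?_⟩
  · rintro ⟨b, i⟩ ⟨⟨a, q⟩, f⟩ ⟨⟨a', q'⟩, f'⟩ heq
    cases b
    · simp only [φ', Bool.false_eq_true, if_false] at heq
      have h1 : σA i a = σA i a' := congrArg (fun z : A × (K → B) => z.1.1) heq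
      have h2 : q = q' := congrArg (fun z : A × (K → B) => z.1.2) heq
      have h3 : f = f' := congrArg (fun z : A × (K → B) => z.2) heq
      rw [hσA _ h1, h2, h3]
    · simp only [φ', if_true] at heq
      have h1 : a = a' := congrArg (fun z : A × (K → B) => z.1.1) heq
      subst h1
      have h2 := congrArg (fun z : A × (K → B) => z.1.2) heq
      have h3 := congrArg (fun z : A × (K → B) => z.2) heq
      have e1 : q = q' := by
        funext x
        have := congrFun h2 x
        simp only at this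
        split_ifs at this
        · exact mul_left_cancel this
        · exact this
      have e2 : f = f' := by
        funext x
        have := congrFun h3 x
        simp only at this
        split_ifs at this
        · exact hσB _ this
        · exact this
      rw [e1, e2]
  · rintro ⟨b, i⟩
    cases b
    · -- rooted letters
      have hsub : ({o | Lt ι D (false, i) * TT o ≠ TT (φ' (false, i) o)} : Set (A × (K → B))) ⊆
          (({o | ι i * TA o ≠ TA (σA i o)} : Set A0) ×ˢ (Set.univ : Set (K → Q))) ×ˢ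
            (Set.univ : Set (K → B)) := by
        intro o ho
        refine ⟨⟨?_, trivial⟩, trivial⟩
        intro hcon
        apply ho
        simp only [Lt, Bool.false_eq_true, if_false, TT, φ', al, MonoidHom.comp_apply]
        rw [← mul_assoc, ← map_mul, ← map_mul, hcon]
      have hcard : (((({o | ι i * TA o ≠ TA (σA i o)} : Set A0) ×ˢ (Set.univ : Set (K → Q))) ×ˢ
            (Set.univ : Set (K → B)) : Set (A × (K → B))).ncard : ℝ) ≤
          ε * Nat.card (A × (K → B)) := by
        rw [Set.ncard_prod, Set.ncard_prod, Set.ncard_univ, Set.ncard_univ, Nat.card_prod,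
          Nat.card_prod]
        push_cast
        have h1 := hA i
        have h2 : (0 : ℝ) ≤ (Nat.card (K → Q) : ℝ) * (Nat.card (K → B) : ℝ) := by positivity
        calc (({o | ι i * TA o ≠ TA (σA i o)} : Set A0).ncard : ℝ) * (Nat.card (K → Q) : ℝ) *
              (Nat.card (K → B) : ℝ)
            = (({o | ι i * TA o ≠ TA (σA i o)} : Set A0).ncard : ℝ) *
              ((Nat.card (K → Q) : ℝ) * (Nat.card (K → B) : ℝ)) := by ring
          _ ≤ (ε * (Nat.card A0 : ℝ)) * ((Nat.card (K → Q) : ℝ) * (Nat.card (K → B) : ℝ)) :=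
            mul_le_mul_of_nonneg_right h1 h2
          _ = _ := by ring
      refine le_trans ?_ hcard
      exact_mod_cast Set.ncard_le_ncard hsub (Set.toFinite _)
    · have hsub : ({o | Lt ι D (true, i) * TT o ≠ TT (φ' (true, i) o)} : Set (A × (K → B))) ⊆
          ⋃ p : K, {o | o.2 p ∈ {x : B | ι i * TB x ≠ TB (σB i x)}} := by
        intro o ho
        by_contra hcon
        apply ho
        have hgood : ∀ p, ι i * TB (o.2 p) = TB (σB i (o.2 p)) := by
          intro p
          by_contra hne2
          apply hcon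
          rw [Set.mem_iUnion]
          exact ⟨p, hne2⟩
        simp only [Lt, if_true, TT, φ']
        rw [de_rt_fib]
        congr 2
        funext p
        simp only [E]
        unfold dsec
        by_cases hp0 : (D 0).ρ (TA o.1.1) p = 0
        · have hz : Z0 p := ⟨o.1.1, hp0⟩
          rw [if_pos hp0, if_pos hz, if_pos hz, if_pos hp0, ← map_mul, hgood]
        · by_cases hp1 : (D 0).ρ (TA o.1.1) p = 1
          · have hz : ¬ Z0 p := by
              rintro ⟨o', ho'⟩
              exact hsep _ _ _ hp1 ho'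
            rw [if_neg hp0, if_pos hp1, if_neg hz, if_neg hz, if_pos hp1, al,
              MonoidHom.comp_apply, ← map_mul]
          · rw [if_neg hp0, if_neg hp1, if_neg hp0, if_neg hp1, one_mul]
      have hcount : ∀ p : K, (({o | o.2 p ∈ {x : B | ι i * TB x ≠ TB (σB i x)}} :
            Set (A × (K → B))).ncard : ℝ) ≤
            (ε / ((D 0).d + 2 : ℕ)) * Nat.card (A × (K → B)) := by
        intro p
        apply fiber_count p (fun _ : A => {x : B | ι i * TB x ≠ TB (σB i x)})
        intro _
        exact hB i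
      have h1 := (Set.ncard_le_ncard hsub (Set.toFinite _)).trans
        (by
          have := Finset.set_ncard_biUnion_le (Finset.univ : Finset K)
            (fun p => ({o | o.2 p ∈ {x : B | ι i * TB x ≠ TB (σB i x)}} :
              Set (A × (K → B))))
          simpa using this)
      have h2 : (({o | Lt ι D (true, i) * TT o ≠ TT (φ' (true, i) o)} :
          Set (A × (K → B))).ncard : ℝ) ≤
          ∑ p : K, (({o | o.2 p ∈ {x : B | ι i * TB x ≠ TB (σB i x)}} :
            Set (A × (K → B))).ncard : ℝ) := by exact_mod_cast h1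
      refine h2.trans ((Finset.sum_le_sum (fun p _ => hcount p)).trans (le_of_eq ?_))
      rw [Finset.sum_const, Finset.card_univ, Fintype.card_fin, nsmul_eq_mul]
      have : (((D 0).d + 2 : ℕ) : ℝ) ≠ 0 := by positivity
      field_simp

/-- a good level somewhere gives approximate families at the top -/
theorem approx_deep (ε : ℝ) (hε : 0 < ε)
    (hH : ∀ ε' : ℝ, 0 < ε' → ∃ (Ω : Type) (_ : Finite Ω) (_ : Nonempty Ω) (T : Ω → H)
      (σ : I → Ω → Ω), Fam ι ε' Ω T σ) :
    ∀ (n : ℕ) (D : ℕ → Lev H), Good ι (D n) (ε / (∏ i ∈ Finset.range n, ((D i).d + 2) : ℕ)) →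
      Approx ι D ε := by
  intro n
  induction n generalizing ε with
  | zero =>
    intro D hg
    simp only [Finset.range_zero, Finset.prod_empty, Nat.cast_one, div_one] at hg
    exact approx_level ι hε hg hH
  | succ n ih =>
    intro D hg
    have hpos : (0 : ℝ) < ((D 0).d + 2 : ℕ) := by positivity
    have h1 : Approx ι (sh D) (ε / ((D 0).d + 2 : ℕ)) := by
      apply ih (ε / ((D 0).d + 2 : ℕ)) (by positivity)
      have : (∏ i ∈ Finset.range (n + 1), ((D i).d + 2) : ℕ) =
          (∏ i ∈ Finset.range n, ((sh D i).d + 2)) * ((D 0).d + 2) :=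
        Finset.prod_range_succ' _ _
      rw [this] at hg
      have h2 : ε / ((D 0).d + 2 : ℕ) / (∏ i ∈ Finset.range n, ((sh D i).d + 2) : ℕ) =
          ε / (((∏ i ∈ Finset.range n, ((sh D i).d + 2)) * ((D 0).d + 2) : ℕ) : ℝ) := by
        rw [div_div, Nat.cast_mul, mul_comm]
      rw [h2]
      exact hg
    have h3 := approx_step ι (by positivity) h1
    refine Approx_mono ι h3 (le_of_eq ?_)
    field_simp

end Pool.Agent.H258R3.Wb
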