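import Pool.Agent.H258R3.WbC

/-!
The directed group: prefix preservation, transitivity on levels, rigid stabilisers, words.
-/

set_option autoImplicit false

namespace Pool.Agent.H258R3.Wb

variable {H : Type} [Group H]

/-- the directed group -/
def GG (D : ℕ → Lev H) : Subgroup (Equiv.Perm (X D)) :=
  Subgroup.closure (Set.range (al D) ∪ Set.range (de D))

lemma al_mem (D : ℕ → Lev H) (h : H) : al D h ∈ GG D :=
  Subgroup.subset_closure (Or.inl ⟨h, rfl⟩)

lemma de_mem (D : ℕ → Lev H) (h : H) : de D h ∈ GG D :=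
  Subgroup.subset_closure (Or.inr ⟨h, rfl⟩)

/-- prefix preservation -/
def Tr (D : ℕ → Lev H) (g : Equiv.Perm (X D)) : Prop :=
  ∀ (x y : X D) (n : ℕ), (∀ i < n, x i = y i) → ∀ i < n, g x i = g y i

lemma Tr_al (D : ℕ → Lev H) (h : H) : Tr D (al D h) := by
  intro x y n hxy i hi
  rw [← cons_tl D x, ← cons_tl D y, al_cons, al_cons]
  cases i with
  | zero =>
    show (D 0).ρ h (x 0) = (D 0).ρ h (y 0)
    rw [hxy 0 hi]
  | succ i => exact hxy (i + 1) hi

lemma hit_congr (D : ℕ → Lev H) {x y : X D} {i : ℕ} (h : ∀ j ≤ i, x j = y j) :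
    hit D x i ↔ hit D y i := by
  unfold hit
  constructor
  · rintro ⟨h1, h2⟩
    exact ⟨fun j hj => by rw [← h j hj.le]; exact h1 j hj, by rw [← h i le_rfl]; exact h2⟩
  · rintro ⟨h1, h2⟩
    exact ⟨fun j hj => by rw [h j hj.le]; exact h1 j hj, by rw [h i le_rfl]; exact h2⟩

lemma Tr_de (D : ℕ → Lev H) (h : H) : Tr D (de D h) := by
  intro x y n hxy i hi
  rw [de_apply, de_apply]
  cases i with
  | zero => exact hxy 0 hi
  | succ i =>
    have hc : hit D x i ↔ hit D y i := hit_congr D (fun j hj => hxy j (by omega))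
    by_cases hh : hit D x i
    · rw [deF_pos D h hh, deF_pos D h (hc.1 hh), hxy _ hi]
    · rw [deF_neg D h hh, deF_neg D h (fun h' => hh (hc.2 h')), hxy _ hi]

lemma Tr_mem' (D : ℕ → Lev H) {g : Equiv.Perm (X D)} (hg : g ∈ GG D) : Tr D g ∧ Tr D g⁻¹ := by
  induction hg using Subgroup.closure_induction with
  | mem x hx =>
    rcases hx with ⟨h, rfl⟩ | ⟨h, rfl⟩
    · refine ⟨Tr_al D h, ?_⟩
      rw [← map_inv]
      exact Tr_al D _
    · refine ⟨Tr_de D h, ?_⟩
      rw [← map_inv]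
      exact Tr_de D _
  | one => exact ⟨fun x y n h => h, by rw [inv_one]; exact fun x y n h => h⟩
  | mul x y _ _ hx hy =>
    refine ⟨fun u v n h => hx.1 _ _ n (hy.1 u v n h), ?_⟩
    rw [mul_inv_rev]
    exact fun u v n h => hy.2 _ _ n (hx.2 u v n h)
  | inv x _ hx =>
    rw [inv_inv]
    exact ⟨hx.2, hx.1⟩

lemma lift_mem (D : ℕ → Lev H) {t : H} (ht : (D 0).ρ t 0 = 1) {γ : Equiv.Perm (X (sh D))}
    (hγ : γ ∈ GG (sh D)) : ∃ g ∈ GG D, ∀ z, g (cons D 0 z) = cons D 0 (γ z) := by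
  induction hγ using Subgroup.closure_induction with
  | mem x hx =>
    rcases hx with ⟨h, rfl⟩ | ⟨h, rfl⟩
    · refine ⟨(al D t)⁻¹ * de D h * al D t, mul_mem (mul_mem (inv_mem (al_mem D t)) (de_mem D h))
        (al_mem D t), fun z => ?_⟩
      rw [Equiv.Perm.mul_apply, Equiv.Perm.mul_apply, al_cons, ht, de_cons, dsec,
        if_neg (fun hh => fin_ne hh.symm), if_pos rfl, ← ht, ← al_cons]
      exact Equiv.symm_apply_apply _ _
    · refine ⟨de D h, de_mem D h, fun z => ?_⟩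
      rw [de_cons, dsec, if_pos rfl]
  | one => exact ⟨1, one_mem _, fun z => rfl⟩
  | mul x y _ _ hx hy =>
    obtain ⟨g, hg, hgz⟩ := hx
    obtain ⟨g', hg', hgz'⟩ := hy
    refine ⟨g * g', mul_mem hg hg', fun z => ?_⟩
    rw [Equiv.Perm.mul_apply, hgz', hgz]
    rfl
  | inv x _ hx =>
    obtain ⟨g, hg, hgz⟩ := hx
    refine ⟨g⁻¹, inv_mem hg, fun z => ?_⟩
    have h1 := hgz (x⁻¹ z)
    have h2 : x (x⁻¹ z) = z := Equiv.apply_symm_apply _ _
    rw [h2] at h1
    rw [← h1]
    exact Equiv.symm_apply_apply _ _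

def TransL (L : Lev H) : Prop := ∀ a b, ∃ h, L.ρ h a = b

theorem trans_levels : ∀ (n : ℕ) (D : ℕ → Lev H), (∀ n, TransL (D n)) → ∀ x y : X D,
    ∃ g ∈ GG D, ∀ i < n, g x i = y i := by
  intro n
  induction n with
  | zero => intro D _ x y; exact ⟨1, one_mem _, fun i hi => absurd hi (by omega)⟩
  | succ n ih =>
    intro D hD x y
    obtain ⟨h, hh⟩ := hD 0 (x 0) 0
    obtain ⟨h', hh'⟩ := hD 0 0 (y 0)
    obtain ⟨t, ht⟩ := hD 0 0 1
    obtain ⟨γ, hγ, hγz⟩ := ih (sh D) (fun n => hD (n + 1)) (tl D x) (tl D y)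
    obtain ⟨g, hg, hgz⟩ := lift_mem D ht hγ
    refine ⟨al D h' * g * al D h, mul_mem (mul_mem (al_mem D h') hg) (al_mem D h), ?_⟩
    intro i hi
    have e : (al D h' * g * al D h) x = cons D (y 0) (γ (tl D x)) := by
      rw [Equiv.Perm.mul_apply, Equiv.Perm.mul_apply]
      conv_lhs => rw [← cons_tl D x]
      rw [al_cons, hh, hgz, al_cons, hh']
    rw [e]
    cases i with
    | zero => rfl
    | succ i => exact hγz i (by omega)

/-- eventual faithfulness of the level actions -/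
def Faith (D : ℕ → Lev H) : Prop := ∀ h : H, h ≠ 1 → ∃ n0, ∀ n ≥ n0, (D n).ρ h ≠ 1

lemma de_ne_one (D : ℕ → Lev H) {h : H} {k : ℕ} (hk : (D (k + 1)).ρ h ≠ 1) : de D h ≠ 1 := by
  intro hcon
  apply hk
  ext1 a
  let x : X D := fun i => if i < k then 0 else if i = k then 1 else
    if hi : i = k + 1 then hi ▸ a else 0
  have hx : hit D x k := by
    refine ⟨fun j hj => ?_, ?_⟩
    · simp only [x]; rw [if_pos hj]
    · simp only [x]; rw [if_neg (lt_irrefl _), if_pos trivial]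
  have hx1 : x (k + 1) = a := by
    simp only [x]
    rw [if_neg (by omega), if_neg (by omega), dif_pos trivial]
  have h1 := deF_pos D h hx
  rw [← de_apply, hcon, hx1] at h1
  rw [← h1]
  show x (k + 1) = a
  exact hx1

theorem rist_ne (D : ℕ → Lev H) [Infinite H] (hf : Faith D) (hD : ∀ n, TransL (D n)) (z : X D)
    (n : ℕ) : ∃ g ∈ GG D, g ≠ 1 ∧ ∀ x : X D, (∃ i < n, x i ≠ z i) → g x = x := by
  classical
  -- an element acting trivially on the first levels
  obtain ⟨h, hh1, hh2⟩ : ∃ h : H, h ≠ 1 ∧ ∀ i ≤ n, (D i).ρ h = 1 := by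
    let f : H → ((i : Fin (n + 1)) → Equiv.Perm (Fin ((D i).d + 2))) := fun h i => (D i).ρ h
    have hf : ¬ Function.Injective f := not_injective_infinite_finite f
    rw [Function.Injective] at hf
    push Not at hf
    obtain ⟨a, b, hab, hne⟩ := hf
    refine ⟨a * b⁻¹, ?_, ?_⟩
    · intro hcon
      exact hne (mul_inv_eq_one.1 hcon)
    · intro i hi
      have h1 := congrFun hab ⟨i, by omega⟩
      simp only [f] at h1
      rw [map_mul, map_inv, h1, mul_inv_cancel]
  obtain ⟨n0, hn0⟩ := hf h hh1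
  have hne : de D h ≠ 1 := de_ne_one D (hn0 (n0 + 1) (by omega))
  have hsupp : ∀ x : X D, (∃ i < n, x i ≠ 0) → de D h x = x := by
    rintro x ⟨j, hj, hjx⟩
    rw [de_apply]
    funext i
    cases i with
    | zero => rfl
    | succ i =>
      by_cases hi : hit D x i
      · have hij : i ≤ j := by
          by_contra hlt
          exact hjx (hi.1 j (by omega))
        rw [deF_pos D h hi, hh2 (i + 1) (by omega)]
        rfl
      · rw [deF_neg D h hi]
  obtain ⟨g0, hg0, hg0z⟩ := trans_levels n D hD z (fun _ => 0)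
  refine ⟨g0⁻¹ * de D h * g0, mul_mem (mul_mem (inv_mem hg0) (de_mem D h)) hg0, ?_, ?_⟩
  · intro hcon
    apply hne
    have : de D h = g0 * (g0⁻¹ * de D h * g0) * g0⁻¹ := by group
    rw [this, hcon, mul_one, mul_inv_cancel]
  · rintro x ⟨i, hi, hxi⟩
    have h1 : de D h (g0 x) = g0 x := by
      apply hsupp
      by_contra hcon
      push Not at hcon
      have h2 := (Tr_mem' D hg0).2 (g0 x) (g0 z) n (fun i hi => by rw [hcon i hi, hg0z i hi]) i hi
      have e1 : g0⁻¹ (g0 x) = x := Equiv.symm_apply_apply _ _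
      have e2 : g0⁻¹ (g0 z) = z := Equiv.symm_apply_apply _ _
      rw [e1, e2] at h2
      exact hxi h2
    rw [Equiv.Perm.mul_apply, Equiv.Perm.mul_apply, h1]
    exact Equiv.symm_apply_apply _ _

/-! ### words -/

variable {I : Type} (ι : I → H)

lemma Lt_true (D : ℕ → Lev H) (i : I) : Lt ι D (true, i) = de D (ι i) := by simp [Lt]

lemma Lt_false (D : ℕ → Lev H) (i : I) : Lt ι D (false, i) = al D (ι i) := by simp [Lt]

lemma Lt_mem (D : ℕ → Lev H) (s : Bool × I) : Lt ι D s ∈ GG D := by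
  obtain ⟨b, i⟩ := s
  cases b
  · rw [Lt_false]; exact al_mem D _
  · rw [Lt_true]; exact de_mem D _

lemma Lt_inv (D : ℕ → Lev H) (inv : I → I) (hinv : ∀ i, ι (inv i) * ι i = 1) (s : Bool × I) :
    Lt ι D (s.1, inv s.2) * Lt ι D s = 1 := by
  obtain ⟨b, i⟩ := s
  cases b
  · rw [Lt_false, Lt_false, ← map_mul, hinv, map_one]
  · rw [Lt_true, Lt_true, ← map_mul, hinv, map_one]

lemma words (D : ℕ → Lev H) (inv : I → I) (hinv : ∀ i, ι (inv i) * ι i = 1)
    (hw : ∀ h : H, ∃ w : List I, (w.map ι).prod = h) {g : Equiv.Perm (X D)} (hg : g ∈ GG D) :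
    ∃ w : List (Bool × I), (w.map (Lt ι D)).prod = g := by
  induction hg using Subgroup.closure_induction with
  | mem x hx =>
    rcases hx with ⟨h, rfl⟩ | ⟨h, rfl⟩
    · obtain ⟨w, rfl⟩ := hw h
      refine ⟨w.map (fun i => (false, i)), ?_⟩
      rw [List.map_map, map_list_prod, List.map_map]
      congr 1
    · obtain ⟨w, rfl⟩ := hw h
      refine ⟨w.map (fun i => (true, i)), ?_⟩
      rw [List.map_map, map_list_prod, List.map_map]
      congr 1
  | one => exact ⟨[], rfl⟩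
  | mul x y _ _ hx hy =>
    obtain ⟨w, rfl⟩ := hx
    obtain ⟨w', rfl⟩ := hy
    exact ⟨w ++ w', by rw [List.map_append, List.prod_append]⟩
  | inv x hx' hx =>
    clear hx'
    obtain ⟨w, rfl⟩ := hx
    refine ⟨(w.map (fun s => (s.1, inv s.2))).reverse, ?_⟩
    apply eq_inv_of_mul_eq_one_left
    induction w with
    | nil => simp
    | cons s u ih =>
      rw [List.map_cons, List.reverse_cons, List.map_append, List.prod_append, List.map_cons,
        List.prod_cons, List.map_cons, List.prod_cons, List.map_nil, List.prod_nil, mul_one]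
      rw [mul_assoc, ← mul_assoc (Lt ι D (s.1, inv s.2)), Lt_inv ι D inv hinv, one_mul, ih]

theorem mean_of (D : ℕ → Lev H) (inv : I → I) (hinv : ∀ i, ι (inv i) * ι i = 1)
    (hw : ∀ h : H, ∃ w : List I, (w.map ι).prod = h)
    (happ : ∀ ε : ℝ, 0 < ε → Approx ι D ε) :
    ∃ m : Set (GG D) → ℝ, (∀ A, 0 ≤ m A) ∧ m Set.univ = 1 ∧
        (∀ A B, Disjoint A B → m (A ∪ B) = m A + m B) ∧
        (∀ (g : GG D) (A : Set (GG D)), m ((fun h : GG D => g * h) '' A) = m A) := by
  have hcoe : ∀ w : List (Bool × I), ((w.map (fun s => (⟨Lt ι D s, Lt_mem ι D s⟩ : GG D))).prod :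
      Equiv.Perm (X D)) = (w.map (Lt ι D)).prod := by
    intro w
    induction w with
    | nil => rfl
    | cons s w ih => rw [List.map_cons, List.prod_cons, List.map_cons, List.prod_cons,
        Subgroup.coe_mul, ih]
  refine exists_mean (fun s : Bool × I => (s.1, inv s.2)) (Lt ι D)
    (fun s => (⟨Lt ι D s, Lt_mem ι D s⟩ : GG D)) (Lt_inv ι D inv hinv) ?_ ?_ ?_ happ
  · intro s
    exact Subtype.ext (Lt_inv ι D inv hinv s)
  · rintro ⟨x, hx⟩
    obtain ⟨w, hw'⟩ := words ι D inv hinv hw hx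
    refine ⟨w, Subtype.ext ?_⟩
    rw [hcoe, hw']
  · intro w w' h
    apply Subtype.ext
    rw [hcoe, hcoe, h]

end Pool.Agent.H258R3.Wb
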