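import Pool.Agent.H258R3.WbD

/-!
Germs of the directed group at the zero ray, and harmonic functions pulled back from germs.
-/

set_option autoImplicit false

namespace Pool.Agent.H258R3.Wb

variable {H : Type} [Group H]

abbrev ze (D : ℕ → Lev H) : X D := fun _ => 0

def Germ (D : ℕ → Lev H) (g : Equiv.Perm (X D)) (κ : H) : Prop :=
  ∃ N : ℕ, ∀ x : X D, (∀ i < N, x i = 0) →
    (∀ i < N, g x i = g (ze D) i) ∧ (∀ i ≥ N, g x i = de D κ x i)

lemma de_low (D : ℕ → Lev H) (κ : H) {x : X D} {N : ℕ} (hx : ∀ i < N, x i = 0) :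
    ∀ i ≤ N, de D κ x i = x i := by
  intro i hi
  rw [de_apply]
  cases i with
  | zero => rfl
  | succ i =>
    apply deF_neg
    rintro ⟨_, h2⟩
    rw [hx i (by omega)] at h2
    exact fin_ne h2

lemma de_ze (D : ℕ → Lev H) (κ : H) : de D κ (ze D) = ze D := by
  funext i
  exact de_low D κ (N := i) (fun _ _ => rfl) i le_rfl

lemma Germ_bound {D : ℕ → Lev H} {g : Equiv.Perm (X D)} {κ : H} {N : ℕ}
    (h : ∀ x : X D, (∀ i < N, x i = 0) →
      (∀ i < N, g x i = g (ze D) i) ∧ (∀ i ≥ N, g x i = de D κ x i)) {N' : ℕ} (hN : N ≤ N')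
    (x : X D) (hx : ∀ i < N', x i = 0) :
    (∀ i < N', g x i = g (ze D) i) ∧ (∀ i ≥ N', g x i = de D κ x i) := by
  obtain ⟨h1, h2⟩ := h x (fun i hi => hx i (by omega))
  obtain ⟨_, h4⟩ := h (ze D) (fun i _ => rfl)
  refine ⟨fun i hi => ?_, fun i hi => h2 i (by omega)⟩
  by_cases hiN : i < N
  · exact h1 i hiN
  · rw [h2 i (by omega), h4 i (by omega), de_ze, de_low D κ hx i hi.le, hx i hi]

lemma Germ_de (D : ℕ → Lev H) (h : H) : Germ D (de D h) h :=
  ⟨0, fun _ _ => ⟨fun i hi => absurd hi (by omega), fun _ _ => rfl⟩⟩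

lemma Germ_one (D : ℕ → Lev H) : Germ D 1 1 := by
  have := Germ_de D (1 : H)
  rwa [map_one] at this

lemma Germ_al {D : ℕ → Lev H} {g : Equiv.Perm (X D)} {κ : H} (s : H) (h : Germ D g κ) :
    Germ D (al D s * g) κ := by
  obtain ⟨N, hN⟩ := h
  refine ⟨N + 1, fun x hx => ?_⟩
  obtain ⟨h1, h2⟩ := Germ_bound hN (Nat.le_succ N) x hx
  refine ⟨fun i hi => ?_, fun i hi => ?_⟩
  · cases i with
    | zero =>
      show (D 0).ρ s (g x 0) = (D 0).ρ s (g (ze D) 0)
      rw [h1 0 hi]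
    | succ i => exact h1 (i + 1) hi
  · cases i with
    | zero => exact absurd hi (by omega)
    | succ i => exact h2 (i + 1) hi

lemma Germ_de_fix {D : ℕ → Lev H} {g : Equiv.Perm (X D)} {κ : H} (s : H) (h : Germ D g κ)
    (hg : g (ze D) = ze D) : Germ D (de D s * g) (s * κ) := by
  obtain ⟨N, hN⟩ := h
  refine ⟨N, fun x hx => ?_⟩
  obtain ⟨h1, h2⟩ := hN x hx
  have e : g x = de D κ x := by
    funext i
    by_cases hi : i < N
    · rw [h1 i hi, hg, de_low D κ hx i hi.le, hx i hi]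
    · exact h2 i (by omega)
  have e2 : (de D s * g) x = de D (s * κ) x := by
    rw [Equiv.Perm.mul_apply, e, map_mul, Equiv.Perm.mul_apply]
  have e3 : (de D s * g) (ze D) = ze D := by
    rw [Equiv.Perm.mul_apply, hg, de_ze]
  refine ⟨fun i hi => ?_, fun i hi => ?_⟩
  · rw [e2, e3, de_low D _ hx i hi.le, hx i hi]
  · rw [e2]

lemma Germ_de_nfix {D : ℕ → Lev H} {g : Equiv.Perm (X D)} {κ : H} (s : H) (h : Germ D g κ)
    (hg : g (ze D) ≠ ze D) : Germ D (de D s * g) κ := by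
  obtain ⟨N, hN⟩ := h
  obtain ⟨j, hj⟩ : ∃ j, g (ze D) j ≠ 0 := by
    by_contra hcon
    push Not at hcon
    exact hg (funext hcon)
  have hjN : j < N := by
    by_contra hlt
    apply hj
    obtain ⟨_, h2⟩ := hN (ze D) (fun i _ => rfl)
    rw [h2 j (by omega), de_ze]
  refine ⟨N + 1, fun x hx => ?_⟩
  obtain ⟨h1, h2⟩ := Germ_bound hN (Nat.le_succ N) x hx
  refine ⟨fun i hi => Tr_de D s (g x) (g (ze D)) (N + 1) h1 i hi, fun i hi => ?_⟩
  cases i with
  | zero => exact absurd hi (by omega)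
  | succ k =>
    rw [← h2 (k + 1) hi]
    show deF D s (g x) (k + 1) = g x (k + 1)
    apply deF_neg
    rintro ⟨h3, _⟩
    apply hj
    rw [← h1 j (by omega)]
    exact h3 j (by omega)

lemma Germ_unique {D : ℕ → Lev H} (hf : Faith D) {g : Equiv.Perm (X D)} {κ κ' : H}
    (h : Germ D g κ) (h' : Germ D g κ') : κ = κ' := by
  by_contra hne
  have hne' : κ⁻¹ * κ' ≠ 1 := fun hh => hne (inv_mul_eq_one.1 hh)
  obtain ⟨n0, hn0⟩ := hf _ hne'
  obtain ⟨N, hN⟩ := h
  obtain ⟨N', hN'⟩ := h'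
  let k := N + N' + n0
  apply hn0 (k + 1) (by omega)
  rw [map_mul, map_inv, inv_mul_eq_one]
  ext1 a
  let x : X D := fun i => if i < k then 0 else if i = k then 1 else
    if hi : i = k + 1 then hi ▸ a else 0
  have hx0 : ∀ i < k, x i = 0 := by
    intro j hj
    simp only [x]; rw [if_pos hj]
  have hx : hit D x k := by
    refine ⟨hx0, ?_⟩
    simp only [x]; rw [if_neg (lt_irrefl _), if_pos trivial]
  have hx1 : x (k + 1) = a := by
    simp only [x]
    rw [if_neg (by omega), if_neg (by omega), dif_pos trivial]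
  have e1 := (hN x (fun i hi => hx0 i (by omega))).2 (k + 1) (by omega)
  have e2 := (hN' x (fun i hi => hx0 i (by omega))).2 (k + 1) (by omega)
  rw [de_apply, deF_pos D _ hx, hx1] at e1 e2
  rw [← e1, ← e2]

variable {I : Type} (ι : I → H)

lemma Germ_exists (D : ℕ → Lev H) (w : List (Bool × I)) :
    ∃ κ, Germ D (w.map (Lt ι D)).prod κ := by
  induction w with
  | nil => exact ⟨1, Germ_one D⟩
  | cons s w ih =>
    obtain ⟨κ, hκ⟩ := ih
    rw [List.map_cons, List.prod_cons]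
    obtain ⟨b, i⟩ := s
    cases b
    · rw [Lt_false]
      exact ⟨κ, Germ_al _ hκ⟩
    · rw [Lt_true]
      by_cases hg : (w.map (Lt ι D)).prod (ze D) = ze D
      · exact ⟨_, Germ_de_fix _ hκ hg⟩
      · exact ⟨_, Germ_de_nfix _ hκ hg⟩

/-- the group element of a letter -/
noncomputable def Lg (D : ℕ → Lev H) (s : Bool × I) : GG D := ⟨Lt ι D s, Lt_mem ι D s⟩

theorem harmonic (D : ℕ → Lev H) (inv : I → I) (hinv : ∀ i, ι (inv i) * ι i = 1)
    (hw : ∀ h : H, ∃ w : List I, (w.map ι).prod = h) (hf : Faith D) [Fintype I] (ν : I → ℝ)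
    (hν : ∑ i, ν i = 1) (F : H → ℝ) (hF : ∀ h, F h = ∑ i, ν i * F (h * ι i))
    (hb : ∃ C, ∀ h, |F h| ≤ C) (hne : ∃ h h', F h ≠ F h') :
    ∃ f : GG D → ℝ, (∃ C, ∀ g, |f g| ≤ C) ∧ (∃ g g', f g ≠ f g') ∧
      ∀ g, f g = ∑ s : Bool × I, ν s.2 / 2 * f (g * Lg ι D s) := by
  have hex : ∀ g : GG D, ∃ κ, Germ D (g : Equiv.Perm (X D)) κ := by
    intro g
    obtain ⟨w, hw'⟩ := words ι D inv hinv hw g.2
    rw [← hw']
    exact Germ_exists ι D w
  choose κ hκ using hex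
  obtain ⟨C, hC⟩ := hb
  obtain ⟨h1, h2, hne⟩ := hne
  have hde : ∀ h : H, F (κ (⟨de D h, de_mem D h⟩ : GG D)⁻¹)⁻¹ = F h := by
    intro h
    have e : κ (⟨de D h, de_mem D h⟩ : GG D)⁻¹ = h⁻¹ := by
      apply Germ_unique hf (hκ _)
      show Germ D (de D h)⁻¹ h⁻¹
      rw [← map_inv]
      exact Germ_de D _
    rw [e, inv_inv]
  refine ⟨fun g => F (κ g⁻¹)⁻¹, ⟨C, fun g => hC _⟩,
    ⟨⟨de D h1, de_mem D h1⟩, ⟨de D h2, de_mem D h2⟩, ?_⟩, ?_⟩
  · simp only
    rw [hde, hde]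
    exact hne
  · intro g
    have hfalse : ∀ i, κ (g * Lg ι D (false, i))⁻¹ = κ g⁻¹ := by
      intro i
      apply Germ_unique hf (hκ _)
      have : (((g * Lg ι D (false, i))⁻¹ : GG D) : Equiv.Perm (X D)) =
          al D (ι i)⁻¹ * ((g⁻¹ : GG D) : Equiv.Perm (X D)) := by
        rw [mul_inv_rev, Subgroup.coe_mul, map_inv]
        congr 1
      rw [this]
      exact Germ_al _ (hκ _)
    have hcoe : ∀ i, (((g * Lg ι D (true, i))⁻¹ : GG D) : Equiv.Perm (X D)) =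
          de D (ι i)⁻¹ * ((g⁻¹ : GG D) : Equiv.Perm (X D)) := by
      intro i
      rw [mul_inv_rev, Subgroup.coe_mul, map_inv]
      congr 1
    rw [Fintype.sum_prod_type, Fintype.sum_bool]
    simp only [hfalse]
    have hs : ∀ c : ℝ, ∑ i, ν i / 2 * c = c / 2 := by
      intro c
      rw [← Finset.sum_mul, ← Finset.sum_div, hν]
      ring
    rw [hs]
    by_cases hg : ((g⁻¹ : GG D) : Equiv.Perm (X D)) (ze D) = ze D
    · have htrue : ∀ i, κ (g * Lg ι D (true, i))⁻¹ = (ι i)⁻¹ * κ g⁻¹ := by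
        intro i
        apply Germ_unique hf (hκ _)
        rw [hcoe]
        exact Germ_de_fix _ (hκ _) hg
      have : ∑ i, ν i / 2 * F (κ (g * Lg ι D (true, i))⁻¹)⁻¹ = F (κ g⁻¹)⁻¹ / 2 := by
        rw [hF (κ g⁻¹)⁻¹, Finset.sum_div]
        refine Finset.sum_congr rfl fun i _ => ?_
        rw [htrue, mul_inv_rev, inv_inv]
        ring
      rw [this]
      ring
    · have htrue : ∀ i, κ (g * Lg ι D (true, i))⁻¹ = κ g⁻¹ := by
        intro i
        apply Germ_unique hf (hκ _)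
        rw [hcoe]
        exact Germ_de_nfix _ (hκ _) hg
      simp only [htrue]
      rw [hs]
      ring

end Pool.Agent.H258R3.Wb
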