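import Pool.Agent.H258R3.WbE

/-!
The main construction, from a finitely generated group with suitable finite actions.
-/

set_option autoImplicit false

namespace Pool.Agent.H258R3.Wb

/-- The boundary of the spherically homogeneous rooted tree in which the vertices of level `n`
have `d n + 2` children. -/
abbrev Ray (d : ℕ → ℕ) : Type := (n : ℕ) → Fin (d n + 2)

/-- `g` is (the boundary action of) an automorphism of the rooted tree: two rays share their first
`n` vertices exactly when their images do. -/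
def IsTreeAut (d : ℕ → ℕ) (g : Equiv.Perm (Ray d)) : Prop :=
  ∀ (x y : Ray d) (n : ℕ), (∀ i < n, x i = y i) ↔ (∀ i < n, g x i = g y i)

/-- `G` is a weakly branch group of automorphisms of the rooted tree: it is transitive on every
level and all its rigid stabilisers of vertices are nontrivial. -/
def WeaklyBranch (d : ℕ → ℕ) (G : Subgroup (Equiv.Perm (Ray d))) : Prop :=
  (∀ g ∈ G, IsTreeAut d g) ∧
  (∀ (n : ℕ) (x y : Ray d), ∃ g ∈ G, ∀ i < n, g x i = y i) ∧
  (∀ (n : ℕ) (z : Ray d), ∃ g ∈ G, g ≠ 1 ∧ ∀ x : Ray d, (∃ i < n, x i ≠ z i) → g x = x)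

/-- There is a finitely additive left-invariant probability on all subsets of `G`. -/
def Amenable (G : Type) [Group G] : Prop :=
  ∃ m : Set G → ℝ, (∀ A, 0 ≤ m A) ∧ m Set.univ = 1 ∧
    (∀ A B, Disjoint A B → m (A ∪ B) = m A + m B) ∧
    (∀ (g : G) (A : Set G), m ((fun h : G => g * h) '' A) = m A)

variable {H : Type} [Group H] {I : Type} (ι : I → H)

lemma Good_mono {L : Lev H} {ε ε' : ℝ} (h : Good ι L ε) (hε : ε ≤ ε') : Good ι L ε' := by
  obtain ⟨Ω, h1, h2, T, σ, ⟨h3, h4⟩, h5⟩ := h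
  exact ⟨Ω, h1, h2, T, σ, ⟨h3, fun s => (h4 s).trans
    (mul_le_mul_of_nonneg_right hε (Nat.cast_nonneg _))⟩, h5⟩

theorem exists_seq [Countable H]
    (hQ : ∀ ε : ℝ, 0 < ε → ∀ Fs : Finset H, (1 : H) ∉ Fs → ∃ L : Lev H, Good ι L ε ∧ TransL L ∧
      ∀ h ∈ Fs, L.ρ h ≠ 1) :
    ∃ D : ℕ → Lev H, (∀ ε : ℝ, 0 < ε → Approx ι D ε) ∧ (∀ n, TransL (D n)) ∧ Faith D := by
  classical
  obtain ⟨e, he⟩ := exists_surjective_nat H
  let Fs : ℕ → Finset H := fun n => ((Finset.range n).image e).filter (fun h => h ≠ 1)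
  have hFs : ∀ n, (1 : H) ∉ Fs n := by
    intro n hn
    exact (Finset.mem_filter.1 hn).2 rfl
  have hch : ∀ P n : ℕ, ∃ L : Lev H, Good ι L (1 / (((n : ℝ) + 1) * ((P : ℝ) + 1))) ∧ TransL L ∧
      ∀ h ∈ Fs n, L.ρ h ≠ 1 := fun P n => hQ _ (by positivity) (Fs n) (hFs n)
  choose ch hch1 hch2 hch3 using hch
  let st : ℕ → ℕ × Lev H := fun n => Nat.rec (1, ch 1 0)
    (fun k s => (s.1 * (s.2.d + 2), ch (s.1 * (s.2.d + 2)) (k + 1))) n
  let D : ℕ → Lev H := fun n => (st n).2
  have hP : ∀ n, (st n).1 = ∏ i ∈ Finset.range n, ((D i).d + 2) := by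
    intro n
    induction n with
    | zero => rfl
    | succ n ih => rw [Finset.prod_range_succ, ← ih]
  have hD : ∀ n, D n = ch (st n).1 n := by
    intro n
    cases n with
    | zero => rfl
    | succ n => rfl
  have hg : ∀ n, Good ι (D n) (1 / (((n : ℝ) + 1) * (((st n).1 : ℝ) + 1))) := by
    intro n
    rw [hD]
    exact hch1 _ _
  have hH : ∀ ε' : ℝ, 0 < ε' → ∃ (Ω : Type) (_ : Finite Ω) (_ : Nonempty Ω) (T : Ω → H)
      (σ : I → Ω → Ω), Fam ι ε' Ω T σ := by
    intro ε' hε'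
    obtain ⟨L, ⟨Ω, h1, h2, T, σ, h3, _⟩, _⟩ := hQ ε' hε' ∅ (Finset.notMem_empty _)
    exact ⟨Ω, h1, h2, T, σ, h3⟩
  refine ⟨D, ?_, ?_, ?_⟩
  · intro ε hε
    obtain ⟨n, hn⟩ := exists_nat_one_div_lt hε
    apply approx_deep ι ε hε hH n D
    apply Good_mono ι (hg n)
    rw [← hP]
    have hPpos : (0 : ℝ) < ((st n).1 : ℝ) := by
      have : 0 < (st n).1 := by
        rw [hP]
        exact Finset.prod_pos (fun i _ => by omega)
      exact_mod_cast this
    rw [← div_div]
    calc 1 / ((n : ℝ) + 1) / (((st n).1 : ℝ) + 1) ≤ ε / (((st n).1 : ℝ) + 1) := by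
          apply div_le_div_of_nonneg_right hn.le (by positivity)
      _ ≤ ε / ((st n).1 : ℝ) := by
          apply div_le_div_of_nonneg_left hε.le hPpos (by linarith)
  · intro n
    rw [hD]
    exact hch2 _ _
  · intro h hh
    obtain ⟨j, rfl⟩ := he h
    refine ⟨j + 1, fun n hn => ?_⟩
    rw [hD]
    apply hch3
    rw [Finset.mem_filter]
    refine ⟨?_, hh⟩
    exact Finset.mem_image_of_mem _ (Finset.mem_range.2 (by omega))

theorem main [Countable H] [Infinite H] [Fintype I] [Nonempty I] (inv : I → I)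
    (hinv2 : ∀ i, inv (inv i) = i)
    (hinv : ∀ i, ι (inv i) * ι i = 1) (hw : ∀ h : H, ∃ w : List I, (w.map ι).prod = h)
    (hQ : ∀ ε : ℝ, 0 < ε → ∀ Fs : Finset H, (1 : H) ∉ Fs → ∃ L : Lev H, Good ι L ε ∧ TransL L ∧
      ∀ h ∈ Fs, L.ρ h ≠ 1)
    (ν : I → ℝ) (hνpos : ∀ i, 0 < ν i) (hνinv : ∀ i, ν (inv i) = ν i)
    (hν : ∑ i, ν i = 1) (F : H → ℝ) (hF : ∀ h, F h = ∑ i, ν i * F (h * ι i))
    (hb : ∃ C, ∀ h, |F h| ≤ C) (hne : ∃ h h', F h ≠ F h') :
    ∃ (d : ℕ → ℕ) (G : Subgroup (Equiv.Perm (Ray d))), WeaklyBranch d G ∧ Group.FG G ∧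
      Amenable G ∧ ∃ μ : G →₀ ℝ, (∀ g, 0 ≤ μ g) ∧ (μ.sum fun _ r => r) = 1 ∧
        (∀ g, μ g⁻¹ = μ g) ∧ Subsemigroup.closure (μ.support : Set G) = ⊤ ∧
        ∃ f : G → ℝ, (∃ C, ∀ g, |f g| ≤ C) ∧ (∃ g g', f g ≠ f g') ∧
          ∀ g, f g = μ.sum fun h r => r * f (g * h) := by
  classical
  obtain ⟨D, happ, htr, hfa⟩ := exists_seq ι hQ
  obtain ⟨f, hf1, hf2, hf3⟩ := harmonic ι D inv hinv hw hfa ν hν F hF hb hne
  have hwords : ∀ g : GG D, ∃ w : List (Bool × I), (w.map (Lg ι D)).prod = g := by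
    intro g
    obtain ⟨w, hw'⟩ := words ι D inv hinv hw g.2
    refine ⟨w, Subtype.ext ?_⟩
    rw [← hw']
    clear hw'
    induction w with
    | nil => rfl
    | cons s w ih => rw [List.map_cons, List.prod_cons, List.map_cons, List.prod_cons,
        Subgroup.coe_mul, ih]; rfl
  have hLinv : ∀ s : Bool × I, Lg ι D (s.1, inv s.2) = (Lg ι D s)⁻¹ := by
    intro s
    apply eq_inv_of_mul_eq_one_left
    exact Subtype.ext (Lt_inv ι D inv hinv s)
  let μ : GG D →₀ ℝ := ∑ s : Bool × I, Finsupp.single (Lg ι D s) (ν s.2 / 2)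
  have hμ : ∀ g, μ g = ∑ s : Bool × I, if Lg ι D s = g then ν s.2 / 2 else 0 := by
    intro g
    simp only [μ, Finsupp.finset_sum_apply, Finsupp.single_apply]
  have hμ0 : ∀ g, 0 ≤ μ g := by
    intro g
    rw [hμ]
    apply Finset.sum_nonneg
    intro s _
    split_ifs
    · have := hνpos s.2
      linarith
    · exact le_rfl
  have hμpos : ∀ s, 0 < μ (Lg ι D s) := by
    intro s
    rw [hμ]
    apply Finset.sum_pos'
    · intro s _
      split_ifs
      · have := hνpos s.2
        linarith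
      · exact le_rfl
    · refine ⟨s, Finset.mem_univ _, ?_⟩
      rw [if_pos rfl]
      have := hνpos s.2
      linarith
  have hsum : ∀ φ : GG D → ℝ, (μ.sum fun h r => r * φ h) =
      ∑ s : Bool × I, ν s.2 / 2 * φ (Lg ι D s) := by
    intro φ
    show (∑ s : Bool × I, Finsupp.single (Lg ι D s) (ν s.2 / 2)).sum (fun h r => r * φ h) = _
    rw [← Finsupp.sum_finset_sum_index]
    · refine Finset.sum_congr rfl fun s _ => ?_
      rw [Finsupp.sum_single_index]
      rw [zero_mul]
    · intro a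
      rw [zero_mul]
    · intro a b c
      rw [add_mul]
  have hcl : Subsemigroup.closure (μ.support : Set (GG D)) = ⊤ := by
    have hmem : ∀ s, Lg ι D s ∈ Subsemigroup.closure (μ.support : Set (GG D)) := by
      intro s
      apply Subsemigroup.subset_closure
      exact Finsupp.mem_support_iff.2 (hμpos s).ne'
    have hlist : ∀ w : List (Bool × I), w ≠ [] →
        (w.map (Lg ι D)).prod ∈ Subsemigroup.closure (μ.support : Set (GG D)) := by
      intro w hne'
      induction w with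
      | nil => exact absurd rfl hne'
      | cons s w ih =>
        rw [List.map_cons, List.prod_cons]
        by_cases hw0 : w = []
        · rw [hw0, List.map_nil, List.prod_nil, mul_one]
          exact hmem s
        · exact mul_mem (hmem s) (ih hw0)
    rw [eq_top_iff]
    intro g _
    obtain ⟨w, rfl⟩ := hwords g
    by_cases hw0 : w = []
    · subst hw0
      obtain ⟨i⟩ := ‹Nonempty I›
      have h1 := hlist [(false, inv i), (false, i)] (by simp)
      have h2 : (List.map (Lg ι D) [(false, inv i), (false, i)]).prod =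
          (List.map (Lg ι D) []).prod := by
        rw [List.map_cons, List.map_cons, List.map_nil, List.prod_cons, List.prod_cons,
          List.prod_nil, mul_one]
        have := hLinv (false, i)
        simp only at this
        rw [this, inv_mul_cancel]
      rw [← h2]
      exact h1
    · exact hlist w hw0
  refine ⟨fun n => (D n).d, GG D, ⟨?_, ?_, ?_⟩, ?_, ?_, μ, hμ0, ?_, ?_, hcl, f, hf1, hf2, ?_⟩
  · intro g hg x y n
    refine ⟨(Tr_mem' D hg).1 x y n, fun h => ?_⟩
    have h1 := (Tr_mem' D hg).2 (g x) (g y) n h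
    have e1 : g⁻¹ (g x) = x := Equiv.symm_apply_apply _ _
    have e2 : g⁻¹ (g y) = y := Equiv.symm_apply_apply _ _
    rw [e1, e2] at h1
    exact h1
  · intro n x y
    exact trans_levels n D htr x y
  · intro n z
    exact rist_ne D hfa htr z n
  · rw [Group.fg_iff]
    refine ⟨Set.range (Lg ι D), ?_, Set.finite_range _⟩
    rw [eq_top_iff]
    intro g _
    obtain ⟨w, rfl⟩ := hwords g
    apply Subgroup.list_prod_mem
    intro x hx
    obtain ⟨s, _, rfl⟩ := List.mem_map.1 hx
    exact Subgroup.subset_closure ⟨s, rfl⟩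
  · exact mean_of ι D inv hinv hw happ
  · have h1 := hsum (fun _ => 1)
    simp only [mul_one] at h1
    rw [h1, Fintype.sum_prod_type, Fintype.sum_bool, ← Finset.sum_div, hν]
    norm_num
  · intro g
    rw [hμ, hμ]
    refine Fintype.sum_equiv ⟨fun s => (s.1, inv s.2), fun s => (s.1, inv s.2), ?_, ?_⟩ _ _ ?_
    · intro s
      simp [hinv2]
    · intro s
      simp [hinv2]
    · intro s
      simp only [Equiv.coe_fn_mk, hLinv, hνinv, inv_eq_iff_eq_inv]
  · intro g
    rw [hsum (fun h => f (g * h))]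
    exact hf3 g

end Pool.Agent.H258R3.Wb
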