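import Pool.Agent.H258R3.WbF

/-!
The lamplighter group over the five-dimensional lattice.
-/

set_option autoImplicit false

namespace Pool.Agent.H258R3.Wb

abbrev A5 : Type := Fin 5 → ℤ

@[ext]
structure LL where
  c : A5 →₀ ZMod 2
  p : A5

namespace LL

noncomputable def md {B C : Type} (f : B → C) (c : B →₀ ZMod 2) : C →₀ ZMod 2 :=
  Finsupp.mapDomain f c

noncomputable instance : Mul LL := ⟨fun x y => ⟨x.c + md (fun z => x.p + z) y.c, x.p + y.p⟩⟩
noncomputable instance : One LL := ⟨⟨0, 0⟩⟩
noncomputable instance : Inv LL := ⟨fun x => ⟨md (fun z => -x.p + z) (-x.c), -x.p⟩⟩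

lemma mul_c (x y : LL) : (x * y).c = x.c + md (fun z => x.p + z) y.c := rfl
lemma mul_p (x y : LL) : (x * y).p = x.p + y.p := rfl
lemma one_c : (1 : LL).c = 0 := rfl
lemma one_p : (1 : LL).p = 0 := rfl

lemma md_add {B C : Type} (f : B → C) (c c' : B →₀ ZMod 2) : md f (c + c') = md f c + md f c' :=
  Finsupp.mapDomain_add

lemma md_zero {B C : Type} (f : B → C) : md f (0 : B →₀ ZMod 2) = 0 := Finsupp.mapDomain_zero

lemma md_md {B C E : Type} (f : B → C) (g : C → E) (c : B →₀ ZMod 2) :
    md g (md f c) = md (fun z => g (f z)) c := by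
  unfold md
  rw [← Finsupp.mapDomain_comp]
  rfl

lemma md_id (c : A5 →₀ ZMod 2) : md (fun z : A5 => 0 + z) c = c := by
  have : (fun z : A5 => 0 + z) = id := by funext z; simp
  unfold md
  rw [this, Finsupp.mapDomain_id]

lemma md_single {B C : Type} (f : B → C) (b : B) (r : ZMod 2) :
    md f (Finsupp.single b r) = Finsupp.single (f b) r := Finsupp.mapDomain_single

noncomputable instance : Group LL := Group.ofLeftAxioms
  (by
    intro x y z
    ext1
    · rw [mul_c, mul_c, mul_c, mul_c, md_add, md_md, mul_p, add_assoc]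
      congr 3
      funext w
      rw [add_assoc]
    · rw [mul_p, mul_p, mul_p, mul_p, add_assoc])
  (by
    intro x
    ext1
    · rw [mul_c, one_c, one_p, md_id, zero_add]
    · rw [mul_p, one_p, zero_add])
  (by
    intro x
    ext1
    · show md (fun z => -x.p + z) (-x.c) + md (fun z => -x.p + z) x.c = 0
      rw [← md_add, neg_add_cancel, md_zero]
    · show -x.p + x.p = 0
      rw [neg_add_cancel])

instance : Countable LL := by
  have : Function.Injective (fun x : LL => (x.c, x.p)) := by
    intro x y h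
    simp only [Prod.mk.injEq] at h
    exact LL.ext h.1 h.2
  exact this.countable

instance : Infinite LL := by
  refine Infinite.of_injective (fun n : ℤ => (⟨0, fun _ => n⟩ : LL)) ?_
  intro a b h
  have := congrFun (congrArg LL.p h) 0
  exact this

end LL

open LL

abbrev Ix : Type := Option (Fin 5 × Bool)

/-- unit steps -/
def st5 (s : Fin 5 × Bool) : A5 := Pi.single s.1 (if s.2 then 1 else -1)

noncomputable def io : Ix → LL
  | none => ⟨Finsupp.single 0 1, 0⟩
  | some s => ⟨0, st5 s⟩

def iv : Ix → Ix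
  | none => none
  | some (k, b) => some (k, !b)

lemma iv_iv (i : Ix) : iv (iv i) = i := by
  rcases i with _ | ⟨k, b⟩
  · rfl
  · simp [iv]

lemma io_iv (i : Ix) : io (iv i) * io i = 1 := by
  rcases i with _ | ⟨k, b⟩
  · ext1
    · show (Finsupp.single 0 1 : A5 →₀ ZMod 2) + md (fun z => 0 + z) (Finsupp.single 0 1) = 0
      rw [md_id, ← Finsupp.single_add]
      have : (1 : ZMod 2) + 1 = 0 := by decide
      rw [this, Finsupp.single_zero]
    · show (0 : A5) + 0 = 0
      simp
  · ext1
    · show (0 : A5 →₀ ZMod 2) + md (fun z => st5 (k, !b) + z) 0 = 0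
      rw [md_zero, add_zero]
    · show st5 (k, !b) + st5 (k, b) = 0
      unfold st5
      rw [← Pi.single_add]
      cases b <;> simp

def WW (h : LL) : Prop := ∃ w : List Ix, (w.map io).prod = h

lemma WW_mul {h h' : LL} (a : WW h) (b : WW h') : WW (h * h') := by
  obtain ⟨w, rfl⟩ := a
  obtain ⟨w', rfl⟩ := b
  exact ⟨w ++ w', by rw [List.map_append, List.prod_append]⟩

lemma WW_io (i : Ix) : WW (io i) := ⟨[i], by simp⟩

lemma pmul (p q : A5) : (⟨0, p⟩ : LL) * ⟨0, q⟩ = ⟨0, p + q⟩ := by
  ext1
  · show (0 : A5 →₀ ZMod 2) + md _ 0 = 0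
    rw [md_zero, add_zero]
  · rfl

lemma cmul (c c' : A5 →₀ ZMod 2) : (⟨c, 0⟩ : LL) * ⟨c', 0⟩ = ⟨c + c', 0⟩ := by
  ext1
  · show c + md (fun z => 0 + z) c' = _
    rw [md_id]
  · show (0 : A5) + 0 = 0
    simp

lemma WW_p (p : A5) : WW ⟨0, p⟩ := by
  have h0 : WW ⟨0, 0⟩ := ⟨[], rfl⟩
  let S : AddSubmonoid A5 :=
    { carrier := {p | WW ⟨0, p⟩}
      zero_mem' := h0
      add_mem' := by
        intro a b ha hb
        have := WW_mul ha hb
        rw [pmul] at this
        exact this }
  have hnat : ∀ (k : Fin 5) (b : Bool) (n : ℕ), (n : ℕ) • st5 (k, b) ∈ S := by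
    intro k b n
    apply nsmul_mem
    exact WW_io (some (k, b))
  have hs : ∀ (k : Fin 5) (n : ℤ), (Pi.single k n : A5) ∈ S := by
    intro k n
    obtain ⟨m, rfl | rfl⟩ := n.eq_nat_or_neg
    · have := hnat k true m
      convert this using 1
      funext j
      by_cases hj : j = k
      · subst hj; simp [st5]
      · simp [st5, Pi.single_eq_of_ne hj]
    · have := hnat k false m
      convert this using 1
      funext j
      by_cases hj : j = k
      · subst hj; simp [st5]
      · simp [st5, Pi.single_eq_of_ne hj]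
  have : p ∈ S := by
    rw [← Finset.univ_sum_single p]
    exact sum_mem (fun k _ => hs k _)
  exact this

lemma WW_single (x : A5) : WW ⟨Finsupp.single x 1, 0⟩ := by
  have h := WW_mul (WW_mul (WW_p x) (WW_io none)) (WW_p (-x))
  have e : (⟨0, x⟩ : LL) * io none * ⟨0, -x⟩ = ⟨Finsupp.single x 1, 0⟩ := by
    ext1
    · show (0 : A5 →₀ ZMod 2) + md (fun z => x + z) (Finsupp.single 0 1) + md _ 0 = _
      rw [md_zero, add_zero, zero_add, md_single, add_zero]
    · show x + 0 + -x = 0
      simp
  rwa [e] at h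

lemma WW_all (h : LL) : WW h := by
  have hc : ∀ c : A5 →₀ ZMod 2, WW ⟨c, 0⟩ := by
    intro c
    induction c using Finsupp.induction with
    | zero => exact ⟨[], rfl⟩
    | single_add a b f _ hb ih =>
      have hb1 : b = 1 := by
        have : ∀ b : ZMod 2, b ≠ 0 → b = 1 := by decide
        exact this b hb
      subst hb1
      have := WW_mul (WW_single a) ih
      rwa [cmul] at this
  have := WW_mul (hc h.c) (WW_p h.p)
  have e : (⟨h.c, 0⟩ : LL) * ⟨0, h.p⟩ = h := by
    ext1
    · show h.c + md _ 0 = h.c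
      rw [md_zero, add_zero]
    · show 0 + h.p = h.p
      rw [zero_add]
  rwa [e] at this

end Pool.Agent.H258R3.Wb
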