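import Pool.Agent.H258R3.WbG

/-!
Finite actions of the lamplighter group and box families.
-/

set_option autoImplicit false

namespace Pool.Agent.H258R3.Wb

open LL
open Pool.Agent.H258R3.Am (fiber_count)

abbrev B5 (m : ℕ) : Type := Fin 5 → ZMod m

def pr (m : ℕ) (z : A5) : B5 m := fun k => (z k : ZMod m)

lemma pr_add (m : ℕ) (z w : A5) : pr m (z + w) = pr m z + pr m w := by
  funext k
  simp [pr]

lemma pr_zero (m : ℕ) : pr m 0 = 0 := by
  funext k
  simp [pr]

lemma pr_neg (m : ℕ) (z : A5) : pr m (-z) = -pr m z := by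
  funext k
  simp [pr]

/-- the finite action -/
noncomputable def act (m : ℕ) (h : LL) (y : ZMod 2 × B5 m) : ZMod 2 × B5 m :=
  (y.1 + md (pr m) h.c (pr m h.p + y.2), pr m h.p + y.2)

lemma act_mul (m : ℕ) (h h' : LL) (y : ZMod 2 × B5 m) : act m (h * h') y = act m h (act m h' y) := by
  obtain ⟨b, q⟩ := y
  unfold act
  simp only [mul_c, mul_p, md_add, md_md, pr_add, Finsupp.add_apply]
  have e : (fun z => pr m (h.p + z)) = fun z => (fun u => pr m h.p + u) (pr m z) := by
    funext z
    exact pr_add m _ _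
  have e2 : md (fun z => pr m h.p + pr m z) h'.c (pr m h.p + (pr m h'.p + q)) =
      md (pr m) h'.c (pr m h'.p + q) := by
    rw [← md_md (pr m) (fun u => pr m h.p + u)]
    exact Finsupp.mapDomain_apply (fun a b hab => add_left_cancel hab) _ _
  rw [add_assoc (pr m h.p), e2]
  refine Prod.ext ?_ rfl
  show b + (_ + _) = b + _ + _
  rw [add_assoc, add_comm (md (pr m) h.c _)]

lemma act_one (m : ℕ) (y : ZMod 2 × B5 m) : act m 1 y = y := by
  obtain ⟨b, q⟩ := y
  unfold act
  simp only [one_c, one_p, md_zero, pr_zero, zero_add, Finsupp.coe_zero, Pi.zero_apply, add_zero]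

noncomputable def rh (m : ℕ) : LL →* Equiv.Perm (ZMod 2 × B5 m) where
  toFun h := ⟨act m h, act m h⁻¹, fun y => by rw [← act_mul, inv_mul_cancel, act_one],
    fun y => by rw [← act_mul, mul_inv_cancel, act_one]⟩
  map_one' := by
    ext1 y
    exact act_one m y
  map_mul' h h' := by
    ext1 y
    exact act_mul m h h' y

lemma exists_relabel {Y : Type} [Finite Y] (y0 y1 : Y) (h : y0 ≠ y1) :
    ∃ (d : ℕ) (e : Y ≃ Fin (d + 2)), e y0 = 0 ∧ e y1 = 1 := by
  classical
  have := Fintype.ofFinite Y
  have hc : 1 < Fintype.card Y := Fintype.one_lt_card_iff.2 ⟨y0, y1, h⟩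
  obtain ⟨d, hd⟩ := Nat.exists_eq_add_of_le hc
  have hd' : Fintype.card Y = d + 2 := by omega
  let e0 : Y ≃ Fin (d + 2) := Fintype.equivFinOfCardEq hd'
  let e1 : Y ≃ Fin (d + 2) := e0.trans (Equiv.swap (e0 y0) 0)
  have h10 : e1 y0 = 0 := by
    show Equiv.swap (e0 y0) 0 (e0 y0) = 0
    exact Equiv.swap_apply_left _ _
  let e2 : Y ≃ Fin (d + 2) := e1.trans (Equiv.swap (e1 y1) 1)
  refine ⟨d, e2, ?_, ?_⟩
  · show Equiv.swap (e1 y1) 1 (e1 y0) = 0
    rw [h10]
    apply Equiv.swap_apply_of_ne_of_ne
    · intro hh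
      rw [← h10] at hh
      exact h (e1.injective hh)
    · exact fin_ne
  · show Equiv.swap (e1 y1) 1 (e1 y1) = 1
    exact Equiv.swap_apply_left _ _

/-! ### boxes -/

section box

variable (R : ℕ) [NeZero R]

def V (i : B5 R) : A5 := fun k => ((i k).val : ℤ)

lemma V_add {i : B5 R} {k : Fin 5} (hR : 2 ≤ R) (hi : i k ≠ -1) :
    V R (i + Pi.single k 1) = V R i + Pi.single k 1 := by
  funext j
  by_cases hj : j = k
  · subst hj
    simp only [V, Pi.add_apply, Pi.single_eq_same]
    have h1 : (1 : ZMod R).val = 1 := ZMod.val_one'' (by omega)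
    have hlt := ZMod.val_lt (i j)
    have h2 : (i j).val + 1 < R := by
      by_contra hcon
      apply hi
      have h3 : (i j).val + 1 = R := by omega
      have h4 : ((i j).val : ZMod R) + 1 = 0 := by
        have : (((i j).val + 1 : ℕ) : ZMod R) = 0 := by rw [h3]; exact ZMod.natCast_self R
        push_cast at this
        exact this
      rw [ZMod.natCast_zmod_val] at h4
      exact eq_neg_of_add_eq_zero_left h4
    rw [ZMod.val_add_of_lt (by rw [h1]; exact h2), h1]
    push_cast
    rfl
  · simp only [V, Pi.add_apply, Pi.single_eq_of_ne hj, add_zero]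

noncomputable def Tb (o : (B5 R → ZMod 2) × B5 R) : LL :=
  ⟨∑ j : B5 R, Finsupp.single (V R o.2 - V R j) (o.1 j), V R o.2⟩

noncomputable def sb : Ix → (B5 R → ZMod 2) × B5 R → (B5 R → ZMod 2) × B5 R
  | none => fun o => (o.1 + Pi.single o.2 1, o.2)
  | some (k, b) => fun o => (o.1, if b then o.2 + Pi.single k 1 else o.2 - Pi.single k 1)

lemma sb_inj (s : Ix) : Function.Injective (sb R s) := by
  rcases s with _ | ⟨k, b⟩
  · rintro ⟨f, i⟩ ⟨f', i'⟩ h
    simp only [sb, Prod.mk.injEq] at h
    obtain ⟨h1, h2⟩ := h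
    subst h2
    rw [add_right_cancel h1]
  · rintro ⟨f, i⟩ ⟨f', i'⟩ h
    simp only [sb, Prod.mk.injEq] at h
    obtain ⟨h1, h2⟩ := h
    cases b
    · simp only [Bool.false_eq_true, if_false] at h2
      rw [h1, sub_left_injective h2]
    · simp only [if_true] at h2
      rw [h1, add_right_cancel h2]

lemma Tb_none (o : (B5 R → ZMod 2) × B5 R) : io none * Tb R o = Tb R (sb R none o) := by
  classical
  ext1
  · show (Finsupp.single 0 1 : A5 →₀ ZMod 2) + md (fun z => 0 + z)
      (∑ j : B5 R, Finsupp.single (V R o.2 - V R j) (o.1 j)) =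
      ∑ j : B5 R, Finsupp.single (V R o.2 - V R j) ((o.1 + Pi.single o.2 1 : B5 R → ZMod 2) j)
    rw [md_id]
    simp only [Pi.add_apply, Finsupp.single_add, Finset.sum_add_distrib]
    rw [add_comm]
    congr 1
    rw [Finset.sum_eq_single o.2]
    · rw [Pi.single_eq_same, sub_self]
    · intro j _ hj
      rw [Pi.single_eq_of_ne hj, Finsupp.single_zero]
    · intro hh
      exact absurd (Finset.mem_univ _) hh
  · show (0 : A5) + V R o.2 = V R o.2
    rw [zero_add]

lemma Tb_some {o : (B5 R → ZMod 2) × B5 R} {s : Fin 5 × Bool} {i' : B5 R}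
    (h : V R i' = V R o.2 + st5 s) : io (some s) * Tb R o = Tb R (o.1, i') := by
  ext1
  · show (0 : A5 →₀ ZMod 2) + md (fun z => st5 s + z)
      (∑ j : B5 R, Finsupp.single (V R o.2 - V R j) (o.1 j)) =
      ∑ j : B5 R, Finsupp.single (V R i' - V R j) (o.1 j)
    rw [zero_add]
    unfold md
    rw [Finsupp.mapDomain_finset_sum]
    refine Finset.sum_congr rfl fun j _ => ?_
    rw [Finsupp.mapDomain_single, h]
    congr 1
    abel
  · show st5 s + V R o.2 = V R i'
    rw [h, add_comm]

lemma Fam_box (hR : 2 ≤ R) : Fam io (1 / (R : ℝ)) ((B5 R → ZMod 2) × B5 R) (Tb R) (sb R) := by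
  classical
  refine ⟨sb_inj R, ?_⟩
  have hcount : ∀ (k : Fin 5) (a : ZMod R),
      (({o | o.2 k ∈ ({a} : Set (ZMod R))} : Set ((B5 R → ZMod 2) × B5 R)).ncard : ℝ) ≤
        1 / (R : ℝ) * Nat.card ((B5 R → ZMod 2) × B5 R) := by
    intro k a
    apply fiber_count k (fun _ : B5 R → ZMod 2 => ({a} : Set (ZMod R)))
    intro _
    rw [Set.ncard_singleton, Nat.card_zmod]
    have : (R : ℝ) ≠ 0 := by
      have : R ≠ 0 := NeZero.ne R
      exact_mod_cast this
    field_simp
    norm_num
  rintro (_ | ⟨k, b⟩)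
  · have : ({o | io none * Tb R o ≠ Tb R (sb R none o)} : Set ((B5 R → ZMod 2) × B5 R)) = ∅ := by
      ext o
      simp only [Set.mem_ofPred_eq, Set.mem_empty_iff_false, iff_false, not_not]
      exact Tb_none R o
    rw [this, Set.ncard_empty, Nat.cast_zero]
    positivity
  · cases b
    · refine le_trans ?_ (hcount k 0)
      have hsub : ({o | io (some (k, false)) * Tb R o ≠ Tb R (sb R (some (k, false)) o)} :
          Set ((B5 R → ZMod 2) × B5 R)) ⊆ {o | o.2 k ∈ ({0} : Set (ZMod R))} := by
        intro o ho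
        by_contra hcon
        apply ho
        have hk : o.2 k ≠ 0 := hcon
        have h1 : V R (o.2 - Pi.single k 1 + Pi.single k 1) =
            V R (o.2 - Pi.single k 1) + Pi.single k 1 := by
          apply V_add R hR
          simp only [Pi.sub_apply, Pi.single_eq_same]
          intro hh
          apply hk
          have := congrArg (fun z => z + 1) hh
          simpa using this
        rw [sub_add_cancel] at h1
        have h2 : V R (o.2 - Pi.single k 1) = V R o.2 + st5 (k, false) := by
          rw [h1]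
          unfold st5
          simp only [Bool.false_eq_true, if_false]
          rw [Pi.single_neg]
          abel
        rw [Tb_some R h2]
        simp [sb]
      exact_mod_cast Set.ncard_le_ncard hsub (Set.toFinite _)
    · refine le_trans ?_ (hcount k (-1))
      have hsub : ({o | io (some (k, true)) * Tb R o ≠ Tb R (sb R (some (k, true)) o)} :
          Set ((B5 R → ZMod 2) × B5 R)) ⊆ {o | o.2 k ∈ ({-1} : Set (ZMod R))} := by
        intro o ho
        by_contra hcon
        apply ho
        have hk : o.2 k ≠ -1 := hcon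
        have h2 : V R (o.2 + Pi.single k 1) = V R o.2 + st5 (k, true) := by
          rw [V_add R hR hk]
          unfold st5
          simp only [if_true]
        rw [Tb_some R h2]
        simp [sb]
      exact_mod_cast Set.ncard_le_ncard hsub (Set.toFinite _)

end box

/-! ### eventual faithfulness -/

lemma rh_ne (h : LL) (hh : h ≠ 1) : ∃ m0 : ℕ, ∀ m ≥ m0, rh m h ≠ 1 := by
  classical
  -- a bound for all the coordinates involved
  have hbd : ∃ M : ℕ, (∀ k, |h.p k| < M) ∧ ∀ x ∈ h.c.support, ∀ k, |x k| < M := by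
    have h1 : ∀ x : A5, ∃ M : ℕ, ∀ k, |x k| < M := by
      intro x
      refine ⟨∑ k, (x k).natAbs + 1, fun k => ?_⟩
      have := Finset.single_le_sum (f := fun k => (x k).natAbs) (fun _ _ => Nat.zero_le _)
        (Finset.mem_univ k)
      rw [Int.abs_eq_natAbs]
      exact_mod_cast Nat.lt_succ_of_le this
    choose M hM using h1
    refine ⟨M h.p + ∑ x ∈ h.c.support, M x, fun k => ?_, fun x hx k => ?_⟩
    · have := hM h.p k
      push_cast
      have h2 : (0 : ℤ) ≤ ∑ x ∈ h.c.support, (M x : ℤ) := by positivity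
      linarith
    · have := hM x k
      have h2 := Finset.single_le_sum (f := fun x => M x) (fun _ _ => Nat.zero_le _) hx
      have h3 : (M x : ℤ) ≤ ((∑ x ∈ h.c.support, M x : ℕ) : ℤ) := by exact_mod_cast h2
      rw [Nat.cast_add]
      have h4 : (0 : ℤ) ≤ (M h.p : ℤ) := by positivity
      linarith
  obtain ⟨M, hM1, hM2⟩ := hbd
  refine ⟨2 * M, fun m hm hcon => hh ?_⟩
  have hz : ∀ z : ℤ, |z| < m → (z : ZMod m) = 0 → z = 0 := by
    intro z hz1 hz2
    rw [ZMod.intCast_zmod_eq_zero_iff_dvd] at hz2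
    exact Int.eq_zero_of_abs_lt_dvd hz2 hz1
  have hM2m : (2 * M : ℤ) ≤ m := by exact_mod_cast hm
  have hact : ∀ y, act m h y = y := by
    intro y
    have := Equiv.congr_fun hcon y
    exact this
  have hp : h.p = 0 := by
    funext k
    apply hz _ (by have := hM1 k; have := abs_nonneg (h.p k); linarith)
    have h1 := congrArg Prod.snd (hact (0, 0))
    have h2 := congrFun h1 k
    simpa [act, pr] using h2
  have hinj : Set.InjOn (pr m) (h.c.support : Set A5) := by
    intro x hx y hy hxy
    funext k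
    have h1 : ((x k - y k : ℤ) : ZMod m) = 0 := by
      have := congrFun hxy k
      simp only [pr] at this
      push_cast
      rw [this, sub_self]
    have h2 := hz _ (by
      have a1 := hM2 x hx k
      have a2 := hM2 y hy k
      rw [abs_lt] at a1 a2 ⊢
      constructor <;> linarith) h1
    linarith
  have hc : h.c = 0 := by
    ext x
    by_cases hx : x ∈ h.c.support
    · have h1 := congrArg Prod.fst (hact (0, pr m x))
      simp only [act, hp, pr_zero, zero_add] at h1
      have h2 := Finsupp.mapDomain_apply' (h.c.support : Set A5) h.c (subset_refl _) hinj hx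
      unfold md at h1
      rw [h2] at h1
      rw [h1]
      rfl
    · rw [Finsupp.notMem_support_iff.1 hx]
      rfl
  ext1
  · exact hc
  · exact hp

theorem hQ_LL (ε : ℝ) (hε : 0 < ε) (Fs : Finset LL) (hFs : (1 : LL) ∉ Fs) :
    ∃ L : Lev LL, Good io L ε ∧ TransL L ∧ ∀ h ∈ Fs, L.ρ h ≠ 1 := by
  classical
  have h0 : ∀ h : LL, ∃ m0 : ℕ, h ≠ 1 → ∀ m ≥ m0, rh m h ≠ 1 := by
    intro h
    by_cases hh : h = 1
    · exact ⟨0, fun hh' => absurd hh hh'⟩
    · obtain ⟨m0, hm0⟩ := rh_ne h hh
      exact ⟨m0, fun _ => hm0⟩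
  choose m0 hm0 using h0
  obtain ⟨n, hn⟩ := exists_nat_one_div_lt hε
  let R : ℕ := n + 2 + ∑ h ∈ Fs, m0 h
  have hR : 2 ≤ R := by simp only [R]; omega
  have : NeZero R := ⟨by omega⟩
  let m : ℕ := 2 * R
  have : NeZero m := ⟨by simp only [m]; omega⟩
  let y0 : ZMod 2 × B5 m := (0, 0)
  let y1 : ZMod 2 × B5 m := (0, Pi.single 0 ((R : ℕ) : ZMod m))
  have hzm : ∀ z : ℤ, |z| < m → (z : ZMod m) = 0 → z = 0 := by
    intro z hz1 hz2
    rw [ZMod.intCast_zmod_eq_zero_iff_dvd] at hz2
    exact Int.eq_zero_of_abs_lt_dvd hz2 hz1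
  have hne : y0 ≠ y1 := by
    intro hcon
    have h1 := congrFun (congrArg Prod.snd hcon) 0
    simp only [y0, y1, Pi.single_eq_same, Pi.zero_apply] at h1
    have h2 := hzm (R : ℤ) (by
      rw [abs_of_nonneg (by positivity)]
      simp only [m]; push_cast
      have : (0 : ℤ) < R := by exact_mod_cast (by omega : 0 < R)
      linarith) (by push_cast; exact h1.symm)
    have h3 : R = 0 := by exact_mod_cast h2
    omega
  obtain ⟨d, e, he0, he1⟩ := exists_relabel y0 y1 hne
  let L : Lev LL := ⟨d, (e.permCongrHom.toMonoidHom).comp (rh m)⟩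
  have hL : ∀ h x, L.ρ h x = e (act m h (e.symm x)) := fun h x => rfl
  refine ⟨L, ?_, ?_, ?_⟩
  · refine ⟨(B5 R → ZMod 2) × B5 R, inferInstance, inferInstance, Tb R, sb R, ?_, ?_⟩
    · obtain ⟨h1, h2⟩ := Fam_box R hR
      refine ⟨h1, fun s => (h2 s).trans (mul_le_mul_of_nonneg_right ?_ (Nat.cast_nonneg _))⟩
      refine le_trans ?_ hn.le
      apply one_div_le_one_div_of_le (by positivity)
      have : n + 1 ≤ R := by simp only [R]; omega
      exact_mod_cast this
    · intro o o' x h1 h2
      rw [hL, ← he1] at h1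
      rw [hL, ← he0] at h2
      have h3 := congrFun (congrArg Prod.snd (e.injective h1)) 0
      have h4 := congrFun (congrArg Prod.snd (e.injective h2)) 0
      simp only [act, Tb, y0, y1, Pi.add_apply, Pi.single_eq_same, Pi.zero_apply, pr] at h3 h4
      have h5 : ((V R o.2 0 - V R o'.2 0 - R : ℤ) : ZMod m) = 0 := by
        push_cast
        have : (V R o.2 0 : ZMod m) - (V R o'.2 0 : ZMod m) = ((R : ℕ) : ZMod m) := by
          rw [← h3, ← sub_zero (((V R o.2 0 : ℤ) : ZMod m) + _), ← h4]
          ring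
        rw [this, sub_self]
      have b1 : V R o.2 0 < R := by
        simp only [V]; exact_mod_cast ZMod.val_lt (o.2 0)
      have b2 : V R o'.2 0 < R := by
        simp only [V]; exact_mod_cast ZMod.val_lt (o'.2 0)
      have b3 : 0 ≤ V R o.2 0 := by simp only [V]; positivity
      have b4 : 0 ≤ V R o'.2 0 := by simp only [V]; positivity
      have h6 := hzm _ (by
        rw [abs_lt]
        simp only [m]; push_cast
        constructor <;> linarith) h5
      linarith
  · intro a b
    let z : A5 := fun k => (((e.symm b).2 k).val : ℤ)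
    let p : A5 := fun k => (((e.symm b).2 k - (e.symm a).2 k).val : ℤ)
    have hz : pr m z = (e.symm b).2 := by
      funext k
      simp [pr, z]
    have hp : pr m p = (e.symm b).2 - (e.symm a).2 := by
      funext k
      simp [pr, p]
    refine ⟨⟨Finsupp.single z ((e.symm b).1 - (e.symm a).1), p⟩, ?_⟩
    rw [hL]
    apply e.symm.injective
    rw [Equiv.symm_apply_apply]
    simp only [act, hp, sub_add_cancel, md_single, hz, Finsupp.single_eq_same]
    refine Prod.ext ?_ rfl
    show (e.symm a).1 + ((e.symm b).1 - (e.symm a).1) = (e.symm b).1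
    abel
  · intro h hh hcon
    have hh1 : h ≠ 1 := fun hh' => hFs (hh' ▸ hh)
    apply hm0 h hh1 m
    · have h2 := Finset.single_le_sum (f := fun x => m0 x) (fun _ _ => Nat.zero_le _) hh
      simp only [m, R]
      omega
    · ext1 y
      have := Equiv.congr_fun hcon (e y)
      rw [hL, Equiv.symm_apply_apply] at this
      exact e.injective this

end Pool.Agent.H258R3.Wb
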