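import Pool.Agent.H258R3.WbH

/-!
A bounded harmonic function on the lamplighter group over the five-dimensional lattice.
-/

set_option autoImplicit false

namespace Pool.Agent.H258R3.Wb

open LL

/-- squared norm -/
def nq (x : A5) : ℝ := ∑ k, (x k : ℝ) ^ 2

lemma nq_nonneg (x : A5) : 0 ≤ nq x := Finset.sum_nonneg fun _ _ => sq_nonneg _

lemma nq_st (x : A5) (k : Fin 5) (b : Bool) :
    nq (x + st5 (k, b)) = nq x + 1 + (if b then 1 else -1) * (2 * (x k : ℝ)) := by
  have h1 : ∀ j, ((x + st5 (k, b)) j : ℝ) ^ 2 = (x j : ℝ) ^ 2 +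
      if j = k then (1 + (if b then 1 else -1) * (2 * (x k : ℝ))) else 0 := by
    intro j
    by_cases hj : j = k
    · subst hj
      rw [if_pos rfl]
      cases b
      · simp [st5]; ring
      · simp [st5]; ring
    · rw [if_neg hj]
      simp [st5, Pi.single_eq_of_ne hj]
  unfold nq
  simp only [h1]
  rw [Finset.sum_add_distrib, Finset.sum_ite_eq' Finset.univ k, if_pos (Finset.mem_univ _)]
  ring

noncomputable def PP (ψ : A5 → ℝ) (x : A5) : ℝ := ∑ s : Fin 5 × Bool, ψ (x + st5 s) / 10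

lemma PP_mono {ψ ψ' : A5 → ℝ} (h : ∀ x, ψ x ≤ ψ' x) (x : A5) : PP ψ x ≤ PP ψ' x :=
  Finset.sum_le_sum fun s _ => by have := h (x + st5 s); linarith

noncomputable def wf (x : A5) : ℝ := 1 - 13 / (nq x + 13)

lemma wf_nonneg (x : A5) : 0 ≤ wf x := by
  have := nq_nonneg x
  unfold wf
  rw [sub_nonneg, div_le_one (by linarith)]
  linarith

lemma wf_le_one (x : A5) : wf x ≤ 1 := by
  have := nq_nonneg x
  unfold wf
  have : 0 ≤ 13 / (nq x + 13) := by positivity
  linarith

lemma term_bound (a T : ℝ) (ha : a ^ 2 ≤ T - 14) :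
    1 / (T + 2 * a) + 1 / (T - 2 * a) ≤ 2 / T + 8 * a ^ 2 / (T * (T ^ 2 - 4 * T + 56)) := by
  have h1 : 0 < T + 2 * a := by nlinarith [sq_nonneg (a + 1)]
  have h2 : 0 < T - 2 * a := by nlinarith [sq_nonneg (a - 1)]
  have hT : 0 < T := by linarith
  have hQ : 0 < T ^ 2 - 4 * T + 56 := by nlinarith [sq_nonneg (T - 2)]
  have hS : T ^ 2 - 4 * T + 56 ≤ (T + 2 * a) * (T - 2 * a) := by nlinarith
  have hSpos : 0 < (T + 2 * a) * (T - 2 * a) := mul_pos h1 h2
  have e : 1 / (T + 2 * a) + 1 / (T - 2 * a) =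
      2 / T + 8 * a ^ 2 / (T * ((T + 2 * a) * (T - 2 * a))) := by
    field_simp
    ring
  rw [e]
  have : 8 * a ^ 2 / (T * ((T + 2 * a) * (T - 2 * a))) ≤
      8 * a ^ 2 / (T * (T ^ 2 - 4 * T + 56)) := by
    apply div_le_div_of_nonneg_left (by positivity) (by positivity)
    exact mul_le_mul_of_nonneg_left hS hT.le
  linarith

lemma PP_wf (x : A5) : wf x ≤ PP wf x := by
  set T : ℝ := nq x + 14 with hT
  have hT14 : 14 ≤ T := by have := nq_nonneg x; linarith
  have hk : ∀ k : Fin 5, ((x k : ℝ)) ^ 2 ≤ T - 14 := by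
    intro k
    have := Finset.single_le_sum (f := fun k => (x k : ℝ) ^ 2) (fun _ _ => sq_nonneg _)
      (Finset.mem_univ k)
    rw [hT]
    unfold nq
    linarith
  have hQ : 0 < T ^ 2 - 4 * T + 56 := by nlinarith [sq_nonneg (T - 2)]
  have e1 : PP wf x = 1 - 13 / 10 * ∑ k : Fin 5, (1 / (T + 2 * (x k : ℝ)) + 1 / (T - 2 * (x k : ℝ))) := by
    unfold PP
    rw [Fintype.sum_prod_type]
    simp only [Fintype.sum_bool]
    have : ∀ k : Fin 5, wf (x + st5 (k, true)) / 10 + wf (x + st5 (k, false)) / 10 =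
        1 / 5 - 13 / 10 * (1 / (T + 2 * (x k : ℝ)) + 1 / (T - 2 * (x k : ℝ))) := by
      intro k
      unfold wf
      rw [nq_st, nq_st]
      simp only [if_true, Bool.false_eq_true, if_false]
      have a1 : nq x + 1 + 1 * (2 * (x k : ℝ)) + 13 = T + 2 * (x k : ℝ) := by rw [hT]; ring
      have a2 : nq x + 1 + -1 * (2 * (x k : ℝ)) + 13 = T - 2 * (x k : ℝ) := by rw [hT]; ring
      rw [a1, a2]
      ring
    simp only [this]
    rw [Finset.sum_sub_distrib, ← Finset.mul_sum]
    simp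
  rw [e1]
  have e2 : ∑ k : Fin 5, (1 / (T + 2 * (x k : ℝ)) + 1 / (T - 2 * (x k : ℝ))) ≤
      10 / T + 8 * (T - 14) / (T * (T ^ 2 - 4 * T + 56)) := by
    refine (Finset.sum_le_sum fun k _ => term_bound (x k : ℝ) T (hk k)).trans (le_of_eq ?_)
    rw [Finset.sum_add_distrib, ← Finset.sum_div, ← Finset.sum_div, ← Finset.mul_sum]
    have : ∑ k : Fin 5, ((x k : ℝ)) ^ 2 = T - 14 := by
      rw [hT]; unfold nq; ring
    rw [this]
    simp
    ring
  have e3 : 10 / T + 8 * (T - 14) / (T * (T ^ 2 - 4 * T + 56)) ≤ 10 / (T - 1) := by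
    rw [div_add_div _ _ (by positivity) (by positivity), div_le_div_iff₀ (by positivity) (by linarith)]
    have h3 : 0 ≤ T ^ 2 * ((T ^ 2 - 4 * T + 56) * 10 - 8 * (T - 14) * (T - 1)) := by
      apply mul_nonneg (sq_nonneg _)
      nlinarith
    nlinarith
  have e4 : wf x = 1 - 13 / (T - 1) := by
    unfold wf
    have : nq x + 13 = T - 1 := by rw [hT]; ring
    rw [this]
  rw [e4]
  have e5 : 13 / 10 * (10 / (T - 1)) = 13 / (T - 1) := by ring
  have := e2.trans e3
  nlinarith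

open Classical in
noncomputable def AA (ψ : A5 → ℝ) (x : A5) : ℝ := if x = 0 then PP ψ 0 / 3 else PP ψ x

lemma AA_mono {ψ ψ' : A5 → ℝ} (h : ∀ x, ψ x ≤ ψ' x) (x : A5) : AA ψ x ≤ AA ψ' x := by
  unfold AA
  split_ifs
  · have := PP_mono h 0; linarith
  · exact PP_mono h x

noncomputable def ph : ℕ → A5 → ℝ
  | 0 => fun _ => 1
  | n + 1 => AA (ph n)

lemma PP_one (x : A5) : PP (fun _ => 1) x = 1 := by
  unfold PP
  rw [Finset.sum_const, Finset.card_univ, Fintype.card_prod, Fintype.card_fin, Fintype.card_bool]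
  norm_num

lemma wf_zero : wf 0 = 0 := by
  have : nq 0 = 0 := by simp [nq]
  unfold wf
  rw [this]
  norm_num

lemma ph_lower (n : ℕ) : ∀ x, wf x ≤ ph n x := by
  induction n with
  | zero => exact wf_le_one
  | succ n ih =>
    intro x
    refine le_trans ?_ (AA_mono ih x)
    unfold AA
    split_ifs with h
    · rw [h, wf_zero]
      have : 0 ≤ PP wf 0 := Finset.sum_nonneg fun s _ => by
        have := wf_nonneg (0 + st5 s); linarith
      linarith
    · exact PP_wf x

lemma ph_step (n : ℕ) : ∀ x, ph (n + 1) x ≤ ph n x := by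
  induction n with
  | zero =>
    intro x
    show AA (fun _ => 1) x ≤ 1
    unfold AA
    split_ifs
    · rw [PP_one]; norm_num
    · rw [PP_one]
  | succ n ih => exact AA_mono ih

theorem exists_phi : ∃ φ : A5 → ℝ, (∀ x, |φ x| ≤ 1) ∧ (∀ x, x ≠ 0 → φ x = PP φ x) ∧
    3 * φ 0 = PP φ 0 ∧ ∃ x, 0 < φ x := by
  have hanti : ∀ x, Antitone (fun n => ph n x) := fun x => antitone_nat_of_succ_le fun n => ph_step n x
  have hbdd : ∀ x, BddBelow (Set.range fun n => ph n x) := by
    intro x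
    refine ⟨wf x, ?_⟩
    rintro _ ⟨n, rfl⟩
    exact ph_lower n x
  let φ : A5 → ℝ := fun x => ⨅ n, ph n x
  have hlim : ∀ x, Filter.Tendsto (fun n => ph n x) Filter.atTop (nhds (φ x)) := fun x =>
    tendsto_atTop_ciInf (hanti x) (hbdd x)
  have hlow : ∀ x, wf x ≤ φ x := fun x => le_ciInf fun n => ph_lower n x
  have hup : ∀ x, φ x ≤ 1 := fun x => ciInf_le (hbdd x) 0
  have hPP : ∀ x, Filter.Tendsto (fun n => PP (ph n) x) Filter.atTop (nhds (PP φ x)) := by
    intro x
    unfold PP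
    apply tendsto_finset_sum
    intro s _
    exact (hlim _).div_const _
  have hAA : ∀ x, φ x = AA φ x := by
    intro x
    have h1 : Filter.Tendsto (fun n => ph (n + 1) x) Filter.atTop (nhds (φ x)) :=
      (hlim x).comp (Filter.tendsto_add_atTop_nat 1)
    have h2 : Filter.Tendsto (fun n => ph (n + 1) x) Filter.atTop (nhds (AA φ x)) := by
      show Filter.Tendsto (fun n => AA (ph n) x) Filter.atTop (nhds (AA φ x))
      unfold AA
      split_ifs
      · exact (hPP 0).div_const _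
      · exact hPP x
    exact tendsto_nhds_unique h1 h2
  refine ⟨φ, ?_, ?_, ?_, st5 (0, true), ?_⟩
  · intro x
    rw [abs_le]
    exact ⟨by have := wf_nonneg x; have := hlow x; linarith, hup x⟩
  · intro x hx
    have := hAA x
    unfold AA at this
    rwa [if_neg hx] at this
  · have := hAA 0
    unfold AA at this
    rw [if_pos rfl] at this
    linarith
  · refine lt_of_lt_of_le ?_ (hlow _)
    have : nq (st5 (0, true)) = 1 := by
      have h := nq_st 0 0 true
      rw [zero_add] at h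
      rw [h]
      simp [nq]
    unfold wf
    rw [this]
    norm_num

noncomputable def nu : Ix → ℝ
  | none => 1 / 2
  | some _ => 1 / 20

lemma nu_pos (i : Ix) : 0 < nu i := by
  rcases i with _ | s
  · show (0 : ℝ) < 1 / 2; norm_num
  · show (0 : ℝ) < 1 / 20; norm_num

lemma nu_iv (i : Ix) : nu (iv i) = nu i := by
  rcases i with _ | ⟨k, b⟩ <;> rfl

lemma nu_sum : ∑ i, nu i = 1 := by
  rw [Fintype.sum_option]
  show (1 / 2 : ℝ) + ∑ _s : Fin 5 × Bool, 1 / 20 = 1
  rw [Finset.sum_const, Finset.card_univ, Fintype.card_prod, Fintype.card_fin, Fintype.card_bool]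
  norm_num

theorem exists_F : ∃ F : LL → ℝ, (∀ h, F h = ∑ i, nu i * F (h * io i)) ∧
    (∃ C, ∀ h, |F h| ≤ C) ∧ ∃ h h', F h ≠ F h' := by
  classical
  obtain ⟨φ, h1, h2, h3, x0, hx0⟩ := exists_phi
  let sg : ZMod 2 → ℝ := fun b => if b = 0 then 1 else -1
  have hsg : ∀ b, sg (b + 1) = -sg b := by
    intro b
    have hb : b = 0 ∨ b = 1 := by
      revert b; decide
    rcases hb with rfl | rfl
    · simp [sg]
    · have : (1 : ZMod 2) + 1 = 0 := by decide
      simp [sg, this]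
  have hsg1 : ∀ b, |sg b| = 1 := by
    intro b
    simp only [sg]
    split_ifs <;> simp
  let F : LL → ℝ := fun h => sg (h.c 0) * φ h.p
  have hs : ∀ h s, F (h * io (some s)) = sg (h.c 0) * φ (h.p + st5 s) := by
    intro h s
    show sg ((h.c + md (fun z => h.p + z) 0 : A5 →₀ ZMod 2) 0) * φ (h.p + st5 s) = _
    rw [md_zero, add_zero]
  have hsum : ∀ h, ∑ s, nu (some s) * F (h * io (some s)) = sg (h.c 0) * PP φ h.p / 2 := by
    intro h
    unfold PP
    rw [Finset.mul_sum, Finset.sum_div]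
    refine Finset.sum_congr rfl fun s _ => ?_
    rw [hs]
    show (1 / 20 : ℝ) * _ = _
    ring
  refine ⟨F, ?_, ⟨1, ?_⟩, ⟨0, x0⟩, ⟨Finsupp.single 0 1, x0⟩, ?_⟩
  · intro h
    rw [Fintype.sum_option, hsum]
    show F h = 1 / 2 * F (h * io none) + _
    have hn : F (h * io none) =
        sg ((h.c + Finsupp.single h.p 1 : A5 →₀ ZMod 2) 0) * φ h.p := by
      show sg ((h.c + md (fun z => h.p + z) (Finsupp.single 0 1) : A5 →₀ ZMod 2) 0) *
        φ (h.p + 0) = _
      rw [md_single, add_zero]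
    rw [hn, Finsupp.add_apply]
    by_cases hp : h.p = 0
    · rw [hp, Finsupp.single_eq_same, hsg, ← h3]
      show sg (h.c 0) * φ h.p = _
      rw [hp]
      ring
    · rw [Finsupp.single_eq_of_ne (Ne.symm hp), add_zero, ← h2 _ hp]
      show sg (h.c 0) * φ h.p = _
      ring
  · intro h
    show |sg (h.c 0) * φ h.p| ≤ 1
    rw [abs_mul, hsg1, one_mul]
    exact h1 _
  · show sg ((0 : A5 →₀ ZMod 2) 0) * φ x0 ≠ sg ((Finsupp.single 0 1 : A5 →₀ ZMod 2) 0) * φ x0
    have a1 : sg ((0 : A5 →₀ ZMod 2) 0) = 1 := by simp [sg]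
    have a2 : sg ((Finsupp.single 0 1 : A5 →₀ ZMod 2) 0) = -1 := by simp [sg]
    rw [a1, a2]
    intro hcon
    linarith

end Pool.Agent.H258R3.Wb
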